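import Pool.Agent.Lib.MP_743d1e_nt.CY.Spec
import Pool.Agent.Lib.MP_743d1e_nt.GX.MTK
import Pool.Agent.Lib.MP_743d1e_nt.GX.TWR

/-!
# MIL: elements of `K2 k(t)` with torsion tame symbols come from `k` up to torsion
-/

set_option autoImplicit false

namespace MP743d1e.CY

open scoped BigOperators
open Polynomial MP743d1e.GX

namespace MILM

section

theorem tame_nsmul {F : Type} [Field F] {v : DVal F} {x : K2 F} (n : ℕ) (hx : tame v x = 0) :
    tame v (n • x) = 0 :=
  (tame v).ker.nsmul_mem hx n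

theorem tame_nsmul' {F : Type} [Field F] {v : DVal F} {x : K2 F} {m n : ℕ}
    (hx : m • tame v x = 0) (h : m ∣ n) : tame v (n • x) = 0 := by
  obtain ⟨c, rfl⟩ := h
  rw [mul_comm, mul_nsmul']
  apply tame_nsmul
  rw [map_nsmul]
  exact hx

variable {k F : Type} [Field k] [Field F] [Algebra k F] {t : F}

theorem ord_eq (h : IsRat k F t) {π : k[X]} {v : DVal F} (hv : IsPl t π v) (f : Fˣ) {p q : k[X]}
    (hq : q ≠ 0) (e : (f : F) * aeval t q = aeval t p) :
    v.ord f = (multiplicity π p : ℤ) - (multiplicity π q : ℤ) := by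
  have h1 := hv q (MTKM.pu h q hq) rfl
  have h2 := hv p (f * MTKM.pu h q hq) (by rw [Units.val_mul]; exact e)
  rw [v.ord_mul, h1] at h2
  omega

theorem pl_unique (h : IsRat k F t) {π : k[X]} {v w : DVal F} (hv : IsPl t π v)
    (hw : IsPl t π w) : v = w := by
  have e : v.ord = w.ord := by
    funext f
    obtain ⟨p, q, hp, hq, e1⟩ := MTKM.exists_frac h f
    rw [ord_eq h hv f hq e1, ord_eq h hw f hq e1]
  cases v
  cases w
  cases e
  rfl

theorem geo_of_pl {π : k[X]} (hπ : Irreducible π) {v : DVal F} (hv : IsPl t π v) : GeoF k v := by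
  rintro c ⟨r, hr⟩
  have hr0 : r ≠ 0 := by
    rintro rfl
    rw [map_zero] at hr
    exact c.ne_zero hr
  rw [hv (C r) c (by rw [aeval_C]; exact hr)]
  have h1 : ¬ π ∣ C r := fun hd =>
    hπ.not_isUnit (isUnit_of_dvd_unit hd (Polynomial.isUnit_C.2 hr0.isUnit))
  rw [multiplicity_eq_zero.2 h1]
  rfl

variable (k t) in
/-- The finite places where `α` is ramified. -/
def Ram (α : K2 F) : Set k[X] :=
  {π | π.Monic ∧ Irreducible π ∧ ∃ v : DVal F, IsPl t π v ∧ tame v α ≠ 0}

theorem ram_sym (h : IsRat k F t) (f g : Fˣ) : (Ram k t (sym f g)).Finite := by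
  classical
  obtain ⟨p, q, hp, hq, e1⟩ := MTKM.exists_frac h f
  obtain ⟨p', q', hp', hq', e2⟩ := MTKM.exists_frac h g
  have h0 : p * q * (p' * q') ≠ 0 := mul_ne_zero (mul_ne_zero hp hq) (mul_ne_zero hp' hq')
  refine ((UniqueFactorizationMonoid.normalizedFactors
    (p * q * (p' * q'))).toFinset.finite_toSet).subset ?_
  rintro π ⟨hm, hi, v, hv, ht⟩
  rw [Finset.mem_coe, Multiset.mem_toFinset,
    UniqueFactorizationMonoid.mem_normalizedFactors_iff' h0]
  refine ⟨hi, hm.normalize_eq_self, ?_⟩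
  by_contra hnd
  apply ht
  have a1 : ¬ π ∣ p := fun hd => hnd ((hd.mul_right q).mul_right _)
  have a2 : ¬ π ∣ q := fun hd => hnd ((hd.mul_left p).mul_right _)
  have a3 : ¬ π ∣ p' := fun hd => hnd ((hd.mul_right q').mul_left _)
  have a4 : ¬ π ∣ q' := fun hd => hnd ((hd.mul_left p').mul_left _)
  have o1 : v.ord f = 0 := by
    rw [ord_eq h hv f hq e1, multiplicity_eq_zero.2 a1, multiplicity_eq_zero.2 a2]
    simp
  have o2 : v.ord g = 0 := by
    rw [ord_eq h hv g hq' e2, multiplicity_eq_zero.2 a3, multiplicity_eq_zero.2 a4]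
    simp
  rw [tame_sym_eq_zero]
  left
  unfold DVal.tameUnit
  rw [o1, o2]
  simp

theorem ram_finite (h : IsRat k F t) (α : K2 F) : (Ram k t α).Finite := by
  obtain ⟨d, hd⟩ := MTKM.exists_symS h α
  unfold symS at hd
  induction hd using AddSubgroup.closure_induction with
  | mem z hz =>
    obtain ⟨a, -, b, -, rfl⟩ := hz
    exact ram_sym h a b
  | zero =>
    refine Set.finite_empty.subset ?_
    rintro π ⟨-, -, v, -, ht⟩
    exact ht (map_zero _)
  | add x y _ _ hx hy =>
    refine (hx.union hy).subset ?_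
    rintro π ⟨hm, hi, v, hv, ht⟩
    by_cases h1 : tame v x = 0
    · right
      exact ⟨hm, hi, v, hv, fun h2 => ht ((tame v).ker.add_mem h1 h2)⟩
    · left
      exact ⟨hm, hi, v, hv, h1⟩
  | neg x _ hx =>
    refine hx.subset ?_
    rintro π ⟨hm, hi, v, hv, ht⟩
    exact ⟨hm, hi, v, hv, fun h2 => ht ((tame v).ker.neg_mem h2)⟩

end

end MILM

open MILM in
/-- **MIL.** An element of `K2 k(t)` with torsion tame symbols at the closed points of the affine line
comes, up to a multiple, from `K2 k`. -/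
theorem mil (k F : Type) [Field k] [Field F] [Algebra k F] (t : F) (h : IsRat k F t) (α : K2 F)
    (hα : ∀ v : DVal F, GeoF k v → ∃ N : ℕ, 0 < N ∧ N • tame v α = 0) :
    ∃ N : ℕ, 0 < N ∧ ∃ β : K2 k, mk2 k F β = N • α := by
  classical
  have hfin := ram_finite h α
  have hex : ∀ π : k[X], ∃ N : ℕ, 0 < N ∧
      (π ∈ Ram k t α → ∀ v : DVal F, IsPl t π v → N • tame v α = 0) := by
    intro π
    by_cases hπ : π ∈ Ram k t α
    · obtain ⟨hm, hi, v, hv, ht⟩ := hπ
      obtain ⟨N, hN, hN0⟩ := hα v (geo_of_pl hi hv)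
      refine ⟨N, hN, fun _ w hw => ?_⟩
      rw [pl_unique h hw hv]
      exact hN0
    · exact ⟨1, one_pos, fun h0 => absurd h0 hπ⟩
  choose M hM0 hM using hex
  refine ⟨∏ π ∈ hfin.toFinset, M π, Finset.prod_pos fun π _ => hM0 π, ?_⟩
  have hMTK : SpecMTK := specMTK specMTS (specPLF specCON)
  refine hMTK k F t h _ fun π hm hi v hv => ?_
  by_cases hπ : π ∈ Ram k t α
  · exact tame_nsmul' (hM π hπ v hv) (Finset.dvd_prod_of_mem M (hfin.mem_toFinset.2 hπ))
  · refine tame_nsmul _ ?_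
    by_contra h0
    exact hπ ⟨hm, hi, v, hv, h0⟩

end MP743d1e.CY
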