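import Pool.Agent.Lib.MP_743d1e_nt.CY.SRU
import Pool.Agent.Lib.MP_743d1e_nt.CY.MIL

/-!
# Theorem A for all nonconstant functions and all number fields: modules

Module `XXX` = `CY/XXX.lean` (LCK in `CY/LCK2.lean`), theorem `MP743d1e.CY.specXXX : SpecXXX`,
auxiliary lemmas in the namespace `MP743d1e.CY.XXXM`.
-/

set_option autoImplicit false

namespace MP743d1e.CY

open scoped BigOperators
open Polynomial IntermediateField MP743d1e.Integ
open Pool.Agent.Lib.MPcb8a44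

/-- The field generated by `k` and all the roots of unity. -/
noncomputable def kab (k : IntermediateField ℚ ℂ) : Subfield ℂ :=
  Subfield.closure ((k : Set ℂ) ∪ {z : ℂ | ∃ n : ℕ, 0 < n ∧ z ^ n = 1})

/-- SRK. As SRU, over a number field.

Proof. `D α` integral; `D ^ R θ` is integral, with bounded conjugates, `R` the maximal degree of the
coefficients of `g`; it is `δ⁻¹ ∑ e_j z_j`, `z_j ∈ ℚ^ab` integral with bounded conjugates; LOX. -/
def SpecSRK : Prop := ∀ (k : IntermediateField ℚ ℂ) [FiniteDimensional ℚ k] (g : ℤ[X][X]) (α : k),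
  g.Monic → ∃ (d L : ℕ) (e : Fin d → k), ∀ θ ζ : ℂ, θ ∈ kab k →
    (∃ n : ℕ, 0 < n ∧ ζ ^ n = 1) → ev2 ((α : ℂ) * ζ) θ g = 0 → LCKM.ShortK k d e L θ

/-- LCK (from SRK, MAN, COC: `LCKM.lck`, and the automorphism `u ↦ β u`, `β ^ a = α⁻¹`). -/
def SpecLCK : Prop := ∀ (k : IntermediateField ℚ ℂ) [FiniteDimensional ℚ k] (g : ℤ[X][X]) (α : k),
  α ≠ 0 → g.Monic →
  (∀ N : ℕ, ∃ (n : ℕ) (ζ θ : ℂ), N < n ∧ IsPrimitiveRoot ζ n ∧ θ ∈ kab k ∧
    ev2 ((α : ℂ) * ζ) θ g = 0) →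
  ∃ (a : ℕ) (y : RatFunc AA), 0 < a ∧ ev2 (RatFunc.X ^ a) y g = 0

/-- PUK (from DEC, INT, LCK, NRM, CLK, GAL, GEN, as PUQ). For all but finitely many `n` there is exactly one
closed point above each point of the line with `c u ^ k` a root of unity of order `n`. -/
def SpecPUK : Prop := ∀ (F K : Type) [Field F] [CharZero F] [Field K] [Algebra F K]
  (φ : F →+* ℂ) (k₀ : IntermediateField ℚ ℂ) (u : K) (c : F) (k : ℕ), FiniteDimensional ℚ k₀ →
  (∀ x, φ x ∈ kab k₀) → c ≠ 0 → 0 < k → Transcendental F u → FiniteDimensional F⟮u⟯ K →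
  (∀ z : K, IsAlgebraic F z → ∃ c : F, z = algebraMap F K c) →
  (∀ (m : ℕ) (c : F) (v : K), 2 ≤ m → u ≠ algebraMap F K c * v ^ m) →
  ∃ N : ℕ, ∀ n : ℕ, N < n → ∀ p : F[X], Irreducible p → p ∣ (cyclotomic n F).comp (C c * X ^ k) →
    ∀ v w : DVal K, GeoF F v → GeoF F w →
      (∀ t : Kˣ, (t : K) = aeval u p → 0 < v.ord t ∧ 0 < w.ord t) → v = w

/-- TSK (from MIL). The symbols `{p(u) / p(0), c u ^ k}`, `p` a factor of `Φ_n(c X ^ k)`, are torsion.

Proof. In `K_2 F(X)`: the tame symbols are torsion (at `p`: `c X ^ k` is a root of unity; at `0`: `p(X) / p(0)` is `1`; at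
infinity: `p(0) ^ k c ^ (deg p)` is a root of unity, the norm of `c κ ^ k`; `MIL` needs only the finite places), so a
multiple comes from `β ∈ K_2 F`; the map `{f, g} ↦ {lc f, lc g}` (lowest coefficients) on `K_2 F(X)` shows `β = 0`;
`X ↦ u`. -/
def SpecTSK : Prop := ∀ (F K : Type) [Field F] [CharZero F] [Field K] [Algebra F K]
  (u h P : Kˣ) (c : F) (k n : ℕ) (p : F[X]), Transcendental F (u : K) → c ≠ 0 → 0 < k → 0 < n →
  (h : K) = algebraMap F K c * (u : K) ^ k → Irreducible p →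
  p ∣ (cyclotomic n F).comp (C c * X ^ k) → (P : K) = aeval (u : K) (C (p.coeff 0)⁻¹ * p) →
  ∃ N : ℕ, 0 < N ∧ N • sym P h = 0

/-- PRM. Every nonconstant function is a constant times a power of a function that is not a
constant times a proper power.

Proof. `w(h) > 0`; the exponent `k` divides `w(h)`; take the largest. -/
def SpecPRM : Prop := ∀ (F K : Type) [Field F] [CharZero F] [Field K] [Algebra F K] (h : Kˣ),
  Transcendental F (h : K) → FiniteDimensional F⟮(h : K)⟯ K →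
  ∃ (c : F) (u : Kˣ) (k : ℕ), c ≠ 0 ∧ 0 < k ∧ (h : K) = algebraMap F K c * (u : K) ^ k ∧
    Transcendental F (u : K) ∧ FiniteDimensional F⟮(u : K)⟯ K ∧
    ∀ (m : ℕ) (c : F) (v : K), 2 ≤ m → (u : K) ≠ algebraMap F K c * v ^ m

/-- ASK (from PUK, FNV, TSK, PRM), as ASM. For every nonconstant `h`. -/
def SpecASK : Prop := ∀ (F K : Type) [Field F] [CharZero F] [Field K] [Algebra F K]
  (φ : F →+* ℂ) (k₀ : IntermediateField ℚ ℂ) (h : Kˣ), FiniteDimensional ℚ k₀ →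
  (∀ x, φ x ∈ kab k₀) → Transcendental F (h : K) → FiniteDimensional F⟮(h : K)⟯ K →
  (∀ z : K, IsAlgebraic F z → ∃ c : F, z = algebraMap F K c) →
  ∃ (r : ℕ) (v : Fin r → DVal K), (∀ i, GeoF F (v i)) ∧ ∀ f : Kˣ, TorTameF F (sym f h) →
    (∀ i, (v i).ord f = 0) → ∃ N : ℕ, 0 < N ∧ N • sym f h = 0

end MP743d1e.CY
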