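import Pool.Agent.Lib.MP_743d1e_nt.CY.Spec
import Mathlib
import Pool.Agent.Lib.MP_743d1e_nt.CY.SpecK
import Pool.Agent.Lib.MP_743d1e_nt.GX.TWR

section
/-!
# NRM: `ℚ̄(u)` is normal over `ℚ(u ^ a)`
-/
set_option autoImplicit false

namespace MP743d1e.CY

open Polynomial IntermediateField

namespace NRMM

theorem aa_closed : IsAlgClosed AA := (algebraicClosure.isAlgClosure ℚ ℂ).isAlgClosed

theorem aa_int (c : AA) : IsIntegral ℚ c := by
  have h := ((algebraicClosure.isAlgClosure ℚ ℂ).isAlgebraic.isAlgebraic c).isIntegral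
  have e : (DivisionRing.toRatAlgebra : Algebra ℚ AA) = (algebraicClosure ℚ ℂ).algebra' :=
    Subsingleton.elim _ _
  rw [e]
  exact h

theorem mem_adj {F : Type} [Field F] [Algebra F (RatFunc AA)] (f : RatFunc AA) :
    f ∈ adjoin F (Set.range (RatFunc.C : AA →+* RatFunc AA) ∪ {RatFunc.X}) := by
  have hX : (RatFunc.X : RatFunc AA) ∈
      adjoin F (Set.range (RatFunc.C : AA →+* RatFunc AA) ∪ {RatFunc.X}) :=
    subset_adjoin _ _ (Or.inr rfl)
  have hp : ∀ p : AA[X], algebraMap AA[X] (RatFunc AA) p ∈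
      adjoin F (Set.range (RatFunc.C : AA →+* RatFunc AA) ∪ {RatFunc.X}) := by
    intro p
    induction p using Polynomial.induction_on' with
    | add p q hp hq => rw [map_add]; exact add_mem hp hq
    | monomial n c =>
      rw [← Polynomial.C_mul_X_pow_eq_monomial, map_mul, map_pow, RatFunc.algebraMap_C,
        RatFunc.algebraMap_X]
      exact mul_mem (subset_adjoin _ _ (Or.inl ⟨c, rfl⟩))
        (pow_mem hX n)
  rw [← RatFunc.num_div_denom f]
  exact div_mem (hp _) (hp _)

theorem crit {F K : Type} [Field F] [Field K] [Algebra F K] (x : K) (Q : Polynomial F) (hQ : Q.Monic)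
    (h0 : aeval x Q = 0) (hs : (Q.map (algebraMap F K)).Splits) :
    IsIntegral F x ∧ ((minpoly F x).map (algebraMap F K)).Splits := by
  refine ⟨⟨Q, hQ, by rwa [← aeval_def]⟩, ?_⟩
  refine Splits.of_dvd hs ?_ (Polynomial.map_dvd _ (minpoly.dvd F x h0))
  exact (hQ.map _).ne_zero

end NRMM

open NRMM

theorem specNRM : SpecNRM := by
  intro a ρ ha hρ g hg hy
  obtain ⟨y, hy⟩ := hy
  let _ : Algebra (RatFunc ℚ) (RatFunc AA) := ρ.toAlgebra
  have hmap : (algebraMap (RatFunc ℚ) (RatFunc AA)) = ρ := rfl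
  have hcl : IsAlgClosed AA := aa_closed
  have key : ∀ x ∈ Set.range (RatFunc.C : AA →+* RatFunc AA) ∪ {RatFunc.X},
      IsIntegral (RatFunc ℚ) x ∧
        ((minpoly (RatFunc ℚ) x).map (algebraMap (RatFunc ℚ) (RatFunc AA))).Splits := by
    rintro x (⟨c, rfl⟩ | hx)
    · have hc : IsIntegral ℚ c := aa_int c
      have hcomp : ρ.comp (algebraMap ℚ (RatFunc ℚ)) =
          (RatFunc.C : AA →+* RatFunc AA).comp (algebraMap ℚ AA) := Subsingleton.elim _ _
      refine crit _ ((minpoly ℚ c).map (algebraMap ℚ (RatFunc ℚ))) ((minpoly.monic hc).map _) ?_ ?_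
      · rw [aeval_def, eval₂_map, hmap, hcomp, ← Polynomial.hom_eval₂, ← aeval_def, minpoly.aeval,
          map_zero]
      · rw [Polynomial.map_map, hmap, hcomp, ← Polynomial.map_map]
        exact (IsAlgClosed.splits _).map _
    · have hx' : x = RatFunc.X := hx
      subst hx'
      obtain ⟨ζ, hζ⟩ : ∃ ζ : AA, IsPrimitiveRoot ζ a := by
        have : NeZero (a : AA) := ⟨by exact_mod_cast ha.ne'⟩
        have : NeZero a := ⟨ha.ne'⟩
        exact HasEnoughRootsOfUnity.exists_primitiveRoot AA a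
      have hζ' : IsPrimitiveRoot (RatFunc.C ζ) a :=
        hζ.map_of_injective (RatFunc.C : AA →+* RatFunc AA).injective
      refine crit _ (X ^ a - C RatFunc.X) (monic_X_pow_sub_C _ ha.ne') ?_ ?_
      · rw [map_sub, map_pow, aeval_X, aeval_C, hmap, hρ, sub_self]
      · rw [Polynomial.map_sub, Polynomial.map_pow, map_X, map_C, hmap]
        exact X_pow_sub_C_splits_of_isPrimitiveRoot hζ' hρ.symm
  have h1 := IntermediateField.splits_of_mem_adjoin (F := RatFunc ℚ) (K := RatFunc AA)
    (L := RatFunc AA) key (mem_adj (F := RatFunc ℚ) y)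
  have hy0 : aeval y g = 0 := by rw [aeval_def]; exact hy
  have h2 : g ∣ minpoly (RatFunc ℚ) y := by
    have h3 := minpoly.dvd (RatFunc ℚ) y hy0
    exact ((hg.dvd_iff).mp h3).resolve_left (by
      intro hu
      exact (minpoly.not_isUnit (RatFunc ℚ) y) hu) |>.dvd
  refine Splits.of_dvd h1 ?_ (Polynomial.map_dvd _ h2)
  have hint : IsIntegral (RatFunc ℚ) y := by
    exact isAlgebraic_iff_isIntegral.mp ⟨g, hg.ne_zero, hy0⟩
  exact ((minpoly.monic hint).map _).ne_zero

end MP743d1e.CY
end

section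
/-!
# The derivation `u d/du` on `ℚ̄(u)`

Defined by a ring homomorphism to the dual numbers.
-/
set_option autoImplicit false

namespace MP743d1e.CY

open Polynomial

namespace CLKM

/-- polynomials to dual numbers, `u ↦ u + u ε` -/
noncomputable def sg0 : AA[X] →+* DualNumber (RatFunc AA) :=
  eval₂RingHom ((TrivSqZeroExt.inlHom (RatFunc AA) (RatFunc AA)).comp RatFunc.C)
    (TrivSqZeroExt.inl RatFunc.X + TrivSqZeroExt.inr RatFunc.X)

theorem fst_sg0 (p : AA[X]) : (sg0 p).fst = algebraMap AA[X] (RatFunc AA) p := by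
  induction p using Polynomial.induction_on' with
  | add p q hp hq => rw [map_add, map_add, TrivSqZeroExt.fst_add, hp, hq]
  | monomial n c =>
    rw [← Polynomial.C_mul_X_pow_eq_monomial, map_mul, map_mul, map_pow, map_pow,
      RatFunc.algebraMap_C, RatFunc.algebraMap_X, TrivSqZeroExt.fst_mul, TrivSqZeroExt.fst_pow]
    simp [sg0]

theorem unit_sg0 (y : nonZeroDivisors AA[X]) : IsUnit (sg0 y) := by
  rw [TrivSqZeroExt.isUnit_iff_isUnit_fst, fst_sg0, isUnit_iff_ne_zero]
  have h : (y : AA[X]) ≠ 0 := nonZeroDivisors.ne_zero y.2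
  simp only [ne_eq, FaithfulSMul.algebraMap_eq_zero_iff]
  exact h

/-- the homomorphism to the dual numbers -/
noncomputable def sg : RatFunc AA →+* DualNumber (RatFunc AA) :=
  IsLocalization.lift (M := nonZeroDivisors AA[X]) (S := RatFunc AA) (g := sg0) unit_sg0

theorem sg_algebraMap (p : AA[X]) : sg (algebraMap AA[X] (RatFunc AA) p) = sg0 p :=
  IsLocalization.lift_eq _ p

theorem fst_sg (f : RatFunc AA) : (sg f).fst = f := by
  have h : ((TrivSqZeroExt.fstHom (RatFunc AA) (RatFunc AA) (RatFunc AA)).toRingHom.comp sg) =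
      RingHom.id (RatFunc AA) := by
    apply IsLocalization.ringHom_ext (nonZeroDivisors AA[X])
    refine RingHom.ext fun p => ?_
    simp [sg_algebraMap, fst_sg0]
  exact congrArg (fun g : RatFunc AA →+* RatFunc AA => g f) h

/-- `u d/du` -/
noncomputable def DD (f : RatFunc AA) : RatFunc AA := (sg f).snd

theorem DD_add (f g : RatFunc AA) : DD (f + g) = DD f + DD g := by
  rw [DD, map_add, TrivSqZeroExt.snd_add]; rfl

theorem DD_mul (f g : RatFunc AA) : DD (f * g) = f * DD g + g * DD f := by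
  rw [DD, map_mul, TrivSqZeroExt.snd_mul, fst_sg, fst_sg]
  simp [DD, mul_comm]

theorem DD_C (c : AA) : DD (RatFunc.C c) = 0 := by
  rw [DD, ← RatFunc.algebraMap_C, sg_algebraMap]
  simp [sg0]

theorem DD_X : DD RatFunc.X = RatFunc.X := by
  rw [DD, ← RatFunc.algebraMap_X, sg_algebraMap]
  simp [sg0]

theorem DD_zero : DD 0 = 0 := by
  have h := DD_C 0
  rwa [map_zero] at h

theorem DD_one : DD 1 = 0 := by
  have h := DD_C 1
  rwa [map_one] at h

theorem DD_pow (f : RatFunc AA) (n : ℕ) : DD (f ^ n) = n * f ^ (n - 1) * DD f := by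
  induction n with
  | zero => simp [DD_one]
  | succ n ih =>
    rw [pow_succ, DD_mul, ih]
    rcases Nat.eq_zero_or_pos n with hn | hn
    · subst hn; simp
    · obtain ⟨m, rfl⟩ : ∃ m, n = m + 1 := ⟨n - 1, by omega⟩
      simp only [Nat.add_sub_cancel]
      push_cast
      ring

theorem DD_inv (f : RatFunc AA) : DD f⁻¹ = - (f⁻¹) ^ 2 * DD f := by
  by_cases hf : f = 0
  · subst hf; simp [DD_zero]
  · have h := DD_mul f f⁻¹
    rw [mul_inv_cancel₀ hf, DD_one] at h
    have h2 : f * (DD f⁻¹ + (f⁻¹) ^ 2 * DD f) = 0 := by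
      have : f * (DD f⁻¹ + (f⁻¹) ^ 2 * DD f) = f * DD f⁻¹ + (f * f⁻¹) * f⁻¹ * DD f := by ring
      rw [this, mul_inv_cancel₀ hf, one_mul, ← h]
    have h3 := (mul_eq_zero.mp h2).resolve_left hf
    linear_combination h3

theorem DD_poly (p : AA[X]) : DD (algebraMap AA[X] (RatFunc AA) p) =
    algebraMap AA[X] (RatFunc AA) (X * derivative p) := by
  induction p using Polynomial.induction_on' with
  | add p q hp hq => rw [map_add, DD_add, hp, hq, ← map_add, derivative_add, mul_add]
  | monomial n c =>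
    rw [← Polynomial.C_mul_X_pow_eq_monomial, map_mul, map_pow, RatFunc.algebraMap_C,
      RatFunc.algebraMap_X, DD_mul, DD_C, mul_zero, add_zero, DD_pow, DD_X,
      Polynomial.derivative_C_mul_X_pow, map_mul, map_mul, map_pow, RatFunc.algebraMap_C,
      RatFunc.algebraMap_X, map_mul, map_natCast]
    ring

end CLKM

end MP743d1e.CY
end

section
/-!
# CLK: subfields of `ℚ̄(u)` containing `u ^ a`
-/
set_option autoImplicit false

namespace MP743d1e.CY

open Polynomial IntermediateField

namespace CLKM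

section

variable {F E : Type} [Field F] [CharZero F] [Field E] [Algebra F E]
  {t : E} {φ : F →+* AA} {ψ : E →+* RatFunc AA} {a : ℕ}

omit [CharZero F] in
theorem dt (ha : 0 < a) (h1 : ∀ x : F, ψ (algebraMap F E x) = RatFunc.C (φ x))
    (h2 : ψ t = RatFunc.X ^ a) : ∀ z ∈ F⟮t⟯, ∃ w : E, DD (ψ z) = ψ w := by
  intro z hz
  induction hz using IntermediateField.adjoin_induction with
  | mem x hx =>
    rw [Set.mem_singleton_iff] at hx
    subst hx
    refine ⟨a * x, ?_⟩
    rw [h2, DD_pow, DD_X, map_mul, map_natCast, h2, mul_assoc, pow_sub_one_mul ha.ne']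
  | algebraMap x => exact ⟨0, by rw [h1, DD_C, map_zero]⟩
  | add x y _ _ hx hy =>
    obtain ⟨w1, e1⟩ := hx
    obtain ⟨w2, e2⟩ := hy
    exact ⟨w1 + w2, by rw [map_add, DD_add, e1, e2, map_add]⟩
  | inv x _ hx =>
    obtain ⟨w, e⟩ := hx
    exact ⟨-(x⁻¹) ^ 2 * w, by rw [map_inv₀, DD_inv, e, map_mul, map_neg, map_pow, map_inv₀]⟩
  | mul x y _ _ hx hy =>
    obtain ⟨w1, e1⟩ := hx
    obtain ⟨w2, e2⟩ := hy
    exact ⟨x * w2 + y * w1, by rw [map_mul, DD_mul, e1, e2, map_add, map_mul, map_mul]⟩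

theorem dE (ha : 0 < a) (h1 : ∀ x : F, ψ (algebraMap F E x) = RatFunc.C (φ x))
    (h2 : ψ t = RatFunc.X ^ a) (halg : Algebra.IsAlgebraic F⟮t⟯ E) :
    ∀ b : E, ∃ w : E, DD (ψ b) = ψ w := by
  intro b
  have hr : ∀ r : Polynomial F⟮t⟯, ∃ w : E,
      DD (ψ (aeval b r)) = ψ w + ψ (aeval b (derivative r)) * DD (ψ b) := by
    intro r
    induction r using Polynomial.induction_on' with
    | add p q hp hq =>
      obtain ⟨w1, e1⟩ := hp
      obtain ⟨w2, e2⟩ := hq
      refine ⟨w1 + w2, ?_⟩
      rw [map_add (aeval b), map_add ψ, DD_add, e1, e2, derivative_add, map_add (aeval b),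
        map_add ψ, map_add ψ]
      ring
    | monomial n c =>
      obtain ⟨w, hw⟩ := dt ha h1 h2 (c : E) c.2
      refine ⟨b ^ n * w, ?_⟩
      have hc : algebraMap F⟮t⟯ E c = (c : E) := rfl
      rw [aeval_monomial, derivative_monomial, aeval_monomial, hc, map_mul ψ, map_pow, DD_mul,
        DD_pow, hw, map_mul ψ, map_pow, map_mul (algebraMap F⟮t⟯ E), hc, map_natCast, map_mul ψ,
        map_mul ψ, map_pow, map_natCast]
      ring
  have hint : IsIntegral F⟮t⟯ b := (halg.isAlgebraic b).isIntegral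
  have hcz : CharZero F⟮t⟯ := charZero_of_injective_algebraMap (algebraMap F F⟮t⟯).injective
  have hsep : (minpoly F⟮t⟯ b).Separable := (minpoly.irreducible hint).separable
  have hne := hsep.aeval_derivative_ne_zero (minpoly.aeval F⟮t⟯ b)
  obtain ⟨w, hw⟩ := hr (minpoly F⟮t⟯ b)
  rw [minpoly.aeval, map_zero, DD_zero] at hw
  have hne' : ψ (aeval b (derivative (minpoly F⟮t⟯ b))) ≠ 0 := by
    rwa [ne_eq, map_eq_zero]
  refine ⟨-w / aeval b (derivative (minpoly F⟮t⟯ b)), ?_⟩
  rw [map_div₀, map_neg, eq_div_iff hne']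
  linear_combination -hw

/-- polynomials in the image of `ψ` -/
def Po (ψ : E →+* RatFunc AA) (p : Polynomial AA) : Prop :=
  ∃ b : E, ψ b = algebraMap (Polynomial AA) (RatFunc AA) p

theorem coeff_q (p : Polynomial AA) (i k : ℕ) :
    (X * derivative p - C (i : AA) * p).coeff k = ((k : AA) - i) * p.coeff k := by
  rw [coeff_sub, coeff_C_mul]
  rcases k with _ | k
  · simp
  · rw [coeff_X_mul, coeff_derivative]
    push_cast
    ring

omit [CharZero F] [Algebra F E] in
theorem mon (hD : ∀ b : E, ∃ w : E, DD (ψ b) = ψ w) :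
    ∀ (n : ℕ) (p : Polynomial AA), p.support.card ≤ n → Po ψ p →
      ∀ j, Po ψ (monomial j (p.coeff j)) := by
  intro n
  induction n with
  | zero =>
    intro p hp _ j
    have h0 : p = 0 := by
      have h := Nat.le_zero.mp hp
      rwa [Finset.card_eq_zero, Polynomial.support_eq_empty] at h
    subst h0
    exact ⟨0, by simp⟩
  | succ n ih =>
    intro p hp hP j
    by_cases hs : ∃ i ∈ p.support, i ≠ j
    · obtain ⟨i, hi, hij⟩ := hs
      have hq : Po ψ (X * derivative p - C (i : AA) * p) := by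
        obtain ⟨b, hb⟩ := hP
        obtain ⟨w, hw⟩ := hD b
        refine ⟨w - i * b, ?_⟩
        rw [map_sub, map_mul, map_natCast, ← hw, hb, DD_poly, map_sub, map_mul _ (C (i : AA)),
          RatFunc.algebraMap_C, map_natCast]
      have hsub : (X * derivative p - C (i : AA) * p).support ⊆ p.support.erase i := by
        intro k hk
        rw [mem_support_iff, coeff_q] at hk
        rw [Finset.mem_erase, mem_support_iff]
        refine ⟨?_, right_ne_zero_of_mul hk⟩
        rintro rfl
        simp at hk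
      have hcard : (X * derivative p - C (i : AA) * p).support.card ≤ n := by
        refine (Finset.card_le_card hsub).trans ?_
        rw [Finset.card_erase_of_mem hi]
        omega
      obtain ⟨b, hb⟩ := ih _ hcard hq j
      rw [coeff_q] at hb
      have hji : ((j : AA) - i) ≠ 0 := by
        rw [sub_ne_zero]
        exact fun h => hij (by exact_mod_cast h.symm)
      refine ⟨((j : E) - i)⁻¹ * b, ?_⟩
      have e : (monomial j (p.coeff j) : Polynomial AA) =
          C ((j : AA) - i)⁻¹ * monomial j (((j : AA) - i) * p.coeff j) := by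
        rw [C_mul_monomial, inv_mul_cancel_left₀ hji]
      rw [e, map_mul, map_mul, hb, RatFunc.algebraMap_C, map_inv₀, map_inv₀, map_sub, map_sub,
        map_natCast, map_natCast, map_natCast, map_natCast]
    · push Not at hs
      have e : (monomial j (p.coeff j) : Polynomial AA) = p := by
        ext1 k
        rw [coeff_monomial]
        split_ifs with h
        · rw [h]
        · by_contra hk
          exact h (hs k (mem_support_iff.mpr (Ne.symm hk))).symm
      rw [e]
      exact hP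

theorem const (hcl : ∀ z : E, IsAlgebraic F z → ∃ c : F, z = algebraMap F E c)
    (h1 : ∀ x : F, ψ (algebraMap F E x) = RatFunc.C (φ x)) (z : E) (c : AA)
    (hz : ψ z = RatFunc.C c) : ∃ x : F, z = algebraMap F E x ∧ c = φ x := by
  have hc := NRMM.aa_int c
  have h3 : ψ.comp (algebraMap F E) = (RatFunc.C : AA →+* RatFunc AA).comp φ :=
    RingHom.ext h1
  have h4 : φ.comp (algebraMap ℚ F) = algebraMap ℚ AA := Subsingleton.elim _ _
  have h5 : ψ (aeval z ((minpoly ℚ c).map (algebraMap ℚ F))) = 0 := by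
    rw [aeval_def, Polynomial.hom_eval₂, h3, hz, ← Polynomial.hom_eval₂, eval₂_map, h4,
      ← aeval_def, minpoly.aeval, map_zero]
  have h6 : aeval z ((minpoly ℚ c).map (algebraMap ℚ F)) = 0 := (map_eq_zero ψ).mp h5
  obtain ⟨x, hx⟩ := hcl z ⟨_, ((minpoly.monic hc).map _).ne_zero, h6⟩
  refine ⟨x, hx, ?_⟩
  rw [hx, h1] at hz
  exact (RatFunc.C_injective hz).symm

/-- `F[X] → ℚ̄[u]`, `X ↦ u ^ a` -/
noncomputable def th (φ : F →+* AA) (a : ℕ) : Polynomial F →+* Polynomial AA :=
  eval₂RingHom (C.comp φ) (X ^ a)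

omit [CharZero F] in
theorem th_spec (h1 : ∀ x : F, ψ (algebraMap F E x) = RatFunc.C (φ x))
    (h2 : ψ t = RatFunc.X ^ a) (d : Polynomial F) :
    algebraMap (Polynomial AA) (RatFunc AA) (th φ a d) = ψ (aeval t d) := by
  have h : ((algebraMap (Polynomial AA) (RatFunc AA)).comp (th φ a)) =
      ψ.comp ((aeval t : Polynomial F →ₐ[F] E).toRingHom) := by
    apply Polynomial.ringHom_ext
    · intro x
      simp [th, h1]
    · simp [th, h2]
  exact congrArg (fun g : Polynomial F →+* RatFunc AA => g d) h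

theorem th_int (ha : 0 < a) (φ : F →+* AA) (p : Polynomial AA) : (th φ a).IsIntegralElem p := by
  induction p using Polynomial.induction_on' with
  | add p q hp hq => exact hp.add _ hq
  | monomial n c =>
    rw [← Polynomial.C_mul_X_pow_eq_monomial]
    have hc := NRMM.aa_int c
    have h4 : (th φ a).comp (C.comp (algebraMap ℚ F)) =
        (C : AA →+* Polynomial AA).comp (algebraMap ℚ AA) := Subsingleton.elim _ _
    have hC : (th φ a).IsIntegralElem (C c : Polynomial AA) := by
      refine ⟨(minpoly ℚ c).map (C.comp (algebraMap ℚ F)), (minpoly.monic hc).map _, ?_⟩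
      rw [eval₂_map, h4, ← Polynomial.hom_eval₂, ← aeval_def, minpoly.aeval, map_zero]
    have hX : (th φ a).IsIntegralElem (X : Polynomial AA) := by
      refine ⟨X ^ a - C X, monic_X_pow_sub_C _ ha.ne', ?_⟩
      rw [eval₂_sub, eval₂_pow, eval₂_X, eval₂_C]
      simp [th]
    have hXn : ∀ n : ℕ, (th φ a).IsIntegralElem (X ^ n : Polynomial AA) := by
      intro n
      induction n with
      | zero => rw [pow_zero]; exact (th φ a).isIntegralElem_one
      | succ n ih => rw [pow_succ]; exact ih.mul _ hX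
    exact hC.mul _ (hXn n)

theorem den (ha : 0 < a) (h1 : ∀ x : F, ψ (algebraMap F E x) = RatFunc.C (φ x))
    (h2 : ψ t = RatFunc.X ^ a) (e : E) :
    ∃ d : Polynomial F, d ≠ 0 ∧ ∃ p : Polynomial AA,
      ψ (e * aeval t d) = algebraMap (Polynomial AA) (RatFunc AA) p := by
  let _ : Algebra (Polynomial F) (Polynomial AA) := (th φ a).toAlgebra
  have hal : IsAlgebraic (Polynomial F) (ψ e).denom := by
    have hi : IsIntegral (Polynomial F) (ψ e).denom := th_int ha φ _
    exact hi.isAlgebraic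
  obtain ⟨d, hd, s, hs⟩ := hal.exists_nonzero_dvd
    (mem_nonZeroDivisors_of_ne_zero (RatFunc.denom_ne_zero _))
  have hs' : th φ a d = (ψ e).denom * s := hs
  refine ⟨d, hd, (ψ e).num * s, ?_⟩
  rw [map_mul, ← th_spec h1 h2, hs', map_mul, map_mul]
  have hn : algebraMap (Polynomial AA) (RatFunc AA) (ψ e).denom ≠ 0 := by
    intro h
    exact RatFunc.denom_ne_zero (ψ e) (RatFunc.algebraMap_injective _ (by rw [h, map_zero]))
  nth_rewrite 1 [← RatFunc.num_div_denom (ψ e)]
  field_simp

end

end CLKM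

open CLKM

theorem specCLK : SpecCLK := by
  intro F E _ _ _ _ t ht halg hcl φ ψ a ha h1 h2
  have hD := dE ha h1 h2 halg
  have ht0 : t ≠ 0 := by
    rintro rfl
    exact ht (isAlgebraic_zero)
  by_cases hall : ∀ (b : E) (p : Polynomial AA),
      ψ b = algebraMap (Polynomial AA) (RatFunc AA) p → ∀ j ∈ p.support, a ∣ j
  · left
    rw [eq_top_iff]
    intro e _
    obtain ⟨d, hd, p, hp⟩ := den ha h1 h2 e
    have hm : ∀ j ∈ p.support, ∃ y : E, y ∈ F⟮t⟯ ∧
        ψ y = algebraMap (Polynomial AA) (RatFunc AA) (monomial j (p.coeff j)) := by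
      intro j hj
      obtain ⟨w, hw⟩ := mon hD _ p le_rfl ⟨_, hp⟩ j
      obtain ⟨k, rfl⟩ := hall _ p hp j hj
      have hX : (RatFunc.X : RatFunc AA) ^ (a * k) ≠ 0 := pow_ne_zero _ RatFunc.X_ne_zero
      have h3 : ψ (w / t ^ k) = RatFunc.C (p.coeff (a * k)) := by
        rw [map_div₀, map_pow, h2, ← pow_mul, hw, ← C_mul_X_pow_eq_monomial, map_mul, map_pow,
          RatFunc.algebraMap_C, RatFunc.algebraMap_X, mul_div_assoc, div_self hX, mul_one]
      obtain ⟨x, hx, hc⟩ := const hcl h1 _ _ h3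
      refine ⟨algebraMap F E x * t ^ k, mul_mem (IntermediateField.algebraMap_mem _ x)
        (pow_mem (mem_adjoin_simple_self F t) k), ?_⟩
      rw [map_mul, map_pow, h2, ← pow_mul, h1, ← hc, ← C_mul_X_pow_eq_monomial, map_mul, map_pow,
        RatFunc.algebraMap_C, RatFunc.algebraMap_X]
    choose! y hy hy2 using hm
    have h4 : e * aeval t d = ∑ j ∈ p.support, y j := by
      apply ψ.injective
      rw [hp, map_sum, Finset.sum_congr rfl hy2, ← map_sum, ← Polynomial.as_sum_support]
    have h5 : aeval t d ≠ 0 := by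
      intro h
      exact hd (transcendental_iff.mp ht d h)
    have h6 : aeval t d ∈ F⟮t⟯ :=
      algebra_adjoin_le_adjoin F {t} (aeval_mem_adjoin_singleton F t)
    have h7 : e = (∑ j ∈ p.support, y j) / aeval t d := by
      rw [← h4, mul_div_assoc, div_self h5, mul_one]
    rw [h7]
    exact div_mem (sum_mem hy) h6
  · push Not at hall
    obtain ⟨b, p, hb, j, hj, haj⟩ := hall
    right
    obtain ⟨w, hw⟩ := mon hD _ p le_rfl ⟨b, hb⟩ j
    have hc0 : p.coeff j ≠ 0 := mem_support_iff.mp hj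
    obtain ⟨m, k, hmk, ha', hj'⟩ := Nat.exists_coprime a j
    have hm2 : 2 ≤ m := by
      rcases Nat.lt_or_ge m 2 with h | h
      · exfalso
        rcases Nat.lt_or_ge m 1 with h0 | h0
        · have : m = 0 := by omega
          rw [this, zero_mul] at ha'
          omega
        · have : m = 1 := by omega
          rw [this, one_mul] at ha'
          exact haj (by rw [ha']; exact Nat.gcd_dvd_right a j)
      · exact h
    have hjm : j * m = a * k := by
      calc j * m = (k * Nat.gcd a j) * m := by rw [← hj']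
        _ = (m * Nat.gcd a j) * k := by ring
        _ = a * k := by rw [← ha']
    have hX : (RatFunc.X : RatFunc AA) ^ (a * k) ≠ 0 := pow_ne_zero _ RatFunc.X_ne_zero
    have h3 : ψ (w ^ m / t ^ k) = RatFunc.C (p.coeff j ^ m) := by
      rw [map_div₀, map_pow, map_pow, h2, ← pow_mul, hw, ← C_mul_X_pow_eq_monomial, map_mul,
        map_pow, RatFunc.algebraMap_C, RatFunc.algebraMap_X, mul_pow, ← pow_mul, hjm,
        mul_div_assoc, div_self hX, mul_one, map_pow]
    obtain ⟨x, hx, hcx⟩ := const hcl h1 _ _ h3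
    have hw0 : w ≠ 0 := by
      rintro rfl
      rw [map_zero, ← C_mul_X_pow_eq_monomial, map_mul, map_pow, RatFunc.algebraMap_C,
        RatFunc.algebraMap_X] at hw
      rcases mul_eq_zero.mp hw.symm with h | h
      · exact hc0 (RatFunc.C_injective (by rw [h, map_zero]))
      · exact pow_ne_zero _ RatFunc.X_ne_zero h
    have hwm : w ^ m = algebraMap F E x * t ^ k := by
      rw [← hx, div_mul_cancel₀]
      exact pow_ne_zero _ ht0
    have hx0 : algebraMap F E x ≠ 0 := by
      intro h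
      rw [h, zero_mul] at hwm
      exact pow_ne_zero _ hw0 hwm
    have hbz : (m : ℤ) * Nat.gcdA m k + k * Nat.gcdB m k = 1 := by
      rw [← Nat.gcd_eq_gcd_ab, hmk.gcd_eq_one]
      rfl
    refine ⟨m, x ^ (-(Nat.gcdB m k)), t ^ (Nat.gcdA m k) * w ^ (Nat.gcdB m k), hm2, ?_⟩
    have h8 : (t ^ (Nat.gcdA m k) * w ^ (Nat.gcdB m k)) ^ m =
        algebraMap F E x ^ (Nat.gcdB m k) * t := by
      calc (t ^ (Nat.gcdA m k) * w ^ (Nat.gcdB m k)) ^ m
          = t ^ ((m : ℤ) * Nat.gcdA m k) * (w ^ m) ^ (Nat.gcdB m k) := by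
            rw [mul_pow, ← zpow_natCast, ← zpow_natCast, ← zpow_natCast, ← zpow_mul, ← zpow_mul,
              ← zpow_mul]
            ring_nf
        _ = algebraMap F E x ^ (Nat.gcdB m k) *
              (t ^ ((m : ℤ) * Nat.gcdA m k) * t ^ ((k : ℤ) * Nat.gcdB m k)) := by
            rw [hwm, mul_zpow, ← zpow_natCast, ← zpow_mul]
            ring
        _ = algebraMap F E x ^ (Nat.gcdB m k) * t := by
            rw [← zpow_add₀ ht0, hbz, zpow_one]
    rw [h8, map_zpow₀, ← mul_assoc, ← zpow_add₀ hx0, neg_add_cancel, zpow_zero, one_mul]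

end MP743d1e.CY
end

section
/-!
# COC: a cocharacter
-/
set_option autoImplicit false

namespace MP743d1e.CY

open scoped BigOperators

namespace COCM

open Finset

/-- A common denominator. -/
lemma common_den {ι : Type} [Fintype ι] (c : ι → ℚ) :
    ∃ (D : ℕ) (n : ι → ℤ), 0 < D ∧ ∀ i, (D : ℚ) * c i = n i := by
  classical
  refine ⟨∏ i, (c i).den, fun i => (c i).num * ∏ j ∈ univ.erase i, ((c j).den : ℤ),
    prod_pos fun i _ => (c i).pos, fun i => ?_⟩
  rw [← mul_prod_erase univ (fun i => (c i).den) (mem_univ i)]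
  push_cast
  have h : ((c i).den : ℚ) * c i = (c i).num := Rat.den_mul_eq_num (c i)
  calc ((c i).den : ℚ) * (∏ x ∈ univ.erase i, ((c x).den : ℚ)) * c i
      = ((c i).den : ℚ) * c i * ∏ x ∈ univ.erase i, ((c x).den : ℚ) := by ring
    _ = _ := by rw [h]

lemma zpow_sum {G κ : Type} [CommGroup G] (w : G) (s : Finset κ) (f : κ → ℤ) :
    w ^ (∑ k ∈ s, f k) = ∏ k ∈ s, w ^ f k := by
  classical
  induction s using Finset.induction_on with
  | empty => simp
  | insert a s ha ih => rw [sum_insert ha, prod_insert ha, zpow_add, ih]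

/-- The relation in a commutative group. -/
lemma group_rel {G ι κ : Type} [CommGroup G] [Fintype ι] [Fintype κ] [DecidableEq ι] (w : ι → G)
    (m m' : κ → ι → ℤ) (P : ℕ) (h : ∀ k, (∏ i, w i ^ m k i) ^ P = (∏ i, w i ^ m' k i) ^ P)
    (n : κ → ℤ) (D : ℕ) (i0 : ι)
    (hn : ∀ i, ∑ k, n k * (m k i - m' k i) = if i = i0 then (D : ℤ) else 0) :
    w i0 ^ (D * P) = 1 := by
  have h1 : ∏ i, w i ^ (if i = i0 then (D : ℤ) else 0) = w i0 ^ D := by
    rw [prod_eq_single i0 (fun i _ hi => by rw [if_neg hi, zpow_zero])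
      (fun hi => absurd (mem_univ i0) hi), if_pos rfl, zpow_natCast]
  have h2 : ∀ k, (∏ i, w i ^ (m k i - m' k i)) ^ P = 1 := by
    intro k
    have : ∏ i, w i ^ (m k i - m' k i) = (∏ i, w i ^ m k i) * (∏ i, w i ^ m' k i)⁻¹ := by
      rw [← prod_inv_distrib, ← prod_mul_distrib]
      exact prod_congr rfl fun i _ => zpow_sub _ _ _
    rw [this, mul_pow, inv_pow, h k, mul_inv_cancel]
  have h3 : w i0 ^ D = ∏ k, (∏ i, w i ^ (m k i - m' k i)) ^ n k := by
    rw [← h1]
    simp_rw [← prod_zpow]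
    rw [prod_comm]
    refine prod_congr rfl fun i _ => ?_
    rw [← hn i, zpow_sum]
    refine prod_congr rfl fun k _ => ?_
    rw [← zpow_mul, mul_comm]
  rw [pow_mul, h3, ← prod_pow]
  refine prod_eq_one fun k _ => ?_
  rw [← zpow_natCast, ← zpow_mul, mul_comm, zpow_mul, zpow_natCast, h2, one_zpow]

end COCM

open COCM Finset in
theorem specCOC : SpecCOC := by
  classical
  intro ι κ _ _ i0 m b P hP hω
  have := Fintype.ofFinite κ
  set d : κ → ι → ℚ := fun k i => ((m k i - m (b k) i : ℤ) : ℚ) with hd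
  by_cases hmem : (Pi.single i0 1 : ι → ℚ) ∈ Submodule.span ℚ (Set.range d)
  · exfalso
    rw [Submodule.mem_span_range_iff_exists_fun] at hmem
    obtain ⟨c, hc⟩ := hmem
    obtain ⟨D, n, hD, hn⟩ := common_den c
    obtain ⟨ω, hω0, hωk, hω1⟩ := hω (D * P)
    refine hω1 (D * P) (Nat.mul_pos hD hP) le_rfl ?_
    have key := group_rel (fun i => Units.mk0 (ω i) (hω0 i)) m (fun k => m (b k)) P
      (fun k => by
        apply Units.ext
        simpa using hωk k) n D i0 (fun i => by
        have h1 := congrFun hc i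
        rw [Finset.sum_apply] at h1
        have h2 : ((∑ k, n k * (m k i - m (b k) i) : ℤ) : ℚ) = (D : ℚ) * (Pi.single i0 1 : ι → ℚ) i := by
          rw [← h1, Finset.mul_sum]
          push_cast
          refine Finset.sum_congr rfl fun k _ => ?_
          rw [← hn k, hd, Pi.smul_apply, smul_eq_mul]
          push_cast
          ring
        have h3 : (D : ℚ) * (Pi.single i0 1 : ι → ℚ) i = ((if i = i0 then (D : ℤ) else 0 : ℤ) : ℚ) := by
          by_cases hi : i = i0
          · subst hi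
            simp
          · simp [hi]
        rw [h3] at h2
        exact_mod_cast h2)
    have h4 := congrArg Units.val key
    simpa using h4
  · obtain ⟨f, hf, hf2⟩ := Submodule.exists_dual_map_eq_bot_of_notMem hmem inferInstance
    have hf3 : ∀ k, f (d k) = 0 := by
      intro k
      have h1 : f (d k) ∈ (Submodule.span ℚ (Set.range d)).map f :=
        Submodule.mem_map_of_mem (Submodule.subset_span ⟨k, rfl⟩)
      rw [hf2] at h1
      exact (Submodule.mem_bot ℚ).1 h1
    obtain ⟨D, n, hD, hn⟩ := common_den (fun i => f (Pi.single i 1))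
    have hn2 : ∀ k, ∑ i, n i * (m k i - m (b k) i) = 0 := by
      intro k
      have h1 : f (d k) = ∑ i, d k i * f (Pi.single i 1) := by
        conv_lhs => rw [pi_eq_sum_univ' (d k)]
        rw [map_sum]
        refine Finset.sum_congr rfl fun i _ => ?_
        rw [map_smul, smul_eq_mul]
      have h2 : ((∑ i, n i * (m k i - m (b k) i) : ℤ) : ℚ) = (D : ℚ) * f (d k) := by
        rw [h1, Finset.mul_sum]
        push_cast
        refine Finset.sum_congr rfl fun i _ => ?_
        rw [← hn i, hd]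
        push_cast
        ring
      rw [hf3, mul_zero] at h2
      exact_mod_cast h2
    have hn0 : n i0 ≠ 0 := by
      intro h0
      have h1 := hn i0
      rw [h0] at h1
      have hD' : (D : ℚ) ≠ 0 := by exact_mod_cast hD.ne'
      rcases mul_eq_zero.1 (h1.trans Int.cast_zero) with h2 | h2
      · exact hD' h2
      · exact hf h2
    have hs : ∀ k, ∑ i, n i * m k i = ∑ i, n i * m (b k) i := by
      intro k
      have h1 := hn2 k
      simp_rw [mul_sub] at h1
      rw [Finset.sum_sub_distrib] at h1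
      exact sub_eq_zero.1 h1
    rcases lt_or_gt_of_ne hn0 with h | h
    · refine ⟨fun i => -n i, by simpa using h, fun k => ?_⟩
      simp only [neg_mul, Finset.sum_neg_distrib]
      rw [hs k]
    · exact ⟨n, h, hs⟩

end MP743d1e.CY
end

section
/-!
# TRS: the symbols of the cyclotomic values are torsion
-/
set_option autoImplicit false

namespace MP743d1e.CY

open scoped BigOperators
open Polynomial

namespace TRSM

section Gen

variable {F : Type} [Field F]

theorem sym_mul_left (f f' g : Fˣ) : sym (f * f') g = sym f g + sym f' g := by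
  have h : (QuotientAddGroup.mk' (AddSubgroup.closure (relSet F)))
      (FreeAbelianGroup.of (f * f', g) - FreeAbelianGroup.of (f, g)
        - FreeAbelianGroup.of (f', g)) = 0 := by
    rw [QuotientAddGroup.mk'_apply, QuotientAddGroup.eq_zero_iff]
    exact AddSubgroup.subset_closure (Or.inl (Or.inl ⟨f, f', g, rfl⟩))
  rw [map_sub, map_sub, sub_sub, sub_eq_zero] at h
  exact h

theorem sym_mul_right (f g g' : Fˣ) : sym f (g * g') = sym f g + sym f g' := by
  have h : (QuotientAddGroup.mk' (AddSubgroup.closure (relSet F)))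
      (FreeAbelianGroup.of (f, g * g') - FreeAbelianGroup.of (f, g)
        - FreeAbelianGroup.of (f, g')) = 0 := by
    rw [QuotientAddGroup.mk'_apply, QuotientAddGroup.eq_zero_iff]
    exact AddSubgroup.subset_closure (Or.inl (Or.inr ⟨f, g, g', rfl⟩))
  rw [map_sub, map_sub, sub_sub, sub_eq_zero] at h
  exact h

theorem sym_steinberg (f g : Fˣ) (hfg : (f : F) + (g : F) = 1) : sym f g = 0 := by
  show (QuotientAddGroup.mk' (AddSubgroup.closure (relSet F))) (FreeAbelianGroup.of (f, g)) = 0
  rw [QuotientAddGroup.mk'_apply, QuotientAddGroup.eq_zero_iff]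
  exact AddSubgroup.subset_closure (Or.inr ⟨f, g, hfg, rfl⟩)

theorem sym_one_left (g : Fˣ) : sym (1 : Fˣ) g = 0 := by
  have h := sym_mul_left (1 : Fˣ) 1 g
  rw [one_mul] at h
  simpa using h

theorem sym_one_right (f : Fˣ) : sym f (1 : Fˣ) = 0 := by
  have h := sym_mul_right f (1 : Fˣ) 1
  rw [one_mul] at h
  simpa using h

theorem sym_pow_left (f g : Fˣ) (n : ℕ) : sym (f ^ n) g = n • sym f g := by
  induction n with
  | zero => rw [pow_zero, sym_one_left, zero_nsmul]
  | succ n ih => rw [pow_succ, sym_mul_left, ih, succ_nsmul]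

theorem sym_pow_right (f g : Fˣ) (n : ℕ) : sym f (g ^ n) = n • sym f g := by
  induction n with
  | zero => rw [pow_zero, sym_one_right, zero_nsmul]
  | succ n ih => rw [pow_succ, sym_mul_right, ih, succ_nsmul]

theorem sym_prod_left {ι : Type} (s : Finset ι) (f : ι → Fˣ) (g : Fˣ) :
    sym (∏ i ∈ s, f i) g = ∑ i ∈ s, sym (f i) g := by
  classical
  induction s using Finset.induction_on with
  | empty => rw [Finset.prod_empty, Finset.sum_empty, sym_one_left]
  | insert a s ha ih => rw [Finset.prod_insert ha, Finset.sum_insert ha, sym_mul_left, ih]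

/-- Torsion. -/
def Tor (x : K2 F) : Prop := ∃ N : ℕ, 0 < N ∧ N • x = 0

theorem Tor.zero : Tor (0 : K2 F) := ⟨1, one_pos, smul_zero 1⟩

theorem Tor.add {x y : K2 F} (hx : Tor x) (hy : Tor y) : Tor (x + y) := by
  obtain ⟨N, hN, h⟩ := hx
  obtain ⟨M, hM, h'⟩ := hy
  refine ⟨N * M, Nat.mul_pos hN hM, ?_⟩
  rw [nsmul_add, mul_nsmul, h, smul_zero, zero_add, mul_comm, mul_nsmul, h', smul_zero]

theorem Tor.neg {x : K2 F} (hx : Tor x) : Tor (-x) := by
  obtain ⟨N, hN, h⟩ := hx
  exact ⟨N, hN, by rw [neg_nsmul, h, neg_zero]⟩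

theorem Tor.sum {ι : Type} (s : Finset ι) (f : ι → K2 F) (h : ∀ i ∈ s, Tor (f i)) :
    Tor (∑ i ∈ s, f i) := by
  classical
  induction s using Finset.induction_on with
  | empty => rw [Finset.sum_empty]; exact Tor.zero
  | insert a s ha ih =>
    rw [Finset.sum_insert ha]
    exact (h a (Finset.mem_insert_self a s)).add (ih fun i hi => h i (Finset.mem_insert_of_mem hi))

/-- A root of unity on the left. -/
theorem tor_left {f : Fˣ} (g : Fˣ) {n : ℕ} (hn : 0 < n) (h : f ^ n = 1) : Tor (sym f g) :=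
  ⟨n, hn, by rw [← sym_pow_left, h, sym_one_left]⟩

theorem tor_right (f : Fˣ) {g : Fˣ} {n : ℕ} (hn : 0 < n) (h : g ^ n = 1) : Tor (sym f g) :=
  ⟨n, hn, by rw [← sym_pow_right, h, sym_one_right]⟩

/-- `{h - z, h}` and `{h ^ n - 1, h}` in one: `P = h ^ m - z`, `z` a root of unity. -/
theorem tor_sub (P h z : Fˣ) {n m : ℕ} (hn : 0 < n) (hm : 0 < m) (hz : z ^ n = 1)
    (hP : (P : F) = (h : F) ^ m - z) : Tor (sym P h) := by
  have h1 : sym (-P * z⁻¹) (h ^ m * z⁻¹) = 0 := by
    apply sym_steinberg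
    have hz0 : (z : F) ≠ 0 := z.ne_zero
    push_cast
    rw [hP]
    field_simp
    ring
  have h2 : Tor (sym (-P * z⁻¹) h) := by
    refine ⟨n * m, Nat.mul_pos hn hm, ?_⟩
    have h3 : (n * m) • sym (-P * z⁻¹) h = sym (-P * z⁻¹) ((h ^ m * z⁻¹) ^ n) := by
      rw [← sym_pow_right, mul_pow, inv_pow, hz, inv_one, mul_one, ← pow_mul, mul_comm m n]
    rw [h3, sym_pow_right, h1, smul_zero]
  have h4 : Tor (sym (-z) h) := by
    apply tor_left h (n := 2 * n) (by omega)
    rw [pow_mul, neg_sq, ← pow_mul, mul_comm 2 n, pow_mul, hz, one_pow]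
  have h5 : P = (-P * z⁻¹) * (-z) := by
    rw [mul_neg, mul_assoc, inv_mul_cancel, mul_one, neg_neg]
  rw [h5, sym_mul_left]
  exact h2.add h4

theorem tor_cyclotomic (h : Fˣ) (hh : ∀ d : ℕ, 0 < d → h ^ d ≠ 1) (n : ℕ) (hn : 0 < n) :
    ∀ P : Fˣ, (P : F) = (cyclotomic n F).eval (h : F) → Tor (sym P h) := by
  induction n using Nat.strong_induction_on with
  | _ n ih =>
  intro P hP
  have h0 : ∀ d : ℕ, 0 < d → (cyclotomic d F).eval (h : F) ≠ 0 := by
    intro d hd h1
    apply hh d hd
    have h2 : (X ^ d - 1 : F[X]).eval (h : F) = 0 := by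
      obtain ⟨q, hq⟩ := cyclotomic.dvd_X_pow_sub_one d F
      rw [hq, eval_mul, h1, zero_mul]
    apply Units.ext
    rw [Units.val_pow_eq_pow_val, Units.val_one]
    simpa [sub_eq_zero] using h2
  obtain ⟨Φ, hΦ⟩ : ∃ Φ : ℕ → Fˣ, ∀ d, 0 < d → (Φ d : F) = (cyclotomic d F).eval (h : F) := by
    refine ⟨fun d => if hd : 0 < d then Units.mk0 _ (h0 d hd) else 1, fun d hd => ?_⟩
    simp only [dif_pos hd, Units.val_mk0]
  have hQ0 : (h : F) ^ n - 1 ≠ 0 := by
    intro h1
    apply hh n hn
    apply Units.ext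
    rw [Units.val_pow_eq_pow_val, Units.val_one]
    exact sub_eq_zero.1 h1
  have h1 : Tor (sym (Units.mk0 _ hQ0) h) :=
    tor_sub _ h 1 (n := 1) (m := n) one_pos hn (one_pow 1) (by simp)
  have h2 : Units.mk0 _ hQ0 = P * ∏ d ∈ n.properDivisors, Φ d := by
    apply Units.ext
    have h3 := congrArg (fun q : F[X] => q.eval (h : F)) (prod_cyclotomic_eq_X_pow_sub_one hn F)
    simp only [eval_prod, eval_sub, eval_pow, eval_X, eval_one] at h3
    rw [← Nat.cons_self_properDivisors hn.ne', Finset.prod_cons] at h3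
    rw [Units.val_mk0, ← h3, Units.val_mul, hP, Units.coe_prod]
    congr 1
    exact Finset.prod_congr rfl fun d hd =>
      (hΦ d (Nat.pos_of_mem_properDivisors hd)).symm
  rw [h2, sym_mul_left, sym_prod_left] at h1
  have h4 : Tor (∑ d ∈ n.properDivisors, sym (Φ d) h) := by
    refine Tor.sum _ _ fun d hd => ?_
    have hd' := Nat.pos_of_mem_properDivisors hd
    exact ih d (Nat.mem_properDivisors.1 hd).2 hd' _ (hΦ d hd')
  have h5 := h1.add h4.neg
  rwa [add_neg_cancel_right] at h5

end Gen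

end TRSM

open TRSM

theorem specTRS : SpecTRS := by
  intro F K _ _ _ _ hF n p hn hp hirr hdvd P h hP
  by_cases hh : ∀ d : ℕ, 0 < d → h ^ d ≠ 1
  swap
  · push Not at hh
    obtain ⟨d, hd, h1⟩ := hh
    exact tor_right P hd h1
  rcases hF with hF | hF
  · -- `F = ℚ`
    have hbij : Function.Bijective (algebraMap ℚ F) := by
      refine ⟨(algebraMap ℚ F).injective, fun x => ?_⟩
      obtain ⟨q, hq⟩ := hF x
      exact ⟨q, by rw [hq, eq_ratCast]⟩
    have hirr2 : Irreducible (cyclotomic n F) := by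
      have h1 := cyclotomic.irreducible_rat hn
      rw [← MulEquiv.irreducible_iff (mapEquiv (RingEquiv.ofBijective (algebraMap ℚ F) hbij))] at h1
      have h2 : (mapEquiv (RingEquiv.ofBijective (algebraMap ℚ F) hbij)) (cyclotomic n ℚ) =
          cyclotomic n F := by
        show map _ (cyclotomic n ℚ) = _
        exact map_cyclotomic n _
      rwa [h2] at h1
    have h1 : Associated p (cyclotomic n F) := hirr.associated_of_dvd hirr2 hdvd
    have h2 : p = cyclotomic n F := eq_of_monic_of_associated hp (cyclotomic.monic n F) h1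
    refine tor_cyclotomic h hh n hn P ?_
    rw [hP, h2, aeval_def, eval₂_eq_eval_map, map_cyclotomic]
  · obtain ⟨ζ, hζ⟩ := hF n hn
    have h1 : p ∣ X ^ n - 1 := hdvd.trans (cyclotomic.dvd_X_pow_sub_one n F)
    rw [X_pow_sub_one_eq_prod hn hζ] at h1
    obtain ⟨z, hz, h2⟩ := (hirr.prime.dvd_finsetProd_iff _).1 h1
    have hz1 : z ^ n = 1 := by
      rw [mem_nthRootsFinset hn] at hz
      exact hz
    have h3 : Associated p (X - C z) := hirr.associated_of_dvd (irreducible_X_sub_C z) h2
    have h4 : p = X - C z := eq_of_monic_of_associated hp (monic_X_sub_C z) h3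
    have hz0 : algebraMap F K z ≠ 0 := by
      rw [Ne, map_eq_zero]
      rintro rfl
      rw [zero_pow hn.ne'] at hz1
      exact zero_ne_one hz1
    refine tor_sub P h (Units.mk0 _ hz0) (n := n) (m := 1) hn one_pos ?_ ?_
    · apply Units.ext
      rw [Units.val_pow_eq_pow_val, Units.val_mk0, ← map_pow, hz1, map_one, Units.val_one]
    · rw [hP, h4]
      simp

end MP743d1e.CY
end

section
/-!
# GAL: two subgroups with a normal factor
-/
set_option autoImplicit false

namespace MP743d1e.CY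

open IntermediateField

theorem specGAL : SpecGAL := by
  intro k L _ _ _ _ _ K M D hM hD hKM σ
  have : IsGalois k M := IsGalois.mk
  have : (M.fixingSubgroup).Normal := inferInstance
  have h1 : M.fixingSubgroup ≤ D := by
    have h := IntermediateField.fixingSubgroup_antitone hD
    rwa [IntermediateField.fixingSubgroup_fixedField] at h
  have h2 : K.fixingSubgroup ⊔ M.fixingSubgroup = ⊤ := by
    have h3 : fixedField (K.fixingSubgroup ⊔ M.fixingSubgroup) ≤ K ⊓ M := by
      refine le_inf ?_ ?_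
      · have h := IntermediateField.fixedField_antitone
          (le_sup_left : K.fixingSubgroup ≤ K.fixingSubgroup ⊔ M.fixingSubgroup)
        rwa [IsGalois.fixedField_fixingSubgroup] at h
      · have h := IntermediateField.fixedField_antitone
          (le_sup_right : M.fixingSubgroup ≤ K.fixingSubgroup ⊔ M.fixingSubgroup)
        rwa [IsGalois.fixedField_fixingSubgroup] at h
    rw [hKM] at h3
    have h4 : fixedField (K.fixingSubgroup ⊔ M.fixingSubgroup) = ⊥ := le_bot_iff.mp h3
    have h5 := congrArg IntermediateField.fixingSubgroup h4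
    rwa [IntermediateField.fixingSubgroup_fixedField, IntermediateField.fixingSubgroup_bot] at h5
  have h6 : σ ∈ ((K.fixingSubgroup ⊔ M.fixingSubgroup : Subgroup (L ≃ₐ[k] L)) :
      Set (L ≃ₐ[k] L)) := by
    rw [h2]
    exact Set.mem_univ σ
  rw [Subgroup.mul_normal] at h6
  obtain ⟨η, hη, δ, hδ, hs⟩ := Set.mem_mul.mp h6
  exact ⟨η, hη, δ, h1 hδ, hs.symm⟩

end MP743d1e.CY
end

section
/-!
# GEN: a primitive element that is integral over `ℚ[h]`
-/
set_option autoImplicit false

namespace MP743d1e.CY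

open Polynomial IntermediateField

/-- GEN. Every intermediate field has a primitive element that is integral over `ℚ[h]`. -/
def SpecGEN : Prop := ∀ (F K L : Type) [Field F] [CharZero F] [Field K] [Field L] [CharZero L]
  [Algebra F K] [Algebra F L] [Algebra K L] [IsScalarTower F K L] (h : K),
  (∀ c : F, IsIntegral ℚ c) → Transcendental F h → FiniteDimensional F⟮h⟯ L →
  ∀ E : IntermediateField F⟮h⟯ L, ∃ y ∈ E,
    (∃ g : ℚ[X][X], g.Monic ∧ evF (algebraMap K L h) y g = 0) ∧
    IntermediateField.adjoin F⟮h⟯ {y} = E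

namespace GENM

/-- all elements of `F⟮h⟯` are algebraic over `ℚ[h]` -/
theorem alg_adjoin {F K : Type} [Field F] [CharZero F] [Field K] [CharZero K] [Algebra F K]
    [Algebra ℚ[X] K] {h : K} (hX : algebraMap ℚ[X] K X = h) (hF : ∀ c : F, IsIntegral ℚ c)
    {x : K} (hx : x ∈ F⟮h⟯) : IsAlgebraic ℚ[X] x := by
  induction hx using IntermediateField.adjoin_induction with
  | mem x hx =>
    rw [Set.mem_singleton_iff] at hx
    rw [hx, ← hX]
    exact isAlgebraic_algebraMap _
  | algebraMap c =>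
    obtain ⟨p, hp, h0⟩ := hF c
    refine ⟨p.map C, (hp.map C).ne_zero, ?_⟩
    rw [aeval_def, eval₂_map]
    have h1 : (algebraMap ℚ[X] K).comp C = (algebraMap F K).comp (algebraMap ℚ F) :=
      RingHom.ext_rat _ _
    rw [h1, ← Polynomial.hom_eval₂, h0, map_zero]
  | add x y _ _ hx hy => exact hx.add hy
  | mul x y _ _ hx hy => exact hx.mul hy
  | inv x _ hx => exact hx.inv

end GENM

open GENM

theorem specGEN : SpecGEN := by
  intro F K L _ _ _ _ _ _ _ _ _ h hF hh hfin E
  have hcK : CharZero K := charZero_of_injective_algebraMap (algebraMap F K).injective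
  have hcE : CharZero F⟮h⟯ := charZero_of_injective_algebraMap (algebraMap F F⟮h⟯).injective
  -- the algebra structures
  let fK : ℚ[X] →+* K := eval₂RingHom (algebraMap ℚ K) h
  let _ : Algebra ℚ[X] K := fK.toAlgebra
  let h' : F⟮h⟯ := AdjoinSimple.gen F h
  let _ : Algebra ℚ[X] F⟮h⟯ := (eval₂RingHom (algebraMap ℚ F⟮h⟯) h').toAlgebra
  let _ : Algebra ℚ[X] L := (eval₂RingHom (algebraMap ℚ L) (algebraMap K L h)).toAlgebra
  have ht1 : IsScalarTower ℚ[X] F⟮h⟯ K := by
    refine IsScalarTower.of_algebraMap_eq' (Polynomial.ringHom_ext (fun q => ?_) ?_)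
    · change eval₂ (algebraMap ℚ K) h (C q) = algebraMap F⟮h⟯ K (eval₂ (algebraMap ℚ F⟮h⟯) h' (C q))
      rw [eval₂_C, eval₂_C]
      simp
    · change eval₂ (algebraMap ℚ K) h X = algebraMap F⟮h⟯ K (eval₂ (algebraMap ℚ F⟮h⟯) h' X)
      rw [eval₂_X, eval₂_X]
      exact (AdjoinSimple.algebraMap_gen F h).symm
  have ht2 : IsScalarTower ℚ[X] F⟮h⟯ L := by
    refine IsScalarTower.of_algebraMap_eq' (Polynomial.ringHom_ext (fun q => ?_) ?_)
    · change eval₂ (algebraMap ℚ L) (algebraMap K L h) (C q) =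
        algebraMap F⟮h⟯ L (eval₂ (algebraMap ℚ F⟮h⟯) h' (C q))
      rw [eval₂_C, eval₂_C]
      simp
    · change eval₂ (algebraMap ℚ L) (algebraMap K L h) X =
        algebraMap F⟮h⟯ L (eval₂ (algebraMap ℚ F⟮h⟯) h' X)
      rw [eval₂_X, eval₂_X]
      rfl
  have hinjK : Function.Injective (algebraMap ℚ[X] K) := by
    rw [injective_iff_map_eq_zero]
    intro q hq
    by_contra hne
    apply hh
    refine ⟨q.map (algebraMap ℚ F), ?_, ?_⟩
    · rwa [Ne, Polynomial.map_eq_zero]
    · rw [aeval_def, eval₂_map]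
      have h1 : (algebraMap F K).comp (algebraMap ℚ F) = algebraMap ℚ K := RingHom.ext_rat _ _
      rw [h1]
      exact hq
  have hX : algebraMap ℚ[X] K X = h := by
    change eval₂ (algebraMap ℚ K) h X = h
    rw [eval₂_X]
  have halg1 : Algebra.IsAlgebraic ℚ[X] F⟮h⟯ := by
    refine ⟨fun x => ?_⟩
    rw [← isAlgebraic_algebraMap_iff (A := K) (algebraMap F⟮h⟯ K).injective]
    exact alg_adjoin hX hF x.2
  have halg2 : Algebra.IsAlgebraic F⟮h⟯ L := inferInstance
  have halg : Algebra.IsAlgebraic ℚ[X] L := Algebra.IsAlgebraic.trans ℚ[X] F⟮h⟯ L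
  -- the primitive element
  have hfinE : FiniteDimensional F⟮h⟯ E := inferInstance
  obtain ⟨z, hz⟩ := Field.exists_primitive_element F⟮h⟯ E
  have hz' : IntermediateField.adjoin F⟮h⟯ {(z : L)} = E := by
    have h1 := congrArg IntermediateField.lift hz
    rwa [IntermediateField.lift_adjoin_simple, IntermediateField.lift_top] at h1
  obtain ⟨q, hq0, hq⟩ := (halg.isAlgebraic (z : L)).exists_integral_multiple
  have hqz : q • (z : L) = algebraMap F⟮h⟯ L (algebraMap ℚ[X] F⟮h⟯ q) * z := by
    rw [Algebra.smul_def, IsScalarTower.algebraMap_apply ℚ[X] F⟮h⟯ L]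
  have hqne : algebraMap ℚ[X] F⟮h⟯ q ≠ 0 := by
    intro h0
    apply hq0
    apply hinjK
    rw [IsScalarTower.algebraMap_apply ℚ[X] F⟮h⟯ K, h0, map_zero, map_zero]
  refine ⟨q • (z : L), ?_, ?_, ?_⟩
  · rw [hqz]
    exact E.mul_mem (E.algebraMap_mem _) z.2
  · obtain ⟨g, hg, h0⟩ := hq
    refine ⟨g, hg, ?_⟩
    unfold evF
    have h1 : ((aeval (algebraMap K L h) : ℚ[X] →ₐ[ℚ] L).toRingHom : ℚ[X] →+* L) =
        algebraMap ℚ[X] L := by
      refine Polynomial.ringHom_ext (fun q => ?_) ?_
      · change aeval (algebraMap K L h) (C q) = eval₂ (algebraMap ℚ L) (algebraMap K L h) (C q)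
        rw [aeval_C, eval₂_C]
      · change aeval (algebraMap K L h) X = eval₂ (algebraMap ℚ L) (algebraMap K L h) X
        rw [aeval_X, eval₂_X]
    rw [h1]
    exact h0
  · refine Eq.trans ?_ hz'
    rw [hqz]
    apply le_antisymm
    · rw [IntermediateField.adjoin_simple_le_iff]
      exact mul_mem (IntermediateField.algebraMap_mem _ _) (IntermediateField.mem_adjoin_simple_self _ _)
    · rw [IntermediateField.adjoin_simple_le_iff]
      have h2 : (z : L) = algebraMap F⟮h⟯ L (algebraMap ℚ[X] F⟮h⟯ q)⁻¹ *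
          (algebraMap F⟮h⟯ L (algebraMap ℚ[X] F⟮h⟯ q) * z) := by
        rw [← mul_assoc, ← map_mul, inv_mul_cancel₀ hqne, map_one, one_mul]
      have h3 : algebraMap F⟮h⟯ L (algebraMap ℚ[X] F⟮h⟯ q)⁻¹ *
          (algebraMap F⟮h⟯ L (algebraMap ℚ[X] F⟮h⟯ q) * z) ∈ IntermediateField.adjoin F⟮h⟯
            {algebraMap F⟮h⟯ L (algebraMap ℚ[X] F⟮h⟯ q) * (z : L)} :=
        mul_mem (IntermediateField.algebraMap_mem _ _)
          (IntermediateField.mem_adjoin_simple_self _ _)
      rwa [← h2] at h3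

end MP743d1e.CY
end

section
/-!
# INT: integral equations with integer coefficients
-/
set_option autoImplicit false

namespace MP743d1e.CY

open scoped BigOperators
open Polynomial

namespace INTM

/-- a common denominator of a polynomial -/
theorem exists_den (a : ℚ[X]) : ∃ N : ℕ, 0 < N ∧ ∃ b : ℤ[X],
    mapRingHom (Int.castRingHom ℚ) b = C (N : ℚ) * a := by
  induction a using Polynomial.induction_on' with
  | add p q hp hq =>
    obtain ⟨N, hN, b, hb⟩ := hp
    obtain ⟨N', hN', b', hb'⟩ := hq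
    refine ⟨N * N', Nat.mul_pos hN hN', (N' : ℤ[X]) * b + (N : ℤ[X]) * b', ?_⟩
    rw [map_add, map_mul, map_mul, hb, hb', map_natCast, map_natCast]
    push_cast
    rw [map_mul]
    simp only [map_natCast]
    ring
  | monomial n q =>
    refine ⟨q.den, q.den_pos, monomial n q.num, ?_⟩
    simp only [coe_mapRingHom, map_monomial, eq_intCast, C_mul_monomial]
    congr 1
    exact (Rat.den_mul_eq_num q).symm

/-- if `N` clears the denominator then so does `N * M` -/
theorem den_mul {a : ℚ[X]} {N : ℕ} (M : ℕ) (h : ∃ b : ℤ[X],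
    mapRingHom (Int.castRingHom ℚ) b = C (N : ℚ) * a) :
    ∃ b : ℤ[X], mapRingHom (Int.castRingHom ℚ) b = C ((N * M : ℕ) : ℚ) * a := by
  obtain ⟨b, hb⟩ := h
  refine ⟨(M : ℤ[X]) * b, ?_⟩
  rw [map_mul, hb, map_natCast]
  push_cast
  rw [map_mul]
  simp only [map_natCast]
  ring

/-- a common denominator for finitely many polynomials -/
theorem exists_den_finset (f : ℕ → ℚ[X]) (s : Finset ℕ) : ∃ N : ℕ, 0 < N ∧ ∀ i ∈ s, ∃ b : ℤ[X],
    mapRingHom (Int.castRingHom ℚ) b = C (N : ℚ) * f i := by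
  classical
  induction s using Finset.induction_on with
  | empty => exact ⟨1, one_pos, fun i hi => absurd hi (Finset.notMem_empty i)⟩
  | insert j s _ ih =>
    obtain ⟨N, hN, h⟩ := ih
    obtain ⟨N', hN', h'⟩ := exists_den (f j)
    refine ⟨N * N', Nat.mul_pos hN hN', fun i hi => ?_⟩
    rcases Finset.mem_insert.1 hi with rfl | hi
    · rw [mul_comm N N']
      exact den_mul N h'
    · exact den_mul N' (h i hi)

/-- scaling gives an integral polynomial -/
theorem exists_lift (g₀ : ℚ[X][X]) (hg₀ : g₀.Monic) : ∃ N : ℕ, 0 < N ∧ ∃ g : ℤ[X][X], g.Monic ∧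
    g.map (mapRingHom (Int.castRingHom ℚ)) = scaleRoots g₀ (C (N : ℚ)) := by
  obtain ⟨N, hN, h⟩ := exists_den_finset g₀.coeff (Finset.range g₀.natDegree)
  refine ⟨N, hN, ?_⟩
  have hl : scaleRoots g₀ (C (N : ℚ)) ∈ lifts (mapRingHom (Int.castRingHom ℚ)) := by
    rw [lifts_iff_coeff_lifts]
    intro i
    rw [coeff_scaleRoots]
    rcases lt_trichotomy i g₀.natDegree with hi | hi | hi
    · obtain ⟨b, hb⟩ := h i (Finset.mem_range.2 hi)
      refine ⟨b * (N : ℤ[X]) ^ (g₀.natDegree - i - 1), ?_⟩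
      rw [map_mul, hb, map_pow, map_natCast]
      have : g₀.natDegree - i = (g₀.natDegree - i - 1) + 1 := by omega
      conv_rhs => rw [this, pow_succ]
      simp only [map_natCast]
      ring
    · refine ⟨1, ?_⟩
      rw [hi, hg₀.coeff_natDegree, Nat.sub_self, pow_zero, map_one, mul_one]
    · refine ⟨0, ?_⟩
      rw [coeff_eq_zero_of_natDegree_lt hi, map_zero, zero_mul]
  obtain ⟨g, hg, -, hm⟩ := lifts_and_natDegree_eq_and_monic hl ((monic_scaleRoots_iff _).2 hg₀)
  exact ⟨g, hm, hg⟩

/-- scaling the minimal polynomial -/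
theorem minpoly_scale {K L : Type} [Field K] [Field L] [Algebra K L] {y : L} (hy : IsIntegral K y)
    {c : K} (hc : c ≠ 0) :
    scaleRoots (minpoly K y) c = minpoly K (algebraMap K L c * y) := by
  have hy' : IsIntegral K (algebraMap K L c * y) := isIntegral_algebraMap.mul hy
  refine eq_of_monic_of_dvd_of_natDegree_le (minpoly.monic hy')
    ((monic_scaleRoots_iff c).2 (minpoly.monic hy)) (minpoly.dvd _ _ ?_) ?_
  · exact scaleRoots_aeval_eq_zero (minpoly.aeval K y)
  · rw [natDegree_scaleRoots]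
    have h1 : minpoly K y ∣ scaleRoots (minpoly K (algebraMap K L c * y)) c⁻¹ := by
      refine minpoly.dvd _ _ ?_
      have h2 := scaleRoots_aeval_eq_zero (r := c⁻¹) (minpoly.aeval K (algebraMap K L c * y))
      rwa [← mul_assoc, ← map_mul, inv_mul_cancel₀ hc, map_one, one_mul] at h2
    have h3 := natDegree_le_of_dvd h1 (scaleRoots_ne_zero (minpoly.ne_zero hy') _)
    rwa [natDegree_scaleRoots] at h3

end INTM

open INTM

theorem specINT : SpecINT := by
  intro L _ _ _ h y hh hy
  have hinj : Function.Injective ((aeval h : ℚ[X] →ₐ[ℚ] L) : ℚ[X] →+* L) :=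
    transcendental_iff_injective.1 hh
  let _ : Algebra ℚ[X] L := ((aeval h : ℚ[X] →ₐ[ℚ] L) : ℚ[X] →+* L).toAlgebra
  let _ : Algebra (RatFunc ℚ) L := (IsFractionRing.lift (K := RatFunc ℚ) hinj).toAlgebra
  have hst : IsScalarTower ℚ[X] (RatFunc ℚ) L := by
    refine IsScalarTower.of_algebraMap_eq fun x => ?_
    exact (IsFractionRing.lift_algebraMap hinj x).symm
  have hyi : IsIntegral ℚ[X] y := hy
  have hyi' : IsIntegral (RatFunc ℚ) y := hyi.tower_top
  have hmin := minpoly.isIntegrallyClosed_eq_field_fractions' (RatFunc ℚ) hyi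
  obtain ⟨N, hN, g, hg, hgm⟩ := exists_lift (minpoly ℚ[X] y) (minpoly.monic hyi)
  have hN0 : (N : ℚ) ≠ 0 := by exact_mod_cast hN.ne'
  refine ⟨N, hN, g, hg, ?_, ?_⟩
  · have h1 : ev2 h ((N : L) * y) g = eval₂ (algebraMap ℚ[X] L) ((N : L) * y)
        (g.map (mapRingHom (Int.castRingHom ℚ))) := by
      rw [eval₂_map]
      unfold ev2
      congr 1
      refine Polynomial.ringHom_ext (fun n => ?_) ?_
      · simp
      · simp only [coe_eval₂RingHom, eval₂_X, RingHom.comp_apply, coe_mapRingHom, map_X]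
        exact (aeval_X h).symm
    rw [h1, hgm]
    have h2 : ((N : L) * y) = algebraMap ℚ[X] L (C (N : ℚ)) * y := by
      congr 1
      rw [map_natCast, map_natCast]
    rw [h2]
    exact scaleRoots_eval₂_eq_zero _ (minpoly.aeval ℚ[X] y)
  · have h1 : g.map zq = scaleRoots (minpoly (RatFunc ℚ) y)
        (algebraMap ℚ[X] (RatFunc ℚ) (C (N : ℚ))) := by
      unfold zq
      rw [← Polynomial.map_map, hgm, map_scaleRoots, hmin]
      rw [(minpoly.monic hyi).leadingCoeff, map_one]
      exact one_ne_zero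
    rw [h1, minpoly_scale hyi']
    · exact minpoly.irreducible (isIntegral_algebraMap.mul hyi')
    · intro h0
      rw [map_eq_zero_iff _ (IsFractionRing.injective ℚ[X] (RatFunc ℚ))] at h0
      exact hN0 (C_eq_zero.1 h0)

end MP743d1e.CY
end

section
/-!
# Vanishing sums of roots of unity (Mann's theorem)
-/
set_option autoImplicit false

namespace MP743d1e.CY.MANM

open scoped BigOperators
open Polynomial Finset

variable {ι : Type}

/-- conjugates of an integral relation between powers of a primitive root of unity -/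
theorem conj_zero {N : ℕ} (hN : 0 < N) {ζ : ℂ} (hζ : IsPrimitiveRoot ζ N) (S : Finset ι)
    (c : ι → ℤ) (a : ι → ℕ) (h : ∑ i ∈ S, (c i : ℂ) * ζ ^ a i = 0) {t : ℕ} (ht : Nat.Coprime t N) :
    ∑ i ∈ S, (c i : ℂ) * ζ ^ (t * a i) = 0 := by
  let Q : ℚ[X] := ∑ i ∈ S, C (c i : ℚ) * X ^ a i
  have hQ : ∀ z : ℂ, aeval z Q = ∑ i ∈ S, (c i : ℂ) * z ^ a i := by
    intro z
    simp [Q]
  have h1 : minpoly ℚ ζ ∣ Q := minpoly.dvd ℚ ζ (by rw [hQ]; exact h)
  have h2 : IsPrimitiveRoot (ζ ^ t) N := hζ.pow_of_coprime t ht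
  have h3 : minpoly ℚ (ζ ^ t) = minpoly ℚ ζ := by
    rw [← cyclotomic_eq_minpoly_rat hζ hN, ← cyclotomic_eq_minpoly_rat h2 hN]
  have h4 : aeval (ζ ^ t) Q = 0 := by
    obtain ⟨R, hR⟩ := h1
    rw [hR, map_mul, ← h3, minpoly.aeval, zero_mul]
  rw [hQ] at h4
  rw [← h4]
  refine Finset.sum_congr rfl fun i _ => ?_
  rw [pow_mul]

/-- geometric sums of `p`-th roots of unity -/
theorem geom {p : ℕ} {ω : ℂ} (hω : IsPrimitiveRoot ω p) (b : ℕ) :
    ∑ k ∈ range p, ω ^ (k * b) = if p ∣ b then (p : ℂ) else 0 := by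
  have h0 : ∀ k, ω ^ (k * b) = (ω ^ b) ^ k := fun k => by rw [mul_comm, pow_mul]
  simp only [h0]
  split_ifs with h
  · have h1 : ω ^ b = 1 := (hω.pow_eq_one_iff_dvd b).2 h
    simp [h1]
  · have h1 : ω ^ b ≠ 1 := fun h1 => h ((hω.pow_eq_one_iff_dvd b).1 h1)
    have h2 : (ω ^ b) ^ p = 1 := by rw [← pow_mul, mul_comm, pow_mul, hω.pow_eq_one, one_pow]
    rw [geom_sum_eq h1, h2, sub_self, zero_div]

/-- the subsum over the exponents divisible by `p` -/
theorem subsum {p N' : ℕ} (hp : p.Prime) (hN' : 0 < N') {ζ : ℂ} (hζ : IsPrimitiveRoot ζ (p * N'))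
    (S : Finset ι) (c : ι → ℤ) (a : ι → ℕ) (h : ∑ i ∈ S, (c i : ℂ) * ζ ^ a i = 0)
    (hc : p ∣ N' ∨ S.card < p) :
    ∑ i ∈ S with p ∣ a i, (c i : ℂ) * ζ ^ a i = 0 := by
  have hN : 0 < p * N' := Nat.mul_pos hp.pos hN'
  have hω : IsPrimitiveRoot (ζ ^ N') p := hζ.pow hN (by ring)
  -- the twisted sums
  let T : ℕ → ℂ := fun k => ∑ i ∈ S, (c i : ℂ) * ζ ^ ((1 + k * N') * a i)
  have hT : ∀ k, ¬ p ∣ 1 + k * N' → T k = 0 := by
    intro k hk
    refine conj_zero hN hζ S c a h ?_
    refine Nat.Coprime.mul_right ?_ ?_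
    · exact ((Nat.Prime.coprime_iff_not_dvd hp).2 hk).symm
    · have : Nat.Coprime (1 + k * N') N' := by
        rw [add_comm, mul_comm]
        simp
      exact this
  have hTe : ∀ b : ℕ, ∑ k ∈ range p, (ζ ^ N') ^ (k * b) * T k =
      ∑ i ∈ S, (c i : ℂ) * ζ ^ a i * (if p ∣ a i + b then (p : ℂ) else 0) := by
    intro b
    have h1 : ∀ k, (ζ ^ N') ^ (k * b) * T k =
        ∑ i ∈ S, (c i : ℂ) * ζ ^ a i * (ζ ^ N') ^ (k * (a i + b)) := by
      intro k
      rw [Finset.mul_sum]
      refine Finset.sum_congr rfl fun i _ => ?_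
      rw [← pow_mul, ← pow_mul]
      have h2 : ζ ^ (N' * (k * b)) * ((c i : ℂ) * ζ ^ ((1 + k * N') * a i)) =
        (c i : ℂ) * (ζ ^ (N' * (k * b)) * ζ ^ ((1 + k * N') * a i)) := by ring
      rw [h2, ← pow_add, mul_assoc, ← pow_add]
      congr 2
      ring
    simp only [h1]
    rw [Finset.sum_comm]
    refine Finset.sum_congr rfl fun i _ => ?_
    rw [← Finset.mul_sum, geom hω]
  have hall : ∀ k ∈ range p, T k = 0 := by
    rcases hc with hc | hc
    · intro k _
      refine hT k fun hk => ?_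
      have h1 : p ∣ 1 := (Nat.dvd_add_left (Dvd.dvd.mul_left hc k)).1 hk
      exact hp.one_lt.ne' (Nat.dvd_one.1 h1)
    · by_contra hne
      push Not at hne
      obtain ⟨k₀, hk₀, hTk⟩ := hne
      have hd0 : p ∣ 1 + k₀ * N' := by
        by_contra hd
        exact hTk (hT k₀ hd)
      have hpN : ¬ p ∣ N' := by
        intro hd
        have h1 : p ∣ 1 := (Nat.dvd_add_left (Dvd.dvd.mul_left hd k₀)).1 hd0
        exact hp.one_lt.ne' (Nat.dvd_one.1 h1)
      have hothers : ∀ k ∈ range p, k ≠ k₀ → T k = 0 := by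
        intro k hk hkk
        refine hT k fun hd => hkk ?_
        have h1 : ((1 + k * N' : ℕ) : ℤ) ≡ ((1 + k₀ * N' : ℕ) : ℤ) [ZMOD p] := by
          have h2 : ((1 + k * N' : ℕ) : ℤ) ≡ 0 [ZMOD p] :=
            (Int.modEq_zero_iff_dvd).2 (Int.natCast_dvd_natCast.2 hd)
          have h3 : ((1 + k₀ * N' : ℕ) : ℤ) ≡ 0 [ZMOD p] :=
            (Int.modEq_zero_iff_dvd).2 (Int.natCast_dvd_natCast.2 hd0)
          exact h2.trans h3.symm
        have h4 : (p : ℤ) ∣ ((k₀ : ℤ) - k) * N' := by
          have h5 := h1.dvd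
          push_cast at h5
          have h6 : (1 + (k₀ : ℤ) * N' - (1 + k * N')) = (k₀ - k) * N' := by ring
          rwa [h6] at h5
        have h7 : (p : ℤ) ∣ (k₀ : ℤ) - k := by
          rcases (Nat.prime_iff_prime_int.1 hp).dvd_or_dvd h4 with h8 | h8
          · exact h8
          · exact absurd (Int.natCast_dvd_natCast.1 h8) hpN
        have h9 : (k : ℤ) ≡ k₀ [ZMOD p] := (Int.modEq_iff_dvd).2 h7
        have h10 : k ≡ k₀ [MOD p] := (Int.natCast_modEq_iff).1 h9
        exact Nat.ModEq.eq_of_lt_of_lt h10 (mem_range.1 hk) (mem_range.1 hk₀)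
      -- an empty class
      have : Fact p.Prime := ⟨hp⟩
      obtain ⟨x, hx⟩ : ∃ x : ZMod p, x ∉ S.image (fun i => -(a i : ZMod p)) := by
        by_contra hcon
        push Not at hcon
        have h1 : (Finset.univ : Finset (ZMod p)) ⊆ S.image (fun i => -(a i : ZMod p)) :=
          fun x _ => hcon x
        have h2 := Finset.card_le_card h1
        rw [Finset.card_univ, ZMod.card] at h2
        have h3 := Finset.card_image_le (s := S) (f := fun i => -(a i : ZMod p))
        omega
      have hx' : ∀ i ∈ S, ¬ p ∣ a i + x.val := by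
        intro i hi hd
        apply hx
        rw [Finset.mem_image]
        refine ⟨i, hi, ?_⟩
        have h1 : ((a i + x.val : ℕ) : ZMod p) = 0 := (ZMod.natCast_eq_zero_iff _ _).2 hd
        rw [Nat.cast_add, ZMod.natCast_val, ZMod.cast_id] at h1
        exact neg_eq_of_add_eq_zero_right h1
      have h5 := hTe x.val
      rw [Finset.sum_eq_zero (s := S) (fun i hi => by rw [if_neg (hx' i hi), mul_zero]),
        Finset.sum_eq_single k₀ (fun k hk hkk => by rw [hothers k hk hkk, mul_zero])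
          (fun hk => absurd hk₀ hk)] at h5
      rcases mul_eq_zero.1 h5 with h6 | h6
      · exact pow_ne_zero _ (pow_ne_zero _ (hζ.ne_zero hN.ne')) h6
      · exact hTk h6
  have h6 := hTe 0
  rw [Finset.sum_eq_zero (fun k hk => by rw [hall k hk, mul_zero])] at h6
  have h7 : (p : ℂ) ≠ 0 := Nat.cast_ne_zero.2 hp.ne_zero
  have h8 : ∑ i ∈ S, (c i : ℂ) * ζ ^ a i * (if p ∣ a i + 0 then (p : ℂ) else 0) =
      p * ∑ i ∈ S with p ∣ a i, (c i : ℂ) * ζ ^ a i := by
    rw [Finset.sum_filter, Finset.mul_sum]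
    refine Finset.sum_congr rfl fun i _ => ?_
    rw [add_zero]
    split_ifs
    · ring
    · ring
  rw [h8] at h6
  rcases mul_eq_zero.1 h6.symm with h9 | h9
  · exact absurd h9 h7
  · exact h9

/-- Mann's theorem: the minimal vanishing sums -/
theorem mann {K : ℕ} (S : Finset ι) (hK : S.card ≤ K) (c : ι → ℤ) (z : ι → ℂ)
    (hz : ∀ i, ∃ n : ℕ, 0 < n ∧ z i ^ n = 1) (h0 : ∑ i ∈ S, (c i : ℂ) * z i = 0)
    (hmin : ∀ T ⊆ S, T.Nonempty → ∑ i ∈ T, (c i : ℂ) * z i = 0 → T = S) {i₀ : ι} (hi₀ : i₀ ∈ S) :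
    ∀ i ∈ S, z i ^ K.factorial = z i₀ ^ K.factorial := by
  classical
  have hz0 : ∀ i, z i ≠ 0 := by
    intro i h
    obtain ⟨n, hn, h1⟩ := hz i
    rw [h, zero_pow hn.ne'] at h1
    exact zero_ne_one h1
  choose n hn hn1 using hz
  -- the least exponent
  have hex : ∃ N : ℕ, 0 < N ∧ ∀ i ∈ S, (z i / z i₀) ^ N = 1 := by
    refine ⟨∏ i ∈ S, n i, Finset.prod_pos fun i _ => hn i, fun i hi => ?_⟩
    have h1 : ∀ j ∈ S, z j ^ (∏ i ∈ S, n i) = 1 := by
      intro j hj
      obtain ⟨q, hq⟩ := Finset.dvd_prod_of_mem n hj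
      rw [hq, pow_mul, hn1, one_pow]
    rw [div_pow, h1 i hi, h1 i₀ hi₀, div_one]
  obtain ⟨hN, hN1⟩ := Nat.find_spec hex
  have hleast : ∀ m : ℕ, 0 < m → (∀ i ∈ S, (z i / z i₀) ^ m = 1) → Nat.find hex ≤ m :=
    fun m hm h => Nat.find_min' hex ⟨hm, h⟩
  generalize Nat.find hex = N at hN hN1 hleast
  have hζ : IsPrimitiveRoot (Complex.exp (2 * Real.pi * Complex.I / N)) N :=
    Complex.isPrimitiveRoot_exp N hN.ne'
  generalize Complex.exp (2 * Real.pi * Complex.I / N) = ζ at hζ
  have : NeZero N := ⟨hN.ne'⟩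
  have hex2 : ∀ i : ι, ∃ a : ℕ, i ∈ S → ζ ^ a = z i / z i₀ := by
    intro i
    by_cases hi : i ∈ S
    · obtain ⟨a, -, ha⟩ := hζ.eq_pow_of_pow_eq_one (hN1 i hi)
      exact ⟨a, fun _ => ha⟩
    · exact ⟨0, fun h => absurd h hi⟩
  choose a ha using hex2
  have hsum : ∀ T ⊆ S, ∑ i ∈ T, (c i : ℂ) * ζ ^ a i = (∑ i ∈ T, (c i : ℂ) * z i) / z i₀ := by
    intro T hT
    rw [Finset.sum_div]
    refine Finset.sum_congr rfl fun i hi => ?_
    rw [ha i (hT hi), mul_div_assoc]
  have key : ∀ p N' : ℕ, p.Prime → N = p * N' → ¬ (p ∣ N' ∨ S.card < p) := by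
    intro p N' hp hpN hc
    have hN' : 0 < N' := by
      rcases Nat.eq_zero_or_pos N' with h | h
      · rw [h, mul_zero] at hpN
        omega
      · exact h
    rw [hpN] at hζ
    have h1 := subsum hp hN' hζ S c a (by rw [hsum S (Finset.Subset.refl S), h0, zero_div]) hc
    have h2 : ∑ i ∈ S with p ∣ a i, (c i : ℂ) * z i = 0 := by
      rw [hsum _ (Finset.filter_subset _ _)] at h1
      rcases div_eq_zero_iff.1 h1 with h3 | h3
      · exact h3
      · exact absurd h3 (hz0 i₀)
    have h3 : i₀ ∈ S.filter (fun i => p ∣ a i) := by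
      rw [Finset.mem_filter]
      refine ⟨hi₀, ?_⟩
      have h4 := ha i₀ hi₀
      rw [div_self (hz0 i₀)] at h4
      exact (Dvd.intro _ rfl).trans ((hζ.pow_eq_one_iff_dvd _).1 h4)
    have h5 := hmin _ (Finset.filter_subset _ _) ⟨i₀, h3⟩ h2
    have h6 : ∀ i ∈ S, (z i / z i₀) ^ N' = 1 := by
      intro i hi
      have h7 : i ∈ S.filter (fun i => p ∣ a i) := by rw [h5]; exact hi
      obtain ⟨q, hq⟩ := (Finset.mem_filter.1 h7).2
      rw [← ha i hi, ← pow_mul, hq]
      have h8 : p * q * N' = p * N' * q := by ring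
      rw [h8, pow_mul, hζ.pow_eq_one, one_pow]
    have h9 := hleast N' hN' h6
    have h10 := hp.two_le
    nlinarith
  have hsq : Squarefree N := by
    rw [Nat.squarefree_iff_prime_squarefree]
    rintro p hp ⟨q, hq⟩
    exact key p (p * q) hp (by rw [hq]; ring) (Or.inl (Dvd.intro _ rfl))
  have hdvd : N ∣ K.factorial := by
    rw [← Nat.prod_primeFactors_of_squarefree hsq]
    refine Finset.prod_primes_dvd _ (fun p hp => (Nat.prime_of_mem_primeFactors hp).prime) ?_
    intro p hp
    have hpp := Nat.prime_of_mem_primeFactors hp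
    obtain ⟨q, hq⟩ := Nat.dvd_of_mem_primeFactors hp
    have h1 := key p q hpp hq
    push Not at h1
    exact Nat.dvd_factorial hpp.pos (h1.2.trans hK)
  intro i hi
  obtain ⟨q, hq⟩ := hdvd
  have h1 : (z i / z i₀) ^ K.factorial = 1 := by rw [hq, pow_mul, hN1 i hi, one_pow]
  rw [div_pow] at h1
  exact (div_eq_one_iff_eq (pow_ne_zero _ (hz0 i₀))).1 h1

/-- the partition -/
theorem partition {K : ℕ} (c : ι → ℤ) (z : ι → ℂ) (hz : ∀ i, ∃ n : ℕ, 0 < n ∧ z i ^ n = 1)
    [DecidableEq ι] : ∀ (m : ℕ) (S : Finset ι), S.card = m → S.card ≤ K →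
      ∑ i ∈ S, (c i : ℂ) * z i = 0 →
      ∃ b : ι → ι, (∀ i ∈ S, b i ∈ S) ∧ (∀ i ∈ S, z i ^ K.factorial = z (b i) ^ K.factorial) ∧
        ∀ j, ∑ i ∈ S with b i = j, (c i : ℂ) * z i = 0 := by
  intro m
  induction m using Nat.strong_induction_on with
  | _ m ih =>
    intro S hm hK h0
    rcases S.eq_empty_or_nonempty with rfl | ⟨i₀, hi₀⟩
    · exact ⟨id, by simp, by simp, by simp⟩
    by_cases hmin : ∀ T ⊆ S, T.Nonempty → ∑ i ∈ T, (c i : ℂ) * z i = 0 → T = S
    · refine ⟨fun _ => i₀, fun _ _ => hi₀, mann S hK c z hz h0 hmin hi₀, fun j => ?_⟩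
      by_cases hj : i₀ = j
      · rw [Finset.filter_true_of_mem (fun _ _ => hj)]
        exact h0
      · rw [Finset.filter_false_of_mem (fun _ _ => hj), Finset.sum_empty]
    · push Not at hmin
      obtain ⟨T, hTS, hT, hT0, hne⟩ := hmin
      have hlt : T.card < S.card := Finset.card_lt_card (hTS.ssubset_of_ne hne)
      have hsd : (S \ T).card < S.card := by
        rw [Finset.card_sdiff_of_subset hTS]
        have := hT.card_pos
        omega
      have h0' : ∑ i ∈ S \ T, (c i : ℂ) * z i = 0 := by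
        rw [← Finset.sum_sdiff hTS, hT0, add_zero] at h0
        exact h0
      obtain ⟨b₁, h11, h12, h13⟩ := ih T.card (hm ▸ hlt) T rfl (hlt.le.trans hK) hT0
      obtain ⟨b₂, h21, h22, h23⟩ := ih (S \ T).card (hm ▸ hsd) (S \ T) rfl (hsd.le.trans hK) h0'
      refine ⟨fun i => if i ∈ T then b₁ i else b₂ i, ?_, ?_, ?_⟩
      · intro i hi
        by_cases hiT : i ∈ T
        · simp only [if_pos hiT]
          exact hTS (h11 i hiT)
        · simp only [if_neg hiT]
          exact (Finset.mem_sdiff.1 (h21 i (Finset.mem_sdiff.2 ⟨hi, hiT⟩))).1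
      · intro i hi
        by_cases hiT : i ∈ T
        · simp only [if_pos hiT]
          exact h12 i hiT
        · simp only [if_neg hiT]
          exact h22 i (Finset.mem_sdiff.2 ⟨hi, hiT⟩)
      · intro j
        rw [Finset.sum_filter, ← Finset.sum_sdiff hTS]
        have e1 : ∑ i ∈ T, (if (if i ∈ T then b₁ i else b₂ i) = j then (c i : ℂ) * z i else 0) =
            ∑ i ∈ T with b₁ i = j, (c i : ℂ) * z i := by
          rw [Finset.sum_filter]
          refine Finset.sum_congr rfl fun i hi => ?_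
          rw [if_pos hi]
        have e2 : ∑ i ∈ S \ T, (if (if i ∈ T then b₁ i else b₂ i) = j then (c i : ℂ) * z i else 0) =
            ∑ i ∈ S \ T with b₂ i = j, (c i : ℂ) * z i := by
          rw [Finset.sum_filter]
          refine Finset.sum_congr rfl fun i hi => ?_
          rw [if_neg (Finset.mem_sdiff.1 hi).2]
        rw [e1, e2, h13 j, h23 j, add_zero]

end MP743d1e.CY.MANM

namespace MP743d1e.CY

theorem specMAN : SpecMAN := by
  intro K
  refine ⟨K.factorial, K.factorial_pos, ?_⟩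
  intro ι _ _ hK c z hz h0
  obtain ⟨b, -, h1, h2⟩ := MANM.partition (K := K) c z hz _ Finset.univ rfl
    (by rw [Finset.card_univ]; exact hK) h0
  exact ⟨b, fun i => h1 i (Finset.mem_univ i), h2⟩

end MP743d1e.CY
end

section
/-!
# TSK: the symbols `{p(u) / p(0), c u ^ k}` are torsion
-/
set_option autoImplicit false

namespace MP743d1e.CY

open scoped BigOperators
open Polynomial MP743d1e.GX MILM

namespace TSKM

/-! ## Specialization at `t = 0` -/

section Sp

variable {k F : Type} [Field k] [Field F] [Algebra k F] {t : F}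

theorem tc_C (c : k) : (C c).trailingCoeff = c := by
  unfold trailingCoeff
  rw [natTrailingDegree_C, coeff_C_zero]

theorem tc_unique (h : IsRat k F t) {f : Fˣ} {p q p' q' : k[X]} (hq : q ≠ 0) (hq' : q' ≠ 0)
    (h1 : (f : F) * aeval t q = aeval t p) (h2 : (f : F) * aeval t q' = aeval t p') :
    p.trailingCoeff / q.trailingCoeff = p'.trailingCoeff / q'.trailingCoeff := by
  have h3 : p * q' = p' * q := by
    apply MTKM.aeval_inj h
    rw [map_mul, map_mul, ← h1, ← h2]
    ring
  have h4 := congrArg Polynomial.trailingCoeff h3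
  rw [trailingCoeff_mul, trailingCoeff_mul] at h4
  rw [div_eq_div_iff (by rwa [Ne, trailingCoeff_eq_zero]) (by rwa [Ne, trailingCoeff_eq_zero])]
  exact h4

/-- the lowest coefficient -/
noncomputable def lo (h : IsRat k F t) (f : Fˣ) : kˣ :=
  Units.mk0 ((MTKM.exists_frac h f).choose.trailingCoeff /
    (MTKM.exists_frac h f).choose_spec.choose.trailingCoeff) (by
      have h1 := (MTKM.exists_frac h f).choose_spec.choose_spec
      exact div_ne_zero (by rw [Ne, trailingCoeff_eq_zero]; exact h1.1)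
        (by rw [Ne, trailingCoeff_eq_zero]; exact h1.2.1))

theorem lo_eq (h : IsRat k F t) {f : Fˣ} {p q : k[X]} (hq : q ≠ 0)
    (h1 : (f : F) * aeval t q = aeval t p) :
    (lo h f : k) = p.trailingCoeff / q.trailingCoeff := by
  have h2 := (MTKM.exists_frac h f).choose_spec.choose_spec
  exact tc_unique h h2.2.1 hq h2.2.2 h1

theorem lo_poly (h : IsRat k F t) {f : Fˣ} {p : k[X]} (h1 : (f : F) = aeval t p) :
    (lo h f : k) = p.trailingCoeff := by
  rw [lo_eq h (one_ne_zero) (p := p) (by rw [map_one, mul_one]; exact h1)]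
  have : (1 : k[X]).trailingCoeff = 1 := by
    rw [← C_1, tc_C]
  rw [this, div_one]

theorem lo_mul (h : IsRat k F t) (f g : Fˣ) : lo h (f * g) = lo h f * lo h g := by
  obtain ⟨p, q, hp, hq, h1⟩ := MTKM.exists_frac h f
  obtain ⟨p', q', hp', hq', h2⟩ := MTKM.exists_frac h g
  apply Units.ext
  rw [Units.val_mul, lo_eq h hq h1, lo_eq h hq' h2, lo_eq h (mul_ne_zero hq hq') (p := p * p') (by
    rw [map_mul, map_mul, Units.val_mul, ← h1, ← h2]; ring), trailingCoeff_mul, trailingCoeff_mul,
    div_mul_div_comm]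

theorem sym_neg_self {E : Type} [Field E] (x : Eˣ) : sym x (-x) = 0 := by
  by_cases h1 : (x : E) = 1
  · have : x = 1 := Units.ext h1
    rw [this]
    exact TRSM.sym_one_left _
  · have h2 : (1 : E) - x ≠ 0 := sub_ne_zero.2 (Ne.symm h1)
    have hx : (x : E) ≠ 0 := x.ne_zero
    have h3 : (1 : E) - (x : E)⁻¹ ≠ 0 := by
      intro h0
      rw [sub_eq_zero, eq_comm, inv_eq_one] at h0
      exact h1 h0
    have e1 : sym x (Units.mk0 _ h2) = 0 := TRSM.sym_steinberg _ _ (by rw [Units.val_mk0]; ring)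
    have e2 : sym x⁻¹ (Units.mk0 _ h3) = 0 :=
      TRSM.sym_steinberg _ _ (by rw [Units.val_mk0, Units.val_inv_eq_inv_val]; ring)
    have e3 : -x = Units.mk0 _ h2 * (Units.mk0 _ h3)⁻¹ := by
      rw [eq_mul_inv_iff_mul_eq]
      apply Units.ext
      rw [Units.val_mul, Units.val_neg, Units.val_mk0, Units.val_mk0]
      field_simp
      ring
    have e4 : sym x (Units.mk0 _ h3)⁻¹ = 0 := by
      have h4 := TRSM.sym_mul_left x x⁻¹ (Units.mk0 _ h3)
      rw [mul_inv_cancel, TRSM.sym_one_left, e2, add_zero] at h4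
      have h5 := TRSM.sym_mul_right x (Units.mk0 _ h3) (Units.mk0 _ h3)⁻¹
      rw [mul_inv_cancel, TRSM.sym_one_right, ← h4, zero_add] at h5
      exact h5.symm
    rw [e3, TRSM.sym_mul_right, e1, e4, add_zero]

theorem lo_steinberg (h : IsRat k F t) (f g : Fˣ) (hfg : (f : F) + (g : F) = 1) :
    sym (lo h f) (lo h g) = 0 := by
  obtain ⟨p₁, q₁, hp₁, hq₁, h1⟩ := MTKM.exists_frac h f
  obtain ⟨p₂, q₂, hp₂, hq₂, h2⟩ := MTKM.exists_frac h g
  -- common denominator
  obtain ⟨p, q, r, hp, hq, hr, e1, e2, e3⟩ : ∃ p q r : k[X], p ≠ 0 ∧ q ≠ 0 ∧ r ≠ 0 ∧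
      (f : F) * aeval t r = aeval t p ∧ (g : F) * aeval t r = aeval t q ∧ p + q = r := by
    refine ⟨p₁ * q₂, p₂ * q₁, q₁ * q₂, mul_ne_zero hp₁ hq₂, mul_ne_zero hp₂ hq₁,
      mul_ne_zero hq₁ hq₂, ?_, ?_, ?_⟩
    · rw [map_mul, map_mul, ← h1]; ring
    · rw [map_mul, map_mul, ← h2]; ring
    · apply MTKM.aeval_inj h
      rw [map_add, map_mul, map_mul, map_mul, ← h1, ← h2]
      linear_combination (aeval t q₁ * aeval t q₂) * hfg
  have l1 := lo_eq h hr e1
  have l2 := lo_eq h hr e2
  have tp : p.trailingCoeff ≠ 0 := by rwa [Ne, trailingCoeff_eq_zero]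
  have tq : q.trailingCoeff ≠ 0 := by rwa [Ne, trailingCoeff_eq_zero]
  have tr : r.trailingCoeff ≠ 0 := by rwa [Ne, trailingCoeff_eq_zero]
  rcases lt_trichotomy p.natTrailingDegree q.natTrailingDegree with hlt | heq | hgt
  · -- `lo f = 1`
    have h5 : r.trailingCoeff = p.trailingCoeff := by
      have h6 : r.coeff p.natTrailingDegree = p.trailingCoeff := by
        rw [← e3, coeff_add, coeff_eq_zero_of_lt_natTrailingDegree hlt, add_zero]
        rfl
      have h7 : r.natTrailingDegree = p.natTrailingDegree := by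
        apply le_antisymm
        · apply natTrailingDegree_le_of_ne_zero
          rw [h6]
          exact tp
        · by_contra hc
          push Not at hc
          apply tr
          unfold trailingCoeff
          rw [← e3, coeff_add, coeff_eq_zero_of_lt_natTrailingDegree (by rw [e3]; exact hc),
            coeff_eq_zero_of_lt_natTrailingDegree (by rw [e3]; omega), add_zero]
      unfold trailingCoeff
      rw [h7]
      exact h6
    have h6 : lo h f = 1 := Units.ext (by rw [l1, h5, div_self tp]; rfl)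
    rw [h6, TRSM.sym_one_left]
  · by_cases h5 : p.trailingCoeff + q.trailingCoeff = 0
    · have h6 : lo h g = -lo h f := by
        apply Units.ext
        rw [Units.val_neg, l1, l2, eq_neg_of_add_eq_zero_right h5]
        ring
      rw [h6]
      exact sym_neg_self _
    · have h6 : r.coeff p.natTrailingDegree = p.trailingCoeff + q.trailingCoeff := by
        rw [← e3, coeff_add]
        unfold trailingCoeff
        rw [← heq]
      have h7 : r.natTrailingDegree = p.natTrailingDegree := by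
        apply le_antisymm
        · apply natTrailingDegree_le_of_ne_zero
          rw [h6]
          exact h5
        · by_contra hc
          push Not at hc
          apply tr
          unfold trailingCoeff
          rw [← e3, coeff_add, coeff_eq_zero_of_lt_natTrailingDegree (by rw [e3]; exact hc),
            coeff_eq_zero_of_lt_natTrailingDegree (by rw [e3]; omega), add_zero]
      apply TRSM.sym_steinberg
      rw [l1, l2, ← add_div, ← h6, ← h7]
      exact div_self tr
  · have h5 : r.trailingCoeff = q.trailingCoeff := by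
      have h6 : r.coeff q.natTrailingDegree = q.trailingCoeff := by
        rw [← e3, coeff_add, coeff_eq_zero_of_lt_natTrailingDegree hgt, zero_add]
        rfl
      have h7 : r.natTrailingDegree = q.natTrailingDegree := by
        apply le_antisymm
        · apply natTrailingDegree_le_of_ne_zero
          rw [h6]
          exact tq
        · by_contra hc
          push Not at hc
          apply tr
          unfold trailingCoeff
          rw [← e3, coeff_add, coeff_eq_zero_of_lt_natTrailingDegree (by rw [e3]; omega),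
            coeff_eq_zero_of_lt_natTrailingDegree (by rw [e3]; exact hc), add_zero]
      unfold trailingCoeff
      rw [h7]
      exact h6
    have h6 : lo h g = 1 := Units.ext (by rw [l2, h5, div_self tq]; rfl)
    rw [h6, TRSM.sym_one_right]

/-- specialization at `t = 0` -/
noncomputable def sp (h : IsRat k F t) : K2 F →+ K2 k :=
  K2.lift (fun f g => sym (lo h f) (lo h g))
    (fun f f' g => by rw [lo_mul, TRSM.sym_mul_left])
    (fun f g g' => by rw [lo_mul, TRSM.sym_mul_right])
    (fun f g hfg => lo_steinberg h f g hfg)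

theorem sp_sym (h : IsRat k F t) (f g : Fˣ) : sp h (sym f g) = sym (lo h f) (lo h g) :=
  K2.lift_sym _ _ _ _ f g

theorem lo_um (h : IsRat k F t) (c : kˣ) : lo h (um k F c) = c := by
  apply Units.ext
  rw [lo_poly h (p := C (c : k)) (by rw [aeval_C]; rfl), tc_C]

theorem sp_mk2 (h : IsRat k F t) (β : K2 k) : sp h (mk2 k F β) = β := by
  have : (sp h).comp (mk2 k F) = AddMonoidHom.id _ := by
    apply K2.hom_ext
    intro f g
    rw [AddMonoidHom.comp_apply, ConstM.mapK_sym, sp_sym, lo_um, lo_um]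
    rfl
  exact DFunLike.congr_fun this β

/-- `MIL` with the finite places only, and a value at `t = 0`. -/
theorem tor_of (h : IsRat k F t) (α : K2 F) (h0 : sp h α = 0)
    (hα : ∀ π : k[X], π.Monic → Irreducible π → ∀ v : DVal F, IsPl t π v →
      ∃ N : ℕ, 0 < N ∧ N • tame v α = 0) :
    ∃ N : ℕ, 0 < N ∧ N • α = 0 := by
  classical
  have hfin := ram_finite h α
  have hex : ∀ π : k[X], ∃ N : ℕ, 0 < N ∧
      (π ∈ Ram k t α → ∀ v : DVal F, IsPl t π v → N • tame v α = 0) := by
    intro π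
    by_cases hπ : π ∈ Ram k t α
    · obtain ⟨hm, hi, v, hv, ht⟩ := hπ
      obtain ⟨N, hN, hN0⟩ := hα π hm hi v hv
      refine ⟨N, hN, fun _ w hw => ?_⟩
      rw [pl_unique h hw hv]
      exact hN0
    · exact ⟨1, one_pos, fun h0 => absurd h0 hπ⟩
  choose M hM0 hM using hex
  refine ⟨∏ π ∈ hfin.toFinset, M π, Finset.prod_pos fun π _ => hM0 π, ?_⟩
  have hMTK : SpecMTK := specMTK specMTS (specPLF specCON)
  obtain ⟨β, hβ⟩ := hMTK k F t h ((∏ π ∈ hfin.toFinset, M π) • α) fun π hm hi v hv => by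
    by_cases hπ : π ∈ Ram k t α
    · exact tame_nsmul' (hM π hπ v hv) (Finset.dvd_prod_of_mem M (hfin.mem_toFinset.2 hπ))
    · refine tame_nsmul _ ?_
      by_contra h0
      exact hπ ⟨hm, hi, v, hv, h0⟩
  have h1 := congrArg (sp h) hβ
  rw [sp_mk2, map_nsmul, h0, smul_zero] at h1
  rw [← hβ, h1, map_zero]

theorem rat (h : IsRat k F t) (H P : Fˣ) (c : k) (m n : ℕ) (p : k[X]) (hc : c ≠ 0) (hm : 0 < m)
    (hn : 0 < n) (hH : (H : F) = algebraMap k F c * t ^ m) (hp : Irreducible p)
    (hpd : p ∣ (cyclotomic n k).comp (C c * X ^ m))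
    (hP : (P : F) = aeval t (C (p.coeff 0)⁻¹ * p)) : ∃ N : ℕ, 0 < N ∧ N • sym P H = 0 := by
  have hpd' : p ∣ (C c * X ^ m) ^ n - 1 := by
    have h1 := map_dvd (Polynomial.compRingHom (C c * X ^ m)) (cyclotomic.dvd_X_pow_sub_one n k)
    rw [coe_compRingHom_apply, coe_compRingHom_apply, sub_comp, one_comp, X_pow_comp] at h1
    exact hpd.trans h1
  have hp0 : p.coeff 0 ≠ 0 := by
    intro h0
    have h1 : X ∣ p := X_dvd_iff.2 h0
    have h2 := X_dvd_iff.1 (h1.trans hpd')
    rw [coeff_zero_eq_eval_zero] at h2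
    simp [hm.ne', hn.ne'] at h2
  have hHp : (H : F) = aeval t (C c * X ^ m) := by
    rw [hH, map_mul, map_pow, aeval_C, aeval_X]
  refine tor_of h _ ?_ ?_
  · have h1 : lo h P = 1 := by
      apply Units.ext
      rw [lo_poly h hP, trailingCoeff_mul, tc_C, trailingCoeff,
        natTrailingDegree_eq_zero_of_constantCoeff_ne_zero (by rwa [constantCoeff_apply]),
        inv_mul_cancel₀ hp0]
      rfl
    rw [sp_sym, h1, TRSM.sym_one_left]
  · intro π hmo hi v hv
    have oP : v.ord P = (multiplicity π p : ℤ) := by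
      rw [hv _ P hP]
      have : Associated (C (p.coeff 0)⁻¹ * p) p :=
        associated_unit_mul_left _ _ (isUnit_C.2 (inv_ne_zero hp0).isUnit)
      rw [multiplicity_eq_of_associated_right this]
    have oH : v.ord H = (multiplicity π (C c * X ^ m : k[X]) : ℤ) := hv _ H hHp
    by_cases h1 : π ∣ p
    · -- the order of `H` is zero
      have h2 : ¬ π ∣ C c * X ^ m := by
        intro h3
        rcases hi.prime.dvd_or_dvd h3 with h4 | h4
        · exact hi.not_isUnit (isUnit_of_dvd_unit h4 (isUnit_C.2 hc.isUnit))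
        · have h5 := hi.prime.dvd_of_dvd_pow h4
          have h6 : Associated π X := hi.associated_of_dvd irreducible_X h5
          exact hp0 (X_dvd_iff.1 (h6.symm.dvd.trans h1))
      have oH0 : v.ord H = 0 := by
        rw [oH, multiplicity_eq_zero.2 h2]
        rfl
      refine ⟨n, hn, ?_⟩
      rw [← map_nsmul, ← TRSM.sym_pow_right, tame_sym_eq_zero]
      have h3 : v.IsOne (H ^ n) := by
        by_cases h4 : H ^ n = 1
        · left; exact h4
        · right
          have h5 : ((H ^ n : Fˣ) : F) - 1 ≠ 0 := by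
            intro h6
            apply h4
            apply Units.ext
            rw [Units.val_one]
            exact sub_eq_zero.1 h6
          refine ⟨Units.mk0 _ h5, rfl, ?_⟩
          have h6 : ((Units.mk0 _ h5 : Fˣ) : F) = aeval t ((C c * X ^ m) ^ n - 1) := by
            rw [Units.val_mk0, Units.val_pow_eq_pow_val, hHp, map_sub, map_one, map_pow]
          rw [hv _ _ h6]
          have h7 : (C c * X ^ m) ^ n - 1 ≠ (0 : k[X]) := by
            intro h8
            rw [h8, map_zero] at h6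
            exact h5 h6
          have h8 : FiniteMultiplicity π ((C c * X ^ m) ^ n - 1) :=
            FiniteMultiplicity.of_not_isUnit hi.not_isUnit h7
          have h9 : 1 ≤ multiplicity π ((C c * X ^ m) ^ n - 1) := by
            by_contra h10
            have h11 : multiplicity π ((C c * X ^ m) ^ n - 1) = 0 := by omega
            rw [multiplicity_eq_zero] at h11
            exact h11 (h1.trans hpd')
          exact_mod_cast h9
      unfold DVal.tameUnit
      rw [v.ord_pow, oH0, mul_zero, mul_zero, zpow_zero, one_mul, zpow_zero, one_mul]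
      exact (v.U1).zpow_mem h3 _
    · have oP0 : v.ord P = 0 := by
        rw [oP, multiplicity_eq_zero.2 h1]
        rfl
      refine ⟨1, one_pos, ?_⟩
      rw [one_nsmul, tame_sym_eq_zero]
      unfold DVal.tameUnit
      rw [oP0, zero_mul, zpow_zero, one_mul, neg_zero, zpow_zero, mul_one]
      by_cases h2 : π ∣ X
      · have h3 : v.IsOne P := by
          by_cases h4 : P = 1
          · left; exact h4
          · right
            have h5 : (P : F) - 1 ≠ 0 := by
              intro h6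
              apply h4
              apply Units.ext
              rw [Units.val_one]
              exact sub_eq_zero.1 h6
            refine ⟨Units.mk0 _ h5, rfl, ?_⟩
            have h6 : ((Units.mk0 _ h5 : Fˣ) : F) = aeval t (C (p.coeff 0)⁻¹ * p - 1) := by
              rw [Units.val_mk0, hP, map_sub, map_one]
            rw [hv _ _ h6]
            have h9 : 1 ≤ multiplicity π (C (p.coeff 0)⁻¹ * p - 1) := by
              by_contra h10
              have h11 : multiplicity π (C (p.coeff 0)⁻¹ * p - 1) = 0 := by omega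
              rw [multiplicity_eq_zero] at h11
              apply h11
              refine h2.trans (X_dvd_iff.2 ?_)
              rw [coeff_sub, coeff_C_mul, inv_mul_cancel₀ hp0, coeff_one_zero, sub_self]
            exact_mod_cast h9
        exact (v.U1).zpow_mem h3 _
      · have h3 : ¬ π ∣ C c * X ^ m := by
          intro h3
          rcases hi.prime.dvd_or_dvd h3 with h4 | h4
          · exact hi.not_isUnit (isUnit_of_dvd_unit h4 (isUnit_C.2 hc.isUnit))
          · exact h2 (hi.prime.dvd_of_dvd_pow h4)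
        have oH0 : v.ord H = 0 := by
          rw [oH, multiplicity_eq_zero.2 h3]
          rfl
        rw [oH0, zpow_zero]
        exact Or.inl rfl

end Sp

end TSKM

open TSKM

theorem specTSK : SpecTSK := by
  intro F K _ _ _ _ u h P c k n p hu hc hk hn hh hp hpd hP
  let L := IntermediateField.adjoin F {(u : K)}
  let t : L := ⟨(u : K), IntermediateField.mem_adjoin_simple_self F (u : K)⟩
  have hr : IsRat F L t := TWRM.isRat_adj hu
  have hut : ∀ q : F[X], algebraMap L K (aeval t q) = aeval (u : K) q := by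
    intro q
    rw [← aeval_algebraMap_apply]
    rfl
  have hH0 : algebraMap F L c * t ^ k ≠ 0 := by
    intro h0
    have h1 := congrArg (algebraMap L K) h0
    rw [map_zero, map_mul, map_pow] at h1
    apply h.ne_zero
    rw [hh]
    exact h1
  have hP0 : aeval t (C (p.coeff 0)⁻¹ * p) ≠ 0 := by
    intro h0
    have h1 := congrArg (algebraMap L K) h0
    rw [map_zero, hut, ← hP] at h1
    exact P.ne_zero h1
  obtain ⟨N, hN, h1⟩ := rat hr (Units.mk0 _ hH0) (Units.mk0 _ hP0) c k n p hc hk hn rfl hp hpd rfl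
  refine ⟨N, hN, ?_⟩
  have h2 := congrArg (mk2 L K) h1
  rw [map_nsmul, ConstM.mapK_sym, map_zero] at h2
  have e1 : um L K (Units.mk0 _ hP0) = P := by
    apply Units.ext
    rw [hP]
    exact hut _
  have e2 : um L K (Units.mk0 _ hH0) = h := by
    apply Units.ext
    rw [hh]
    rfl
  rw [← e1, ← e2]
  exact h2

end MP743d1e.CY
end
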