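import Pool.Agent.Lib.MP_743d1e_nt.CY.Spec
import Pool.Agent.Lib.MP_743d1e_nt.Kae
import Pool.Agent.Lib.MP_743d1e_nt.PlaceQ
import Pool.Agent.Lib.MP_743d1e_nt.Const
import Pool.Agent.Lib.MP_743d1e_nt.CY.SpecK
import Pool.Agent.Lib.MP_743d1e_nt.CY.TSK

section
/-!
# FNV: a nonconstant function has finitely many zeros and at least one zero
-/
set_option autoImplicit false

namespace MP743d1e.CY

open scoped BigOperators
open Polynomial IntermediateField MP743d1e.Integ

namespace FNVM

theorem dval_ext {K : Type} [Field K] {v w : DVal K} (h : v.ord = w.ord) : v = w := by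
  cases v; cases w; cases h; rfl

section

variable {K : Type} [Field K] (v : DVal K)

theorem nn_inv_or (f : K) : NN v f ∨ NN v f⁻¹ := by
  by_cases hf : f = 0
  · left; left; exact hf
  · rcases le_total 0 (v.ord (Units.mk0 f hf)) with h | h
    · left; right; exact ⟨_, rfl, h⟩
    · right; right
      refine ⟨(Units.mk0 f hf)⁻¹, by simp, ?_⟩
      rw [v.ord_inv]; omega

/-- The valuation ring. -/
def vsub : ValuationSubring K where
  carrier := {f | NN v f}
  mul_mem' := nn_mul
  one_mem' := nn_one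
  add_mem' := nn_add
  zero_mem' := nn_zero
  neg_mem' := nn_neg
  mem_or_inv_mem' := nn_inv_or v

variable {v}

theorem nn_of_isIntegral {A : Type} [CommRing A] [Algebra A K]
    (hA : ∀ a : A, NN v (algebraMap A K a)) {b : K} (hb : IsIntegral A b) : NN v b := by
  have h1 : IsIntegral (vsub v) b := by
    obtain ⟨p, hp, hpb⟩ := hb
    let j : A →+* vsub v := (algebraMap A K).codRestrict (vsub v).toSubring hA
    refine ⟨p.map j, hp.map j, ?_⟩
    rw [eval₂_map]
    have : (algebraMap (vsub v) K).comp j = algebraMap A K := by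
      ext a; rfl
    rw [this]
    exact hpb
  obtain ⟨y, hy⟩ := IsIntegrallyClosed.isIntegral_iff.mp h1
  rw [← hy]
  exact y.2

theorem nn_const {F : Type} [Field F] [Algebra F K] (hg : GeoF F v) (c : F) :
    NN v (algebraMap F K c) := by
  by_cases hc : c = 0
  · left; rw [hc, map_zero]
  · have h0 : algebraMap F K c ≠ 0 := by
      rwa [Ne, map_eq_zero]
    refine Or.inr ⟨Units.mk0 _ h0, rfl, ?_⟩
    rw [hg _ ⟨c, rfl⟩]

theorem nn_adjoin {F : Type} [Field F] [Algebra F K] (hg : GeoF F v) {u : K} (hu : NN v u)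
    (a : Algebra.adjoin F ({u} : Set K)) : NN v (algebraMap _ K a) := by
  obtain ⟨a, ha⟩ := a
  show NN v a
  induction ha using Algebra.adjoin_induction with
  | mem x hx => rw [Set.mem_singleton_iff] at hx; rwa [hx]
  | algebraMap r => exact nn_const hg r
  | add x y _ _ hx hy => exact nn_add hx hy
  | mul x y _ _ hx hy => exact nn_mul hx hy

theorem ord_of_nn_not_pos {f : K} (h : NN v f) (h' : ¬ Pos v f) :
    ∃ u : Kˣ, (u : K) = f ∧ v.ord u = 0 := by
  rcases h with h | ⟨u, hu, h0⟩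
  · exact absurd (Or.inl h) h'
  · refine ⟨u, hu, ?_⟩
    by_contra h1
    exact h' (Or.inr ⟨u, hu, by omega⟩)

/-- A discrete valuation that is nonnegative on a Dedekind domain and positive on a nonzero prime is
the valuation of this prime. -/
theorem eq_dval {O : Type} [CommRing O] [IsDedekindDomain O] [Algebra O K] [IsFractionRing O K]
    (hO : ∀ b : O, NN v (algebraMap O K b)) (P : IsDedekindDomain.HeightOneSpectrum O)
    (hP : ∀ b : O, Pos v (algebraMap O K b) → b ∈ P.asIdeal) : v = PlaceQ.dval P := by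
  set w : DVal K := PlaceQ.dval P with hw
  have h1 : ∀ x : Kˣ, 0 ≤ w.ord x → 0 ≤ v.ord x := by
    intro x hx
    have hx0 : P.valuation K (x : K) ≠ 0 := (Valuation.ne_zero_iff _).mpr x.ne_zero
    have hx1 : P.valuation K (x : K) ≤ 1 := by
      have h2 : WithZero.log (P.valuation K (x : K)) ≤ 0 := by
        have : w.ord x = -(WithZero.log (P.valuation K (x : K))) := rfl
        omega
      rwa [← WithZero.log_one, WithZero.log_le_log hx0 one_ne_zero] at h2
    obtain ⟨n, d, hnd⟩ := P.exists_primeCompl_mul_eq_of_integer (x : K) hx1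
    have hd : ¬ Pos v (algebraMap O K (d : O)) := fun h => d.2 (hP _ h)
    obtain ⟨d', hd', hd0⟩ := ord_of_nn_not_pos (hO (d : O)) hd
    have hn : NN v ((x * d' : Kˣ) : K) := by
      rw [Units.val_mul, hd', hnd]; exact hO n
    rw [nn_unit, v.ord_mul, hd0] at hn
    omega
  have h2 : ∀ x : Kˣ, w.ord x = 0 → v.ord x = 0 := by
    intro x hx
    have h3 := h1 x hx.ge
    have h4 := h1 x⁻¹ (by rw [w.ord_inv]; omega)
    rw [v.ord_inv] at h4
    omega
  obtain ⟨π, hπ⟩ := w.surj 1
  have hpos : 0 ≤ v.ord π := h1 π (by rw [hπ]; norm_num)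
  have h3 : ∀ x : Kˣ, v.ord x = w.ord x * v.ord π := by
    intro x
    have := h2 (x * π ^ (-(w.ord x))) (by rw [w.ord_mul, w.ord_zpow, hπ]; ring)
    rw [v.ord_mul, v.ord_zpow] at this
    linarith
  obtain ⟨y, hy⟩ := v.surj 1
  have h4 := h3 y
  rw [hy] at h4
  have h5 : v.ord π = 1 := by
    have : v.ord π ∣ 1 := ⟨w.ord y, by rw [h4]; ring⟩
    exact Int.eq_one_of_dvd_one hpos this
  apply dval_ext
  funext x
  rw [h3 x, h5, mul_one]

/-- The prime of `v` in a ring on which it is nonnegative. -/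
def pr {O : Type} [CommRing O] [Algebra O K] (hO : ∀ b : O, NN v (algebraMap O K b)) : Ideal O where
  carrier := {b | Pos v (algebraMap O K b)}
  add_mem' := by
    intro a b ha hb
    show Pos v (algebraMap O K (a + b))
    rw [map_add]
    rcases ha with ha | ⟨u, hu, h1⟩
    · rw [ha, zero_add]; exact hb
    rcases hb with hb | ⟨w, hw, h2⟩
    · rw [hb, add_zero]; exact Or.inr ⟨u, hu, h1⟩
    by_cases h0 : algebraMap O K a + algebraMap O K b = 0
    · left; exact h0
    · refine Or.inr ⟨Units.mk0 _ h0, rfl, ?_⟩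
      have := v.ord_add u w (Units.mk0 _ h0) (by rw [hu, hw]; rfl)
      have h3 : 1 ≤ min (v.ord u) (v.ord w) := le_min h1 h2
      omega
  zero_mem' := by left; exact map_zero _
  smul_mem' := by
    intro c x hx
    show Pos v (algebraMap O K (c * x))
    rw [map_mul, mul_comm]
    exact pos_mul_nn hx (hO c)

theorem mem_pr {O : Type} [CommRing O] [Algebra O K] (hO : ∀ b : O, NN v (algebraMap O K b))
    (b : O) : b ∈ pr hO ↔ Pos v (algebraMap O K b) := Iff.rfl

theorem pr_prime {O : Type} [CommRing O] [Algebra O K] (hO : ∀ b : O, NN v (algebraMap O K b)) :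
    (pr hO).IsPrime := by
  refine ⟨?_, ?_⟩
  · intro h
    have : (1 : O) ∈ pr hO := by rw [h]; trivial
    rw [mem_pr, map_one] at this
    have h1 := pos_unit (v := v) (u := (1 : Kˣ))
    rw [Units.val_one] at h1
    have := h1.1 this
    rw [v.ord_one] at this
    omega
  · intro a b hab
    by_contra hc
    rw [not_or] at hc
    obtain ⟨a', ha', ha0⟩ := ord_of_nn_not_pos (hO a) hc.1
    obtain ⟨b', hb', hb0⟩ := ord_of_nn_not_pos (hO b) hc.2
    rw [mem_pr, map_mul, ← ha', ← hb', ← Units.val_mul, pos_unit, v.ord_mul, ha0, hb0] at hab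
    omega

end

end FNVM

open FNVM

open scoped IntermediateField.algebraAdjoinAdjoin

theorem specFNV : SpecFNV := by
  intro F K _ _ _ _ x hfin u hu
  have hfinu : FiniteDimensional F⟮(u : K)⟯ K := PlaceQ.finite_adjoin x hfin u hu
  let A := Algebra.adjoin F ({(u : K)} : Set K)
  let e : Polynomial F ≃ₐ[F] A := Polynomial.algEquivOfTranscendental F (u : K) hu
  have hpid : IsPrincipalIdealRing A :=
    IsPrincipalIdealRing.of_surjective (e : Polynomial F →+* A) e.surjective
  have hdedA : IsDedekindDomain A := inferInstance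
  have hchar : CharZero F⟮(u : K)⟯ := inferInstance
  have hsep : Algebra.IsSeparable F⟮(u : K)⟯ K := inferInstance
  have hded : IsDedekindDomain (integralClosure A K) :=
    IsIntegralClosure.isDedekindDomain A F⟮(u : K)⟯ K (integralClosure A K)
  have hfrac : IsFractionRing (integralClosure A K) K :=
    integralClosure.isFractionRing_of_finite_extension F⟮(u : K)⟯ K
  let a : A := ⟨(u : K), Algebra.self_mem_adjoin_singleton F (u : K)⟩
  let b : integralClosure A K := algebraMap A (integralClosure A K) a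
  have hbu : algebraMap (integralClosure A K) K b = (u : K) := rfl
  have hb0 : b ≠ 0 := by
    intro h
    rw [h, map_zero] at hbu
    exact u.ne_zero hbu.symm
  refine ⟨?_, ?_⟩
  · have hI : Ideal.span {b} ≠ ⊥ := by
      rwa [Ne, Ideal.span_singleton_eq_bot]
    have hf := Ideal.finite_factors hI
    refine (hf.image PlaceQ.dval).subset ?_
    rintro v ⟨hg, hpos⟩
    have hA : ∀ a : A, NN v (algebraMap A K a) := fun a => nn_adjoin hg (nn_unit.2 hpos.le) a
    have hO : ∀ c : integralClosure A K, NN v (algebraMap (integralClosure A K) K c) :=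
      fun c => nn_of_isIntegral hA c.2
    have hmem : b ∈ pr hO := by
      rw [mem_pr, hbu, pos_unit]; omega
    let P : IsDedekindDomain.HeightOneSpectrum (integralClosure A K) :=
      ⟨pr hO, pr_prime hO, fun h => hb0 (by rwa [h, Ideal.mem_bot] at hmem)⟩
    refine ⟨P, ?_, ?_⟩
    · show P.asIdeal ∣ Ideal.span {b}
      rw [Ideal.dvd_iff_le, Ideal.span_singleton_le_iff_mem]
      exact hmem
    · exact (eq_dval hO P fun c hc => hc).symm
  · have ha : ¬ IsUnit a := by
      intro h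
      have hX : e Polynomial.X = a := Polynomial.algEquivOfTranscendental_apply_X F (u : K) hu
      rw [← hX] at h
      have h2 : IsUnit (e.symm (e Polynomial.X)) := h.map e.symm
      rw [e.symm_apply_apply] at h2
      exact Polynomial.not_isUnit_X h2
    have hint : Algebra.IsIntegral A (integralClosure A K) := inferInstance
    have hloc : IsLocalHom (algebraMap A (integralClosure A K)) := inferInstance
    have hnu : b ∈ nonunits (integralClosure A K) := fun h => ha (hloc.map_nonunit a h)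
    obtain ⟨P, hP, hmem⟩ := exists_max_ideal_of_mem_nonunits hnu
    have hPbot : P ≠ ⊥ := by
      intro h
      rw [h, Ideal.mem_bot] at hmem
      exact hb0 hmem
    let v : IsDedekindDomain.HeightOneSpectrum (integralClosure A K) := ⟨P, hP.isPrime, hPbot⟩
    refine ⟨PlaceQ.dval v, ?_, ?_⟩
    · intro c hc
      obtain ⟨r, hr⟩ := hc
      have hle : ∀ s : F, v.valuation K (algebraMap F K s) ≤ 1 := by
        intro s
        have : algebraMap F K s =
            algebraMap (integralClosure A K) K (algebraMap F (integralClosure A K) s) := rfl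
        rw [this]
        exact v.valuation_le_one _
      have hr0 : r ≠ 0 := by
        intro h
        rw [h, map_zero] at hr
        exact c.ne_zero hr
      have h1 := hle r
      have h2 := hle r⁻¹
      rw [map_inv₀, map_inv₀] at h2
      have hv0 : v.valuation K (algebraMap F K r) ≠ 0 := by
        rw [← hr]
        exact (Valuation.ne_zero_iff _).mpr c.ne_zero
      have h3 : v.valuation K (algebraMap F K r) = 1 := by
        apply le_antisymm h1
        rwa [inv_le_one₀ (zero_lt_iff.mpr hv0)] at h2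
      show -(WithZero.log (v.valuation K (c : K))) = 0
      rw [hr, h3, WithZero.log_one, neg_zero]
    · show 0 < -(WithZero.log (v.valuation K (u : K)))
      have h1 : v.valuation K (algebraMap (integralClosure A K) K b) < 1 :=
        (v.valuation_lt_one_iff_mem _).mpr hmem
      rw [hbu] at h1
      have h3 := (WithZero.log_lt_log ((Valuation.ne_zero_iff (v.valuation K)).mpr u.ne_zero)
        one_ne_zero).mpr h1
      rw [WithZero.log_one] at h3
      omega

end MP743d1e.CY
end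

section
/-!
# ASB: lemmas for ASM
-/
set_option autoImplicit false

namespace MP743d1e.CY

open scoped BigOperators
open Polynomial IntermediateField MP743d1e.Integ MP743d1e.ConstM

namespace ASMM

/-! ## Torsion -/

section Tor

variable {M : Type} [AddCommGroup M]

/-- The torsion elements. -/
def tor (M : Type) [AddCommGroup M] : AddSubgroup M where
  carrier := {β | ∃ N : ℕ, 0 < N ∧ N • β = 0}
  zero_mem' := ⟨1, one_pos, smul_zero _⟩
  add_mem' := by
    rintro a b ⟨N, hN, ha⟩ ⟨N', hN', hb⟩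
    refine ⟨N * N', Nat.mul_pos hN hN', ?_⟩
    rw [nsmul_add, mul_nsmul, ha, smul_zero, mul_nsmul', hb, smul_zero, add_zero]
  neg_mem' := by
    rintro a ⟨N, hN, ha⟩
    exact ⟨N, hN, by rw [smul_neg, ha, neg_zero]⟩

theorem mem_tor {β : M} : β ∈ tor M ↔ ∃ N : ℕ, 0 < N ∧ N • β = 0 := Iff.rfl

theorem tor_of_nsmul {β : M} {n : ℕ} (hn : 0 < n) (h : n • β ∈ tor M) : β ∈ tor M := by
  obtain ⟨N, hN, h⟩ := h
  exact ⟨n * N, Nat.mul_pos hn hN, by rw [mul_nsmul, h]⟩

theorem tor_of_zsmul {β : M} {n : ℤ} (hn : n ≠ 0) (h : n • β ∈ tor M) : β ∈ tor M := by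
  rcases Int.natAbs_eq n with h1 | h1
  · rw [h1, natCast_zsmul] at h
    exact tor_of_nsmul (Int.natAbs_pos.2 hn) h
  · rw [h1, neg_zsmul, natCast_zsmul, neg_mem_iff] at h
    exact tor_of_nsmul (Int.natAbs_pos.2 hn) h

theorem tor_map {M' : Type} [AddCommGroup M'] (φ : M →+ M') {β : M} (h : β ∈ tor M) :
    φ β ∈ tor M' := by
  obtain ⟨N, hN, h⟩ := h
  exact ⟨N, hN, by rw [← map_nsmul, h, map_zero]⟩

end Tor

section

variable {K : Type} [Field K]

theorem sym_pow_left (g h : Kˣ) (n : ℕ) : sym (g ^ n) h = n • sym g h := by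
  induction n with
  | zero => rw [pow_zero, sym_one_left, zero_nsmul]
  | succ n ih => rw [pow_succ, sym_mul_left, ih, succ_nsmul]

theorem sym_zpow_left (g h : Kˣ) (n : ℤ) : sym (g ^ n) h = n • sym g h := by
  rcases Int.eq_nat_or_neg n with ⟨k, rfl | rfl⟩
  · rw [zpow_natCast, sym_pow_left, natCast_zsmul]
  · rw [zpow_neg, zpow_natCast, sym_inv_left, sym_pow_left, neg_smul, natCast_zsmul]

theorem sym_prod_left {ι : Type} (s : Finset ι) (g : ι → Kˣ) (h : Kˣ) :
    sym (∏ i ∈ s, g i) h = ∑ i ∈ s, sym (g i) h := by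
  classical
  induction s using Finset.induction_on with
  | empty => rw [Finset.prod_empty, Finset.sum_empty, sym_one_left]
  | insert i s hi ih => rw [Finset.prod_insert hi, Finset.sum_insert hi, sym_mul_left, ih]

theorem ord_prod (v : DVal K) {ι : Type} (s : Finset ι) (g : ι → Kˣ) :
    v.ord (∏ i ∈ s, g i) = ∑ i ∈ s, v.ord (g i) := by
  classical
  induction s using Finset.induction_on with
  | empty => rw [Finset.prod_empty, Finset.sum_empty, v.ord_one]
  | insert i s hi ih => rw [Finset.prod_insert hi, Finset.sum_insert hi, v.ord_mul, ih]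

theorem tor_tame_iff (v : DVal K) (f g : Kˣ) :
    tame v (sym f g) ∈ tor _ ↔ ∃ N : ℕ, 0 < N ∧ (v.tameUnit f g) ^ N ∈ v.U1 := by
  rw [mem_tor]
  refine exists_congr fun N => and_congr_right fun _ => ?_
  rw [tame_sym, ← QuotientGroup.eq_one_iff, QuotientGroup.mk_pow]
  rfl

theorem pos_of_zpow_mem {v : DVal K} {w : Kˣ} {m : ℤ} (h : w ^ m ∈ v.U1) :
    Pos v ((w : K) ^ m.natAbs - 1) := by
  have h1 : w ^ m.natAbs ∈ v.U1 := by
    rcases Int.natAbs_eq m with h2 | h2
    · rw [h2, zpow_natCast] at h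
      exact h
    · rw [h2, zpow_neg, zpow_natCast] at h
      exact inv_mem_iff.1 h
  rcases h1 with h2 | ⟨u, hu, h2⟩
  · left
    have := congrArg Units.val h2
    rw [Units.val_pow_eq_pow_val, Units.val_one] at this
    rw [this, sub_self]
  · right
    rw [Units.val_pow_eq_pow_val] at hu
    exact ⟨u, hu.symm, h2⟩

/-- The tame symbol where `h` is a unit. -/
theorem pos_of_tame {v : DVal K} {f h : Kˣ} (hh : v.ord h = 0) (hf : v.ord f ≠ 0)
    (ht : tame v (sym f h) ∈ tor _) : ∃ k : ℕ, 0 < k ∧ Pos v ((h : K) ^ k - 1) := by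
  rw [tor_tame_iff] at ht
  obtain ⟨N, hN, h1⟩ := ht
  have h2 : v.tameUnit f h = h ^ (-(v.ord f)) := by
    unfold DVal.tameUnit
    rw [hh, mul_zero, zpow_zero, zpow_zero, one_mul, one_mul]
  rw [h2, ← zpow_natCast, ← zpow_mul] at h1
  refine ⟨_, ?_, pos_of_zpow_mem h1⟩
  rw [Int.natAbs_pos]
  have : (N : ℤ) ≠ 0 := by exact_mod_cast hN.ne'
  exact mul_ne_zero (neg_ne_zero.2 hf) this

/-- The tame symbol of a constant. -/
theorem pos_of_tame_const {v : DVal K} {c h : Kˣ} (hc : v.ord c = 0) (hh : v.ord h ≠ 0)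
    (ht : tame v (sym c h) ∈ tor _) : ∃ k : ℕ, 0 < k ∧ Pos v ((c : K) ^ k - 1) := by
  rw [tor_tame_iff] at ht
  obtain ⟨N, hN, h1⟩ := ht
  have h2 : v.tameUnit c h = c ^ (v.ord h) := by
    unfold DVal.tameUnit
    rw [hc, zero_mul, zpow_zero, neg_zero, zpow_zero, one_mul, mul_one]
  rw [h2, ← zpow_natCast, ← zpow_mul] at h1
  refine ⟨_, ?_, pos_of_zpow_mem h1⟩
  rw [Int.natAbs_pos]
  have : (N : ℤ) ≠ 0 := by exact_mod_cast hN.ne'
  exact mul_ne_zero hh this

end

/-! ## Polynomials in `h` -/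

section Poly

variable {F K : Type} [Field F] [Field K] [Algebra F K] {v : DVal K} {h : K}

theorem nn_aeval (hg : GeoF F v) (hh : NN v h) (q : F[X]) : NN v (aeval h q) := by
  have : aeval h q ∈ Algebra.adjoin F ({h} : Set K) := aeval_mem_adjoin_singleton F h
  exact FNVM.nn_adjoin hg hh ⟨_, this⟩

theorem not_pos_const (hg : GeoF F v) {c : F} (hc : c ≠ 0) : ¬ Pos v (algebraMap F K c) := by
  have h0 : algebraMap F K c ≠ 0 := by rwa [Ne, map_eq_zero]
  have h1 : v.ord (Units.mk0 _ h0) = 0 := hg _ ⟨c, rfl⟩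
  intro hp
  have := (pos_unit (v := v) (u := Units.mk0 _ h0)).1 hp
  omega

/-- The prime ideal of the polynomials that vanish at the point. -/
noncomputable def pid (hg : GeoF F v) (hh : NN v h) : Ideal F[X] :=
  (FNVM.pr (fun a => FNVM.nn_adjoin hg hh a)).comap
    (aeval (⟨h, Algebra.self_mem_adjoin_singleton F h⟩ : Algebra.adjoin F ({h} : Set K)) :
      F[X] →ₐ[F] Algebra.adjoin F ({h} : Set K))

theorem mem_pid (hg : GeoF F v) (hh : NN v h) (q : F[X]) : q ∈ pid hg hh ↔ Pos v (aeval h q) := by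
  unfold pid
  rw [Ideal.mem_comap, FNVM.mem_pr]
  have : algebraMap (Algebra.adjoin F ({h} : Set K)) K
      (aeval (⟨h, Algebra.self_mem_adjoin_singleton F h⟩ : Algebra.adjoin F ({h} : Set K)) q) =
      aeval h q := by
    rw [← aeval_algebraMap_apply]
    rfl
  erw [this]

theorem pid_prime (hg : GeoF F v) (hh : NN v h) : (pid hg hh).IsPrime := by
  have := FNVM.pr_prime (v := v)
    (fun a : Algebra.adjoin F ({h} : Set K) => FNVM.nn_adjoin hg hh a)
  exact Ideal.comap_isPrime _ _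

/-- If `h ^ k - 1` vanishes at the point so does a factor of a cyclotomic polynomial. -/
theorem exists_factor (hg : GeoF F v) (hh : NN v h) {k : ℕ} (hk : 0 < k)
    (hpos : Pos v (h ^ k - 1)) : ∃ (n : ℕ) (p : F[X]), 0 < n ∧ p.Monic ∧ Irreducible p ∧
      p ∣ cyclotomic n F ∧ Pos v (aeval h p) ∧ Pos v (aeval h (cyclotomic n F)) := by
  classical
  have h1 : (∏ i ∈ Nat.divisors k, cyclotomic i F) ∈ pid hg hh := by
    rw [prod_cyclotomic_eq_X_pow_sub_one hk, mem_pid]
    simpa using hpos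
  have hP := pid_prime hg hh
  rw [hP.prod_mem_iff] at h1
  obtain ⟨n, hn, hmem⟩ := h1
  have hn0 : 0 < n := Nat.pos_of_mem_divisors hn
  have hne : pid hg hh ≠ ⊥ := by
    intro h0
    rw [h0, Ideal.mem_bot] at hmem
    exact cyclotomic_ne_zero n F hmem
  set g := Submodule.IsPrincipal.generator (pid hg hh) with hgdef
  have hg1 : Prime g := Submodule.IsPrincipal.prime_generator_of_isPrime _ hne
  have hassoc : Associated g (normalize g) := (normalize_associated g).symm
  have hgm : g ∈ pid hg hh := Submodule.IsPrincipal.generator_mem _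
  have hdvd : g ∣ cyclotomic n F := (Submodule.IsPrincipal.mem_iff_generator_dvd _).1 hmem
  refine ⟨n, normalize g, hn0, monic_normalize hg1.ne_zero, hassoc.irreducible hg1.irreducible,
    hassoc.symm.dvd.trans hdvd, ?_, (mem_pid hg hh _).1 hmem⟩
  rw [← mem_pid hg hh]
  obtain ⟨u, hu⟩ := hassoc
  rw [← hu]
  exact Ideal.mul_mem_right _ _ hgm

/-- The order of a monic polynomial in `h` at a pole of `h`. -/
theorem ord_at_pole (hg : GeoF F v) (hu : Kˣ) (hneg : v.ord hu < 0) {p : F[X]} (hp : p.Monic)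
    (P : Kˣ) (hP : (P : K) = aeval (hu : K) p) : v.ord P = p.natDegree * v.ord hu := by
  let _ : Invertible (hu : K) := invertibleOfNonzero hu.ne_zero
  have h1 := eval₂_reverse_mul_pow (algebraMap F K) (hu : K) p
  rw [← aeval_def, ← aeval_def, ← hP, invOf_eq_inv] at h1
  have hinv : 1 ≤ v.ord hu⁻¹ := by rw [v.ord_inv]; omega
  have hk : Pos v ((hu : K)⁻¹) := by
    rw [← Units.val_inv_eq_inv_val, pos_unit]
    exact hinv
  have hk' : NN v ((hu : K)⁻¹) := by
    rw [← Units.val_inv_eq_inv_val, nn_unit]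
    omega
  have h2 : aeval (hu : K)⁻¹ p.reverse - 1 =
      (hu : K)⁻¹ * aeval (hu : K)⁻¹ p.reverse.divX := by
    have h3 := congrArg (aeval (hu : K)⁻¹) (X_mul_divX_add p.reverse)
    rw [map_add, map_mul, aeval_X, aeval_C, coeff_zero_reverse, hp.leadingCoeff, map_one] at h3
    rw [← h3]
    ring
  have h4 : Pos v (aeval (hu : K)⁻¹ p.reverse - 1) := by
    rw [h2]
    exact pos_mul_nn hk (nn_aeval hg hk' _)
  set w : Kˣ := P * (hu ^ p.natDegree)⁻¹ with hw
  have hwv : (w : K) = aeval (hu : K)⁻¹ p.reverse := by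
    rw [hw, Units.val_mul, ← h1, Units.val_inv_eq_inv_val, Units.val_pow_eq_pow_val]
    field_simp
  have h5 : v.ord w = 0 := v.ord_eq_zero_of_isOne (isOne_of_pos (by rw [hwv]; exact h4))
  rw [hw, v.ord_mul, v.ord_inv, v.ord_pow] at h5
  linarith

end Poly

end ASMM

end MP743d1e.CY
end

section
/-!
# ASM: assembly
-/
set_option autoImplicit false

namespace MP743d1e.CY

open scoped BigOperators
open Polynomial IntermediateField MP743d1e.Integ MP743d1e.ConstM

namespace ASMM

section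

variable {F K : Type} [Field F] [CharZero F] [Field K] [Algebra F K]

omit [CharZero F] in
theorem torTame_of_tor {β : K2 K} (h : β ∈ tor (K2 K)) : TorTameF F β := by
  obtain ⟨N, hN, h⟩ := h
  exact fun v _ => ⟨N, hN, by rw [← map_nsmul, h, map_zero]⟩

omit [CharZero F] in
theorem transc_aeval {h : K} (hh : Transcendental F h) {q : F[X]} (hq : q.natDegree ≠ 0) :
    Transcendental F (aeval h q) := by
  refine hh.aeval q hq (mem_nonZeroDivisors_of_ne_zero ?_)
  rw [Ne, leadingCoeff_eq_zero]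
  rintro rfl
  simp at hq

/-- The set of zeros and poles is finite. -/
theorem supp_finite (hFNV : SpecFNV) (x : K) (hfin : FiniteDimensional F⟮x⟯ K) (f : Kˣ) :
    {v : DVal K | GeoF F v ∧ v.ord f ≠ 0}.Finite := by
  by_cases hf : Transcendental F (f : K)
  · have hf' : Transcendental F ((f⁻¹ : Kˣ) : K) := by
      intro h
      apply hf
      rw [Units.val_inv_eq_inv_val] at h
      simpa using h.inv
    refine ((hFNV F K x hfin f hf).1.union (hFNV F K x hfin f⁻¹ hf').1).subset ?_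
    rintro v ⟨hg, h0⟩
    rcases lt_or_gt_of_ne h0 with h1 | h1
    · right
      exact ⟨hg, by rw [v.ord_inv]; omega⟩
    · left
      exact ⟨hg, h1⟩
  · convert Set.finite_empty (α := DVal K)
    ext v
    simp only [Set.mem_ofPred_eq, Set.mem_empty_iff_false, iff_false, not_and, not_not]
    intro hg
    -- an algebraic element has order zero
    have hf1 : IsAlgebraic F (f : K) := by
      by_contra h
      exact hf h
    have key : ∀ g : Kˣ, IsIntegral F (g : K) → 0 ≤ v.ord g := by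
      intro g hi
      exact nn_unit.1 (FNVM.nn_of_isIntegral (fun a => FNVM.nn_const hg a) hi)
    have h1 := key f hf1.isIntegral
    have h2 := key f⁻¹ (by
      rw [Units.val_inv_eq_inv_val]
      exact hf1.inv.isIntegral)
    rw [v.ord_inv] at h2
    omega

/-- The main argument. -/
theorem core (hPUQ : SpecPUQ) (hFNV : SpecFNV) (hTRS : SpecTRS) (φ : F →+* ℂ) (h : Kˣ)
    (hφ : ∀ x, φ x ∈ Qab)
    (hF : (∀ x : F, ∃ q : ℚ, x = q) ∨ ∀ n : ℕ, 0 < n → ∃ ζ : F, IsPrimitiveRoot ζ n)
    (hh : Transcendental F (h : K)) (hfin : FiniteDimensional F⟮(h : K)⟯ K)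
    (hc : ∀ z : K, IsAlgebraic F z → ∃ c : F, z = algebraMap F K c)
    (hprim : ∀ (m : ℕ) (c : F) (v : K), 2 ≤ m → (h : K) ≠ algebraMap F K c * v ^ m) :
    ∃ S : Set (DVal K), S.Finite ∧ (∀ v ∈ S, GeoF F v) ∧ ∀ f : Kˣ, TorTameF F (sym f h) →
      (∀ v ∈ S, v.ord f = 0) → sym f h ∈ tor (K2 K) := by
  classical
  obtain ⟨N, hN⟩ := hPUQ F K φ (h : K) hφ hh hfin hc hprim
  have hh' : Transcendental F ((h⁻¹ : Kˣ) : K) := by
    intro h1
    apply hh
    rw [Units.val_inv_eq_inv_val] at h1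
    simpa using h1.inv
  have hcyc : ∀ n : ℕ, 0 < n → Transcendental F (aeval (h : K) (cyclotomic n F)) := by
    intro n hn
    apply transc_aeval hh
    rw [natDegree_cyclotomic]
    exact (Nat.totient_pos.2 hn).ne'
  refine ⟨{v | GeoF F v ∧ v.ord h ≠ 0} ∪
    ⋃ n ∈ Finset.Icc 1 N, {v | GeoF F v ∧ Pos v (aeval (h : K) (cyclotomic n F))}, ?_, ?_, ?_⟩
  · refine (supp_finite hFNV (h : K) hfin h).union ?_
    refine Set.Finite.biUnion (Finset.finite_toSet _) ?_
    intro n hn
    have hn1 : 0 < n := by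
      have := Finset.mem_coe.1 hn
      rw [Finset.mem_Icc] at this
      omega
    have ht := hcyc n hn1
    have h0 : aeval (h : K) (cyclotomic n F) ≠ 0 := by
      intro h0
      rw [h0] at ht
      exact ht (isAlgebraic_zero)
    refine (hFNV F K (h : K) hfin (Units.mk0 _ h0) ht).1.subset ?_
    rintro v ⟨hg, hp⟩
    refine ⟨hg, ?_⟩
    have := (pos_unit (v := v) (u := Units.mk0 _ h0)).1 hp
    omega
  · rintro v (hv | hv)
    · exact hv.1
    · simp only [Set.mem_iUnion] at hv
      obtain ⟨n, hn, hv⟩ := hv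
      exact hv.1
  intro f htt hS
  have hS1 : ∀ v : DVal K, GeoF F v → v.ord h ≠ 0 → v.ord f = 0 := fun v hg h0 =>
    hS v (Or.inl ⟨hg, h0⟩)
  have hS2 : ∀ v : DVal K, GeoF F v → ∀ n : ℕ, 0 < n → n ≤ N →
      Pos v (aeval (h : K) (cyclotomic n F)) → v.ord f = 0 := by
    intro v hg n hn hnN hp
    apply hS v
    right
    simp only [Set.mem_iUnion]
    exact ⟨n, by rw [Finset.mem_Icc]; omega, hg, hp⟩
  have hTfin := supp_finite hFNV (h : K) hfin f
  set T : Finset (DVal K) := hTfin.toFinset with hT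
  have hTm : ∀ v : DVal K, v ∈ T ↔ GeoF F v ∧ v.ord f ≠ 0 := by
    intro v
    rw [hT, Set.Finite.mem_toFinset]
    rfl
  -- the factor at each point of `T`
  have hex : ∀ v : DVal K, ∃ (P : Kˣ) (d : ℕ), v ∈ T → 0 < v.ord P ∧ sym P h ∈ tor (K2 K) ∧
      (∀ w : DVal K, GeoF F w → 0 ≤ w.ord h → 0 ≤ w.ord P) ∧
      (∀ w : DVal K, GeoF F w → 0 < w.ord P → w = v) ∧
      (∀ w : DVal K, GeoF F w → w.ord h < 0 → w.ord P = d * w.ord h) := by
    intro v
    by_cases hv : v ∈ T
    swap
    · exact ⟨1, 0, fun h' => absurd h' hv⟩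
    obtain ⟨hg, hvf⟩ := (hTm v).1 hv
    have hvh : v.ord h = 0 := by
      by_contra h0
      exact hvf (hS1 v hg h0)
    obtain ⟨k, hk, hpos⟩ := pos_of_tame hvh hvf (htt v hg)
    have hnn : NN v (h : K) := by rw [nn_unit]; omega
    obtain ⟨n, p, hn, hpm, hpi, hpd, hp1, hp2⟩ := exists_factor hg hnn hk hpos
    have hnN : N < n := by
      by_contra h0
      exact hvf (hS2 v hg n hn (by omega) hp2)
    have hp0 : aeval (h : K) p ≠ 0 := by
      intro h0
      exact hpm.ne_zero ((transcendental_iff.1 hh) p h0)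
    refine ⟨Units.mk0 _ hp0, p.natDegree, fun _ => ⟨?_, ?_, ?_, ?_, ?_⟩⟩
    · have := (pos_unit (v := v) (u := Units.mk0 _ hp0)).1 hp1
      omega
    · exact hTRS F K hF n p hn hpm hpi hpd (Units.mk0 _ hp0) h rfl
    · intro w hgw hwh
      exact nn_unit.1 (nn_aeval hgw (nn_unit.2 hwh) p)
    · intro w hgw hw
      refine hN n hnN p hpi hpd w v hgw hg ?_
      intro u hu
      have hu' : u = Units.mk0 _ hp0 := Units.ext hu
      rw [hu']
      refine ⟨hw, ?_⟩
      have := (pos_unit (v := v) (u := Units.mk0 _ hp0)).1 hp1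
      omega
    · intro w hgw hw
      exact ord_at_pole hgw h hw hpm _ rfl
  choose P d hP using hex
  set E : ℤ := ∏ v ∈ T, v.ord (P v) with hE
  have hEpos : 0 < E := Finset.prod_pos fun v hv => (hP v hv).1
  have hdiv : ∀ v ∈ T, v.ord (P v) ∣ E := fun v hv => Finset.dvd_prod_of_mem _ hv
  set f' : Kˣ := f ^ E * ∏ v ∈ T, P v ^ (-(E / v.ord (P v) * v.ord f)) with hf'
  have hord : ∀ w : DVal K, w.ord f' =
      E * w.ord f - ∑ v ∈ T, (E / v.ord (P v) * v.ord f) * w.ord (P v) := by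
    intro w
    rw [hf', w.ord_mul, w.ord_zpow, ord_prod, sub_eq_add_neg, ← Finset.sum_neg_distrib]
    congr 1
    refine Finset.sum_congr rfl fun v _ => ?_
    rw [w.ord_zpow]
    ring
  set κ : ℤ := ∑ v ∈ T, (E / v.ord (P v) * v.ord f) * d v with hκ
  have hord1 : ∀ w : DVal K, GeoF F w → 0 ≤ w.ord h → w.ord f' = 0 := by
    intro w hgw hwh
    rw [hord w]
    have h0 : ∀ v ∈ T, v ≠ w → (E / v.ord (P v) * v.ord f) * w.ord (P v) = 0 := by
      intro v hv hvw
      have h1 := (hP v hv).2.2.1 w hgw hwh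
      have h2 : ¬ 0 < w.ord (P v) := fun h3 => hvw ((hP v hv).2.2.2.1 w hgw h3).symm
      have h3 : w.ord (P v) = 0 := by omega
      rw [h3, mul_zero]
    by_cases hw : w ∈ T
    · rw [Finset.sum_eq_single w (fun v hv hvw => h0 v hv hvw) (fun h1 => absurd hw h1)]
      have h4 : E / w.ord (P w) * w.ord (P w) = E := Int.ediv_mul_cancel (hdiv w hw)
      calc E * w.ord f - E / w.ord (P w) * w.ord f * w.ord (P w)
          = E * w.ord f - (E / w.ord (P w) * w.ord (P w)) * w.ord f := by ring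
        _ = 0 := by rw [h4]; ring
    · rw [Finset.sum_eq_zero (fun v hv => h0 v hv (fun e => hw (e ▸ hv)))]
      have : w.ord f = 0 := by
        by_contra h1
        exact hw ((hTm w).2 ⟨hgw, h1⟩)
      rw [this]
      ring
  have hord2 : ∀ w : DVal K, GeoF F w → w.ord h < 0 → w.ord f' = -(κ * w.ord h) := by
    intro w hgw hwh
    rw [hord w, hS1 w hgw hwh.ne, mul_zero, zero_sub, hκ, Finset.sum_mul]
    congr 1
    refine Finset.sum_congr rfl fun v hv => ?_
    rw [(hP v hv).2.2.2.2 w hgw hwh]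
    ring
  -- `f'` is a constant
  have halg : IsAlgebraic F (f' : K) := by
    rcases le_total 0 κ with h0 | h0
    · by_contra h1
      have h2 : Transcendental F ((f'⁻¹ : Kˣ) : K) := by
        intro h3
        apply h1
        rw [Units.val_inv_eq_inv_val] at h3
        simpa using h3.inv
      obtain ⟨w, hgw, hw⟩ := (hFNV F K (h : K) hfin f'⁻¹ h2).2
      rw [w.ord_inv] at hw
      rcases le_or_gt 0 (w.ord h) with h3 | h3
      · rw [hord1 w hgw h3] at hw
        omega
      · rw [hord2 w hgw h3] at hw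
        nlinarith
    · by_contra h1
      obtain ⟨w, hgw, hw⟩ := (hFNV F K (h : K) hfin f' h1).2
      rcases le_or_gt 0 (w.ord h) with h3 | h3
      · rw [hord1 w hgw h3] at hw
        omega
      · rw [hord2 w hgw h3] at hw
        nlinarith
  obtain ⟨c, hfc⟩ := hc _ halg
  have hsym : sym f' h = E • sym f h +
      ∑ v ∈ T, (-(E / v.ord (P v) * v.ord f)) • sym (P v) h := by
    rw [hf', sym_mul_left, sym_zpow_left, sym_prod_left]
    congr 1
    exact Finset.sum_congr rfl fun v _ => sym_zpow_left _ _ _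
  have hsum : ∑ v ∈ T, (-(E / v.ord (P v) * v.ord f)) • sym (P v) h ∈ tor (K2 K) :=
    sum_mem fun v hv => zsmul_mem (hP v hv).2.1 _
  -- the constant is a root of unity
  obtain ⟨w, hgw, hw⟩ := (hFNV F K (h : K) hfin h hh).2
  have ht' : tame w (sym f' h) ∈ tor _ := by
    rw [hsym, map_add, map_zsmul]
    exact add_mem (zsmul_mem (htt w hgw) _) (torTame_of_tor (F := F) hsum w hgw)
  have hf0 : w.ord f' = 0 := hord1 w hgw hw.le
  obtain ⟨k, hk, hpos⟩ := pos_of_tame_const hf0 hw.ne' ht'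
  have hck : c ^ k = 1 := by
    by_contra h0
    have h1 : c ^ k - 1 ≠ 0 := sub_ne_zero.2 h0
    apply not_pos_const hgw h1
    rw [map_sub, map_pow, map_one, ← hfc]
    exact hpos
  have hf'k : f' ^ k = 1 := by
    apply Units.ext
    rw [Units.val_pow_eq_pow_val, hfc, ← map_pow, hck, map_one, Units.val_one]
  have hf't : sym f' h ∈ tor (K2 K) := by
    refine ⟨k, hk, ?_⟩
    rw [← sym_pow_left, hf'k, sym_one_left]
  have : E • sym f h ∈ tor (K2 K) := by
    have h1 : E • sym f h = sym f' h -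
        ∑ v ∈ T, (-(E / v.ord (P v) * v.ord f)) • sym (P v) h := by
      rw [hsym]; abel
    rw [h1]
    exact sub_mem hf't hsum
  exact tor_of_zsmul hEpos.ne' this

end

end ASMM

open ASMM

theorem specASM (hPUQ : SpecPUQ) (hFNV : SpecFNV) (hTRS : SpecTRS) : SpecASM := by
  intro F K _ _ _ _ φ h hφ hF hh hfin hc hprim
  obtain ⟨S, hS, hg, H⟩ := core hPUQ hFNV hTRS φ h hφ hF hh hfin hc hprim
  refine ⟨hS.toFinset.card, fun i => (hS.toFinset.equivFin.symm i : DVal K), ?_, ?_⟩
  · intro i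
    exact hg _ (hS.mem_toFinset.1 (hS.toFinset.equivFin.symm i).2)
  · intro f ht h0
    refine H f ht ?_
    intro v hv
    have := h0 (hS.toFinset.equivFin ⟨v, hS.mem_toFinset.2 hv⟩)
    simpa using this

end MP743d1e.CY
end

section
/-!
# ASK: assembly for every nonconstant function
-/
set_option autoImplicit false

namespace MP743d1e.CY

open scoped BigOperators
open Polynomial IntermediateField MP743d1e.Integ MP743d1e.ConstM

namespace ASKM

open ASMM

section

variable {F K : Type} [Field F] [CharZero F] [Field K] [Algebra F K]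

omit [CharZero F] in
/-- A polynomial that vanishes at the point has an irreducible factor that vanishes there. -/
theorem exists_factor' {v : DVal K} {h : K} (hg : GeoF F v) (hh : NN v h) {Q : F[X]} (hQ : Q ≠ 0)
    (hpos : Pos v (aeval h Q)) : ∃ p : F[X], p.Monic ∧ Irreducible p ∧ p ∣ Q ∧
      Pos v (aeval h p) := by
  classical
  have hP := pid_prime hg hh
  have hmem : Q ∈ pid hg hh := (mem_pid hg hh _).2 hpos
  have hne : pid hg hh ≠ ⊥ := by
    intro h0
    rw [h0, Ideal.mem_bot] at hmem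
    exact hQ hmem
  set g := Submodule.IsPrincipal.generator (pid hg hh) with hgdef
  have hg1 : Prime g := Submodule.IsPrincipal.prime_generator_of_isPrime _ hne
  have hassoc : Associated g (normalize g) := (normalize_associated g).symm
  have hgm : g ∈ pid hg hh := Submodule.IsPrincipal.generator_mem _
  have hdvd : g ∣ Q := (Submodule.IsPrincipal.mem_iff_generator_dvd _).1 hmem
  refine ⟨normalize g, monic_normalize hg1.ne_zero, hassoc.irreducible hg1.irreducible,
    hassoc.symm.dvd.trans hdvd, ?_⟩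
  rw [← mem_pid hg hh]
  obtain ⟨u, hu⟩ := hassoc
  rw [← hu]
  exact Ideal.mul_mem_right _ _ hgm

omit [CharZero F] in
theorem natDegree_comp_cyc {c : F} {k n : ℕ} (hc : c ≠ 0) :
    ((cyclotomic n F).comp (C c * X ^ k)).natDegree = n.totient * k := by
  rw [natDegree_comp, natDegree_cyclotomic, natDegree_C_mul_X_pow k c hc]

theorem coeff_zero_cyc_ne {n : ℕ} (hn : 0 < n) : (cyclotomic n F).coeff 0 ≠ 0 := by
  rcases Nat.lt_or_ge 1 n with h | h
  · rw [cyclotomic_coeff_zero F h]
    exact one_ne_zero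
  · have : n = 1 := by omega
    subst this
    rw [cyclotomic_one]
    simp

/-- The constant coefficient of a factor. -/
theorem coeff_zero_ne {c : F} {k n : ℕ} (hk : 0 < k) (hn : 0 < n) {p : F[X]}
    (hp : p ∣ (cyclotomic n F).comp (C c * X ^ k)) : p.coeff 0 ≠ 0 := by
  obtain ⟨q, hq⟩ := hp
  have h1 : ((cyclotomic n F).comp (C c * X ^ k)).coeff 0 = (cyclotomic n F).coeff 0 := by
    rw [coeff_zero_eq_eval_zero, coeff_zero_eq_eval_zero, eval_comp]
    congr 1
    simp [hk.ne']
  intro h0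
  apply coeff_zero_cyc_ne (F := F) hn
  rw [← h1, hq, mul_coeff_zero, h0, zero_mul]

omit [CharZero F] in
theorem aeval_comp_cyc {c : F} {k n : ℕ} {u h : K} (hh : h = algebraMap F K c * u ^ k) :
    aeval u ((cyclotomic n F).comp (C c * X ^ k)) = aeval h (cyclotomic n F) := by
  rw [aeval_comp]
  congr 1
  rw [map_mul, aeval_C, map_pow, aeval_X, hh]

/-- The main argument. -/
theorem core (hPUK : SpecPUK) (hFNV : SpecFNV) (hTSK : SpecTSK) (φ : F →+* ℂ)
    (k₀ : IntermediateField ℚ ℂ) (h u₀ : Kˣ) (c₀ : F) (k₁ : ℕ) (hk₀ : FiniteDimensional ℚ k₀)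
    (hφ : ∀ x, φ x ∈ kab k₀) (hc₀ : c₀ ≠ 0) (hk₁ : 0 < k₁)
    (hhu : (h : K) = algebraMap F K c₀ * (u₀ : K) ^ k₁)
    (hh : Transcendental F (h : K)) (hfin : FiniteDimensional F⟮(h : K)⟯ K)
    (hu : Transcendental F (u₀ : K)) (hfinu : FiniteDimensional F⟮(u₀ : K)⟯ K)
    (hc : ∀ z : K, IsAlgebraic F z → ∃ c : F, z = algebraMap F K c)
    (hprim : ∀ (m : ℕ) (c : F) (v : K), 2 ≤ m → (u₀ : K) ≠ algebraMap F K c * v ^ m) :
    ∃ S : Set (DVal K), S.Finite ∧ (∀ v ∈ S, GeoF F v) ∧ ∀ f : Kˣ, TorTameF F (sym f h) →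
      (∀ v ∈ S, v.ord f = 0) → sym f h ∈ tor (K2 K) := by
  classical
  obtain ⟨N, hN⟩ := hPUK F K φ k₀ (u₀ : K) c₀ k₁ hk₀ hφ hc₀ hk₁ hu hfinu hc hprim
  -- the orders of `h` and `u₀`
  have hcK : algebraMap F K c₀ ≠ 0 := by rwa [Ne, map_eq_zero]
  have hhu' : h = Units.mk0 _ hcK * u₀ ^ k₁ := by
    apply Units.ext
    rw [Units.val_mul, Units.val_pow_eq_pow_val, Units.val_mk0]
    exact hhu
  have hordh : ∀ w : DVal K, GeoF F w → w.ord h = k₁ * w.ord u₀ := by
    intro w hgw
    have h1 : w.ord (Units.mk0 _ hcK) = 0 := hgw _ ⟨c₀, rfl⟩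
    rw [hhu', w.ord_mul, w.ord_pow, h1, zero_add]
  have hk1z : (0 : ℤ) < k₁ := by exact_mod_cast hk₁
  have hh' : Transcendental F ((h⁻¹ : Kˣ) : K) := by
    intro h1
    apply hh
    rw [Units.val_inv_eq_inv_val] at h1
    simpa using h1.inv
  have hcyc : ∀ n : ℕ, 0 < n → Transcendental F (aeval (h : K) (cyclotomic n F)) := by
    intro n hn
    apply transc_aeval hh
    rw [natDegree_cyclotomic]
    exact (Nat.totient_pos.2 hn).ne'
  refine ⟨{v | GeoF F v ∧ v.ord h ≠ 0} ∪
    ⋃ n ∈ Finset.Icc 1 N, {v | GeoF F v ∧ Pos v (aeval (h : K) (cyclotomic n F))}, ?_, ?_, ?_⟩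
  · refine (supp_finite hFNV (h : K) hfin h).union ?_
    refine Set.Finite.biUnion (Finset.finite_toSet _) ?_
    intro n hn
    have hn1 : 0 < n := by
      have := Finset.mem_coe.1 hn
      rw [Finset.mem_Icc] at this
      omega
    have ht := hcyc n hn1
    have h0 : aeval (h : K) (cyclotomic n F) ≠ 0 := by
      intro h0
      rw [h0] at ht
      exact ht (isAlgebraic_zero)
    refine (hFNV F K (h : K) hfin (Units.mk0 _ h0) ht).1.subset ?_
    rintro v ⟨hg, hp⟩
    refine ⟨hg, ?_⟩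
    have := (pos_unit (v := v) (u := Units.mk0 _ h0)).1 hp
    omega
  · rintro v (hv | hv)
    · exact hv.1
    · simp only [Set.mem_iUnion] at hv
      obtain ⟨n, hn, hv⟩ := hv
      exact hv.1
  intro f htt hS
  have hS1 : ∀ v : DVal K, GeoF F v → v.ord h ≠ 0 → v.ord f = 0 := fun v hg h0 =>
    hS v (Or.inl ⟨hg, h0⟩)
  have hS2 : ∀ v : DVal K, GeoF F v → ∀ n : ℕ, 0 < n → n ≤ N →
      Pos v (aeval (h : K) (cyclotomic n F)) → v.ord f = 0 := by
    intro v hg n hn hnN hp
    apply hS v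
    right
    simp only [Set.mem_iUnion]
    exact ⟨n, by rw [Finset.mem_Icc]; omega, hg, hp⟩
  have hTfin := supp_finite hFNV (h : K) hfin f
  set T : Finset (DVal K) := hTfin.toFinset with hT
  have hTm : ∀ v : DVal K, v ∈ T ↔ GeoF F v ∧ v.ord f ≠ 0 := by
    intro v
    rw [hT, Set.Finite.mem_toFinset]
    rfl
  -- the factor at each point of `T`
  have hex : ∀ v : DVal K, ∃ (P : Kˣ) (d : ℕ), v ∈ T → 0 < v.ord P ∧ sym P h ∈ tor (K2 K) ∧
      (∀ w : DVal K, GeoF F w → 0 ≤ w.ord h → 0 ≤ w.ord P) ∧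
      (∀ w : DVal K, GeoF F w → 0 < w.ord P → w = v) ∧
      (∀ w : DVal K, GeoF F w → w.ord h < 0 → w.ord P = d * w.ord u₀) := by
    intro v
    by_cases hv : v ∈ T
    swap
    · exact ⟨1, 0, fun h' => absurd h' hv⟩
    obtain ⟨hg, hvf⟩ := (hTm v).1 hv
    have hvh : v.ord h = 0 := by
      by_contra h0
      exact hvf (hS1 v hg h0)
    obtain ⟨k, hk, hpos⟩ := pos_of_tame hvh hvf (htt v hg)
    have hnn : NN v (h : K) := by rw [nn_unit]; omega
    obtain ⟨n, -, hn, -, -, -, -, hp2⟩ := exists_factor hg hnn hk hpos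
    have hnN : N < n := by
      by_contra h0
      exact hvf (hS2 v hg n hn (by omega) hp2)
    have hvu : v.ord u₀ = 0 := by
      have h1 := hordh v hg
      rw [hvh] at h1
      rcases mul_eq_zero.1 h1.symm with h2 | h2
      · omega
      · exact h2
    have hnnu : NN v (u₀ : K) := by rw [nn_unit]; omega
    have hQ0 : (cyclotomic n F).comp (C c₀ * X ^ k₁) ≠ 0 := by
      intro h0
      have h1 := natDegree_comp_cyc (F := F) (k := k₁) (n := n) hc₀
      rw [h0, natDegree_zero] at h1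
      have := Nat.mul_pos (Nat.totient_pos.2 hn) hk₁
      omega
    obtain ⟨p, hpm, hpi, hpd, hp1⟩ := exists_factor' hg hnnu hQ0
      (by rw [aeval_comp_cyc hhu]; exact hp2)
    have hp0 : aeval (u₀ : K) p ≠ 0 := by
      intro h0
      exact hpm.ne_zero ((transcendental_iff.1 hu) p h0)
    have hpc : p.coeff 0 ≠ 0 := coeff_zero_ne hk₁ hn hpd
    have hpc' : algebraMap F K (p.coeff 0)⁻¹ ≠ 0 := by
      rw [Ne, map_eq_zero]
      exact inv_ne_zero hpc
    have hordP : ∀ w : DVal K, GeoF F w →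
        w.ord (Units.mk0 _ hpc' * Units.mk0 _ hp0) = w.ord (Units.mk0 _ hp0) := by
      intro w hgw
      have h1 : w.ord (Units.mk0 _ hpc') = 0 := hgw _ ⟨_, rfl⟩
      rw [w.ord_mul, h1, zero_add]
    refine ⟨Units.mk0 _ hpc' * Units.mk0 _ hp0, p.natDegree, fun _ => ⟨?_, ?_, ?_, ?_, ?_⟩⟩
    · rw [hordP v hg]
      have := (pos_unit (v := v) (u := Units.mk0 _ hp0)).1 hp1
      omega
    · refine hTSK F K u₀ h _ c₀ k₁ n p hu hc₀ hk₁ hn hhu hpi hpd ?_
      rw [Units.val_mul, Units.val_mk0, Units.val_mk0, map_mul, aeval_C]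
    · intro w hgw hwh
      rw [hordP w hgw]
      have h1 : 0 ≤ w.ord u₀ := by
        have h2 := hordh w hgw
        by_contra h3
        nlinarith
      exact nn_unit.1 (nn_aeval hgw (nn_unit.2 h1) p)
    · intro w hgw hw
      rw [hordP w hgw] at hw
      refine hN n hnN p hpi hpd w v hgw hg ?_
      intro t ht
      have ht' : t = Units.mk0 _ hp0 := Units.ext ht
      rw [ht']
      refine ⟨hw, ?_⟩
      have := (pos_unit (v := v) (u := Units.mk0 _ hp0)).1 hp1
      omega
    · intro w hgw hw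
      rw [hordP w hgw]
      have h1 : w.ord u₀ < 0 := by
        have h2 := hordh w hgw
        by_contra h3
        nlinarith
      exact ord_at_pole hgw u₀ h1 hpm _ rfl
  choose P d hP using hex
  set E : ℤ := ∏ v ∈ T, v.ord (P v) with hE
  have hEpos : 0 < E := Finset.prod_pos fun v hv => (hP v hv).1
  have hdiv : ∀ v ∈ T, v.ord (P v) ∣ E := fun v hv => Finset.dvd_prod_of_mem _ hv
  set f' : Kˣ := f ^ E * ∏ v ∈ T, P v ^ (-(E / v.ord (P v) * v.ord f)) with hf'
  have hord : ∀ w : DVal K, w.ord f' =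
      E * w.ord f - ∑ v ∈ T, (E / v.ord (P v) * v.ord f) * w.ord (P v) := by
    intro w
    rw [hf', w.ord_mul, w.ord_zpow, ord_prod, sub_eq_add_neg, ← Finset.sum_neg_distrib]
    congr 1
    refine Finset.sum_congr rfl fun v _ => ?_
    rw [w.ord_zpow]
    ring
  set κ : ℤ := ∑ v ∈ T, (E / v.ord (P v) * v.ord f) * d v with hκ
  have hord1 : ∀ w : DVal K, GeoF F w → 0 ≤ w.ord h → w.ord f' = 0 := by
    intro w hgw hwh
    rw [hord w]
    have h0 : ∀ v ∈ T, v ≠ w → (E / v.ord (P v) * v.ord f) * w.ord (P v) = 0 := by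
      intro v hv hvw
      have h1 := (hP v hv).2.2.1 w hgw hwh
      have h2 : ¬ 0 < w.ord (P v) := fun h3 => hvw ((hP v hv).2.2.2.1 w hgw h3).symm
      have h3 : w.ord (P v) = 0 := by omega
      rw [h3, mul_zero]
    by_cases hw : w ∈ T
    · rw [Finset.sum_eq_single w (fun v hv hvw => h0 v hv hvw) (fun h1 => absurd hw h1)]
      have h4 : E / w.ord (P w) * w.ord (P w) = E := Int.ediv_mul_cancel (hdiv w hw)
      calc E * w.ord f - E / w.ord (P w) * w.ord f * w.ord (P w)
          = E * w.ord f - (E / w.ord (P w) * w.ord (P w)) * w.ord f := by ring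
        _ = 0 := by rw [h4]; ring
    · rw [Finset.sum_eq_zero (fun v hv => h0 v hv (fun e => hw (e ▸ hv)))]
      have : w.ord f = 0 := by
        by_contra h1
        exact hw ((hTm w).2 ⟨hgw, h1⟩)
      rw [this]
      ring
  have hord2 : ∀ w : DVal K, GeoF F w → w.ord h < 0 → w.ord f' = -(κ * w.ord u₀) := by
    intro w hgw hwh
    rw [hord w, hS1 w hgw hwh.ne, mul_zero, zero_sub, hκ, Finset.sum_mul]
    congr 1
    refine Finset.sum_congr rfl fun v hv => ?_
    rw [(hP v hv).2.2.2.2 w hgw hwh]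
    ring
  -- `f'` is a constant
  have halg : IsAlgebraic F (f' : K) := by
    rcases le_total 0 κ with h0 | h0
    · by_contra h1
      have h2 : Transcendental F ((f'⁻¹ : Kˣ) : K) := by
        intro h3
        apply h1
        rw [Units.val_inv_eq_inv_val] at h3
        simpa using h3.inv
      obtain ⟨w, hgw, hw⟩ := (hFNV F K (h : K) hfin f'⁻¹ h2).2
      rw [w.ord_inv] at hw
      rcases le_or_gt 0 (w.ord h) with h3 | h3
      · rw [hord1 w hgw h3] at hw
        omega
      · rw [hord2 w hgw h3] at hw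
        have h4 := hordh w hgw
        have h5 : w.ord u₀ < 0 := by
          by_contra h6
          nlinarith
        nlinarith
    · by_contra h1
      obtain ⟨w, hgw, hw⟩ := (hFNV F K (h : K) hfin f' h1).2
      rcases le_or_gt 0 (w.ord h) with h3 | h3
      · rw [hord1 w hgw h3] at hw
        omega
      · rw [hord2 w hgw h3] at hw
        have h4 := hordh w hgw
        have h5 : w.ord u₀ < 0 := by
          by_contra h6
          nlinarith
        nlinarith
  obtain ⟨c, hfc⟩ := hc _ halg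
  have hsym : sym f' h = E • sym f h +
      ∑ v ∈ T, (-(E / v.ord (P v) * v.ord f)) • sym (P v) h := by
    rw [hf', sym_mul_left, sym_zpow_left, sym_prod_left]
    congr 1
    exact Finset.sum_congr rfl fun v _ => sym_zpow_left _ _ _
  have hsum : ∑ v ∈ T, (-(E / v.ord (P v) * v.ord f)) • sym (P v) h ∈ tor (K2 K) :=
    sum_mem fun v hv => zsmul_mem (hP v hv).2.1 _
  -- the constant is a root of unity
  obtain ⟨w, hgw, hw⟩ := (hFNV F K (h : K) hfin h hh).2
  have ht' : tame w (sym f' h) ∈ tor _ := by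
    rw [hsym, map_add, map_zsmul]
    exact add_mem (zsmul_mem (htt w hgw) _) (torTame_of_tor (F := F) hsum w hgw)
  have hf0 : w.ord f' = 0 := hord1 w hgw hw.le
  obtain ⟨k, hk, hpos⟩ := pos_of_tame_const hf0 hw.ne' ht'
  have hck : c ^ k = 1 := by
    by_contra h0
    have h1 : c ^ k - 1 ≠ 0 := sub_ne_zero.2 h0
    apply not_pos_const hgw h1
    rw [map_sub, map_pow, map_one, ← hfc]
    exact hpos
  have hf'k : f' ^ k = 1 := by
    apply Units.ext
    rw [Units.val_pow_eq_pow_val, hfc, ← map_pow, hck, map_one, Units.val_one]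
  have hf't : sym f' h ∈ tor (K2 K) := by
    refine ⟨k, hk, ?_⟩
    rw [← sym_pow_left, hf'k, sym_one_left]
  have : E • sym f h ∈ tor (K2 K) := by
    have h1 : E • sym f h = sym f' h -
        ∑ v ∈ T, (-(E / v.ord (P v) * v.ord f)) • sym (P v) h := by
      rw [hsym]; abel
    rw [h1]
    exact sub_mem hf't hsum
  exact tor_of_zsmul hEpos.ne' this

end

end ASKM

open ASKM

theorem specASK (hPUK : SpecPUK) (hFNV : SpecFNV) (hTSK : SpecTSK) (hPRM : SpecPRM) : SpecASK := by
  intro F K _ _ _ _ φ k₀ h hk₀ hφ hh hfin hc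
  obtain ⟨c₀, u₀, k₁, hc₀, hk₁, hhu, hu, hfinu, hprim⟩ := hPRM F K h hh hfin
  obtain ⟨S, hS, hg, H⟩ := core hPUK hFNV hTSK φ k₀ h u₀ c₀ k₁ hk₀ hφ hc₀ hk₁ hhu hh hfin hu hfinu
    hc hprim
  refine ⟨hS.toFinset.card, fun i => (hS.toFinset.equivFin.symm i : DVal K), ?_, ?_⟩
  · intro i
    exact hg _ (hS.mem_toFinset.1 (hS.toFinset.equivFin.symm i).2)
  · intro f ht h0
    refine H f ht ?_
    intro v hv
    have := h0 (hS.toFinset.equivFin ⟨v, hS.mem_toFinset.2 hv⟩)
    simpa using this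

end MP743d1e.CY
end

section
/-!
# DEC: decomposition groups
-/
set_option autoImplicit false

namespace MP743d1e.CY

open scoped BigOperators Pointwise
open Polynomial IntermediateField MP743d1e.Integ FNVM

namespace DECM

section

variable {A k K L : Type} [CommRing A] [Field k] [Field K]
  [Field L] [Algebra A k] [IsFractionRing A k] [Algebra k L] [Algebra A L] [IsScalarTower A k L]
  [FiniteDimensional k L] [IsGalois k L] [Algebra A K] [Algebra K L] [IsScalarTower A K L]

/-- A prime of the integral closure in `L` above a prime of the integral closure in `K`. -/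
theorem exists_over (𝔭 : Ideal (integralClosure A K)) [𝔭.IsPrime] :
    ∃ P : Ideal (integralClosure A L), P.IsPrime ∧
      P.comap (IsScalarTower.toAlgHom A K L).mapIntegralClosure.toRingHom = 𝔭 := by
  let ι := (IsScalarTower.toAlgHom A K L).mapIntegralClosure
  let _ : Algebra (integralClosure A K) (integralClosure A L) := ι.toRingHom.toAlgebra
  have _ : IsScalarTower A (integralClosure A K) (integralClosure A L) :=
    IsScalarTower.of_algebraMap_eq fun x => (ι.commutes x).symm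
  have _ : Algebra.IsIntegral (integralClosure A K) (integralClosure A L) :=
    Algebra.IsIntegral.tower_top A
  have hinj : Function.Injective ι := by
    intro x y hxy
    have h := congrArg (algebraMap (integralClosure A L) L) hxy
    exact Subtype.ext ((algebraMap K L).injective h)
  obtain ⟨Q, h1, h2⟩ := Ideal.exists_ideal_over_prime_of_isIntegral_of_isDomain 𝔭
    (S := integralClosure A L) (by
      have h3 : RingHom.ker (algebraMap (integralClosure A K) (integralClosure A L)) = ⊥ :=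
        (RingHom.injective_iff_ker_eq_bot _).1 hinj
      rw [h3]
      exact bot_le)
  exact ⟨Q, h1, h2⟩

theorem under_eq (P : Ideal (integralClosure A L)) :
    P.under A = (P.comap (IsScalarTower.toAlgHom A K L).mapIntegralClosure.toRingHom).comap
      (algebraMap A (integralClosure A K)) := by
  rw [Ideal.under_def, Ideal.comap_comap]
  congr 1
  ext a
  exact congrArg _ ((IsScalarTower.toAlgHom A K L).mapIntegralClosure.commutes a).symm

attribute [local instance] Ideal.Quotient.field in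
theorem main [IsDomain A] [IsIntegrallyClosed A] (𝔭 𝔮 : Ideal (integralClosure A K)) [𝔭.IsPrime]
    [𝔮.IsPrime] (p : Ideal A)
    [p.IsMaximal] [CharZero (A ⧸ p)] (h1 : 𝔭.comap (algebraMap A (integralClosure A K)) = p)
    (h2 : 𝔮.comap (algebraMap A (integralClosure A K)) = p) (hne : 𝔭 ≠ 𝔮) :
    ∃ (D : Subgroup (L ≃ₐ[k] L)) (σ : L ≃ₐ[k] L),
      (¬ ∃ η δ : L ≃ₐ[k] L, (∀ x : K, η (algebraMap K L x) = algebraMap K L x) ∧ δ ∈ D ∧
        σ = η * δ) ∧
      ∀ y ∈ fixedField D, IsIntegral A y → ∃ a : A, ∀ g : A[X], aeval y g = 0 → g.eval a ∈ p := by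
  obtain ⟨P, hP, hP1⟩ := exists_over (L := L) 𝔭
  obtain ⟨Q, hQ, hQ1⟩ := exists_over (L := L) 𝔮
  have _ : IsFractionRing (integralClosure A L) L :=
    integralClosure.isFractionRing_of_finite_extension k L
  let _ : MulSemiringAction (L ≃ₐ[k] L) (integralClosure A L) :=
    IsIntegralClosure.MulSemiringAction A k L (integralClosure A L)
  have hsm : ∀ (σ : L ≃ₐ[k] L) (b : integralClosure A L),
      algebraMap (integralClosure A L) L (σ • b) = σ (algebraMap (integralClosure A L) L b) :=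
    fun σ b => algebraMap_galRestrict_apply A σ b
  have hinjL : Function.Injective (algebraMap (integralClosure A L) L) :=
    FaithfulSMul.algebraMap_injective _ _
  have _ : SMulCommClass (L ≃ₐ[k] L) A (integralClosure A L) := by
    refine ⟨fun σ a b => hinjL ?_⟩
    rw [hsm, Algebra.smul_def, Algebra.smul_def, map_mul, map_mul, map_mul, hsm,
      ← IsScalarTower.algebraMap_apply A (integralClosure A L) L,
      IsScalarTower.algebraMap_apply A k L, AlgEquiv.commutes]
  have _ : Algebra.IsInvariant A (integralClosure A L) (L ≃ₐ[k] L) :=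
    Algebra.isInvariant_of_isGalois A k L (integralClosure A L)
  have hPp : P.under A = p := by
    rw [under_eq (K := K), hP1, h1]
  have hQp : Q.under A = p := by
    rw [under_eq (K := K), hQ1, h2]
  obtain ⟨σ, hσ⟩ := Algebra.IsInvariant.exists_smul_of_under_eq A (integralClosure A L)
    (L ≃ₐ[k] L) P Q (hPp.trans hQp.symm)
  refine ⟨MulAction.stabilizer (L ≃ₐ[k] L) P, σ, ?_, ?_⟩
  · rintro ⟨η, δ, hη, hδ, rfl⟩
    apply hne
    have hδ' : δ • P = P := hδ
    rw [mul_smul, hδ'] at hσ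
    rw [← hP1, ← hQ1, hσ]
    ext c
    rw [Ideal.mem_comap, Ideal.mem_comap, Ideal.mem_pointwise_smul_iff_inv_smul_mem]
    have e : η⁻¹ • ((IsScalarTower.toAlgHom A K L).mapIntegralClosure.toRingHom c) =
        (IsScalarTower.toAlgHom A K L).mapIntegralClosure.toRingHom c := by
      apply hinjL
      rw [hsm]
      have h3 : algebraMap (integralClosure A L) L
          ((IsScalarTower.toAlgHom A K L).mapIntegralClosure.toRingHom c) =
          algebraMap K L (c : K) := rfl
      rw [h3]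
      have h4 := hη (c : K)
      conv_lhs => rw [← h4]
      exact η.symm_apply_apply _
    rw [e]
  · intro y hy hyi
    have _ : P.LiesOver p := ⟨hPp.symm⟩
    have _ : P.IsMaximal := by
      refine Ideal.isMaximal_of_isIntegral_of_isMaximal_comap (R := A) P ?_
      rw [← Ideal.under_def, hPp]
      infer_instance
    have _ := Ideal.Quotient.normal (L ≃ₐ[k] L) p P
    have _ : Algebra.IsSeparable (A ⧸ p) (integralClosure A L ⧸ P) := inferInstance
    have _ := Ideal.Quotient.finite_of_isInvariant (L ≃ₐ[k] L) p P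
    have _ : IsGalois (A ⧸ p) (integralClosure A L ⧸ P) := {}
    let b : integralClosure A L := ⟨y, hyi⟩
    have hb : (Ideal.Quotient.mk P b) ∈
        (⊥ : IntermediateField (A ⧸ p) (integralClosure A L ⧸ P)) := by
      rw [IsGalois.mem_bot_iff_fixed]
      intro f
      obtain ⟨g, rfl⟩ := Ideal.Quotient.stabilizerHom_surjective (L ≃ₐ[k] L) p P f
      rw [Ideal.Quotient.stabilizerHom_apply]
      congr 1
      apply hinjL
      exact (hsm g.1 b).trans (hy g)
    rw [IntermediateField.mem_bot] at hb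
    obtain ⟨a', ha'⟩ := hb
    obtain ⟨a, rfl⟩ := Ideal.Quotient.mk_surjective a'
    refine ⟨a, fun g hg => ?_⟩
    have h3 : aeval b g = 0 := by
      apply hinjL
      rw [map_zero, ← hg]
      exact (aeval_algebraMap_apply L b g).symm
    have e1 : Ideal.Quotient.mk P b = ((Ideal.Quotient.mk P).comp
        (algebraMap A (integralClosure A L))) a := ha'.symm
    have h4 : eval₂ ((Ideal.Quotient.mk P).comp (algebraMap A (integralClosure A L)))
        (Ideal.Quotient.mk P b) g = 0 := by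
      rw [← Polynomial.hom_eval₂, ← Polynomial.aeval_def, h3, map_zero]
    rw [e1, Polynomial.eval₂_at_apply, RingHom.comp_apply, Ideal.Quotient.eq_zero_iff_mem] at h4
    rw [← hPp]
    exact h4

end

/-- The value of a polynomial in `h`, as an element of `F[h]`. -/
noncomputable def ev (F : Type) {K : Type} [Field F] [Field K] [Algebra F K] (h : K) :
    F[X] →ₐ[F] Algebra.adjoin F ({h} : Set K) :=
  aeval ⟨h, Algebra.self_mem_adjoin_singleton F h⟩

theorem coe_ev {F K : Type} [Field F] [Field K] [Algebra F K] (h : K) (q : F[X]) :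
    ((ev F h q : Algebra.adjoin F ({h} : Set K)) : K) = aeval h q := by
  have := Polynomial.aeval_algebraMap_apply K
    (⟨h, Algebra.self_mem_adjoin_singleton F h⟩ : Algebra.adjoin F ({h} : Set K)) q
  exact this.symm

theorem ev_surj {F K : Type} [Field F] [Field K] [Algebra F K] (h : K) :
    Function.Surjective (ev F h) := by
  rintro ⟨a, ha⟩
  rw [Algebra.adjoin_singleton_eq_range_aeval] at ha
  obtain ⟨q, hq⟩ := ha
  exact ⟨q, Subtype.ext ((coe_ev h q).trans hq)⟩

/-- The prime of a valuation is not zero. -/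
theorem pr_ne_bot {K : Type} [Field K] {v : DVal K} {O : Type} [CommRing O] [Algebra O K]
    [IsDomain O] [IsFractionRing O K] (hO : ∀ b : O, NN v (algebraMap O K b)) : pr hO ≠ ⊥ := by
  intro hbot
  obtain ⟨x, hx⟩ := v.surj 1
  obtain ⟨c, d, hd, hcd⟩ := IsFractionRing.div_surjective O (x : K)
  have hd0 : algebraMap O K d ≠ 0 := by
    rw [Ne, FaithfulSMul.algebraMap_eq_zero_iff]
    exact nonZeroDivisors.ne_zero hd
  have hc0 : algebraMap O K c ≠ 0 := by
    intro h0
    rw [h0, zero_div] at hcd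
    exact x.ne_zero hcd.symm
  have hc : c ∈ pr hO := by
    rw [mem_pr]
    have e : x * Units.mk0 _ hd0 = Units.mk0 _ hc0 := by
      ext
      rw [Units.val_mul, Units.val_mk0, Units.val_mk0, ← hcd]
      field_simp
    have h1 := congrArg v.ord e
    rw [v.ord_mul, hx] at h1
    have h2 : NN v ((Units.mk0 _ hd0 : Kˣ) : K) := hO d
    rw [nn_unit] at h2
    have h3 : Pos v ((Units.mk0 _ hc0 : Kˣ) : K) := by
      rw [pos_unit]
      omega
    exact h3
  rw [hbot, Ideal.mem_bot] at hc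
  rw [hc, map_zero] at hc0
  exact hc0 rfl

end DECM

open DECM

open scoped IntermediateField.algebraAdjoinAdjoin

theorem specDEC : SpecDEC := by
  intro F K L _ _ _ _ _ _ _ _ h hh hK hL hgal v w hv hw hvw hne
  let A := Algebra.adjoin F ({h} : Set K)
  let e : Polynomial F ≃ₐ[F] A := Polynomial.algEquivOfTranscendental F h hh
  have hpid : IsPrincipalIdealRing A :=
    IsPrincipalIdealRing.of_surjective (e : Polynomial F →+* A) e.surjective
  have hdedA : IsDedekindDomain A := inferInstance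
  have hchar : CharZero F⟮h⟯ := inferInstance
  have hsep : Algebra.IsSeparable F⟮h⟯ K := inferInstance
  have hded : IsDedekindDomain (integralClosure A K) :=
    IsIntegralClosure.isDedekindDomain A F⟮h⟯ K (integralClosure A K)
  have hfrac : IsFractionRing (integralClosure A K) K :=
    integralClosure.isFractionRing_of_finite_extension F⟮h⟯ K
  have hh0 : h ≠ 0 := by
    rintro rfl
    exact hh isAlgebraic_zero
  have hX : ((Units.mk0 h hh0 : Kˣ) : K) = aeval h (X : F[X]) := by simp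
  have hAv : ∀ a : A, NN v (algebraMap A K a) := fun a =>
    nn_adjoin hv (Or.inr ⟨Units.mk0 h hh0, rfl, (hvw X _ hX).1⟩) a
  have hAw : ∀ a : A, NN w (algebraMap A K a) := fun a =>
    nn_adjoin hw (Or.inr ⟨Units.mk0 h hh0, rfl, (hvw X _ hX).2.1⟩) a
  have hOv : ∀ c : integralClosure A K, NN v (algebraMap (integralClosure A K) K c) :=
    fun c => nn_of_isIntegral hAv c.2
  have hOw : ∀ c : integralClosure A K, NN w (algebraMap (integralClosure A K) K c) :=
    fun c => nn_of_isIntegral hAw c.2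
  have _ : (pr hOv).IsPrime := pr_prime hOv
  have _ : (pr hOw).IsPrime := pr_prime hOw
  have hpq : (pr hOw).comap (algebraMap A (integralClosure A K)) =
      (pr hOv).comap (algebraMap A (integralClosure A K)) := by
    ext a
    obtain ⟨q, rfl⟩ := ev_surj h a
    show Pos w ((ev F h q : A) : K) ↔ Pos v ((ev F h q : A) : K)
    rw [coe_ev]
    by_cases h0 : aeval h q = 0
    · exact ⟨fun _ => Or.inl h0, fun _ => Or.inl h0⟩
    · have h1 : (Units.mk0 _ h0 : Kˣ) = aeval h q := rfl
      rw [← h1, pos_unit, pos_unit]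
      exact (hvw q _ h1).2.2.symm
  have hbot : (pr hOv).comap (algebraMap A (integralClosure A K)) ≠ ⊥ := by
    obtain ⟨x, hx, hx0⟩ := Submodule.exists_mem_ne_zero_of_ne_bot (pr_ne_bot hOv)
    exact Ideal.comap_ne_bot_of_integral_mem hx0 hx (Algebra.IsIntegral.isIntegral x)
  have _ : ((pr hOv).comap (algebraMap A (integralClosure A K))).IsPrime := inferInstance
  have _ : ((pr hOv).comap (algebraMap A (integralClosure A K))).IsMaximal :=
    Ideal.IsPrime.isMaximal inferInstance hbot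
  have _ : Nontrivial (A ⧸ (pr hOv).comap (algebraMap A (integralClosure A K))) :=
    Ideal.Quotient.nontrivial_iff.2 (Ideal.IsPrime.ne_top inferInstance)
  have _ : CharZero (A ⧸ (pr hOv).comap (algebraMap A (integralClosure A K))) :=
    charZero_of_injective_algebraMap
      (algebraMap F (A ⧸ (pr hOv).comap (algebraMap A (integralClosure A K)))).injective
  have hneq : pr hOv ≠ pr hOw := by
    intro heq
    apply hne
    let P : IsDedekindDomain.HeightOneSpectrum (integralClosure A K) :=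
      ⟨pr hOv, pr_prime hOv, pr_ne_bot hOv⟩
    have h1 : v = PlaceQ.dval P := eq_dval hOv P fun c hc => hc
    have h2 : w = PlaceQ.dval P := eq_dval hOw P fun c hc => by
      show c ∈ pr hOv
      rw [heq]
      exact hc
    rw [h1, h2]
  obtain ⟨D, σ, h1, h2⟩ := DECM.main (k := F⟮h⟯) (L := L) (pr hOv) (pr hOw) _ rfl hpq hneq
  refine ⟨D, σ, h1, ?_⟩
  rintro y hy ⟨g0, hg0, hg0y⟩
  have key : ∀ q : F[X], algebraMap A L (ev F h q) = aeval (algebraMap K L h) q := by
    intro q
    rw [aeval_algebraMap_apply, ← coe_ev]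
    rfl
  have hcomp : (algebraMap A L).comp (ev F h : F[X] →+* A) =
      (aeval (algebraMap K L h) : F[X] →ₐ[F] L).toRingHom := by
    ext q
    · exact key _
    · exact key _
  have hev : ∀ g : F[X][X], evF (algebraMap K L h) y g = 0 →
      aeval y (g.map (ev F h : F[X] →+* A)) = 0 := by
    intro g hg
    rw [aeval_def, eval₂_map, hcomp]
    exact hg
  have hint : IsIntegral A y := ⟨g0.map (ev F h : F[X] →+* A), hg0.map _, hev g0 hg0y⟩
  obtain ⟨a, ha⟩ := h2 y hy hint
  obtain ⟨a0, rfl⟩ := ev_surj h a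
  refine ⟨a0, fun g hg u hu => ?_⟩
  have h3 := ha _ (hev g hg)
  have h4 : (g.map (ev F h : F[X] →+* A)).eval (ev F h a0) = ev F h (g.eval a0) := by
    rw [eval_map]
    exact eval₂_at_apply (ev F h : F[X] →+* A) a0
  rw [h4] at h3
  have h5 : Pos v ((ev F h (g.eval a0) : A) : K) := h3
  rw [coe_ev, ← hu, pos_unit] at h5
  omega

end MP743d1e.CY
end

section
/-!
# PUA: lemmas for PUQ: the Galois closure and the embedding into `ℚ̄(u)`
-/
set_option autoImplicit false

namespace MP743d1e.CY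

open scoped BigOperators nonZeroDivisors
open Polynomial IntermediateField

namespace PUQM

theorem exists_closure (F K : Type) [Field F] [CharZero F] [Field K] [Algebra F K] (h : K)
    (hfin : FiniteDimensional F⟮h⟯ K) :
    ∃ (L : Type) (_ : Field L) (_ : Algebra K L), FiniteDimensional F⟮h⟯ L ∧ IsGalois F⟮h⟯ L := by
  let N := normalClosure F⟮h⟯ K (AlgebraicClosure K)
  have : CharZero K := charZero_of_injective_algebraMap (algebraMap F K).injective
  have h1 : FiniteDimensional F⟮h⟯ N := inferInstance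
  have halg : Algebra.IsAlgebraic F⟮h⟯ (AlgebraicClosure K) :=
    Algebra.IsAlgebraic.trans F⟮h⟯ K (AlgebraicClosure K)
  have hnorm : Normal F⟮h⟯ (AlgebraicClosure K) := by
    have : IsAlgClosure F⟮h⟯ (AlgebraicClosure K) := ⟨inferInstance, halg⟩
    exact IsAlgClosure.normal _ _
  have h3 : Normal F⟮h⟯ N := normalClosure.normal _ _ _
  have h2 : IsGalois F⟮h⟯ N := ⟨⟩
  exact ⟨N, inferInstance, inferInstance, h1, h2⟩

/-- The embedding of `F(t)` into `ℚ̄(u)`, `t = u ^ a`. -/
theorem exists_rat {F : Type} [Field F] (φ : F →+* AA) {a : ℕ} (ha : 0 < a) :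
    ∃ j : RatFunc F →+* RatFunc AA, (∀ c, j (RatFunc.C c) = RatFunc.C (φ c)) ∧
      j RatFunc.X = RatFunc.X ^ a := by
  let f : F[X] →+* RatFunc AA := (algebraMap AA[X] (RatFunc AA)).comp
    ((expand AA a : AA[X] →ₐ[AA] AA[X]).toRingHom.comp (mapRingHom φ))
  have hf : Function.Injective f := by
    refine (RatFunc.algebraMap_injective AA).comp ((expand_injective ha).comp ?_)
    exact map_injective φ φ.injective
  have hf' : F[X]⁰ ≤ (RatFunc AA)⁰.comap f :=
    nonZeroDivisors_le_comap_nonZeroDivisors_of_injective f hf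
  have key : ∀ q : F[X], RatFunc.liftRingHom f hf' (algebraMap F[X] (RatFunc F) q) = f q :=
    RatFunc.liftRingHom_algebraMap f hf'
  refine ⟨RatFunc.liftRingHom f hf', ?_, ?_⟩
  · intro c
    rw [← RatFunc.algebraMap_C, key]
    show algebraMap AA[X] (RatFunc AA) (expand AA a ((C c).map φ)) = _
    rw [map_C, expand_C, RatFunc.algebraMap_C]
  · rw [← RatFunc.algebraMap_X, key]
    show algebraMap AA[X] (RatFunc AA) (expand AA a (X.map φ)) = _
    rw [map_X, expand_X, map_pow, RatFunc.algebraMap_X]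

theorem zq_X : zq X = RatFunc.X := by
  show algebraMap ℚ[X] (RatFunc ℚ) (X.map (Int.castRingHom ℚ)) = _
  rw [map_X, RatFunc.algebraMap_X]

theorem comp_zq {ρ : RatFunc ℚ →+* RatFunc AA} {a : ℕ} (hρ : ρ RatFunc.X = RatFunc.X ^ a) :
    ρ.comp zq = eval₂RingHom (Int.castRingHom (RatFunc AA)) (RatFunc.X ^ a) := by
  refine Polynomial.ringHom_ext' (Subsingleton.elim _ _) ?_
  rw [RingHom.comp_apply, zq_X, hρ, coe_eval₂RingHom, eval₂_X]

/-- A root of `g` in `ℚ̄(u)`, `t = u ^ a`, gives all roots. -/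
theorem splits_g (hNRM : SpecNRM) {g : ℤ[X][X]} (hirr : Irreducible (g.map zq)) {a : ℕ}
    (ha : 0 < a) {y : RatFunc AA} (hy : ev2 (RatFunc.X ^ a) y g = 0) :
    (g.map (eval₂RingHom (Int.castRingHom (RatFunc AA)) (RatFunc.X ^ a))).Splits := by
  obtain ⟨ρ, -, hρ⟩ := exists_rat (algebraMap ℚ AA) ha
  have h1 := hNRM a ρ ha hρ (g.map zq) hirr ⟨y, by
    rw [eval₂_map, comp_zq hρ]
    exact hy⟩
  rwa [Polynomial.map_map, comp_zq hρ] at h1

theorem splits_minpoly {k L : Type} [Field k] [Field L] [Algebra k L] {g : ℤ[X][X]}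
    (hg : g.Monic) {a : ℕ}
    (hs : (g.map (eval₂RingHom (Int.castRingHom (RatFunc AA)) (RatFunc.X ^ a))).Splits)
    (t : k) (ι : k →+* RatFunc AA) (hι : ι t = RatFunc.X ^ a) (y : L)
    (hy : ev2 (algebraMap k L t) y g = 0) :
    IsIntegral k y ∧ ((minpoly k y).map ι).Splits := by
  set jk : ℤ[X] →+* k := eval₂RingHom (Int.castRingHom k) t with hjk
  have h1 : (algebraMap k L).comp jk = eval₂RingHom (Int.castRingHom L) (algebraMap k L t) := by
    refine Polynomial.ringHom_ext' (Subsingleton.elim _ _) ?_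
    rw [RingHom.comp_apply, hjk, coe_eval₂RingHom, eval₂_X, coe_eval₂RingHom, eval₂_X]
  have h2 : ι.comp jk = eval₂RingHom (Int.castRingHom (RatFunc AA)) (RatFunc.X ^ a) := by
    refine Polynomial.ringHom_ext' (Subsingleton.elim _ _) ?_
    rw [RingHom.comp_apply, hjk, coe_eval₂RingHom, eval₂_X, coe_eval₂RingHom, eval₂_X, hι]
  have h3 : aeval y (g.map jk) = 0 := by
    rw [aeval_def, eval₂_map, h1]
    exact hy
  refine ⟨⟨g.map jk, hg.map jk, by rwa [← aeval_def]⟩, ?_⟩
  have h4 : (minpoly k y).map ι ∣ g.map (eval₂RingHom (Int.castRingHom (RatFunc AA))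
      (RatFunc.X ^ a)) := by
    rw [← h2, ← Polynomial.map_map]
    exact Polynomial.map_dvd ι (minpoly.dvd k y h3)
  exact Splits.of_dvd hs (hg.map _).ne_zero h4

/-- The embedding of the normal closure of `k(y)`. -/
theorem exists_psi {k L : Type} [Field k] [CharZero k] [Field L] [Algebra k L] [Normal k L]
    (ι : k →+* RatFunc AA) (y : L) (hy : IsIntegral k y) (hs : ((minpoly k y).map ι).Splits) :
    ∃ M : IntermediateField k L, Normal k M ∧ y ∈ M ∧
      ∃ ψ : M →+* RatFunc AA, ∀ x : k, ψ (algebraMap k M x) = ι x := by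
  have hsL : ((minpoly k y).map (algebraMap k L)).Splits := Normal.splits inferInstance y
  set M : IntermediateField k L := adjoin k ((minpoly k y).rootSet L) with hM
  have hM1 : IsSplittingField k M (minpoly k y) := adjoin_rootSet_isSplittingField hsL
  have hM2 : Normal k M := Normal.of_isSplittingField (minpoly k y)
  have hmem : y ∈ (minpoly k y).rootSet L := by
    rw [mem_rootSet]
    exact ⟨minpoly.ne_zero hy, minpoly.aeval k y⟩
  refine ⟨M, hM2, subset_adjoin _ _ hmem, ?_⟩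
  let _ : Algebra k (RatFunc AA) := ι.toAlgebra
  have hcomp : algebraMap k (RatFunc AA) = ι := rfl
  have hne : Nonempty (adjoin k ((minpoly k y).rootSet L) →ₐ[k] RatFunc AA) := by
    refine nonempty_algHom_adjoin_of_splits ?_
    intro s hs1
    rw [mem_rootSet] at hs1
    refine ⟨⟨minpoly k y, minpoly.monic hy, by rw [← aeval_def]; exact hs1.2⟩, ?_⟩
    rw [hcomp]
    have : minpoly k s = minpoly k y :=
      (minpoly.eq_of_irreducible_of_monic (minpoly.irreducible hy) hs1.2 (minpoly.monic hy)).symm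
    rw [this]
    exact hs
  obtain ⟨ψ⟩ := hne
  exact ⟨ψ.toRingHom, fun x => ψ.commutes x⟩

end PUQM

end MP743d1e.CY
end

section
/-!
# PUB: lemmas for PUQ: values at roots of unity
-/
set_option autoImplicit false

namespace MP743d1e.CY

open scoped BigOperators nonZeroDivisors
open Polynomial IntermediateField MP743d1e.Integ

namespace PUQM

/-- The values at the roots of `p` are zero if the point is a zero. -/
theorem dvd_of_pos {F K : Type} [Field F] [Field K] [Algebra F K] {v : DVal K} {h : K}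
    (hh : Transcendental F h) (hg : GeoF F v) (hn : NN v h) {p : F[X]} (hp : Irreducible p)
    (hpos : Pos v (aeval h p)) (q : F[X]) (hq : ∀ u : Kˣ, (u : K) = aeval h q → 0 < v.ord u) :
    p ∣ q := by
  by_cases h0 : q = 0
  · rw [h0]; exact dvd_zero p
  have hq0 : aeval h q ≠ 0 := fun h1 => h0 ((transcendental_iff.1 hh) q h1)
  have hq1 : Pos v (aeval h q) := by
    have := hq (Units.mk0 _ hq0) rfl
    exact (pos_unit (v := v) (u := Units.mk0 _ hq0)).2 (by omega)
  by_contra hd
  have hcop : IsCoprime p q := (hp.coprime_iff_not_dvd).2 hd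
  have hprime := ASMM.pid_prime hg hn
  apply hprime.ne_top
  rw [Ideal.eq_top_iff_one]
  obtain ⟨a, b, hab⟩ := hcop
  rw [← hab]
  exact Ideal.add_mem _ (Ideal.mul_mem_left _ _ ((ASMM.mem_pid hg hn p).2 hpos))
    (Ideal.mul_mem_left _ _ ((ASMM.mem_pid hg hn q).2 hq1))

theorem nn_of_pos {F K : Type} [Field F] [Field K] [Algebra F K] {v : DVal K} {h : Kˣ}
    (hg : GeoF F v) {p : F[X]} (hp : Irreducible p)
    (hpos : Pos v (aeval (h : K) p)) : NN v (h : K) := by
  rw [nn_unit]
  by_contra h0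
  have h0' : v.ord h < 0 := by omega
  have hp0 : p ≠ 0 := hp.ne_zero
  have hl : p.leadingCoeff⁻¹ ≠ 0 := inv_ne_zero (leadingCoeff_ne_zero.2 hp0)
  set q : F[X] := C p.leadingCoeff⁻¹ * p with hq
  have hqm : q.Monic := by
    rw [hq, mul_comm]
    exact monic_mul_leadingCoeff_inv hp0
  have hqd : q.natDegree = p.natDegree := by
    rw [hq, natDegree_C_mul hl]
  rcases hpos with h1 | ⟨u, hu, h1⟩
  · -- `h` would be algebraic of negative order
    have : aeval (h : K) q = 0 := by rw [hq, map_mul, h1, mul_zero]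
    have hint : IsIntegral F (h : K) := ⟨q, hqm, by rwa [← aeval_def]⟩
    have := nn_unit.1 (FNVM.nn_of_isIntegral (fun a => FNVM.nn_const hg a) hint)
    omega
  · have hl' : algebraMap F K p.leadingCoeff⁻¹ ≠ 0 := by rwa [Ne, map_eq_zero]
    have hc0 : v.ord (Units.mk0 _ hl') = 0 := hg _ ⟨_, rfl⟩
    have h2 := ASMM.ord_at_pole hg h h0' hqm (Units.mk0 _ hl' * u) (by
      rw [Units.val_mul, hu, hq, map_mul, aeval_C]; rfl)
    rw [v.ord_mul, hc0, hqd, zero_add] at h2
    have h3 : 0 < p.natDegree := hp.natDegree_pos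
    have h4 : (0 : ℤ) < p.natDegree := by exact_mod_cast h3
    nlinarith

/-- Evaluation at a root of `p`. -/
theorem value {F : Type} [Field F] [CharZero F] (φ : F →+* ℂ) (hφ : ∀ x, φ x ∈ Qab) {n : ℕ}
    (hn : 0 < n) {p : F[X]} (hp : Irreducible p) (hd : p ∣ cyclotomic n F) (a : F[X])
    (g : ℤ[X][X]) (hga : p ∣ (g.map (mapRingHom (Int.castRingHom F))).eval a) :
    ∃ ζ θ : ℂ, IsPrimitiveRoot ζ n ∧ θ ∈ Qab ∧ ev2 ζ θ g = 0 := by
  obtain ⟨ζ, hζ⟩ := IsAlgClosed.exists_root (p.map φ) (by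
    rw [degree_map]
    exact (degree_pos_of_irreducible hp).ne')
  have hcyc : (cyclotomic n ℂ).IsRoot ζ := by
    have h1 : p.map φ ∣ cyclotomic n ℂ := by
      rw [← map_cyclotomic n φ]
      exact Polynomial.map_dvd φ hd
    exact hζ.dvd h1
  have : NeZero (n : ℂ) := ⟨by exact_mod_cast hn.ne'⟩
  have hprim : IsPrimitiveRoot ζ n := isRoot_cyclotomic_iff.1 hcyc
  refine ⟨ζ, (a.map φ).eval ζ, hprim, ?_, ?_⟩
  · rw [eval_map, eval₂_eq_sum_range]
    refine sum_mem fun i _ => mul_mem (hφ _) (pow_mem ?_ _)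
    exact Subfield.subset_closure ⟨n, hn, hprim.pow_eq_one⟩
  · have h1 : ((g.map (mapRingHom (Int.castRingHom F))).eval a).eval₂ φ ζ = 0 := by
      obtain ⟨q, hq⟩ := hga
      rw [hq, eval₂_mul, ← eval_map, hζ.eq_zero, zero_mul]
    have h2 : ∀ G : ℤ[X][X], ((G.map (mapRingHom (Int.castRingHom F))).eval a).eval₂ φ ζ =
        ev2 ζ ((a.map φ).eval ζ) G := by
      intro G
      unfold ev2
      rw [eval_map, ← coe_eval₂RingHom φ ζ, hom_eval₂]
      congr 1
      · refine Polynomial.ringHom_ext' (Subsingleton.elim _ _) ?_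
        simp
      · rw [coe_eval₂RingHom, eval_map]
    rw [← h2 g]
    exact h1

end PUQM

end MP743d1e.CY
end

section
/-!
# PUQ: exactly one closed point above the factors of the cyclotomic polynomials
-/
set_option autoImplicit false

namespace MP743d1e.CY

open scoped BigOperators nonZeroDivisors
open Polynomial IntermediateField MP743d1e.Integ

namespace PUQM

theorem qab_alg {z : ℂ} (hz : z ∈ Qab) : z ∈ algebraicClosure ℚ ℂ := by
  have : Qab ≤ (algebraicClosure ℚ ℂ).toSubfield := by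
    refine Subfield.closure_le.2 ?_
    rintro z ⟨n, hn, hz⟩
    show z ∈ algebraicClosure ℚ ℂ
    rw [mem_algebraicClosure_iff]
    refine IsIntegral.isAlgebraic ⟨X ^ n - 1, monic_X_pow_sub_C 1 hn.ne', ?_⟩
    simp [hz]
  exact this hz

/-- A map to `ℚ^ab` is a map to `ℚ̄`. -/
theorem exists_phi {F : Type} [Field F] (φ : F →+* ℂ) (hφ : ∀ x, φ x ∈ Qab) :
    ∃ φ' : F →+* AA, ∀ x, ((φ' x : AA) : ℂ) = φ x :=
  ⟨φ.codRestrict (algebraicClosure ℚ ℂ).toSubfield (fun x => qab_alg (hφ x)), fun _ => rfl⟩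

theorem int_F {F : Type} [Field F] [CharZero F] (φ' : F →+* AA) (c : F) : IsIntegral ℚ c := by
  have h1 := NRMM.aa_int (φ' c)
  have h2 : IsIntegral ℚ ((φ'.toRatAlgHom) c) := h1
  exact (isIntegral_algHom_iff φ'.toRatAlgHom φ'.injective).1 h2

/-- `Fail`: the property of the decomposition group `D` at level `n`. -/
def RR (F : Type) {K L : Type} [Field F] [Field K] [Field L] [Algebra F K] [Algebra F L]
    [Algebra K L] (h : K) (D : Subgroup (L ≃ₐ[F⟮h⟯] L)) (n : ℕ) : Prop :=
  ∀ y ∈ fixedField D, (∃ g : F[X][X], g.Monic ∧ evF (algebraMap K L h) y g = 0) →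
    ∃ p : F[X], Irreducible p ∧ p ∣ cyclotomic n F ∧ ∃ a : F[X], ∀ g : F[X][X],
      evF (algebraMap K L h) y g = 0 → p ∣ g.eval a

/-- No factorisation of `σ`. -/
def NS (F : Type) {K L : Type} [Field F] [Field K] [Field L] [Algebra F K] [Algebra F L]
    [Algebra K L] (h : K) (D : Subgroup (L ≃ₐ[F⟮h⟯] L)) (σ : L ≃ₐ[F⟮h⟯] L) : Prop :=
  ¬ ∃ η δ : L ≃ₐ[F⟮h⟯] L, (∀ x : K, η (algebraMap K L x) = algebraMap K L x) ∧ δ ∈ D ∧
    σ = η * δ

/-- One decomposition group for infinitely many levels. -/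
theorem pigeon (hDEC : SpecDEC) (F K L : Type) [Field F] [CharZero F] [Field K] [Field L]
    [Algebra F K] [Algebra F L] [Algebra K L] [IsScalarTower F K L] (h : K)
    (hh : Transcendental F h) (hK : FiniteDimensional F⟮h⟯ K) (hL : FiniteDimensional F⟮h⟯ L)
    (hG : IsGalois F⟮h⟯ L)
    (hbad : ∀ N : ℕ, ∃ n : ℕ, N < n ∧ ∃ p : F[X], Irreducible p ∧ p ∣ cyclotomic n F ∧
      ∃ v w : DVal K, GeoF F v ∧ GeoF F w ∧
        (∀ u : Kˣ, (u : K) = aeval h p → 0 < v.ord u ∧ 0 < w.ord u) ∧ v ≠ w) :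
    ∃ (D : Subgroup (L ≃ₐ[F⟮h⟯] L)) (σ : L ≃ₐ[F⟮h⟯] L), NS F h D σ ∧
      ∀ N : ℕ, ∃ n : ℕ, N < n ∧ RR F h D n := by
  classical
  have hh0 : h ≠ 0 := by
    rintro rfl
    exact hh (isAlgebraic_zero)
  have key : ∀ N : ℕ, ∃ n : ℕ, N < n ∧
      ∃ (D : Subgroup (L ≃ₐ[F⟮h⟯] L)) (σ : L ≃ₐ[F⟮h⟯] L), NS F h D σ ∧ RR F h D n := by
    intro N
    obtain ⟨n, hn, p, hp, hpd, v, w, hv, hw, hvw, hne⟩ := hbad N
    have hp0 : aeval h p ≠ 0 := fun h1 => hp.ne_zero ((transcendental_iff.1 hh) p h1)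
    obtain ⟨hv0, hw0⟩ := hvw (Units.mk0 _ hp0) rfl
    have hvp : Pos v (aeval h p) :=
      (pos_unit (v := v) (u := Units.mk0 _ hp0)).2 (by omega)
    have hwp : Pos w (aeval h p) :=
      (pos_unit (v := w) (u := Units.mk0 _ hp0)).2 (by omega)
    have hvn : NN v h := nn_of_pos (h := Units.mk0 h hh0) hv hp hvp
    have hwn : NN w h := nn_of_pos (h := Units.mk0 h hh0) hw hp hwp
    have hmk : ∀ (v' : DVal K), GeoF F v' → NN v' h → Pos v' (aeval h p) →
        ∀ (q : F[X]) (u : Kˣ), (u : K) = aeval h q → (0 < v'.ord u ↔ p ∣ q) := by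
      intro v' hg' hn' hp' q u hu
      constructor
      · intro h0
        refine dvd_of_pos hh hg' hn' hp hp' q ?_
        intro u' hu'
        rwa [Units.ext (hu'.trans hu.symm)]
      · rintro ⟨r, rfl⟩
        have h1 : Pos v' (u : K) := by
          rw [hu, map_mul]
          exact pos_mul_nn hp' (ASMM.nn_aeval hg' hn' r)
        have := pos_unit.1 h1
        omega
    obtain ⟨D, σ, hNS, hR⟩ := hDEC F K L h hh hK hL hG v w hv hw (by
      intro q u hu
      refine ⟨?_, ?_, ?_⟩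
      · apply nn_unit.1
        rw [hu]
        exact ASMM.nn_aeval hv hvn q
      · apply nn_unit.1
        rw [hu]
        exact ASMM.nn_aeval hw hwn q
      · rw [hmk v hv hvn hvp q u hu, hmk w hw hwn hwp q u hu])
      (fun e => hne (FNVM.dval_ext e))
    refine ⟨n, hn, D, σ, hNS, ?_⟩
    intro y hy hint
    obtain ⟨a, ha⟩ := hR y hy hint
    refine ⟨p, hp, hpd, a, fun g hg => ?_⟩
    exact dvd_of_pos hh hv hvn hp hvp _ (ha g hg)
  by_contra hcon
  push Not at hcon
  have hfin : Finite (Subgroup (L ≃ₐ[F⟮h⟯] L) × (L ≃ₐ[F⟮h⟯] L)) := inferInstance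
  have hch : ∀ x : Subgroup (L ≃ₐ[F⟮h⟯] L) × (L ≃ₐ[F⟮h⟯] L), ∃ N : ℕ, NS F h x.1 x.2 →
      ∀ n : ℕ, N < n → ¬ RR F h x.1 n := by
    intro x
    by_cases hx : NS F h x.1 x.2
    · obtain ⟨N, hN⟩ := hcon x.1 x.2 hx
      exact ⟨N, fun _ => hN⟩
    · exact ⟨0, fun h1 => absurd h1 hx⟩
  choose Nf hNf using hch
  obtain ⟨B, hB⟩ := Finite.exists_le Nf
  obtain ⟨n, hn, D, σ, hNS, hR⟩ := key B
  exact hNf (D, σ) hNS n (lt_of_le_of_lt (hB (D, σ)) hn) hR

end PUQM

open PUQM

theorem specPUQ (hDEC : SpecDEC) (hINT : SpecINT) (hLCM : SpecLCM) (hNRM : SpecNRM)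
    (hCLK : SpecCLK) (hGAL : SpecGAL) (hGEN : SpecGEN) : SpecPUQ := by
  intro F K _ _ _ _ φ h hφ hh hfin hc hprim
  by_contra hcon
  push Not at hcon
  obtain ⟨L, _, _, hL, hG⟩ := exists_closure F K h hfin
  let _ : Algebra F L := ((algebraMap K L).comp (algebraMap F K)).toAlgebra
  have htow : IsScalarTower F K L := IsScalarTower.of_algebraMap_eq' rfl
  have hcharK : CharZero K := charZero_of_injective_algebraMap (algebraMap F K).injective
  have hcharL : CharZero L := charZero_of_injective_algebraMap (algebraMap K L).injective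
  obtain ⟨φ', hφ'⟩ := exists_phi φ hφ
  obtain ⟨D, σ, hNS, hR⟩ := pigeon hDEC F K L h hh hfin hL hG (by
    intro N
    obtain ⟨n, hn, p, hp, hpd, v, w, hv, hw, hvw, hne⟩ := hcon N
    exact ⟨n, hn, p, hp, hpd, v, w, hv, hw, hvw, hne⟩)
  obtain ⟨y, hyD, ⟨gQ, hgQ, hgy⟩, hgen⟩ := hGEN F K L h (int_F φ') hh hL (fixedField D)
  have hhL : Transcendental F (algebraMap K L h) := by
    intro h1
    exact hh ((isAlgebraic_algebraMap_iff (algebraMap K L).injective).1 h1)
  have hhQ : Transcendental ℚ (algebraMap K L h) := by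
    intro h1
    apply hhL
    exact h1.tower_top (K := ℚ) F
  obtain ⟨N0, hN0, g, hg, hg0, hirr⟩ := hINT L (algebraMap K L h) y hhQ ⟨gQ, hgQ, hgy⟩
  set y' : L := (N0 : L) * y with hy'
  have hy'D : y' ∈ fixedField D := mul_mem (_root_.natCast_mem _ _) hyD
  have hgF : ∀ G : ℤ[X][X], evF (algebraMap K L h) y' (G.map (mapRingHom (Int.castRingHom F))) =
      ev2 (algebraMap K L h) y' G := by
    intro G
    unfold evF ev2
    rw [eval₂_map]
    congr 1
    refine Polynomial.ringHom_ext' (Subsingleton.elim _ _) ?_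
    simp
  obtain ⟨a, y1, ha, hy1⟩ := hLCM g hg (by
    intro N
    obtain ⟨n, hn, hRn⟩ := hR N
    obtain ⟨p, hp, hpd, b, hb⟩ := hRn y' hy'D ⟨g.map (mapRingHom (Int.castRingHom F)), hg.map _,
      by rw [hgF]; exact hg0⟩
    obtain ⟨ζ, θ, h1, h2, h3⟩ := value φ hφ (by omega) hp hpd b g
      (hb _ (by rw [hgF]; exact hg0))
    exact ⟨n, ζ, θ, hn, h1, h2, h3⟩)
  have hs := splits_g hNRM hirr ha hy1
  obtain ⟨j, hjC, hjX⟩ := exists_rat φ' ha
  set e := RatFunc.algEquivOfTranscendental h hh with he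
  set ι : F⟮h⟯ →+* RatFunc AA := j.comp (e.symm : F⟮h⟯ →+* RatFunc F) with hιdef
  set hk : F⟮h⟯ := AdjoinSimple.gen F h with hhk
  have hι : ι hk = RatFunc.X ^ a := by
    rw [← hjX, hιdef, RingHom.comp_apply]
    congr 1
    exact RatFunc.algEquivOfTranscendental_symm_gen h hh
  have hιC : ∀ c : F, ι (algebraMap F F⟮h⟯ c) = RatFunc.C (φ' c) := by
    intro c
    rw [← hjC, hιdef, RingHom.comp_apply]
    congr 1
    exact e.symm.commutes c
  have hkL : algebraMap F⟮h⟯ L hk = algebraMap K L h := rfl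
  obtain ⟨hint, hsp⟩ := splits_minpoly hg hs hk ι hι y' (by rw [hkL]; exact hg0)
  obtain ⟨M, hMn, hyM, ψ, hψ⟩ := exists_psi ι y' hint hsp
  have hDM : fixedField D ≤ M := by
    rw [← hgen, adjoin_le_iff, Set.singleton_subset_iff]
    have h1 : y = (N0 : L)⁻¹ * y' := by
      rw [hy', ← mul_assoc, inv_mul_cancel₀ (by exact_mod_cast hN0.ne'), one_mul]
    rw [h1]
    exact mul_mem (inv_mem (_root_.natCast_mem _ _)) hyM
  set KL : IntermediateField F⟮h⟯ L := (IsScalarTower.toAlgHom F⟮h⟯ K L).fieldRange with hKL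
  have hKLm : ∀ x : L, x ∈ KL ↔ ∃ z : K, algebraMap K L z = x := fun x => Iff.rfl
  have hbot : KL ⊓ M = ⊥ := by
    set E : IntermediateField F⟮h⟯ L := KL ⊓ M with hE
    have hEM : E ≤ M := inf_le_right
    have hcomm : ∀ c : F, ((algebraMap F E c : E) : L) = algebraMap F L c := fun _ => rfl
    have htowE : IsScalarTower F E L := IsScalarTower.of_algebraMap_eq fun _ => rfl
    let t : E := algebraMap F⟮h⟯ E hk
    have htL : (t : L) = algebraMap K L h := rfl
    let ψE : E →+* RatFunc AA := ψ.comp (inclusion hEM).toRingHom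
    have hψE : ∀ x : F⟮h⟯, ψE (algebraMap F⟮h⟯ E x) = ι x := fun x => hψ x
    have htr : Transcendental F t := by
      intro h1
      apply hhL
      rw [← htL]
      exact (isAlgebraic_algebraMap_iff (algebraMap E L).injective).2 h1
    have hin : ∀ x : F⟮h⟯, (algebraMap F⟮h⟯ E x : E) ∈ F⟮t⟯ := by
      intro x
      obtain ⟨x, hx⟩ := x
      induction hx using IntermediateField.adjoin_induction with
      | mem x hx =>
        rw [Set.mem_singleton_iff] at hx
        subst hx
        exact mem_adjoin_simple_self F t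
      | algebraMap c => exact F⟮t⟯.algebraMap_mem c
      | add x y hx1 hy1 hx hy =>
        have : (⟨x + y, add_mem hx1 hy1⟩ : F⟮h⟯) = ⟨x, hx1⟩ + ⟨y, hy1⟩ := rfl
        rw [this, map_add]
        exact add_mem hx hy
      | inv x hx1 hx =>
        have : (⟨x⁻¹, inv_mem hx1⟩ : F⟮h⟯) = (⟨x, hx1⟩ : F⟮h⟯)⁻¹ := rfl
        rw [this, map_inv₀]
        exact inv_mem hx
      | mul x y hx1 hy1 hx hy =>
        have : (⟨x * y, mul_mem hx1 hy1⟩ : F⟮h⟯) = ⟨x, hx1⟩ * ⟨y, hy1⟩ := rfl
        rw [this, map_mul]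
        exact mul_mem hx hy
    have halg : Algebra.IsAlgebraic F⟮t⟯ E := by
      refine ⟨fun b => ?_⟩
      obtain ⟨q, hq, hq0⟩ := (Algebra.IsAlgebraic.isAlgebraic (R := F⟮h⟯) b)
      let r : F⟮h⟯ →+* F⟮t⟯ := (algebraMap F⟮h⟯ E).codRestrict F⟮t⟯.toSubfield hin
      refine ⟨q.map r, ?_, ?_⟩
      · rwa [Ne, Polynomial.map_eq_zero]
      · rw [aeval_def, eval₂_map]
        exact hq0
    have hconst : ∀ z : E, IsAlgebraic F z → ∃ c : F, z = algebraMap F E c := by
      intro z hz
      obtain ⟨z0, hz0⟩ := (hKLm (z : L)).1 (inf_le_left (a := KL) (b := M) z.2)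
      have h1 : IsAlgebraic F (z : L) :=
        (isAlgebraic_algebraMap_iff (algebraMap E L).injective).2 hz
      rw [← hz0] at h1
      have h2 : IsAlgebraic F z0 :=
        (isAlgebraic_algebraMap_iff (algebraMap K L).injective).1 h1
      obtain ⟨c, hcz⟩ := hc z0 h2
      refine ⟨c, Subtype.ext ?_⟩
      rw [← hz0, hcz, hcomm]
      rfl
    have h3 := hCLK F E t htr halg hconst φ' ψE a ha (fun x => by
      rw [← hιC, ← hψE]
      rfl) (by rw [← hι, ← hψE])
    rcases h3 with h3 | ⟨m, c, v, hm, hv⟩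
    · rw [eq_bot_iff]
      intro b hb
      have h4 : (⟨b, hb⟩ : E) ∈ F⟮t⟯ := by rw [h3]; trivial
      have h5 : ∀ b : E, b ∈ F⟮t⟯ → (b : L) ∈ (⊥ : IntermediateField F⟮h⟯ L) := by
        intro b hb
        induction hb using IntermediateField.adjoin_induction with
        | mem x hx =>
          rw [Set.mem_singleton_iff] at hx
          subst hx
          exact (⊥ : IntermediateField F⟮h⟯ L).algebraMap_mem hk
        | algebraMap c =>
          exact (⊥ : IntermediateField F⟮h⟯ L).algebraMap_mem (algebraMap F F⟮h⟯ c)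
        | add x y _ _ hx hy => exact add_mem hx hy
        | inv x _ hx => exact inv_mem hx
        | mul x y _ _ hx hy => exact mul_mem hx hy
      exact h5 _ h4
    · exfalso
      obtain ⟨v0, hv0⟩ := (hKLm (v : L)).1 (inf_le_left (a := KL) (b := M) v.2)
      apply hprim m c v0 hm
      apply (algebraMap K L).injective
      rw [map_mul, map_pow, hv0, ← htL, hv]
      rfl
  obtain ⟨η, hη, δ, hδ, hσ⟩ := hGAL F⟮h⟯ L KL M D hMn hDM hbot σ
  refine hNS ⟨η, δ, ?_, hδ, hσ⟩
  intro x
  exact hη ⟨algebraMap K L x, (hKLm _).2 ⟨x, rfl⟩⟩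

end MP743d1e.CY
end

section
/-!
# PUK: exactly one closed point above the points with `c u ^ k` a root of unity of large order
-/
set_option autoImplicit false

namespace MP743d1e.CY

open scoped BigOperators nonZeroDivisors
open Polynomial IntermediateField MP743d1e.Integ

namespace PUKM

open PUQM (NS exists_closure int_F dvd_of_pos nn_of_pos splits_g exists_rat splits_minpoly exists_psi)

theorem kab_alg {k₀ : IntermediateField ℚ ℂ} (hk : FiniteDimensional ℚ k₀) {z : ℂ}
    (hz : z ∈ kab k₀) : z ∈ algebraicClosure ℚ ℂ := by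
  have : kab k₀ ≤ (algebraicClosure ℚ ℂ).toSubfield := by
    refine Subfield.closure_le.2 ?_
    rintro z (hz | ⟨n, hn, hz⟩)
    · show z ∈ algebraicClosure ℚ ℂ
      rw [mem_algebraicClosure_iff]
      have h1 : IsAlgebraic ℚ (⟨z, hz⟩ : k₀) := Algebra.IsAlgebraic.isAlgebraic _
      exact (isAlgebraic_algebraMap_iff (algebraMap k₀ ℂ).injective).2 h1
    · show z ∈ algebraicClosure ℚ ℂ
      rw [mem_algebraicClosure_iff]
      refine IsIntegral.isAlgebraic ⟨X ^ n - 1, monic_X_pow_sub_C 1 hn.ne', ?_⟩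
      simp [hz]
  exact this hz

/-- A map to `k₀ ℚ^ab` is a map to `ℚ̄`. -/
theorem exists_phi {F : Type} [Field F] {k₀ : IntermediateField ℚ ℂ} (hk : FiniteDimensional ℚ k₀)
    (φ : F →+* ℂ) (hφ : ∀ x, φ x ∈ kab k₀) :
    ∃ φ' : F →+* AA, ∀ x, ((φ' x : AA) : ℂ) = φ x :=
  ⟨φ.codRestrict (algebraicClosure ℚ ℂ).toSubfield (fun x => kab_alg hk (hφ x)), fun _ => rfl⟩

theorem kab_mono {k k' : IntermediateField ℚ ℂ} (h : k ≤ k') : kab k ≤ kab k' :=
  Subfield.closure_mono (Set.union_subset_union_left _ h)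

/-- `Fail`: the property of the decomposition group `D` at level `n`. -/
def RR (F : Type) {K L : Type} [Field F] [Field K] [Field L] [Algebra F K] [Algebra F L]
    [Algebra K L] (h : K) (Q : ℕ → F[X] → Prop) (D : Subgroup (L ≃ₐ[F⟮h⟯] L)) (n : ℕ) : Prop :=
  ∀ y ∈ fixedField D, (∃ g : F[X][X], g.Monic ∧ evF (algebraMap K L h) y g = 0) →
    ∃ p : F[X], Irreducible p ∧ Q n p ∧ ∃ a : F[X], ∀ g : F[X][X],
      evF (algebraMap K L h) y g = 0 → p ∣ g.eval a

/-- One decomposition group for infinitely many levels. -/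
theorem pigeon (hDEC : SpecDEC) (F K L : Type) [Field F] [CharZero F] [Field K] [Field L]
    [Algebra F K] [Algebra F L] [Algebra K L] [IsScalarTower F K L] (h : K)
    (hh : Transcendental F h) (hK : FiniteDimensional F⟮h⟯ K) (hL : FiniteDimensional F⟮h⟯ L)
    (hG : IsGalois F⟮h⟯ L) (Q : ℕ → F[X] → Prop)
    (hbad : ∀ N : ℕ, ∃ n : ℕ, N < n ∧ ∃ p : F[X], Irreducible p ∧ Q n p ∧
      ∃ v w : DVal K, GeoF F v ∧ GeoF F w ∧
        (∀ u : Kˣ, (u : K) = aeval h p → 0 < v.ord u ∧ 0 < w.ord u) ∧ v ≠ w) :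
    ∃ (D : Subgroup (L ≃ₐ[F⟮h⟯] L)) (σ : L ≃ₐ[F⟮h⟯] L), NS F h D σ ∧
      ∀ N : ℕ, ∃ n : ℕ, N < n ∧ RR F h Q D n := by
  classical
  have hh0 : h ≠ 0 := by
    rintro rfl
    exact hh (isAlgebraic_zero)
  have key : ∀ N : ℕ, ∃ n : ℕ, N < n ∧
      ∃ (D : Subgroup (L ≃ₐ[F⟮h⟯] L)) (σ : L ≃ₐ[F⟮h⟯] L), NS F h D σ ∧ RR F h Q D n := by
    intro N
    obtain ⟨n, hn, p, hp, hpd, v, w, hv, hw, hvw, hne⟩ := hbad N
    have hp0 : aeval h p ≠ 0 := fun h1 => hp.ne_zero ((transcendental_iff.1 hh) p h1)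
    obtain ⟨hv0, hw0⟩ := hvw (Units.mk0 _ hp0) rfl
    have hvp : Pos v (aeval h p) :=
      (pos_unit (v := v) (u := Units.mk0 _ hp0)).2 (by omega)
    have hwp : Pos w (aeval h p) :=
      (pos_unit (v := w) (u := Units.mk0 _ hp0)).2 (by omega)
    have hvn : NN v h := nn_of_pos (h := Units.mk0 h hh0) hv hp hvp
    have hwn : NN w h := nn_of_pos (h := Units.mk0 h hh0) hw hp hwp
    have hmk : ∀ (v' : DVal K), GeoF F v' → NN v' h → Pos v' (aeval h p) →
        ∀ (q : F[X]) (u : Kˣ), (u : K) = aeval h q → (0 < v'.ord u ↔ p ∣ q) := by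
      intro v' hg' hn' hp' q u hu
      constructor
      · intro h0
        refine dvd_of_pos hh hg' hn' hp hp' q ?_
        intro u' hu'
        rwa [Units.ext (hu'.trans hu.symm)]
      · rintro ⟨r, rfl⟩
        have h1 : Pos v' (u : K) := by
          rw [hu, map_mul]
          exact pos_mul_nn hp' (ASMM.nn_aeval hg' hn' r)
        have := pos_unit.1 h1
        omega
    obtain ⟨D, σ, hNS, hR⟩ := hDEC F K L h hh hK hL hG v w hv hw (by
      intro q u hu
      refine ⟨?_, ?_, ?_⟩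
      · apply nn_unit.1
        rw [hu]
        exact ASMM.nn_aeval hv hvn q
      · apply nn_unit.1
        rw [hu]
        exact ASMM.nn_aeval hw hwn q
      · rw [hmk v hv hvn hvp q u hu, hmk w hw hwn hwp q u hu])
      (fun e => hne (FNVM.dval_ext e))
    refine ⟨n, hn, D, σ, hNS, ?_⟩
    intro y hy hint
    obtain ⟨a, ha⟩ := hR y hy hint
    refine ⟨p, hp, hpd, a, fun g hg => ?_⟩
    exact dvd_of_pos hh hv hvn hp hvp _ (ha g hg)
  by_contra hcon
  push Not at hcon
  have hfin : Finite (Subgroup (L ≃ₐ[F⟮h⟯] L) × (L ≃ₐ[F⟮h⟯] L)) := inferInstance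
  have hch : ∀ x : Subgroup (L ≃ₐ[F⟮h⟯] L) × (L ≃ₐ[F⟮h⟯] L), ∃ N : ℕ, NS F h x.1 x.2 →
      ∀ n : ℕ, N < n → ¬ RR F h Q x.1 n := by
    intro x
    by_cases hx : NS F h x.1 x.2
    · obtain ⟨N, hN⟩ := hcon x.1 x.2 hx
      exact ⟨N, fun _ => hN⟩
    · exact ⟨0, fun h1 => absurd h1 hx⟩
  choose Nf hNf using hch
  obtain ⟨B, hB⟩ := Finite.exists_le Nf
  obtain ⟨n, hn, D, σ, hNS, hR⟩ := key B
  exact hNf (D, σ) hNS n (lt_of_le_of_lt (hB (D, σ)) hn) hR

/-- Evaluation at a root of `p`. -/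
theorem value {F : Type} [Field F] [CharZero F] {k₀ k₁ : IntermediateField ℚ ℂ} (φ : F →+* ℂ)
    (hφ : ∀ x, φ x ∈ kab k₀) (hk : k₀ ≤ k₁) {c : F} (hc : c ≠ 0) {k : ℕ} (hk0 : 0 < k) {α : ℂ}
    (hα : α ∈ k₁) (hαk : α ^ k = (φ c)⁻¹) {n : ℕ}
    (hn : 0 < n) {p : F[X]} (hp : Irreducible p)
    (hd : p ∣ (cyclotomic n F).comp (C c * X ^ k)) (a : F[X])
    (g : ℤ[X][X]) (hga : p ∣ (g.map (mapRingHom (Int.castRingHom F))).eval a) :
    ∃ (n' : ℕ) (ζ θ : ℂ), n ≤ n' ∧ IsPrimitiveRoot ζ n' ∧ θ ∈ kab k₁ ∧ ev2 (α * ζ) θ g = 0 := by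
  obtain ⟨κ, hκ⟩ := IsAlgClosed.exists_root (p.map φ) (by
    rw [degree_map]
    exact (degree_pos_of_irreducible hp).ne')
  have hφc : φ c ≠ 0 := by rwa [Ne, map_eq_zero]
  have hα0 : α ≠ 0 := by
    rintro rfl
    rw [zero_pow hk0.ne'] at hαk
    exact inv_ne_zero hφc hαk.symm
  have hcyc : (cyclotomic n ℂ).IsRoot (φ c * κ ^ k) := by
    have h1 : p.map φ ∣ (cyclotomic n ℂ).comp (C (φ c) * X ^ k) := by
      have h2 := Polynomial.map_dvd φ hd
      rw [Polynomial.map_comp, map_cyclotomic, Polynomial.map_mul, Polynomial.map_C,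
        Polynomial.map_pow, Polynomial.map_X] at h2
      exact h2
    have h2 := hκ.dvd h1
    rw [IsRoot, eval_comp, eval_mul, eval_C, eval_pow, eval_X] at h2
    exact h2
  have : NeZero (n : ℂ) := ⟨by exact_mod_cast hn.ne'⟩
  have hprim : IsPrimitiveRoot (φ c * κ ^ k) n := isRoot_cyclotomic_iff.1 hcyc
  set ζ : ℂ := κ / α with hζ
  have hκζ : α * ζ = κ := by rw [hζ]; field_simp
  have hζk : ζ ^ k = φ c * κ ^ k := by
    rw [hζ, div_pow, hαk]; field_simp
  have hfin : ζ ^ (k * n) = 1 := by rw [pow_mul, hζk, hprim.pow_eq_one]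
  have hkn : 0 < k * n := Nat.mul_pos hk0 hn
  have hord : 0 < orderOf ζ := orderOf_pos_iff.2 (isOfFinOrder_iff_pow_eq_one.2 ⟨k * n, hkn, hfin⟩)
  refine ⟨orderOf ζ, ζ, (a.map φ).eval κ, ?_, IsPrimitiveRoot.orderOf ζ, ?_, ?_⟩
  · apply Nat.le_of_dvd hord
    apply hprim.dvd_of_pow_eq_one
    rw [← hζk, ← pow_mul, mul_comm, pow_mul, pow_orderOf_eq_one, one_pow]
  · rw [eval_map, eval₂_eq_sum_range]
    refine sum_mem fun i _ => mul_mem (kab_mono hk (hφ _)) (pow_mem ?_ _)
    rw [← hκζ]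
    exact mul_mem (Subfield.subset_closure (Or.inl hα))
      (Subfield.subset_closure (Or.inr ⟨k * n, hkn, hfin⟩))
  · rw [hκζ]
    have h1 : ((g.map (mapRingHom (Int.castRingHom F))).eval a).eval₂ φ κ = 0 := by
      obtain ⟨q, hq⟩ := hga
      rw [hq, eval₂_mul, ← eval_map, hκ.eq_zero, zero_mul]
    have h2 : ∀ G : ℤ[X][X], ((G.map (mapRingHom (Int.castRingHom F))).eval a).eval₂ φ κ =
        ev2 κ ((a.map φ).eval κ) G := by
      intro G
      unfold ev2
      rw [eval_map, ← coe_eval₂RingHom φ κ, hom_eval₂]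
      congr 1
      · refine Polynomial.ringHom_ext' (Subsingleton.elim _ _) ?_
        simp
      · rw [coe_eval₂RingHom, eval_map]
    rw [← h2 g]
    exact h1

/-- The field `k₀(α)`. -/
theorem exists_alpha {F : Type} [Field F] [CharZero F] {k₀ : IntermediateField ℚ ℂ}
    (hk₀ : FiniteDimensional ℚ k₀) (φ : F →+* ℂ) (hφ : ∀ x, φ x ∈ kab k₀) {c : F} (hc : c ≠ 0)
    {k : ℕ} (hk : 0 < k) : ∃ (k₁ : IntermediateField ℚ ℂ) (α : ℂ), FiniteDimensional ℚ k₁ ∧
      k₀ ≤ k₁ ∧ α ∈ k₁ ∧ α ≠ 0 ∧ α ^ k = (φ c)⁻¹ := by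
  obtain ⟨α, hα⟩ := IsAlgClosed.exists_pow_nat_eq ((φ c)⁻¹) hk
  have hφc : φ c ≠ 0 := by rwa [Ne, map_eq_zero]
  have h1 : IsAlgebraic ℚ (φ c) := (mem_algebraicClosure_iff).1 (kab_alg hk₀ (hφ c))
  have h2 : IsAlgebraic ℚ (α ^ k) := by rw [hα]; exact h1.inv
  have h3 : IsAlgebraic ℚ α := IsAlgebraic.of_pow hk h2
  have h4 : FiniteDimensional ℚ ℚ⟮α⟯ := adjoin.finiteDimensional h3.isIntegral
  refine ⟨k₀ ⊔ ℚ⟮α⟯, α, inferInstance, le_sup_left, ?_, ?_, hα⟩
  · exact (le_sup_right : ℚ⟮α⟯ ≤ k₀ ⊔ ℚ⟮α⟯) (mem_adjoin_simple_self ℚ α)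
  · rintro rfl
    rw [zero_pow hk.ne'] at hα
    exact inv_ne_zero hφc hα.symm

end PUKM

open PUKM
open PUQM (NS exists_closure int_F dvd_of_pos nn_of_pos splits_g exists_rat splits_minpoly exists_psi)

theorem specPUK (hDEC : SpecDEC) (hINT : SpecINT) (hLCK : SpecLCK) (hNRM : SpecNRM)
    (hCLK : SpecCLK) (hGAL : SpecGAL) (hGEN : SpecGEN) : SpecPUK := by
  intro F K _ _ _ _ φ k₀ h c₀ k hk₀ hφ hc₀ hk hh hfin hc hprim
  by_contra hcon
  push Not at hcon
  obtain ⟨L, _, _, hL, hG⟩ := exists_closure F K h hfin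
  let _ : Algebra F L := ((algebraMap K L).comp (algebraMap F K)).toAlgebra
  have htow : IsScalarTower F K L := IsScalarTower.of_algebraMap_eq' rfl
  have hcharK : CharZero K := charZero_of_injective_algebraMap (algebraMap F K).injective
  have hcharL : CharZero L := charZero_of_injective_algebraMap (algebraMap K L).injective
  obtain ⟨φ', hφ'⟩ := PUKM.exists_phi hk₀ φ hφ
  obtain ⟨k₁, α, hk₁, hk01, hα, hα0, hαk⟩ := exists_alpha hk₀ φ hφ hc₀ hk
  obtain ⟨D, σ, hNS, hR⟩ := PUKM.pigeon hDEC F K L h hh hfin hL hG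
    (fun n p => p ∣ (cyclotomic n F).comp (C c₀ * X ^ k)) (by
    intro N
    obtain ⟨n, hn, p, hp, hpd, v, w, hv, hw, hvw, hne⟩ := hcon N
    exact ⟨n, hn, p, hp, hpd, v, w, hv, hw, hvw, hne⟩)
  obtain ⟨y, hyD, ⟨gQ, hgQ, hgy⟩, hgen⟩ := hGEN F K L h (int_F φ') hh hL (fixedField D)
  have hhL : Transcendental F (algebraMap K L h) := by
    intro h1
    exact hh ((isAlgebraic_algebraMap_iff (algebraMap K L).injective).1 h1)
  have hhQ : Transcendental ℚ (algebraMap K L h) := by
    intro h1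
    apply hhL
    exact h1.tower_top (K := ℚ) F
  obtain ⟨N0, hN0, g, hg, hg0, hirr⟩ := hINT L (algebraMap K L h) y hhQ ⟨gQ, hgQ, hgy⟩
  set y' : L := (N0 : L) * y with hy'
  have hy'D : y' ∈ fixedField D := mul_mem (_root_.natCast_mem _ _) hyD
  have hgF : ∀ G : ℤ[X][X], evF (algebraMap K L h) y' (G.map (mapRingHom (Int.castRingHom F))) =
      ev2 (algebraMap K L h) y' G := by
    intro G
    unfold evF ev2
    rw [eval₂_map]
    congr 1
    refine Polynomial.ringHom_ext' (Subsingleton.elim _ _) ?_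
    simp
  obtain ⟨a, y1, ha, hy1⟩ := hLCK k₁ g ⟨α, hα⟩ (fun e => hα0 (congrArg Subtype.val e)) hg (by
    intro N
    obtain ⟨n, hn, hRn⟩ := hR N
    obtain ⟨p, hp, hpd, b, hb⟩ := hRn y' hy'D ⟨g.map (mapRingHom (Int.castRingHom F)), hg.map _,
      by rw [hgF]; exact hg0⟩
    obtain ⟨n', ζ, θ, h0, h1, h2, h3⟩ := PUKM.value φ hφ hk01 hc₀ hk hα hαk
      (Nat.lt_of_le_of_lt (Nat.zero_le N) hn) hp hpd b g
      (hb _ (by rw [hgF]; exact hg0))
    exact ⟨n', ζ, θ, lt_of_lt_of_le hn h0, h1, h2, h3⟩)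
  have hs := splits_g hNRM hirr ha hy1
  obtain ⟨j, hjC, hjX⟩ := exists_rat φ' ha
  set e := RatFunc.algEquivOfTranscendental h hh with he
  set ι : F⟮h⟯ →+* RatFunc AA := j.comp (e.symm : F⟮h⟯ →+* RatFunc F) with hιdef
  set hk : F⟮h⟯ := AdjoinSimple.gen F h with hhk
  have hι : ι hk = RatFunc.X ^ a := by
    rw [← hjX, hιdef, RingHom.comp_apply]
    congr 1
    exact RatFunc.algEquivOfTranscendental_symm_gen h hh
  have hιC : ∀ c : F, ι (algebraMap F F⟮h⟯ c) = RatFunc.C (φ' c) := by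
    intro c
    rw [← hjC, hιdef, RingHom.comp_apply]
    congr 1
    exact e.symm.commutes c
  have hkL : algebraMap F⟮h⟯ L hk = algebraMap K L h := rfl
  obtain ⟨hint, hsp⟩ := splits_minpoly hg hs hk ι hι y' (by rw [hkL]; exact hg0)
  obtain ⟨M, hMn, hyM, ψ, hψ⟩ := exists_psi ι y' hint hsp
  have hDM : fixedField D ≤ M := by
    rw [← hgen, adjoin_le_iff, Set.singleton_subset_iff]
    have h1 : y = (N0 : L)⁻¹ * y' := by
      rw [hy', ← mul_assoc, inv_mul_cancel₀ (by exact_mod_cast hN0.ne'), one_mul]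
    rw [h1]
    exact mul_mem (inv_mem (_root_.natCast_mem _ _)) hyM
  set KL : IntermediateField F⟮h⟯ L := (IsScalarTower.toAlgHom F⟮h⟯ K L).fieldRange with hKL
  have hKLm : ∀ x : L, x ∈ KL ↔ ∃ z : K, algebraMap K L z = x := fun x => Iff.rfl
  have hbot : KL ⊓ M = ⊥ := by
    set E : IntermediateField F⟮h⟯ L := KL ⊓ M with hE
    have hEM : E ≤ M := inf_le_right
    have hcomm : ∀ c : F, ((algebraMap F E c : E) : L) = algebraMap F L c := fun _ => rfl
    have htowE : IsScalarTower F E L := IsScalarTower.of_algebraMap_eq fun _ => rfl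
    let t : E := algebraMap F⟮h⟯ E hk
    have htL : (t : L) = algebraMap K L h := rfl
    let ψE : E →+* RatFunc AA := ψ.comp (inclusion hEM).toRingHom
    have hψE : ∀ x : F⟮h⟯, ψE (algebraMap F⟮h⟯ E x) = ι x := fun x => hψ x
    have htr : Transcendental F t := by
      intro h1
      apply hhL
      rw [← htL]
      exact (isAlgebraic_algebraMap_iff (algebraMap E L).injective).2 h1
    have hin : ∀ x : F⟮h⟯, (algebraMap F⟮h⟯ E x : E) ∈ F⟮t⟯ := by
      intro x
      obtain ⟨x, hx⟩ := x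
      induction hx using IntermediateField.adjoin_induction with
      | mem x hx =>
        rw [Set.mem_singleton_iff] at hx
        subst hx
        exact mem_adjoin_simple_self F t
      | algebraMap c => exact F⟮t⟯.algebraMap_mem c
      | add x y hx1 hy1 hx hy =>
        have : (⟨x + y, add_mem hx1 hy1⟩ : F⟮h⟯) = ⟨x, hx1⟩ + ⟨y, hy1⟩ := rfl
        rw [this, map_add]
        exact add_mem hx hy
      | inv x hx1 hx =>
        have : (⟨x⁻¹, inv_mem hx1⟩ : F⟮h⟯) = (⟨x, hx1⟩ : F⟮h⟯)⁻¹ := rfl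
        rw [this, map_inv₀]
        exact inv_mem hx
      | mul x y hx1 hy1 hx hy =>
        have : (⟨x * y, mul_mem hx1 hy1⟩ : F⟮h⟯) = ⟨x, hx1⟩ * ⟨y, hy1⟩ := rfl
        rw [this, map_mul]
        exact mul_mem hx hy
    have halg : Algebra.IsAlgebraic F⟮t⟯ E := by
      refine ⟨fun b => ?_⟩
      obtain ⟨q, hq, hq0⟩ := (Algebra.IsAlgebraic.isAlgebraic (R := F⟮h⟯) b)
      let r : F⟮h⟯ →+* F⟮t⟯ := (algebraMap F⟮h⟯ E).codRestrict F⟮t⟯.toSubfield hin
      refine ⟨q.map r, ?_, ?_⟩
      · rwa [Ne, Polynomial.map_eq_zero]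
      · rw [aeval_def, eval₂_map]
        exact hq0
    have hconst : ∀ z : E, IsAlgebraic F z → ∃ c : F, z = algebraMap F E c := by
      intro z hz
      obtain ⟨z0, hz0⟩ := (hKLm (z : L)).1 (inf_le_left (a := KL) (b := M) z.2)
      have h1 : IsAlgebraic F (z : L) :=
        (isAlgebraic_algebraMap_iff (algebraMap E L).injective).2 hz
      rw [← hz0] at h1
      have h2 : IsAlgebraic F z0 :=
        (isAlgebraic_algebraMap_iff (algebraMap K L).injective).1 h1
      obtain ⟨c, hcz⟩ := hc z0 h2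
      refine ⟨c, Subtype.ext ?_⟩
      rw [← hz0, hcz, hcomm]
      rfl
    have h3 := hCLK F E t htr halg hconst φ' ψE a ha (fun x => by
      rw [← hιC, ← hψE]
      rfl) (by rw [← hι, ← hψE])
    rcases h3 with h3 | ⟨m, c, v, hm, hv⟩
    · rw [eq_bot_iff]
      intro b hb
      have h4 : (⟨b, hb⟩ : E) ∈ F⟮t⟯ := by rw [h3]; trivial
      have h5 : ∀ b : E, b ∈ F⟮t⟯ → (b : L) ∈ (⊥ : IntermediateField F⟮h⟯ L) := by
        intro b hb
        induction hb using IntermediateField.adjoin_induction with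
        | mem x hx =>
          rw [Set.mem_singleton_iff] at hx
          subst hx
          exact (⊥ : IntermediateField F⟮h⟯ L).algebraMap_mem hk
        | algebraMap c =>
          exact (⊥ : IntermediateField F⟮h⟯ L).algebraMap_mem (algebraMap F F⟮h⟯ c)
        | add x y _ _ hx hy => exact add_mem hx hy
        | inv x _ hx => exact inv_mem hx
        | mul x y _ _ hx hy => exact mul_mem hx hy
      exact h5 _ h4
    · exfalso
      obtain ⟨v0, hv0⟩ := (hKLm (v : L)).1 (inf_le_left (a := KL) (b := M) v.2)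
      apply hprim m c v0 hm
      apply (algebraMap K L).injective
      rw [map_mul, map_pow, hv0, ← htL, hv]
      rfl
  obtain ⟨η, hη, δ, hδ, hσ⟩ := hGAL F⟮h⟯ L KL M D hMn hDM hbot σ
  refine hNS ⟨η, δ, ?_, hδ, hσ⟩
  intro x
  exact hη ⟨algebraMap K L x, (hKLm _).2 ⟨x, rfl⟩⟩

end MP743d1e.CY
end
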