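import Pool.Agent.Lib.MP_743d1e_nt.CY.Spec

/-!
# From roots in `ℚ^ab` for infinitely many roots of unity to a root in `ℚ̄(u)`
-/

set_option autoImplicit false

namespace MP743d1e.CY

open scoped BigOperators
open Polynomial IntermediateField
open Pool.Agent.Lib.MPcb8a44

namespace LCMM

/-- `ev2` and ring homomorphisms -/
theorem ev2_map {R S : Type} [CommRing R] [CommRing S] (f : R →+* S) (z w : R) (g : ℤ[X][X]) :
    f (ev2 z w g) = ev2 (f z) (f w) g := by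
  unfold ev2
  rw [Polynomial.hom_eval₂]
  congr 1
  refine Polynomial.ringHom_ext (fun n => ?_) ?_
  · simp
  · simp

/-- infinitely many times the same color -/
theorem pigeon {C : Type} [Finite C] {Q : ℕ → C → Prop} (h : ∀ N : ℕ, ∃ (n : ℕ) (c : C), N < n ∧ Q n c) :
    ∃ c, ∀ N : ℕ, ∃ n, N < n ∧ Q n c := by
  by_contra hc
  push Not at hc
  choose N hN using hc
  obtain ⟨M, hM⟩ := (Set.finite_range N).bddAbove
  obtain ⟨n, c, hn, hQ⟩ := h M
  exact hN c n (lt_of_le_of_lt (hM ⟨c, rfl⟩) hn) hQ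

/-- the polynomial in the roots of unity -/
noncomputable def G (g : ℤ[X][X]) (c : ℕ) : MvPolynomial (Option (Fin c)) ℤ :=
  ev2 (MvPolynomial.X none) (∑ i, MvPolynomial.X (some i)) g

theorem eval_G {R : Type} [CommRing R] (g : ℤ[X][X]) (c : ℕ) (x : Option (Fin c) → R) :
    ev2 (x none) (∑ i, x (some i)) g =
      ∑ k : (G g c).support, (((G g c).coeff k.1 : ℤ) : R) * ∏ i, x i ^ (k.1 i) := by
  have h := ev2_map (MvPolynomial.eval₂Hom (Int.castRingHom R) x) (MvPolynomial.X none)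
    (∑ i, MvPolynomial.X (some i)) g
  rw [map_sum] at h
  simp only [MvPolynomial.eval₂Hom_X'] at h
  rw [← h]
  change MvPolynomial.eval₂ (Int.castRingHom R) x (G g c) = _
  rw [MvPolynomial.eval₂_eq', ← Finset.sum_coe_sort]
  rfl

theorem ru_prod {ι : Type} [Fintype ι] {x : ι → ℂ} (h : ∀ i, ∃ n : ℕ, 0 < n ∧ x i ^ n = 1) (k : ι → ℕ) :
    ∃ n : ℕ, 0 < n ∧ (∏ i, x i ^ k i) ^ n = 1 := by
  rw [← isOfFinOrder_iff_pow_eq_one]
  refine Finset.prod_induction _ IsOfFinOrder (fun a b ha hb => ha.mul hb) IsOfFinOrder.one fun i _ => ?_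
  exact (isOfFinOrder_iff_pow_eq_one.mpr (h i)).pow

theorem alg_of_ru {x : ℂ} (h : ∃ n : ℕ, 0 < n ∧ x ^ n = 1) : ∃ w : AA, (w : ℂ) = x := by
  obtain ⟨n, hn, hx⟩ := h
  refine ⟨⟨x, ?_⟩, rfl⟩
  rw [mem_algebraicClosure_iff]
  refine ⟨Polynomial.X ^ n - Polynomial.C 1, Polynomial.X_pow_sub_C_ne_zero hn 1, ?_⟩
  simp [hx]

theorem prod_zpow {K : Type} [Field K] {T : K} (hT : T ≠ 0) {ι : Type} (s : Finset ι) (e : ι → ℤ) :
    ∏ i ∈ s, T ^ (e i) = T ^ (∑ i ∈ s, e i) := by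
  classical
  induction s using Finset.induction_on with
  | empty => simp
  | insert i s hi ih => rw [Finset.prod_insert hi, Finset.sum_insert hi, ih, zpow_add₀ hT]

end LCMM

open LCMM in
theorem specLCM (hSRU : SpecSRU) (hMAN : SpecMAN) (hCOC : SpecCOC) : SpecLCM := by
  classical
  intro g hg hinf
  obtain ⟨L, hL⟩ := hSRU g hg
  have h1 : ∃ c : Fin (L + 1), ∀ N : ℕ, ∃ n, N < n ∧ ∃ (ζ : ℂ) (ω : Fin c.val → ℂ), IsPrimitiveRoot ζ n ∧
      (∀ i, ∃ m : ℕ, 0 < m ∧ ω i ^ m = 1) ∧ ev2 ζ (∑ i, ω i) g = 0 := by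
    apply pigeon
    intro N
    obtain ⟨n, ζ, θ, hn, hζ, hθ, he⟩ := hinf N
    obtain ⟨s, hs, hs1, hs2⟩ := hL θ ζ hθ ⟨n, by omega, hζ.pow_eq_one⟩ he
    obtain ⟨l, rfl⟩ : ∃ l : List ℂ, (l : Multiset ℂ) = s := ⟨s.toList, s.coe_toList⟩
    rw [Multiset.coe_card] at hs
    refine ⟨n, ⟨l.length, by omega⟩, hn, ζ, fun i => l.get i, hζ, fun i => hs1 _ ?_, ?_⟩
    · rw [Multiset.mem_coe]
      exact List.get_mem l i
    · have e : ∑ i : Fin l.length, l.get i = θ := by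
        rw [← hs2, Multiset.sum_coe, ← List.sum_ofFn, List.ofFn_get]
      rw [e]
      exact he
  obtain ⟨c, hc⟩ := h1
  obtain ⟨P, hP, hP'⟩ := hMAN (Fintype.card (G g c).support)
  have h2 : ∃ b : (G g c).support → (G g c).support, ∀ N : ℕ, ∃ n, N < n ∧ ∃ x : Option (Fin c.val) → ℂ,
      IsPrimitiveRoot (x none) n ∧ (∀ i, ∃ m : ℕ, 0 < m ∧ x i ^ m = 1) ∧
      (∀ k, (∏ i, x i ^ (k.1 i)) ^ P = (∏ i, x i ^ ((b k).1 i)) ^ P) ∧
      ∀ j, ∑ k with b k = j, (((G g c).coeff k.1 : ℤ) : ℂ) * ∏ i, x i ^ (k.1 i) = 0 := by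
    apply pigeon
    intro N
    obtain ⟨n, hn, ζ, ω, hζ, hω, he⟩ := hc N
    have hx : ∀ i : Option (Fin c.val), ∃ m : ℕ, 0 < m ∧ (i.elim ζ ω) ^ m = 1 := by
      intro i
      rcases i with _ | i
      · exact ⟨n, by omega, hζ.pow_eq_one⟩
      · exact hω i
    obtain ⟨b, hb1, hb2⟩ := hP' (G g c).support le_rfl (fun k => (G g c).coeff k.1)
      (fun k => ∏ i : Option (Fin c.val), (i.elim ζ ω) ^ (k.1 i)) (fun k => ru_prod hx _)
      ((eval_G g c (fun i : Option (Fin c.val) => i.elim ζ ω)).symm.trans he)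
    exact ⟨n, b, hn, fun i => i.elim ζ ω, hζ, hx, hb1, hb2⟩
  obtain ⟨b, hb⟩ := h2
  obtain ⟨v, hv0, hv⟩ := hCOC (Option (Fin c.val)) (G g c).support none (fun k i => (k.1 i : ℤ)) b P hP (by
    intro N
    obtain ⟨n, hn, x, hx, hru, hz, -⟩ := hb N
    refine ⟨x, fun i h0 => ?_, fun k => ?_, fun j hj hjN h => ?_⟩
    · obtain ⟨m, hm, h⟩ := hru i
      rw [h0, zero_pow hm.ne'] at h
      exact zero_ne_one h
    · simp only [zpow_natCast]
      exact hz k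
    · have := Nat.le_of_dvd hj (hx.dvd_of_pow_eq_one j h)
      omega)
  obtain ⟨n, hn, x, hx, hru, hz, hbl⟩ := hb 0
  obtain ⟨a, ha⟩ : ∃ a : ℕ, (a : ℤ) = v none := ⟨(v none).toNat, Int.toNat_of_nonneg hv0.le⟩
  have ha0 : 0 < a := by omega
  obtain ⟨η, hη⟩ := IsAlgClosed.exists_pow_nat_eq (x none)⁻¹ ha0
  have hηru : ∃ m : ℕ, 0 < m ∧ η ^ m = 1 := by
    obtain ⟨m, hm, h⟩ := hru none
    exact ⟨a * m, Nat.mul_pos ha0 hm, by rw [pow_mul, hη, inv_pow, h, inv_one]⟩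
  obtain ⟨η', hη'⟩ := alg_of_ru hηru
  choose w hw using fun i => alg_of_ru (hru i)
  have hη0 : η' ≠ 0 := by
    intro h
    obtain ⟨m, hm, h1⟩ := hηru
    rw [← hη', h] at h1
    simp [hm.ne'] at h1
  have hx0 : x none ≠ 0 := by
    obtain ⟨m, hm, h1⟩ := hru none
    intro h
    rw [h, zero_pow hm.ne'] at h1
    exact zero_ne_one h1
  obtain ⟨T, hT⟩ : ∃ T : RatFunc AA, T = RatFunc.C η' * RatFunc.X := ⟨_, rfl⟩
  have hT0 : T ≠ 0 := by
    rw [hT]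
    refine mul_ne_zero ?_ RatFunc.X_ne_zero
    rw [Ne, map_eq_zero]
    exact hη0
  obtain ⟨y, hy⟩ : ∃ y : Option (Fin c.val) → RatFunc AA, y = fun i => RatFunc.C (w i) * T ^ (v i) := ⟨_, rfl⟩
  have hnone : RatFunc.X ^ a = y none := by
    rw [hy]
    beta_reduce
    rw [← ha, zpow_natCast, hT, mul_pow, ← map_pow, ← mul_assoc, ← map_mul]
    have e : w none * η' ^ a = 1 := by
      apply Subtype.ext
      push_cast
      rw [hw none, hη', hη, mul_inv_cancel₀ hx0]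
    rw [e, map_one, one_mul]
  refine ⟨a, ∑ i, y (some i), ha0, ?_⟩
  rw [hnone, eval_G g c y]
  have key : ∀ k : (G g c).support, (((G g c).coeff k.1 : ℤ) : RatFunc AA) * ∏ i, y i ^ (k.1 i) =
      RatFunc.C ((((G g c).coeff k.1 : ℤ) : AA) * ∏ i, w i ^ (k.1 i)) * T ^ (∑ i, v i * (k.1 i : ℤ)) := by
    intro k
    rw [hy]
    beta_reduce
    have e1 : ∀ i, (RatFunc.C (w i) * T ^ (v i)) ^ (k.1 i) = RatFunc.C (w i ^ (k.1 i)) * T ^ (v i * (k.1 i : ℤ)) := by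
      intro i
      rw [mul_pow, ← map_pow, zpow_mul, zpow_natCast]
    simp only [e1]
    rw [Finset.prod_mul_distrib, ← map_prod, map_mul, map_intCast, ← mul_assoc]
    congr 1
    exact prod_zpow hT0 _ _
  simp only [key]
  rw [← Finset.sum_fiberwise (s := Finset.univ) (g := b)]
  refine Finset.sum_eq_zero fun j _ => ?_
  have e2 : ∀ k ∈ Finset.univ.filter (fun k => b k = j),
      RatFunc.C ((((G g c).coeff k.1 : ℤ) : AA) * ∏ i, w i ^ (k.1 i)) * T ^ (∑ i, v i * (k.1 i : ℤ)) =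
      RatFunc.C ((((G g c).coeff k.1 : ℤ) : AA) * ∏ i, w i ^ (k.1 i)) * T ^ (∑ i, v i * (j.1 i : ℤ)) := by
    intro k hk
    have hk' : b k = j := (Finset.mem_filter.mp hk).2
    rw [hv k, hk']
  rw [Finset.sum_congr rfl e2, ← Finset.sum_mul, ← map_sum]
  have e3 : ∑ k with b k = j, (((G g c).coeff k.1 : ℤ) : AA) * ∏ i, w i ^ (k.1 i) = 0 := by
    apply Subtype.ext
    push_cast
    simp only [hw]
    exact hbl j
  rw [e3, map_zero, zero_mul]

end MP743d1e.CY
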