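import Pool.Agent.Lib.MP_743d1e_nt.CY.Spec
import Pool.Agent.Lib.MP_cb8a44_nt.AB.Main

section
/-!
# MNK: vanishing sums of roots of unity with coefficients in a number field
-/
set_option autoImplicit false

namespace MP743d1e.CY

open scoped BigOperators
open Pool.Agent.Lib.MPcb8a44 Pool.Agent.Lib.MPcb8a44.AB Finset IntermediateField

namespace MNKM

theorem finrank_mono {A B : IntermediateField ℚ ℂ} [FiniteDimensional ℚ B] (h : A ≤ B) :
    Module.finrank ℚ A ≤ Module.finrank ℚ B :=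
  LinearMap.finrank_le_finrank_of_injective (f := (IntermediateField.inclusion h).toLinearMap)
    (IntermediateField.inclusion_injective h)

theorem fin_of_le {A B : IntermediateField ℚ ℂ} [FiniteDimensional ℚ B] (h : A ≤ B) :
    FiniteDimensional ℚ A :=
  FiniteDimensional.of_injective (IntermediateField.inclusion h).toLinearMap
    (IntermediateField.inclusion_injective h)

/-- The conductor of the abelian part of a number field. -/
theorem conductor (k : IntermediateField ℚ ℂ) [FiniteDimensional ℚ k] :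
    ∃ f : ℕ, 0 < f ∧ ∀ N : ℕ, 0 < N → ∀ x ∈ k, x ∈ Cyc N → x ∈ Cyc f := by
  have hCB : SpecCB := specCB
  let S : Set ℕ := {d | ∃ f : ℕ, 0 < f ∧ Module.finrank ℚ ↥(k ⊓ Cyc f) = d}
  have hne : S.Nonempty := ⟨_, 1, one_pos, rfl⟩
  have hbd : BddAbove S := by
    refine ⟨Module.finrank ℚ k, ?_⟩
    rintro d ⟨f, hf, rfl⟩
    exact finrank_mono inf_le_left
  obtain ⟨f, hf, hmax⟩ := Nat.sSup_mem hne hbd
  refine ⟨f, hf, fun N hN x hx hxN => ?_⟩
  have hfN : 0 < f * N := Nat.mul_pos hf hN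
  have : FiniteDimensional ℚ ↥(k ⊓ Cyc (f * N)) := fin_of_le inf_le_left
  have h1 : k ⊓ Cyc f ≤ k ⊓ Cyc (f * N) :=
    inf_le_inf_left _ (hCB.2.2.1 f (f * N) hfN (dvd_mul_right f N))
  have h2 : Module.finrank ℚ ↥(k ⊓ Cyc (f * N)) ≤ Module.finrank ℚ ↥(k ⊓ Cyc f) := by
    rw [hmax]
    exact le_csSup hbd ⟨f * N, hfN, rfl⟩
  have h3 := eq_of_le_of_finrank_le h1 h2
  have h4 : x ∈ k ⊓ Cyc (f * N) :=
    ⟨hx, hCB.2.2.1 N (f * N) hfN (dvd_mul_left N f) hxN⟩
  rw [← h3] at h4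
  exact h4.2

theorem ext_inst (k L F : IntermediateField ℚ ℂ) [FiniteDimensional ℚ k]
    [FiniteDimensional ℚ L] [IsGalois ℚ L] (hL : F ≤ L) (hk : F ≤ k) :
    IsGalois F (extendScalars hL : IntermediateField F ℂ) ∧
    FiniteDimensional F (extendScalars hL : IntermediateField F ℂ) ∧
    FiniteDimensional F (extendScalars hk : IntermediateField F ℂ) := by
  have e : L ≃ₐ[ℚ] (extendScalars hL : IntermediateField F ℂ) :=
    { toFun := fun x => ⟨x.1, x.2⟩, invFun := fun x => ⟨x.1, x.2⟩, left_inv := fun _ => rfl,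
      right_inv := fun _ => rfl, map_mul' := fun _ _ => rfl, map_add' := fun _ _ => rfl,
      commutes' := fun _ => rfl }
  have e' : k ≃ₐ[ℚ] (extendScalars hk : IntermediateField F ℂ) :=
    { toFun := fun x => ⟨x.1, x.2⟩, invFun := fun x => ⟨x.1, x.2⟩, left_inv := fun _ => rfl,
      right_inv := fun _ => rfl, map_mul' := fun _ _ => rfl, map_add' := fun _ _ => rfl,
      commutes' := fun _ => rfl }
  have h1 : IsGalois ℚ (extendScalars hL : IntermediateField F ℂ) := IsGalois.of_algEquiv e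
  have h2 : FiniteDimensional ℚ (extendScalars hL : IntermediateField F ℂ) :=
    LinearEquiv.finiteDimensional e.toLinearEquiv
  have h3 : FiniteDimensional ℚ (extendScalars hk : IntermediateField F ℂ) :=
    LinearEquiv.finiteDimensional e'.toLinearEquiv
  exact ⟨IsGalois.tower_top_of_isGalois ℚ F _, FiniteDimensional.right ℚ F _,
    FiniteDimensional.right ℚ F _⟩

/-- A number field and a cyclotomic field are linearly disjoint over their intersection: the vectors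
of a basis of `k` over the intersection are linearly independent over `Cyc N`. -/
theorem coords (k : IntermediateField ℚ ℂ) [FiniteDimensional ℚ k] (N : ℕ) (hN : 0 < N) :
    ∃ (m : ℕ) (e : Fin m → ℂ), (∀ x ∈ k, ∃ r : Fin m → ℂ, (∀ j, r j ∈ k ∧ r j ∈ Cyc N) ∧
      x = ∑ j, r j * e j) ∧
      ∀ s : Fin m → ℂ, (∀ j, s j ∈ Cyc N) → ∑ j, s j * e j = 0 → ∀ j, s j = 0 := by
  have hfin : FiniteDimensional ℚ (Cyc N) := specCB.2.2.2.1 N hN
  have hgal : IsGalois ℚ (Cyc N) := (specGAL N hN).1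
  let F : IntermediateField ℚ ℂ := k ⊓ Cyc N
  let A : IntermediateField F ℂ := extendScalars (inf_le_right : F ≤ Cyc N)
  let B : IntermediateField F ℂ := extendScalars (inf_le_left : F ≤ k)
  have hAB : A ⊓ B = ⊥ := by
    rw [eq_bot_iff]
    rintro x ⟨hxA, hxB⟩
    have hxA' : x ∈ Cyc N := hxA
    have hxB' : x ∈ k := hxB
    exact IntermediateField.mem_bot.2 ⟨⟨x, hxB', hxA'⟩, rfl⟩
  obtain ⟨i1, i2, i3⟩ := ext_inst k (Cyc N) F inf_le_right inf_le_left
  have i1' : IsGalois F A := i1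
  have i2' : FiniteDimensional F A := i2
  have i3' : FiniteDimensional F B := i3
  have hdis : A.LinearDisjoint B := IntermediateField.LinearDisjoint.of_inf_eq_bot hAB
  let b := Module.finBasis F B
  have hind := hdis.linearIndependent_right b.linearIndependent
  refine ⟨Module.finrank F B, fun j => (b j : ℂ), ?_, ?_⟩
  · intro x hx
    refine ⟨fun j => ((b.repr ⟨x, hx⟩ j : F) : ℂ), fun j => ⟨(b.repr ⟨x, hx⟩ j).2.1,
      (b.repr ⟨x, hx⟩ j).2.2⟩, ?_⟩
    have h := b.sum_repr (⟨x, hx⟩ : B)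
    have h' := congrArg (fun y : B => (y : ℂ)) h
    simp only at h'
    refine h'.symm.trans ?_
    rw [IntermediateField.coe_sum]
    refine Finset.sum_congr rfl fun j _ => ?_
    rw [IntermediateField.coe_smul, Algebra.smul_def]
    rfl
  · intro s hs h0 j
    have h := Fintype.linearIndependent_iff.1 hind (fun j => (⟨s j, hs j⟩ : A)) ?_ j
    · exact congrArg (fun y : A => (y : ℂ)) h
    · rw [← h0]
      refine Finset.sum_congr rfl fun j _ => ?_
      rw [Algebra.smul_def]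
      rfl

/-- The same with one basis for all multiples of the conductor. -/
theorem coordsU (k : IntermediateField ℚ ℂ) [FiniteDimensional ℚ k] (f : ℕ) (hf : 0 < f)
    (hcond : ∀ N : ℕ, 0 < N → ∀ x ∈ k, x ∈ Cyc N → x ∈ Cyc f) :
    ∃ (m : ℕ) (e : Fin m → ℂ), (∀ j, e j ∈ k) ∧
      (∀ x ∈ k, ∃ r : Fin m → ℂ, (∀ j, r j ∈ k ∧ r j ∈ Cyc f) ∧ x = ∑ j, r j * e j) ∧
      ∀ N : ℕ, 0 < N → f ∣ N → ∀ s : Fin m → ℂ, (∀ j, s j ∈ Cyc N) → ∑ j, s j * e j = 0 →
        ∀ j, s j = 0 := by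
  let F : IntermediateField ℚ ℂ := k ⊓ Cyc f
  let B : IntermediateField F ℂ := extendScalars (inf_le_left : F ≤ k)
  have hfin' : FiniteDimensional ℚ (Cyc f) := specCB.2.2.2.1 f hf
  have hgal' : IsGalois ℚ (Cyc f) := (specGAL f hf).1
  obtain ⟨-, -, i3⟩ := ext_inst k (Cyc f) F inf_le_right inf_le_left
  have i3' : FiniteDimensional F B := i3
  let b := Module.finBasis F B
  refine ⟨Module.finrank F B, fun j => (b j : ℂ), fun j => (b j).2, ?_, ?_⟩
  · intro x hx
    refine ⟨fun j => ((b.repr ⟨x, hx⟩ j : F) : ℂ), fun j => ⟨(b.repr ⟨x, hx⟩ j).2.1,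
      (b.repr ⟨x, hx⟩ j).2.2⟩, ?_⟩
    have h := b.sum_repr (⟨x, hx⟩ : B)
    have h' := congrArg (fun y : B => (y : ℂ)) h
    simp only at h'
    refine h'.symm.trans ?_
    rw [IntermediateField.coe_sum]
    refine Finset.sum_congr rfl fun j _ => ?_
    rw [IntermediateField.coe_smul, Algebra.smul_def]
    rfl
  · intro N hN hfN
    have hfin : FiniteDimensional ℚ (Cyc N) := specCB.2.2.2.1 N hN
    have hgal : IsGalois ℚ (Cyc N) := (specGAL N hN).1
    have hFN : F ≤ Cyc N := inf_le_right.trans (specCB.2.2.1 f N hN hfN)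
    let A : IntermediateField F ℂ := extendScalars hFN
    obtain ⟨i1, i2, -⟩ := ext_inst k (Cyc N) F hFN inf_le_left
    have i1' : IsGalois F A := i1
    have i2' : FiniteDimensional F A := i2
    have hAB : A ⊓ B = ⊥ := by
      rw [eq_bot_iff]
      rintro x ⟨hxA, hxB⟩
      have hxA' : x ∈ Cyc N := hxA
      have hxB' : x ∈ k := hxB
      exact IntermediateField.mem_bot.2 ⟨⟨x, hxB', hcond N hN x hxB' hxA'⟩, rfl⟩
    have hdis : A.LinearDisjoint B := IntermediateField.LinearDisjoint.of_inf_eq_bot hAB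
    have hind := hdis.linearIndependent_right b.linearIndependent
    intro s hs h0 j
    have h := Fintype.linearIndependent_iff.1 hind (fun j => (⟨s j, hs j⟩ : A)) ?_ j
    · exact congrArg (fun y : A => (y : ℂ)) h
    · rw [← h0]
      refine Finset.sum_congr rfl fun j _ => ?_
      rw [Algebra.smul_def]
      rfl

/-- the elements of `Cyc f` are rational combinations of the powers of `ze f` -/
theorem cyc_coord (f : ℕ) (hf : 0 < f) {ι : Type} (S : Finset ι) (x : ι → ℂ)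
    (hx : ∀ i, x i ∈ Cyc f) :
    ∃ D : ℤ, D ≠ 0 ∧ ∃ a : ι → ℕ → ℤ, ∀ i ∈ S, (D : ℂ) * x i = ∑ l ∈ range f, (a i l : ℂ) * ze f ^ l := by
  classical
  have hfin : FiniteDimensional ℚ (Cyc f) := specCB.2.2.2.1 f hf
  induction S using Finset.induction_on with
  | empty => exact ⟨1, one_ne_zero, fun _ _ => 0, by simp⟩
  | insert i S hi ih =>
    obtain ⟨D, hD, a, ha⟩ := ih
    have halg : IsAlgebraic ℚ (x i) := by
      have : IsAlgebraic ℚ (⟨x i, hx i⟩ : Cyc f) := Algebra.IsAlgebraic.isAlgebraic _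
      exact (isAlgebraic_algebraMap_iff (algebraMap (Cyc f) ℂ).injective).2 this
    have halgZ : IsAlgebraic ℤ (x i) := (IsFractionRing.isAlgebraic_iff ℤ ℚ ℂ).2 halg
    obtain ⟨D', hD', hint⟩ := halgZ.exists_integral_multiple
    have hint' : IsIntegral ℤ ((D' : ℂ) * x i) := by
      rwa [zsmul_eq_mul] at hint
    have hmem : (D' : ℂ) * x i ∈ Cyc f := mul_mem (intCast_mem _ D') (hx i)
    obtain ⟨c, hc⟩ := specINT f hf _ hmem hint'
    refine ⟨D * D', mul_ne_zero hD hD', fun i' l => if i' = i then D * c l else D' * a i' l, ?_⟩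
    intro i' hi'
    by_cases h : i' = i
    · subst h
      simp only [if_true]
      push_cast
      rw [mul_assoc, hc, Finset.mul_sum]
      exact Finset.sum_congr rfl fun l _ => by ring
    · simp only [h, if_false]
      have h' := ha i' (Finset.mem_of_mem_insert_of_ne hi' h)
      push_cast
      rw [mul_comm (D : ℂ), mul_assoc, h', Finset.mul_sum]
      exact Finset.sum_congr rfl fun l _ => by ring

/-- The sums over the classes `z i ^ P = w` vanish, for integral coefficients. -/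
theorem classes_int (hMAN : SpecMAN) (K : ℕ) : ∃ P : ℕ, 0 < P ∧
    ∀ (ι : Type) [Fintype ι] [DecidableEq ι], Fintype.card ι ≤ K → ∀ (c : ι → ℤ) (z : ι → ℂ),
    (∀ i, ∃ n : ℕ, 0 < n ∧ z i ^ n = 1) → ∑ i, (c i : ℂ) * z i = 0 →
    ∀ p : ι → Prop, (∀ i i', z i ^ P = z i' ^ P → (p i ↔ p i')) →
      haveI := Classical.decPred p
      ∑ i with p i, (c i : ℂ) * z i = 0 := by
  classical
  obtain ⟨P, hP, h⟩ := hMAN K
  refine ⟨P, hP, fun ι _ _ hι c z hz h0 p hp => ?_⟩
  obtain ⟨b, hb, hs⟩ := h ι hι c z hz h0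
  have h1 : ∑ i with p i, (c i : ℂ) * z i =
      ∑ j, ∑ i ∈ univ.filter (fun i => b i = j), if p i then (c i : ℂ) * z i else 0 := by
    rw [Finset.sum_filter]
    exact (Finset.sum_fiberwise univ b _).symm
  rw [h1]
  refine Finset.sum_eq_zero fun j _ => ?_
  by_cases hpj : p j
  · rw [← hs j]
    refine Finset.sum_congr rfl fun i hi => ?_
    have : p i := by
      have hbi : b i = j := (Finset.mem_filter.1 hi).2
      exact (hp i j (by rw [hb i, hbi])).2 hpj
    rw [if_pos this]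
  · refine Finset.sum_eq_zero fun i hi => ?_
    have : ¬ p i := by
      have hbi : b i = j := (Finset.mem_filter.1 hi).2
      exact fun hh => hpj ((hp i j (by rw [hb i, hbi])).1 hh)
    rw [if_neg this]

/-- The sums over the classes `z i ^ P = w` vanish, for coefficients in a number field. -/
theorem classes (hMAN : SpecMAN) (k : IntermediateField ℚ ℂ) [FiniteDimensional ℚ k] (K : ℕ) :
    ∃ P : ℕ, 0 < P ∧
    ∀ (ι : Type) [Fintype ι] [DecidableEq ι], Fintype.card ι ≤ K → ∀ (c : ι → ℂ) (z : ι → ℂ),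
    (∀ i, c i ∈ k) → (∀ i, ∃ n : ℕ, 0 < n ∧ z i ^ n = 1) → ∑ i, c i * z i = 0 →
    ∀ p : ι → Prop, (∀ i i', z i ^ P = z i' ^ P → (p i ↔ p i')) →
      haveI := Classical.decPred p
      ∑ i with p i, c i * z i = 0 := by
  classical
  have hCB : SpecCB := specCB
  obtain ⟨f, hf, hcond⟩ := conductor k
  obtain ⟨P, hP, hM⟩ := classes_int hMAN (K * f)
  refine ⟨P * f, Nat.mul_pos hP hf, fun ι _ _ hι c z hc hz h0 p hp => ?_⟩
  choose n hn hzn using hz
  -- the cyclotomic field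
  set N := ∏ i, n i with hN_def
  have hN : 0 < N := Finset.prod_pos fun i _ => hn i
  have hzN : ∀ i, z i ∈ Cyc N := by
    intro i
    have h1 : z i ^ N = 1 := by
      obtain ⟨t, ht⟩ : n i ∣ N := Finset.dvd_prod_of_mem n (Finset.mem_univ i)
      rw [ht, pow_mul, hzn i, one_pow]
    have : NeZero N := ⟨hN.ne'⟩
    obtain ⟨j, _, hj⟩ := (hCB.1 N hN).eq_pow_of_pow_eq_one h1
    rw [← hj]
    exact pow_mem (IntermediateField.mem_adjoin_simple_self ℚ (ze N)) j
  obtain ⟨m, e, he, hind⟩ := coords k N hN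
  choose r hr hre using fun i => he (c i) (hc i)
  -- `r i j ∈ Cyc f`
  have hrf : ∀ t : ι × Fin m, r t.1 t.2 ∈ Cyc f := fun t =>
    hcond N hN _ (hr t.1 t.2).1 (hr t.1 t.2).2
  obtain ⟨D, hD, a, ha⟩ := cyc_coord f hf (univ : Finset (ι × Fin m)) (fun t => r t.1 t.2) hrf
  have hDC : (D : ℂ) ≠ 0 := by exact_mod_cast hD
  -- the coordinates vanish
  have hj0 : ∀ j, ∑ i, r i j * z i = 0 := by
    refine hind _ (fun j => sum_mem fun i _ => mul_mem (hr i j).2 (hzN i)) ?_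
    rw [← h0]
    calc ∑ j, (∑ i, r i j * z i) * e j = ∑ j, ∑ i, r i j * z i * e j := by
          simp only [Finset.sum_mul]
      _ = ∑ i, ∑ j, r i j * z i * e j := Finset.sum_comm
      _ = ∑ i, c i * z i := by
          refine Finset.sum_congr rfl fun i _ => ?_
          conv_rhs => rw [hre i, Finset.sum_mul]
          exact Finset.sum_congr rfl fun j _ => by ring
  -- integral form of a coordinate
  have hint : ∀ (q : ι → Prop) [DecidablePred q] (j : Fin m),
      (D : ℂ) * ∑ i with q i, r i j * z i =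
        ∑ t : ι × Fin f with q t.1, (a (t.1, j) t.2 : ℂ) * (ze f ^ (t.2 : ℕ) * z t.1) := by
    intro q _ j
    rw [Finset.mul_sum, Finset.sum_filter, Finset.sum_filter, ← Finset.univ_product_univ,
      Finset.sum_product]
    refine Finset.sum_congr rfl fun i _ => ?_
    split_ifs with hq
    · rw [← mul_assoc, ha (i, j) (Finset.mem_univ _), Finset.sum_mul, Finset.sum_range]
      exact Finset.sum_congr rfl fun l _ => by ring
    · simp
  have hroot : ∀ t : ι × Fin f, ∃ n' : ℕ, 0 < n' ∧ (ze f ^ (t.2 : ℕ) * z t.1) ^ n' = 1 := by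
    intro t
    refine ⟨n t.1 * f, Nat.mul_pos (hn _) hf, ?_⟩
    rw [mul_pow, pow_mul (z t.1), hzn, one_pow, mul_one, ← pow_mul,
      show (t.2 : ℕ) * (n t.1 * f) = f * ((t.2 : ℕ) * n t.1) by ring, pow_mul,
      (hCB.1 f hf).pow_eq_one, one_pow]
  have hcard : Fintype.card (ι × Fin f) ≤ K * f := by
    rw [Fintype.card_prod, Fintype.card_fin]
    exact Nat.mul_le_mul_right f hι
  have hclass : ∀ j, ∑ i with p i, r i j * z i = 0 := by
    intro j
    have h1 := hint (fun _ => True) j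
    have h2 : ∑ t : ι × Fin f, (a (t.1, j) t.2 : ℂ) * (ze f ^ (t.2 : ℕ) * z t.1) = 0 := by
      have : (univ.filter fun t : ι × Fin f => True) = univ := Finset.filter_true_of_mem
        fun _ _ => trivial
      rw [this] at h1
      have : (univ.filter fun i : ι => True) = univ := Finset.filter_true_of_mem fun _ _ => trivial
      rw [this, hj0 j, mul_zero] at h1
      exact h1.symm
    have h3 := hM (ι × Fin f) hcard (fun t => a (t.1, j) t.2) (fun t => ze f ^ (t.2 : ℕ) * z t.1)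
      hroot h2 (fun t => p t.1) ?_
    · have h4 := hint p j
      have h5 : (D : ℂ) * ∑ i with p i, r i j * z i = 0 := by
        rw [h4]
        convert h3
      exact (mul_eq_zero.1 h5).resolve_left hDC
    · intro t t' htt
      refine hp t.1 t'.1 ?_
      have h6 := congrArg (fun w => w ^ f) htt
      simp only [← pow_mul] at h6
      rw [mul_pow, mul_pow, ← pow_mul, ← pow_mul,
        show (t.2 : ℕ) * (P * f) = f * ((t.2 : ℕ) * P) by ring,
        show (t'.2 : ℕ) * (P * f) = f * ((t'.2 : ℕ) * P) by ring, pow_mul (ze f), pow_mul (ze f),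
        (hCB.1 f hf).pow_eq_one, one_pow, one_pow, one_mul, one_mul] at h6
      exact h6
  calc ∑ i with p i, c i * z i = ∑ i with p i, ∑ j, r i j * z i * e j := by
        refine Finset.sum_congr rfl fun i _ => ?_
        conv_lhs => rw [hre i, Finset.sum_mul]
        exact Finset.sum_congr rfl fun j _ => by ring
    _ = ∑ j, (∑ i with p i, r i j * z i) * e j := by
        rw [Finset.sum_comm]
        simp only [Finset.sum_mul]
    _ = 0 := Finset.sum_eq_zero fun j _ => by rw [hclass j, zero_mul]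

/-- Mann's theorem with coefficients in a number field, with a map `b` as in MAN. -/
theorem mann (hMAN : SpecMAN) (k : IntermediateField ℚ ℂ) [FiniteDimensional ℚ k] (K : ℕ) :
    ∃ P : ℕ, 0 < P ∧
    ∀ (ι : Type) [Fintype ι] [DecidableEq ι], Fintype.card ι ≤ K → ∀ (c : ι → ℂ) (z : ι → ℂ),
    (∀ i, c i ∈ k) → (∀ i, ∃ n : ℕ, 0 < n ∧ z i ^ n = 1) → ∑ i, c i * z i = 0 →
    ∃ b : ι → ι, (∀ i, z i ^ P = z (b i) ^ P) ∧ ∀ j, ∑ i with b i = j, c i * z i = 0 := by
  classical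
  obtain ⟨P, hP, h⟩ := classes hMAN k K
  refine ⟨P, hP, fun ι _ _ hι c z hc hz h0 => ?_⟩
  let b : ι → ι := fun i => (⟨i, rfl⟩ : ∃ j, z j ^ P = z i ^ P).choose
  have hb : ∀ i, z (b i) ^ P = z i ^ P := fun i =>
    (⟨i, rfl⟩ : ∃ j, z j ^ P = z i ^ P).choose_spec
  have hbb : ∀ i i', z i ^ P = z i' ^ P → b i = b i' := by
    intro i i' hii
    simp only [b, hii]
  refine ⟨b, fun i => (hb i).symm, fun j => ?_⟩
  have := h ι hι c z hc hz h0 (fun i => b i = j) (fun i i' hii => by rw [hbb i i' hii])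
  convert this

end MNKM

end MP743d1e.CY
end

section
/-!
# LCK: LCM with coefficients in a number field `k`, for roots in `k ℚ^ab`
-/
set_option autoImplicit false

namespace MP743d1e.CY

open scoped BigOperators
open Polynomial IntermediateField

namespace LCKM

lemma pigeon {γ : Type} [Finite γ] (Q : ℕ → γ → Prop) (h : ∀ N : ℕ, ∃ n c, N < n ∧ Q n c) :
    ∃ c, ∀ N : ℕ, ∃ n, N < n ∧ Q n c := by
  by_contra hh
  push Not at hh
  choose N hN using hh
  obtain ⟨B, hB⟩ := (Set.finite_range N).bddAbove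
  obtain ⟨n, c, hn, hq⟩ := h B
  exact hN c n (lt_of_le_of_lt (hB ⟨c, rfl⟩) hn) hq

lemma tor_prod {ι : Type} (s : Finset ι) (f : ι → ℂ) (e : ι → ℕ)
    (h : ∀ i, ∃ n : ℕ, 0 < n ∧ f i ^ n = 1) : ∃ n : ℕ, 0 < n ∧ (∏ i ∈ s, f i ^ e i) ^ n = 1 := by
  classical
  induction s using Finset.induction_on with
  | empty => exact ⟨1, one_pos, by simp⟩
  | insert a s ha ih =>
    obtain ⟨n, hn, h1⟩ := ih
    obtain ⟨n', hn', h2⟩ := h a
    refine ⟨n * n', Nat.mul_pos hn hn', ?_⟩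
    rw [Finset.prod_insert ha, mul_pow, pow_mul (∏ i ∈ s, f i ^ e i) n n', h1, one_pow, mul_one,
      ← pow_mul, show e a * (n * n') = n' * (e a * n) by ring, pow_mul, h2, one_pow]

/-- the value of `g ∈ A[t][Y]` at `(z, w)`, coefficients through `φ` -/
noncomputable def evA {A R : Type} [CommRing A] [CommRing R] (φ : A →+* R) (z w : R) (g : A[X][X]) :
    R :=
  eval₂ (eval₂RingHom φ z) w g

/-- `θ` is a sum of at most `L` products of a root of unity and one of the numbers `e j` -/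
def ShortK (k : IntermediateField ℚ ℂ) (d : ℕ) (e : Fin d → k) (L : ℕ) (θ : ℂ) : Prop :=
  ∃ c : ℕ, c ≤ L ∧ ∃ (τ : Fin c → Fin d) (w : Fin c → ℂ), (∀ i, ∃ n : ℕ, 0 < n ∧ w i ^ n = 1) ∧
    θ = ∑ i, (e (τ i) : ℂ) * w i

/-- the inclusion of a number field in the field of algebraic numbers -/
noncomputable def incl (k : IntermediateField ℚ ℂ) [FiniteDimensional ℚ k] : k →+* AA where
  toFun x := ⟨x.1, mem_algebraicClosure_iff.2
    ((IsAlgebraic.of_finite ℚ x).algHom k.val)⟩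
  map_one' := rfl
  map_mul' _ _ := rfl
  map_zero' := rfl
  map_add' _ _ := rfl

lemma coe_incl (k : IntermediateField ℚ ℂ) [FiniteDimensional ℚ k] (x : k) :
    ((incl k x : AA) : ℂ) = x := rfl

lemma map_evA {A R S : Type} [CommRing A] [CommRing R] [CommRing S] (f : R →+* S) (φ : A →+* R)
    (z w : R) (g : A[X][X]) : f (evA φ z w g) = evA (f.comp φ) (f z) (f w) g := by
  unfold evA
  rw [Polynomial.hom_eval₂]
  congr 1
  refine Polynomial.ringHom_ext (fun a => ?_) ?_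
  · simp
  · simp

lemma expand {A : Type} [CommRing A] (c : ℕ) (g : A[X][X]) (α : A) (e : Fin c → A) :
    ∃ (κ : Type) (_ : Fintype κ) (_ : DecidableEq κ) (co : κ → A)
    (m : κ → Option (Fin c) → ℕ), ∀ (R : Type) [CommRing R] (φ : A →+* R) (x : Option (Fin c) → R),
      evA φ (φ α * x none) (∑ i, φ (e i) * x (some i)) g = ∑ k, φ (co k) * ∏ i, x i ^ m k i := by
  classical
  obtain ⟨G, hG⟩ : ∃ G : MvPolynomial (Option (Fin c)) A,
    G = evA (MvPolynomial.C) (MvPolynomial.C α * MvPolynomial.X none)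
      (∑ i, MvPolynomial.C (e i) * MvPolynomial.X (some i)) g := ⟨_, rfl⟩
  refine ⟨G.support, inferInstance, inferInstance, fun k => G.coeff k.1, fun k i => k.1 i, ?_⟩
  intro R _ φ x
  have h1 := map_evA (MvPolynomial.eval₂Hom φ x : MvPolynomial (Option (Fin c)) A →+* R)
    MvPolynomial.C (MvPolynomial.C α * MvPolynomial.X none)
      (∑ i, MvPolynomial.C (e i) * MvPolynomial.X (some i)) g
  have h2 : (MvPolynomial.eval₂Hom φ x : MvPolynomial (Option (Fin c)) A →+* R).comp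
      MvPolynomial.C = φ := by
    ext a
    simp
  rw [← hG, map_sum, h2] at h1
  simp only [map_mul, MvPolynomial.eval₂Hom_C, MvPolynomial.eval₂Hom_X'] at h1
  rw [← h1, MvPolynomial.coe_eval₂Hom, MvPolynomial.eval₂_eq', ← Finset.sum_coe_sort]

theorem subst (c : ℕ) (κ : Type) [Fintype κ] [DecidableEq κ] (co : κ → AA)
    (m : κ → Option (Fin c) → ℕ) (b : κ → κ) (ω : Option (Fin c) → ℂ)
    (hω : ∀ i, ∃ n : ℕ, 0 < n ∧ ω i ^ n = 1)
    (hb : ∀ j, ∑ k with b k = j, (co k : ℂ) * ∏ i, ω i ^ m k i = 0)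
    (v : Option (Fin c) → ℤ) (hv : 0 < v none)
    (hvb : ∀ k, ∑ i, v i * (m k i : ℤ) = ∑ i, v i * (m (b k) i : ℤ)) :
    ∃ (a : ℕ) (x : Option (Fin c) → RatFunc AA), 0 < a ∧ x none = RatFunc.X ^ a ∧
      ∑ k, RatFunc.C (co k) * ∏ i, x i ^ m k i = 0 := by
  classical
  have halg : ∀ i, IsAlgebraic ℚ (ω i) := by
    intro i
    obtain ⟨n, hn, h1⟩ := hω i
    have : IsIntegral ℚ (ω i) := IsIntegral.of_pow hn (by rw [h1]; exact isIntegral_one)
    exact this.isAlgebraic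
  obtain ⟨w, hw⟩ : ∃ w : Option (Fin c) → AA, ∀ i, (w i : ℂ) = ω i :=
    ⟨fun i => ⟨ω i, mem_algebraicClosure_iff.2 (halg i)⟩, fun i => rfl⟩
  obtain ⟨a, ha⟩ : ∃ a : ℕ, v none = a := ⟨(v none).toNat, by omega⟩
  have ha0 : 0 < a := by omega
  have hw0 : w none ≠ 0 := by
    intro h0
    obtain ⟨n, hn, h1⟩ := hω none
    rw [← hw, h0] at h1
    simp [hn.ne'] at h1
  have : IsAlgClosed AA := (algebraicClosure.isAlgClosure ℚ ℂ).isAlgClosed
  obtain ⟨η, hη⟩ := IsAlgClosed.exists_pow_nat_eq (w none)⁻¹ ha0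
  have hη0 : η ≠ 0 := by
    rintro rfl
    rw [zero_pow ha0.ne'] at hη
    exact hw0 (by simpa using hη.symm)
  obtain ⟨U, hU⟩ : ∃ U : RatFunc AA, U = RatFunc.C η * RatFunc.X := ⟨_, rfl⟩
  have hU0 : U ≠ 0 := by
    rw [hU]
    refine mul_ne_zero ?_ RatFunc.X_ne_zero
    rwa [Ne, map_eq_zero]
  obtain ⟨x, hx⟩ : ∃ x : Option (Fin c) → RatFunc AA, ∀ i, x i = RatFunc.C (w i) * U ^ (v i) :=
    ⟨_, fun i => rfl⟩
  have hx0 : x none = RatFunc.X ^ a := by
    rw [hx, ha, zpow_natCast, hU, mul_pow, ← map_pow, hη, ← mul_assoc, ← map_mul,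
      mul_inv_cancel₀ hw0, map_one, one_mul]
  refine ⟨a, x, ha0, hx0, ?_⟩
  have h1 : ∀ k, RatFunc.C (co k) * ∏ i, x i ^ m k i =
      U ^ (∑ i, v i * (m (b k) i : ℤ)) * RatFunc.C (co k * ∏ i, w i ^ m k i) := by
    intro k
    have h2 : ∏ i, x i ^ m k i = RatFunc.C (∏ i, w i ^ m k i) * U ^ (∑ i, v i * (m k i : ℤ)) := by
      rw [map_prod]
      have h3 : ∀ s : Finset (Option (Fin c)), ∏ i ∈ s, x i ^ m k i =
          (∏ i ∈ s, RatFunc.C (w i ^ m k i)) * U ^ (∑ i ∈ s, v i * (m k i : ℤ)) := by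
        intro s
        induction s using Finset.induction_on with
        | empty => simp
        | insert a s ha ih =>
          rw [Finset.prod_insert ha, Finset.prod_insert ha, Finset.sum_insert ha, ih,
            zpow_add₀ hU0, hx, mul_pow, map_pow, zpow_mul, zpow_natCast]
          ring
      exact h3 _
    rw [h2, hvb k, map_mul]
    ring
  rw [Finset.sum_congr rfl fun k _ => h1 k,
    ← Finset.sum_fiberwise Finset.univ b
      (fun k => U ^ (∑ i, v i * (m (b k) i : ℤ)) * RatFunc.C (co k * ∏ i, w i ^ m k i))]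
  refine Finset.sum_eq_zero fun j _ => ?_
  have h2 : ∑ k with b k = j, U ^ (∑ i, v i * (m (b k) i : ℤ)) *
      RatFunc.C (co k * ∏ i, w i ^ m k i) =
      U ^ (∑ i, v i * (m j i : ℤ)) * RatFunc.C (∑ k with b k = j, co k * ∏ i, w i ^ m k i) := by
    rw [map_sum, Finset.mul_sum]
    refine Finset.sum_congr rfl fun k hk => ?_
    rw [(Finset.mem_filter.1 hk).2]
  have h3 : ∑ k with b k = j, co k * ∏ i, w i ^ m k i = 0 := by
    have hinj : Function.Injective (algebraMap AA ℂ) := (algebraMap AA ℂ).injective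
    apply hinj
    rw [map_zero, ← hb j, map_sum]
    refine Finset.sum_congr rfl fun k _ => ?_
    rw [map_mul, map_prod]
    congr 1
    refine Finset.prod_congr rfl fun i _ => ?_
    rw [map_pow, ← hw i]
    rfl
  rw [h2, h3, map_zero, mul_zero]

/-- the case of a fixed polynomial with coefficients in `k` -/
theorem core (hMAN : SpecMAN) (hCOC : SpecCOC) (k : IntermediateField ℚ ℂ) [FiniteDimensional ℚ k]
    (c : ℕ) (κ : Type) [Fintype κ] [DecidableEq κ] (co : κ → k) (m : κ → Option (Fin c) → ℕ)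
    (h : ∀ N : ℕ, ∃ n, N < n ∧ ∃ ω : Option (Fin c) → ℂ, (∀ i, ∃ n : ℕ, 0 < n ∧ ω i ^ n = 1) ∧
      IsPrimitiveRoot (ω none) n ∧ ∑ j, (co j : ℂ) * ∏ i, ω i ^ m j i = 0) :
    ∃ (a : ℕ) (x : Option (Fin c) → RatFunc AA), 0 < a ∧ x none = RatFunc.X ^ a ∧
      ∑ j, RatFunc.C (incl k (co j)) * ∏ i, x i ^ m j i = 0 := by
  obtain ⟨P, hP, hM⟩ := MNKM.mann hMAN k (Fintype.card κ)
  have h2 : ∀ N : ℕ, ∃ (n : ℕ) (b : κ → κ), N < n ∧ ∃ ω : Option (Fin c) → ℂ,
      (∀ i, ∃ n : ℕ, 0 < n ∧ ω i ^ n = 1) ∧ IsPrimitiveRoot (ω none) n ∧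
      (∀ k, (∏ i, ω i ^ m k i) ^ P = (∏ i, ω i ^ m (b k) i) ^ P) ∧
      ∀ j, ∑ k with b k = j, (co k : ℂ) * ∏ i, ω i ^ m k i = 0 := by
    intro N
    obtain ⟨n, hn, ω, hω, hω0, hev⟩ := h N
    obtain ⟨b, hb1, hb2⟩ := hM κ le_rfl (fun j => (co j : ℂ)) (fun k => ∏ i, ω i ^ m k i)
      (fun j => (co j).2) (fun k => tor_prod _ ω (m k) hω) hev
    exact ⟨n, b, hn, ω, hω, hω0, hb1, hb2⟩
  obtain ⟨b, hb⟩ := pigeon _ h2
  obtain ⟨v, hv0, hv⟩ := hCOC (Option (Fin c)) κ none (fun k i => (m k i : ℤ)) b P hP (by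
    intro N
    obtain ⟨n, hn, ω, hω, hω0, hω1, -⟩ := hb N
    refine ⟨ω, fun i h0 => ?_, fun k => by simpa using hω1 k, fun n' hn' hn2 h3 => ?_⟩
    · obtain ⟨n', hn', h3⟩ := hω i
      rw [h0, zero_pow hn'.ne'] at h3
      exact zero_ne_one h3
    · have := hω0.dvd_of_pow_eq_one n' h3
      have := Nat.le_of_dvd hn' this
      omega)
  obtain ⟨n, -, ω, hω, -, -, hω2⟩ := hb 0
  exact subst c κ (fun j => incl k (co j)) m b ω hω hω2 v hv0 hv

/-- LCK -/
theorem lck (hMAN : SpecMAN) (hCOC : SpecCOC) (k : IntermediateField ℚ ℂ) [FiniteDimensional ℚ k]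
    (g : k[X][X]) (α : k) (d L : ℕ) (e : Fin d → k)
    (h : ∀ N : ℕ, ∃ (n : ℕ) (ζ θ : ℂ), N < n ∧ IsPrimitiveRoot ζ n ∧ ShortK k d e L θ ∧
      evA (algebraMap k ℂ) (α * ζ) θ g = 0) :
    ∃ (a : ℕ) (y : RatFunc AA), 0 < a ∧ evA ((RatFunc.C : AA →+* RatFunc AA).comp (incl k))
      (RatFunc.C (incl k α) * RatFunc.X ^ a) y g = 0 := by
  have h1 : ∀ N : ℕ, ∃ (n : ℕ) (c : Σ c : Fin (L + 1), (Fin c → Fin d)), N < n ∧
      ∃ ω : Option (Fin c.1) → ℂ, (∀ i, ∃ n : ℕ, 0 < n ∧ ω i ^ n = 1) ∧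
      IsPrimitiveRoot (ω none) n ∧
      evA (algebraMap k ℂ) (algebraMap k ℂ α * ω none)
        (∑ i, algebraMap k ℂ (e (c.2 i)) * ω (some i)) g = 0 := by
    intro N
    obtain ⟨n, ζ, θ, hn, hζ, ⟨c, hc, τ, w, hw, hθ⟩, hev⟩ := h N
    have hζ1 : ∃ n : ℕ, 0 < n ∧ ζ ^ n = 1 := ⟨n, by omega, hζ.pow_eq_one⟩
    refine ⟨n, ⟨⟨c, by omega⟩, τ⟩, hn, fun o => o.elim ζ w, ?_, hζ, ?_⟩
    · rintro (_ | i)
      · exact hζ1
      · exact hw i
    · rw [hθ] at hev
      exact hev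
  obtain ⟨⟨c, τ⟩, hc⟩ := pigeon _ h1
  obtain ⟨κ, _, _, co, m, hG⟩ := expand (c : ℕ) g α (fun i => e (τ i))
  obtain ⟨a, x, ha, hx0, hx⟩ := core hMAN hCOC k c κ co m (by
    intro N
    obtain ⟨n, hn, ω, hω, hω0, hev⟩ := hc N
    refine ⟨n, hn, ω, hω, hω0, ?_⟩
    rw [hG ℂ (algebraMap k ℂ) ω] at hev
    exact hev)
  refine ⟨a, ∑ i, RatFunc.C (incl k (e (τ i))) * x (some i), ha, ?_⟩
  have h2 := hG (RatFunc AA) ((RatFunc.C : AA →+* RatFunc AA).comp (incl k)) x
  rw [hx0] at h2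
  exact h2.trans hx

end LCKM

end MP743d1e.CY
end

section
/-!
# LXP: the step for a large prime
-/
set_option autoImplicit false

namespace MP743d1e.CY

open scoped BigOperators
open Pool.Agent.Lib.MPcb8a44

namespace LXPM

open Finset AB AB.SaM

/-- Pairs with exactly one zero member. -/
lemma pairs (g : ℕ → ℕ → ℝ) (m : ℕ → ℝ) (p : ℕ) (S : Finset ℕ) (hS : S ⊆ range p)
    (h0 : ∀ i j, 0 ≤ g i j) (hs : ∀ i j, g i j = g j i) (hd : ∀ i, g i i = 0)
    (hm : ∀ i ∈ S, ∀ j ∈ range p, j ∉ S → g i j = m i) :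
    ((p : ℝ) - S.card) * ∑ i ∈ S, m i ≤ ∑ j ∈ range p, ∑ i ∈ range j, g i j := by
  classical
  have h1 := symm_sum g hs hd p
  have hc : ((range p \ S).card : ℝ) = (p : ℝ) - S.card := by
    rw [card_sdiff_of_subset hS, Nat.cast_sub (card_le_card hS), card_range]
  -- the sum over pairs `(i, j)` with `i ∈ S`, `j ∉ S`
  have hA : ∑ j ∈ range p \ S, ∑ i ∈ S, g i j = ((p : ℝ) - S.card) * ∑ i ∈ S, m i := by
    rw [← hc, ← nsmul_eq_mul, ← sum_const]
    refine sum_congr rfl fun j hj => sum_congr rfl fun i hi => ?_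
    rw [mem_sdiff] at hj
    exact hm i hi j hj.1 hj.2
  have hB : ∑ j ∈ S, ∑ i ∈ range p \ S, g i j = ((p : ℝ) - S.card) * ∑ i ∈ S, m i := by
    rw [← hA, sum_comm]
    exact sum_congr rfl fun j _ => sum_congr rfl fun i _ => hs _ _
  have h2 : ∑ j ∈ range p, ∑ i ∈ range p, g i j =
      (∑ j ∈ range p \ S, ∑ i ∈ range p \ S, g i j + ∑ j ∈ range p \ S, ∑ i ∈ S, g i j) +
      (∑ j ∈ S, ∑ i ∈ range p \ S, g i j + ∑ j ∈ S, ∑ i ∈ S, g i j) := by
    rw [← sum_sdiff hS]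
    simp_rw [← sum_sdiff hS (f := fun i => g i _), sum_add_distrib]
  have h3 : 0 ≤ ∑ j ∈ range p \ S, ∑ i ∈ range p \ S, g i j :=
    sum_nonneg fun _ _ => sum_nonneg fun _ _ => h0 _ _
  have h4 : 0 ≤ ∑ j ∈ S, ∑ i ∈ S, g i j :=
    sum_nonneg fun _ _ => sum_nonneg fun _ _ => h0 _ _
  rw [hA, hB] at h2
  linarith

end LXPM

open LXPM Finset AB AB.SaM in
theorem specLXP : SpecLXP := by
  classical
  intro p N T hp hN hpN hpT x hx hxi hMT
  have hCB : SpecCB := specCB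
  have hMB : SpecMB := MbM.specMB hCB specGAL specMF
  have hCAS : SpecCAS := specCAS hCB specGAL specMF specINT
  have hNp : 0 < N * p := Nat.mul_pos hN hp.pos
  obtain ⟨a, ha, hxa, hM⟩ := hCAS p N hp hN hpN x hx hxi
  obtain ⟨i0, hi0⟩ := freq p hp.pos a
  have hMx : 0 ≤ AB.M x := (hMB _ hNp).2.1 x hx
  set d : ℕ → ℂ := fun i => a i - a i0 with hd
  have hdm : ∀ i, d i ∈ AB.Cyc N := fun i => sub_mem (ha i).1 (ha i0).1
  have hdi : ∀ i, IsIntegral ℤ (d i) := fun i => (ha i).2.sub (ha i0).2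
  have hM0 : ∀ i j, 0 ≤ AB.M (a i - a j) := fun i j =>
    (hMB N hN).2.1 _ (sub_mem (ha i).1 (ha j).1)
  have hMs : ∀ i j, AB.M (a i - a j) = AB.M (a j - a i) := fun i j => by
    rw [← M_neg, neg_sub]
  have hMd : ∀ i, AB.M (a i - a i) = 0 := fun i => by rw [sub_self, M_zero]
  set S : Finset ℕ := {i ∈ range p | a i ≠ a i0} with hS
  have hSd : ∀ i, i ∈ S ↔ i ∈ range p ∧ d i ≠ 0 := fun i => by
    rw [hS, mem_filter, hd]
    simp only [sub_ne_zero]
  have hp' : (0 : ℝ) < p := by exact_mod_cast hp.pos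
  -- the number of terms
  have hX : (S.card : ℝ) ≤ 2 * AB.M x := by
    have h1 := symm_sum (fun i j => AB.M (a i - a j)) hMs hMd p
    rw [← hM] at h1
    have h2 : ∑ j ∈ range p, ∑ i ∈ range p, (if a i = a j then (0 : ℝ) else 1) ≤
        ∑ j ∈ range p, ∑ i ∈ range p, AB.M (a i - a j) := by
      refine sum_le_sum fun j _ => sum_le_sum fun i _ => ?_
      split_ifs with h
      · exact hM0 _ _
      · exact (hMB N hN).2.2.1 _ (sub_mem (ha i).1 (ha j).1) ((ha i).2.sub (ha j).2)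
          (sub_ne_zero.mpr h)
    have h3 : (p : ℝ) * S.card ≤ p * (2 * AB.M x) := by
      have := hi0.trans (h2.trans_eq h1)
      nlinarith
    exact le_of_mul_le_mul_left h3 hp'
  -- the sum of the mean squares
  have hP : ((p : ℝ) - S.card) * ∑ i ∈ S, AB.M (d i) ≤ ((p : ℝ) - 1) * AB.M x := by
    rw [hM]
    refine pairs (fun i j => AB.M (a i - a j)) _ p S (filter_subset _ _) hM0 hMs hMd ?_
    intro i _ j hj hjS
    have hj0 : a j = a i0 := by
      by_contra h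
      exact hjS (mem_filter.mpr ⟨hj, h⟩)
    simp only [hj0, hd]
  have h1M : ∀ i ∈ S, 1 ≤ AB.M (d i) := fun i hi =>
    (hMB N hN).2.2.1 _ (hdm i) (hdi i) ((hSd i).1 hi).2
  refine ⟨S, d, fun i => AB.ze p ^ i, ?_, ?_, ?_, ?_⟩
  · have h1 : ∑ i ∈ range p, AB.ze p ^ i = 0 := (hCB.1 p hp.pos).geom_sum_eq_zero hp.one_lt
    have h2 : x = ∑ i ∈ range p, d i * AB.ze p ^ i := by
      simp only [hd, sub_mul, sum_sub_distrib]
      rw [← mul_sum, h1, mul_zero, sub_zero]
      exact hxa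
    rw [h2]
    symm
    refine sum_subset (filter_subset _ _) fun i hi hiS => ?_
    have : d i = 0 := by
      by_contra h
      exact hiS ((hSd i).2 ⟨hi, h⟩)
    rw [this, zero_mul]
  · intro i _
    refine ⟨⟨p, hp.pos, ?_⟩, hdm i, hdi i⟩
    rw [← pow_mul, mul_comm, pow_mul, (hCB.1 p hp.pos).pow_eq_one, one_pow]
  · linarith
  · have hXT : (S.card : ℝ) ≤ 2 * T := by linarith
    have hpX : 2 * AB.M x < (p : ℝ) - S.card := by nlinarith [sq_nonneg (2 * T - 1)]
    have hpX0 : (0 : ℝ) < (p : ℝ) - S.card := by linarith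
    rcases Nat.lt_or_ge S.card 2 with h | h
    · right
      refine ⟨by omega, fun i hi => ?_⟩
      have hc : S.card = 1 := by
        have : 0 < S.card := card_pos.mpr ⟨i, hi⟩
        omega
      obtain ⟨k, hk⟩ := card_eq_one.mp hc
      rw [hc, hk, sum_singleton] at hP
      have hik : i = k := by rw [hk] at hi; exact mem_singleton.mp hi
      have h1p : (0 : ℝ) < (p : ℝ) - 1 := by
        have := hp.one_lt
        have : (1 : ℝ) < p := by exact_mod_cast this
        linarith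
      rw [hik]
      push_cast at hP
      exact le_of_mul_le_mul_left hP h1p
    · left
      intro i hi
      have h2 : (2 : ℝ) ≤ S.card := by exact_mod_cast h
      have h3 : AB.M (d i) + ((S.card : ℝ) - 1) ≤ ∑ j ∈ S, AB.M (d j) := by
        rw [← add_sum_erase S _ hi]
        have h4 : ((S.card : ℝ) - 1) ≤ ∑ j ∈ S.erase i, AB.M (d j) := by
          have h5 : ((S.erase i).card : ℝ) = (S.card : ℝ) - 1 := by
            rw [card_erase_of_mem hi, Nat.cast_sub (by omega), Nat.cast_one]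
          rw [← h5, ← nsmul_one (S.erase i).card, ← sum_const]
          exact sum_le_sum fun j hj => h1M j (mem_of_mem_erase hj)
        linarith
      have h4 : ((p : ℝ) - S.card) * (AB.M (d i) + ((S.card : ℝ) - 1)) ≤ ((p : ℝ) - 1) * AB.M x :=
        (mul_le_mul_of_nonneg_left h3 hpX0.le).trans hP
      by_contra hcon
      push Not at hcon
      have h5 : ((p : ℝ) - S.card) * (AB.M x - 1 / 2) < ((p : ℝ) - S.card) * AB.M (d i) :=
        mul_lt_mul_of_pos_left hcon hpX0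
      nlinarith [mul_nonneg (sub_nonneg.mpr h2) hMx,
        mul_nonneg (sub_nonneg.mpr h2) (sub_nonneg.mpr hpX.le)]

end MP743d1e.CY
end

section
/-!
# Module LXQ: the step for a square factor
-/
set_option autoImplicit false

namespace MP743d1e.CY

open scoped BigOperators ComplexConjugate
open Pool.Agent.Lib.MPcb8a44

namespace LXQM

theorem norm_root {ξ : ℂ} {n : ℕ} (hn : 0 < n) (h : ξ ^ n = 1) : ‖ξ‖ = 1 :=
  Complex.norm_eq_one_of_pow_eq_one h hn.ne'

theorem mul_conj_root {ξ : ℂ} {n : ℕ} (hn : 0 < n) (h : ξ ^ n = 1) : ξ * conj ξ = 1 := by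
  rw [Complex.mul_conj, Complex.normSq_eq_norm_sq, norm_root hn h]
  norm_num

/-- `M` does not change under multiplication by a root of unity. -/
theorem M_mul_root (a : ℂ) {ξ : ℂ} {n : ℕ} (hn : 0 < n) (h : ξ ^ n = 1) :
    AB.M (a * ξ) = AB.M a := by
  unfold AB.M
  congr 1
  rw [map_mul]
  calc a * ξ * (conj a * conj ξ) = a * conj a * (ξ * conj ξ) := by ring
    _ = a * conj a := by rw [mul_conj_root hn h, mul_one]

/-- the cofactor is integral -/
theorem integral_of_mul_root {a ξ : ℂ} {n : ℕ} (hn : 0 < n) (h : ξ ^ n = 1)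
    (hi : IsIntegral ℤ (a * ξ)) : IsIntegral ℤ a := by
  have h1 : IsIntegral ℤ (ξ ^ (n - 1)) := by
    refine IsIntegral.pow ?_ _
    exact IsIntegral.of_pow hn (by rw [h]; exact isIntegral_one)
  have h2 : a = a * ξ * ξ ^ (n - 1) := by
    rw [mul_assoc, ← pow_succ', Nat.sub_add_cancel hn, h, mul_one]
  rw [h2]
  exact hi.mul h1

end LXQM

open LXQM in
theorem specLXQ : SpecLXQ := by
  intro p N0 k T hp hN0 hpN hk x hx hxi hxT
  have hGR := AB.specGR AB.specCB AB.specGAL (AB.MbM.specMB AB.specCB AB.specGAL AB.specMF) AB.specINT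
  have hMB := AB.MbM.specMB AB.specCB AB.specGAL AB.specMF
  obtain ⟨hprim, hzpow, hmono, -, -⟩ := AB.specCB
  have : NeZero p := ⟨hp.ne_zero⟩
  have : Fact p.Prime := ⟨hp⟩
  obtain ⟨Y, hY, hsum, hM, hint⟩ := hGR p N0 k (k - 1) p hp hN0 hpN (by omega) (by omega)
    (by rw [show k - (k - 1) = 1 by omega, pow_one]) x hx
  choose A hA hYA using hY
  have hint := hint hxi
  have hpk : 0 < p ^ k := pow_pos hp.pos k
  have hNk : 0 < N0 * p ^ k := Nat.mul_pos hN0 hpk
  obtain ⟨-, hMnn, hMone, -, -, -, -⟩ := hMB (N0 * p ^ k) hNk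
  set ξ : ℕ → ℂ := fun i => AB.ze (p ^ k) ^ i with hξ
  have hroot : ∀ i, ξ i ^ (p ^ k) = 1 := by
    intro i
    rw [hξ]
    simp only
    rw [← pow_mul, mul_comm, pow_mul, (hprim (p ^ k) hpk).pow_eq_one, one_pow]
  have hYmem : ∀ g, Y g ∈ AB.Cyc (N0 * p ^ k) := by
    intro g
    rw [hYA g]
    refine mul_mem ?_ (pow_mem ?_ _)
    · refine hmono (N0 * p ^ (k - 1)) (N0 * p ^ k) hNk ?_ (hA g)
      exact Nat.mul_dvd_mul_left N0 (pow_dvd_pow p (by omega))
    · rw [hzpow (p ^ k) (N0 * p ^ k) hNk (Dvd.intro_left N0 rfl)]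
      exact pow_mem (AB.CBM.ze_mem _) _
  have hMA : ∀ g, AB.M (A g) = AB.M (Y g) := by
    intro g
    rw [hYA g]
    exact (M_mul_root (A g) hpk (hroot g.val)).symm
  have hAi : ∀ g, IsIntegral ℤ (A g) := by
    intro g
    refine integral_of_mul_root hpk (hroot g.val) ?_
    have := hint g
    rwa [hYA g] at this
  set G : Finset (ZMod p) := Finset.univ.filter (fun g => Y g ≠ 0) with hG
  have hM0 : ∀ g, 0 ≤ AB.M (Y g) := fun g => hMnn _ (hYmem g)
  have hM1 : ∀ g ∈ G, 1 ≤ AB.M (Y g) := by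
    intro g hg
    rw [hG, Finset.mem_filter] at hg
    exact hMone _ (hYmem g) (hint g) hg.2
  have hMG : ∑ g ∈ G, AB.M (Y g) ≤ AB.M x := by
    rw [hM]
    exact Finset.sum_le_univ_sum_of_nonneg hM0
  have hcardG : (G.card : ℝ) ≤ AB.M x := by
    refine le_trans ?_ hMG
    have := Finset.card_nsmul_le_sum G (fun g => AB.M (Y g)) 1 hM1
    rwa [nsmul_eq_mul, mul_one] at this
  have hMx : 0 ≤ AB.M x := (Nat.cast_nonneg G.card).trans hcardG
  have hxG : x = ∑ g ∈ G, Y g := by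
    rw [hsum]
    symm
    refine Finset.sum_subset (Finset.subset_univ _) fun g _ hg => ?_
    by_contra h0
    exact hg (by rw [hG]; exact Finset.mem_filter.2 ⟨Finset.mem_univ _, h0⟩)
  have hinj : Set.InjOn (ZMod.val : ZMod p → ℕ) (G : Set (ZMod p)) :=
    fun a _ b _ h => ZMod.val_injective p h
  have hcast : ∀ g : ZMod p, ((g.val : ℕ) : ZMod p) = g := ZMod.natCast_zmod_val
  refine ⟨G.image ZMod.val, fun i => A (i : ZMod p), ξ, ?_, ?_, ?_, ?_⟩
  · rw [Finset.sum_image hinj, hxG]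
    refine Finset.sum_congr rfl fun g _ => ?_
    show Y g = A ((g.val : ℕ) : ZMod p) * AB.ze (p ^ k) ^ g.val
    rw [hcast g]
    exact hYA g
  · intro i _
    exact ⟨⟨p ^ k, hpk, hroot i⟩, hA _, hAi _⟩
  · rw [Finset.card_image_of_injOn hinj]
    linarith
  · rw [Finset.card_image_of_injOn hinj]
    by_cases h2 : G.card ≤ 1
    · right
      refine ⟨h2, fun i hi => ?_⟩
      show AB.M (A (i : ZMod p)) ≤ AB.M x
      rw [hMA]
      calc AB.M (Y (i : ZMod p)) ≤ ∑ g, AB.M (Y g) :=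
            Finset.single_le_sum (fun g _ => hM0 g) (Finset.mem_univ _)
        _ = AB.M x := hM.symm
    · left
      intro i hi
      rw [Finset.mem_image] at hi
      obtain ⟨g, hg, rfl⟩ := hi
      show AB.M (A ((g.val : ℕ) : ZMod p)) ≤ AB.M x - 1 / 2
      rw [hcast g, hMA]
      have h3 : ∑ h ∈ G.erase g, AB.M (Y h) + AB.M (Y g) = ∑ h ∈ G, AB.M (Y h) :=
        Finset.sum_erase_add G _ hg
      have h4 : ((G.erase g).card : ℝ) ≤ ∑ h ∈ G.erase g, AB.M (Y h) := by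
        have := Finset.card_nsmul_le_sum (G.erase g) (fun g => AB.M (Y g)) 1
          (fun h hh => hM1 h (Finset.mem_of_mem_erase hh))
        rwa [nsmul_eq_mul, mul_one] at this
      have h5 : 1 ≤ (G.erase g).card := by
        rw [Finset.card_erase_of_mem hg]
        omega
      have h6 : (1 : ℝ) ≤ ((G.erase g).card : ℝ) := by exact_mod_cast h5
      linarith

end MP743d1e.CY
end

section
/-!
# Module LOX: cyclotomic integers of bounded mean square are short sums of roots of unity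
-/
set_option autoImplicit false

namespace MP743d1e.CY

open scoped BigOperators ComplexConjugate
open Pool.Agent.Lib.MPcb8a44

namespace LOXM

/-! ## Sums of roots of unity -/

theorem ru_mono {L L' : ℕ} {z : ℂ} (h : L ≤ L') (hz : SumRU L z) : SumRU L' z := by
  obtain ⟨s, h1, h2, h3⟩ := hz
  exact ⟨s, h1.trans h, h2, h3⟩

theorem ru_zero (L : ℕ) : SumRU L 0 := ⟨0, by simp, by simp, by simp⟩

theorem ru_add {L L' : ℕ} {z w : ℂ} (hz : SumRU L z) (hw : SumRU L' w) : SumRU (L + L') (z + w) := by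
  obtain ⟨s, h1, h2, h3⟩ := hz
  obtain ⟨t, k1, k2, k3⟩ := hw
  refine ⟨s + t, ?_, ?_, ?_⟩
  · rw [Multiset.card_add]
    exact add_le_add h1 k1
  · intro w hw
    rw [Multiset.mem_add] at hw
    rcases hw with hw | hw
    · exact h2 w hw
    · exact k2 w hw
  · rw [Multiset.sum_add, h3, k3]

theorem ru_sum {ι : Type} (S : Finset ι) (f : ι → ℂ) (L : ℕ) (h : ∀ i ∈ S, SumRU L (f i)) :
    SumRU (S.card * L) (∑ i ∈ S, f i) := by
  classical
  induction S using Finset.induction_on with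
  | empty => simpa using ru_zero 0
  | insert a S ha ih =>
    rw [Finset.sum_insert ha, Finset.card_insert_of_notMem ha, Nat.succ_mul, Nat.add_comm]
    exact ru_add (h a (Finset.mem_insert_self _ _))
      (ih fun i hi => h i (Finset.mem_insert_of_mem hi))

theorem ru_one {z : ℂ} {n : ℕ} (hn : 0 < n) (h : z ^ n = 1) : SumRU 1 z := by
  refine ⟨{z}, by simp, ?_, by simp⟩
  intro w hw
  rw [Multiset.mem_singleton] at hw
  subst hw
  exact ⟨n, hn, h⟩

theorem ru_mul {L : ℕ} {z ξ : ℂ} {n : ℕ} (hn : 0 < n) (h : ξ ^ n = 1) (hz : SumRU L z) :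
    SumRU L (z * ξ) := by
  obtain ⟨s, h1, h2, h3⟩ := hz
  refine ⟨s.map (fun w => w * ξ), by simpa using h1, ?_, ?_⟩
  · intro w hw
    rw [Multiset.mem_map] at hw
    obtain ⟨v, hv, rfl⟩ := hw
    obtain ⟨m, hm, hv1⟩ := h2 v hv
    refine ⟨m * n, Nat.mul_pos hm hn, ?_⟩
    rw [mul_pow, pow_mul, hv1, one_pow, mul_comm m n, pow_mul, h, one_pow, one_mul]
  · rw [Multiset.sum_map_mul_right, Multiset.map_id', h3]

/-- an integral multiple of a root of unity -/
theorem ru_int {z : ℂ} {n : ℕ} (hn : 0 < n) (h : z ^ n = 1) (a : ℤ) :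
    SumRU a.natAbs ((a : ℂ) * z) := by
  have hpos : ∀ m : ℕ, ∀ w : ℂ, (∃ k : ℕ, 0 < k ∧ w ^ k = 1) → SumRU m ((m : ℂ) * w) := by
    intro m w hw
    obtain ⟨k, hk, hw⟩ := hw
    have h1 := ru_sum (Finset.range m) (fun _ => w) 1 (fun _ _ => ru_one hk hw)
    simpa using h1
  rcases le_total 0 a with h0 | h0
  · have h1 := hpos a.natAbs z ⟨n, hn, h⟩
    have h2 : ((a.natAbs : ℕ) : ℂ) = (a : ℂ) := by
      have : ((a.natAbs : ℕ) : ℤ) = a := Int.natAbs_of_nonneg h0
      rw [← Int.cast_natCast, this]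
    rwa [h2] at h1
  · have h1 := hpos a.natAbs (-z) ⟨2 * n, by omega, by
      rw [pow_mul, neg_sq, ← pow_mul, mul_comm, pow_mul, h, one_pow]⟩
    have h2 : ((a.natAbs : ℕ) : ℂ) = -(a : ℂ) := by
      have : ((a.natAbs : ℕ) : ℤ) = -a := by omega
      rw [← Int.cast_natCast, this, Int.cast_neg]
    rw [h2] at h1
    have h3 : -(a : ℂ) * -z = (a : ℂ) * z := by ring
    rwa [h3] at h1

/-- every cyclotomic integer is a sum of roots of unity -/
theorem ru_exists {N : ℕ} (hN : 0 < N) {x : ℂ} (hx : x ∈ AB.Cyc N) (hi : IsIntegral ℤ x) :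
    ∃ L : ℕ, SumRU L x := by
  obtain ⟨a, ha⟩ := AB.specINT N hN x hx hi
  have h1 : ∀ j ∈ Finset.range N, SumRU (∑ i ∈ Finset.range N, (a i).natAbs)
      ((a j : ℂ) * AB.ze N ^ j) := by
    intro j hj
    refine ru_mono (Finset.single_le_sum (f := fun i => (a i).natAbs) (fun _ _ => Nat.zero_le _) hj)
      (ru_int hN ?_ (a j))
    rw [← pow_mul, mul_comm, pow_mul, (AB.specCB.1 N hN).pow_eq_one, one_pow]
  exact ⟨_, by rw [ha]; exact ru_sum _ _ _ h1⟩

/-! ## The finite part -/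

theorem ru_fin (T : ℝ) (B : ℕ) : ∃ L : ℕ, ∀ N : ℕ, 0 < N → N ≤ B → ∀ x ∈ AB.Cyc N,
    IsIntegral ℤ x → AB.M x ≤ T → SumRU L x := by
  have hMB := AB.MbM.specMB AB.specCB AB.specGAL AB.specMF
  have h1 : ∀ N : ℕ, ∃ L : ℕ, 0 < N → ∀ x ∈ AB.Cyc N, IsIntegral ℤ x → AB.M x ≤ T →
      SumRU L x := by
    intro N
    rcases Nat.eq_zero_or_pos N with rfl | hN
    · exact ⟨0, fun h => absurd h (lt_irrefl 0)⟩
    obtain ⟨-, -, -, -, -, hfin, -⟩ := hMB N hN
    have hf := hfin T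
    have h2 : ∀ x : ℂ, ∃ L : ℕ, x ∈ AB.Cyc N → IsIntegral ℤ x → SumRU L x := by
      intro x
      by_cases hx : x ∈ AB.Cyc N ∧ IsIntegral ℤ x
      · obtain ⟨L, hL⟩ := ru_exists hN hx.1 hx.2
        exact ⟨L, fun _ _ => hL⟩
      · exact ⟨0, fun h h' => absurd ⟨h, h'⟩ hx⟩
    choose L hL using h2
    refine ⟨∑ x ∈ hf.toFinset, L x, fun _ x hx hi hM => ?_⟩
    refine ru_mono (Finset.single_le_sum (f := L) (fun _ _ => Nat.zero_le _) ?_) (hL x hx hi)
    rw [Set.Finite.mem_toFinset]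
    exact ⟨hx, hi, hM⟩
  choose L hL using h1
  refine ⟨∑ N ∈ Finset.range (B + 1), L N, fun N hN hNB x hx hi hM => ?_⟩
  exact ru_mono (Finset.single_le_sum (f := L) (fun _ _ => Nat.zero_le _)
    (Finset.mem_range.2 (Nat.lt_succ_of_le hNB))) (hL N hN x hx hi hM)

/-! ## The step -/

theorem ru_step {N L L' : ℕ} {T : ℝ} {x : ℂ} (h : Step N T x)
    (hsmall : ∀ y ∈ AB.Cyc N, IsIntegral ℤ y → AB.M y ≤ AB.M x - 1 / 2 → SumRU L y)
    (hind : ∀ y ∈ AB.Cyc N, IsIntegral ℤ y → AB.M y ≤ AB.M x → SumRU L' y)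
    (hLL : ⌊2 * T⌋₊ * L ≤ L') : SumRU L' x := by
  obtain ⟨S, a, ξ, hx, hS, hcard, hcase⟩ := h
  rcases hcase with h1 | ⟨h1, h2⟩
  · rw [hx]
    refine ru_mono ?_ (ru_sum S (fun i => a i * ξ i) L fun i hi => ?_)
    · refine le_trans (Nat.mul_le_mul_right L ?_) hLL
      exact Nat.le_floor hcard
    · obtain ⟨⟨n, hn, hξ⟩, ha, hai⟩ := hS i hi
      exact ru_mul hn hξ (hsmall (a i) ha hai (h1 i hi))
  · rw [hx]
    refine ru_mono ?_ (ru_sum S (fun i => a i * ξ i) L' fun i hi => ?_)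
    · calc S.card * L' ≤ 1 * L' := Nat.mul_le_mul_right L' h1
        _ = L' := one_mul L'
    · obtain ⟨⟨n, hn, hξ⟩, ha, hai⟩ := hS i hi
      exact ru_mul hn hξ (hind (a i) ha hai (h2 i hi))

/-- a squarefree number with prime factors at most `P` -/
theorem sqf_le {N P : ℕ} (hN : Squarefree N) (h : ∀ p : ℕ, p.Prime → p ∣ N → p ≤ P) :
    N ≤ P.factorial := by
  refine Nat.le_of_dvd (Nat.factorial_pos P) ?_
  rw [← Nat.prod_primeFactors_of_squarefree hN]
  refine Finset.prod_primes_dvd _ (fun p hp => (Nat.prime_of_mem_primeFactors hp).prime) ?_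
  intro p hp
  exact Nat.dvd_factorial (Nat.prime_of_mem_primeFactors hp).pos
    (h p (Nat.prime_of_mem_primeFactors hp) (Nat.dvd_of_mem_primeFactors hp))

theorem main (hP : SpecLXP) (hQ : SpecLXQ) (j : ℕ) : ∃ L : ℕ, ∀ N : ℕ, 0 < N →
    ∀ x ∈ AB.Cyc N, IsIntegral ℤ x → 2 * AB.M x < j → SumRU L x := by
  have hMB := AB.MbM.specMB AB.specCB AB.specGAL AB.specMF
  induction j with
  | zero =>
    refine ⟨0, fun N hN x hx _ h => ?_⟩
    have := (hMB N hN).2.1 x hx
    rw [Nat.cast_zero] at h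
    linarith
  | succ j ih =>
    obtain ⟨L, hL⟩ := ih
    set T : ℝ := ((j : ℝ) + 1) / 2 with hT
    set P : ℕ := ⌊2 * T + 4 * T ^ 2 + 2⌋₊ with hPd
    obtain ⟨L1, hL1⟩ := ru_fin T P.factorial
    refine ⟨max L1 (⌊2 * T⌋₊ * L), fun N => ?_⟩
    induction N using Nat.strong_induction_on with
    | _ N IH =>
      intro hN x hx hi hM
      have hMT : AB.M x ≤ T := by
        rw [hT]
        push_cast at hM
        linarith
      -- the conclusion from a step to a smaller level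
      have key : ∀ N' : ℕ, 0 < N' → N' < N → Step N' T x →
          SumRU (max L1 (⌊2 * T⌋₊ * L)) x := by
        intro N' h0 hlt hst
        refine ru_step hst (L := L) ?_ ?_ (le_max_right _ _)
        · intro y hy hyi hyM
          refine hL N' h0 y hy hyi ?_
          push_cast at hM
          linarith
        · intro y hy hyi hyM
          refine IH N' hlt h0 y hy hyi ?_
          linarith
      by_cases hsq : Squarefree N
      · by_cases hbig : ∃ p : ℕ, p.Prime ∧ p ∣ N ∧ P < p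
        · obtain ⟨p, hp, ⟨N0, rfl⟩, hPp⟩ := hbig
          have hN0 : 0 < N0 := Nat.pos_of_mul_pos_left hN
          have hpN0 : ¬ p ∣ N0 := by
            rintro ⟨c, rfl⟩
            have h1 := hsq p ⟨c, by ring⟩
            exact hp.one_lt.ne' (Nat.isUnit_iff.1 h1)
          refine key N0 hN0 ?_ ?_
          · have := hp.two_le
            nlinarith
          · refine hP p N0 T hp hN0 hpN0 ?_ x ?_ hi hMT
            · exact Nat.lt_of_floor_lt hPp
            · rwa [mul_comm] at hx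
        · push Not at hbig
          refine ru_mono (le_max_left _ _) (hL1 N hN ?_ x hx hi hMT)
          exact sqf_le hsq fun p hp hpN => hbig p hp hpN
      · rw [Nat.squarefree_iff_prime_squarefree] at hsq
        push Not at hsq
        obtain ⟨p, hp, hpp⟩ := hsq
        have hk : 2 ≤ N.factorization p := by
          rw [← hp.pow_dvd_iff_le_factorization hN.ne', sq]
          exact hpp
        have hdec : N = N / p ^ N.factorization p * p ^ N.factorization p := by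
          rw [Nat.div_mul_cancel (Nat.ordProj_dvd N p)]
        set k := N.factorization p with hkd
        set N0 := N / p ^ k with hN0d
        have hN0 : 0 < N0 := by
          refine Nat.pos_of_ne_zero fun h => ?_
          rw [h, zero_mul] at hdec
          omega
        have hpN0 : ¬ p ∣ N0 := Nat.not_dvd_ordCompl hp hN.ne'
        have hlt : N0 * p ^ (k - 1) < N := by
          conv_rhs => rw [hdec]
          exact Nat.mul_lt_mul_of_pos_left (Nat.pow_lt_pow_right hp.one_lt (by omega)) hN0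
        refine key (N0 * p ^ (k - 1)) (Nat.mul_pos hN0 (pow_pos hp.pos _)) hlt ?_
        refine hQ p N0 k T hp hN0 hpN0 hk x ?_ hi hMT
        rw [← hdec]
        exact hx

end LOXM

/-- **LOX**: Loxton's theorem, qualitative. -/
theorem specLOX : SpecLOX := by
  intro T
  obtain ⟨L, hL⟩ := LOXM.main specLXP specLXQ (⌊2 * T⌋₊ + 1)
  refine ⟨L, fun N hN x hx hi hM => hL N hN x hx hi ?_⟩
  push_cast
  have := Nat.lt_floor_add_one (2 * T)
  linarith

end MP743d1e.CY
end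

section
/-!
# SRU: values of algebraic functions at roots of unity are sums of few roots of unity
-/
set_option autoImplicit false

namespace MP743d1e.CY

open scoped BigOperators
open Polynomial
open Pool.Agent.Lib.MPcb8a44

namespace SRUM

/-- a root of unity is in a cyclotomic field -/
theorem mem_of_pow {z : ℂ} {n : ℕ} (hn : 0 < n) (h : z ^ n = 1) : z ∈ AB.Cyc n := by
  have hne : NeZero n := ⟨hn.ne'⟩
  obtain ⟨i, -, hi⟩ := (AB.CBM.prim n hn).eq_pow_of_pow_eq_one h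
  rw [← hi]
  exact pow_mem (AB.CBM.ze_mem n) i

theorem mono_left {a b : ℕ} (ha : 0 < a) (hb : 0 < b) : AB.Cyc a ≤ AB.Cyc (a * b) :=
  AB.CBM.mono a (a * b) (Nat.mul_pos ha hb) (dvd_mul_right a b)

theorem mono_right {a b : ℕ} (ha : 0 < a) (hb : 0 < b) : AB.Cyc b ≤ AB.Cyc (a * b) :=
  AB.CBM.mono b (a * b) (Nat.mul_pos ha hb) (dvd_mul_left b a)

/-- elements of `ℚ^ab` are in a cyclotomic field -/
theorem exists_Cyc {θ : ℂ} (h : θ ∈ Qab) : ∃ N : ℕ, 0 < N ∧ θ ∈ AB.Cyc N := by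
  unfold Qab at h
  induction h using Subfield.closure_induction with
  | mem x hx =>
    obtain ⟨n, hn, hx⟩ := hx
    exact ⟨n, hn, mem_of_pow hn hx⟩
  | one => exact ⟨1, one_pos, one_mem _⟩
  | add x y _ _ ihx ihy =>
    obtain ⟨a, ha, hx⟩ := ihx
    obtain ⟨b, hb, hy⟩ := ihy
    exact ⟨a * b, Nat.mul_pos ha hb, add_mem (mono_left ha hb hx) (mono_right ha hb hy)⟩
  | neg x _ ihx =>
    obtain ⟨a, ha, hx⟩ := ihx
    exact ⟨a, ha, neg_mem hx⟩
  | inv x _ ihx =>
    obtain ⟨a, ha, hx⟩ := ihx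
    exact ⟨a, ha, inv_mem hx⟩
  | mul x y _ _ ihx ihy =>
    obtain ⟨a, ha, hx⟩ := ihx
    obtain ⟨b, hb, hy⟩ := ihy
    exact ⟨a * b, Nat.mul_pos ha hb, mul_mem (mono_left ha hb hx) (mono_right ha hb hy)⟩

/-- `ev2` and ring homomorphisms -/
theorem ev2_map {R S : Type} [CommRing R] [CommRing S] (f : R →+* S) (z w : R) (g : ℤ[X][X]) :
    f (ev2 z w g) = ev2 (f z) (f w) g := by
  unfold ev2
  rw [Polynomial.hom_eval₂]
  congr 1
  refine Polynomial.ringHom_ext (fun n => ?_) ?_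
  · simp
  · simp

/-- the values are integral -/
theorem integral {g : ℤ[X][X]} (hg : g.Monic) {θ ζ : ℂ} {n : ℕ} (hn : 0 < n) (hζ : ζ ^ n = 1)
    (h : ev2 ζ θ g = 0) : IsIntegral ℤ θ := by
  have hζi : IsIntegral ℤ ζ := by
    refine ⟨X ^ n - 1, monic_X_pow_sub_C 1 hn.ne', ?_⟩
    simp [hζ]
  set A := integralClosure ℤ ℂ
  set f' : ℤ[X] →+* A := eval₂RingHom (Int.castRingHom A) ⟨ζ, hζi⟩ with hf'
  have h1 : (algebraMap A ℂ).comp f' = eval₂RingHom (Int.castRingHom ℂ) ζ := by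
    refine Polynomial.ringHom_ext (fun n => ?_) ?_
    · simp [hf']
    · simp only [hf', RingHom.comp_apply, coe_eval₂RingHom, eval₂_X]
      rfl
  have h2 : IsIntegral A θ := by
    refine ⟨g.map f', hg.map _, ?_⟩
    rw [eval₂_map, h1]
    exact h
  exact isIntegral_trans θ h2

/-- the bound for the roots -/
theorem bound (g : ℤ[X][X]) (hg : g.Monic) : ∃ C : ℝ, 0 ≤ C ∧ ∀ z w : ℂ, ‖z‖ = 1 →
    ev2 z w g = 0 → ‖w‖ ≤ C := by
  set B : ℝ := ∑ i ∈ Finset.range (g.natDegree + 1), ∑ j ∈ Finset.range ((g.coeff i).natDegree + 1),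
    |(((g.coeff i).coeff j : ℤ) : ℝ)| with hB
  have hB0 : 0 ≤ B := Finset.sum_nonneg fun i _ => Finset.sum_nonneg fun j _ => abs_nonneg _
  refine ⟨B + 1, by linarith, fun z w hz h => ?_⟩
  set f : ℤ[X] →+* ℂ := eval₂RingHom (Int.castRingHom ℂ) z with hf
  have hcoef : ∀ c : ℤ[X], ‖f c‖ ≤ ∑ j ∈ Finset.range (c.natDegree + 1),
      |((c.coeff j : ℤ) : ℝ)| := by
    intro c
    rw [hf, coe_eval₂RingHom, eval₂_eq_sum_range]
    refine (norm_sum_le _ _).trans (Finset.sum_le_sum fun j _ => ?_)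
    rw [norm_mul, norm_pow, hz, one_pow, mul_one]
    simp
  have hmon : (g.map f).Monic := hg.map f
  have hroot : (g.map f).IsRoot w := by
    rw [IsRoot, eval_map]
    exact h
  have h1 := hroot.norm_lt_cauchyBound hmon.ne_zero
  have h2 : ((g.map f).cauchyBound : ℝ) ≤ B + 1 := by
    rw [cauchyBound, hmon.leadingCoeff]
    push_cast
    refine add_le_add ?_ le_rfl
    rw [norm_one, div_one]
    have h3 : Finset.sup (Finset.range (g.map f).natDegree) (‖(g.map f).coeff ·‖₊) ≤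
        ⟨B, hB0⟩ := by
      refine Finset.sup_le fun i hi => ?_
      rw [← NNReal.coe_le_coe]
      change ‖(g.map f).coeff i‖ ≤ B
      rw [coeff_map]
      refine (hcoef _).trans ?_
      have hi' : i ∈ Finset.range (g.natDegree + 1) := by
        rw [Finset.mem_range] at hi ⊢
        have := natDegree_map_le (f := f) (p := g)
        omega
      exact Finset.single_le_sum (f := fun i => ∑ j ∈ Finset.range ((g.coeff i).natDegree + 1),
        |(((g.coeff i).coeff j : ℤ) : ℝ)|) (fun i _ => Finset.sum_nonneg fun j _ => abs_nonneg _) hi'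
    exact_mod_cast h3
  exact (NNReal.coe_le_coe.2 h1.le).trans h2

end SRUM

open SRUM

theorem specSRU (hLOX : SpecLOX) : SpecSRU := by
  intro g hg
  obtain ⟨C, hC0, hC⟩ := bound g hg
  obtain ⟨L, hL⟩ := hLOX (C ^ 2)
  refine ⟨L, fun θ ζ hθ hζ h => ?_⟩
  obtain ⟨n, hn, hζ⟩ := hζ
  obtain ⟨N₀, hN₀, hθ₀⟩ := exists_Cyc hθ
  have hN : 0 < n * N₀ := Nat.mul_pos hn hN₀
  have hθN : θ ∈ AB.Cyc (n * N₀) := mono_right hn hN₀ hθ₀
  have hζN : ζ ∈ AB.Cyc (n * N₀) := mono_left hn hN₀ (mem_of_pow hn hζ)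
  have hint := integral hg hn hζ h
  refine hL (n * N₀) hN θ hθN hint ?_
  obtain ⟨-, hM⟩ := AB.specMF (n * N₀) hN
  have hfd := AB.CBM.int (n * N₀) hN
  have : FiniteDimensional ℚ (AB.Cyc (n * N₀)) := IntermediateField.adjoin.finiteDimensional hfd
  rw [show θ = ((⟨θ, hθN⟩ : AB.Cyc (n * N₀)) : ℂ) from rfl, hM ⟨θ, hθN⟩]
  have : Fintype (AB.Cyc (n * N₀) ≃ₐ[ℚ] AB.Cyc (n * N₀)) := Fintype.ofFinite _
  rw [finsum_eq_sum_of_fintype, Nat.card_eq_fintype_card]
  have hcard : (0 : ℝ) < (Fintype.card (AB.Cyc (n * N₀) ≃ₐ[ℚ] AB.Cyc (n * N₀)) : ℝ) := by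
    exact_mod_cast Fintype.card_pos
  rw [div_le_iff₀ hcard]
  have hσ : ∀ σ : AB.Cyc (n * N₀) ≃ₐ[ℚ] AB.Cyc (n * N₀),
      ‖((σ ⟨θ, hθN⟩ : AB.Cyc (n * N₀)) : ℂ)‖ ^ 2 ≤ C ^ 2 := by
    intro σ
    have h0 : ev2 (⟨ζ, hζN⟩ : AB.Cyc (n * N₀)) ⟨θ, hθN⟩ g = 0 := by
      apply Subtype.coe_injective
      have := ev2_map (algebraMap (AB.Cyc (n * N₀)) ℂ) ⟨ζ, hζN⟩ ⟨θ, hθN⟩ g
      change algebraMap (AB.Cyc (n * N₀)) ℂ _ = algebraMap (AB.Cyc (n * N₀)) ℂ 0
      rw [this, map_zero]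
      exact h
    have h1 := ev2_map ((algebraMap (AB.Cyc (n * N₀)) ℂ).comp (σ : AB.Cyc (n * N₀) →+*
      AB.Cyc (n * N₀))) ⟨ζ, hζN⟩ ⟨θ, hθN⟩ g
    rw [h0, map_zero] at h1
    have h2 : ‖((algebraMap (AB.Cyc (n * N₀)) ℂ).comp (σ : AB.Cyc (n * N₀) →+*
      AB.Cyc (n * N₀))) ⟨ζ, hζN⟩‖ = 1 := by
      refine Complex.norm_eq_one_of_pow_eq_one (n := n) ?_ hn.ne'
      rw [← map_pow]
      have : (⟨ζ, hζN⟩ : AB.Cyc (n * N₀)) ^ n = 1 := by
        apply Subtype.coe_injective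
        simpa using hζ
      rw [this, map_one]
    have h3 := hC _ _ h2 h1.symm
    exact pow_le_pow_left₀ (norm_nonneg _) h3 2
  calc ∑ σ : AB.Cyc (n * N₀) ≃ₐ[ℚ] AB.Cyc (n * N₀), ‖((σ ⟨θ, hθN⟩ : AB.Cyc (n * N₀)) : ℂ)‖ ^ 2
      ≤ ∑ _σ : AB.Cyc (n * N₀) ≃ₐ[ℚ] AB.Cyc (n * N₀), C ^ 2 := Finset.sum_le_sum fun σ _ => hσ σ
    _ = _ := by rw [Finset.sum_const, nsmul_eq_mul, Finset.card_univ]; ring

end MP743d1e.CY
end
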