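import Pool.Agent.Lib.MP_743d1e_nt.CY.PUK
import Pool.Agent.Lib.MP_743d1e_nt.CY.TSK
import Pool.Agent.Lib.MP_743d1e_nt.CY.LCM
import Pool.Agent.Lib.MP_743d1e_nt.CY.SRU

/-!
# All the modules together
-/

set_option autoImplicit false

namespace MP743d1e.CY

theorem cyPUQ : SpecPUQ :=
  specPUQ specDEC specINT (specLCM (specSRU specLOX) specMAN specCOC) specNRM specCLK specGAL
    specGEN

theorem cyASM : SpecASM := specASM cyPUQ specFNV specTRS

end MP743d1e.CY
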