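import Pool.Agent.Lib.MP_743d1e_nt.CY.PUK
import Pool.Agent.Lib.MP_743d1e_nt.CY.TSK

/-!
# FIN: finite generation
-/

set_option autoImplicit false

namespace MP743d1e.CY

open scoped BigOperators
open Polynomial IntermediateField MP743d1e.Integ MP743d1e.ConstM

/-- Finitely many closed points detect the torsion of the elements `{f, h}` with torsion tame
symbols: there are finitely many closed points `v i` such that `{f, h}` is torsion in `K2 K` if its
tame symbols at all closed points are torsion and `f` has neither a zero nor a pole at the `v i`. -/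
def Pts (F : Type) {K : Type} [Field F] [Field K] [Algebra F K] (h : Kˣ) : Prop :=
  ∃ (r : ℕ) (v : Fin r → DVal K), (∀ i, GeoF F (v i)) ∧ ∀ f : Kˣ, TorTameF F (sym f h) →
    (∀ i, (v i).ord f = 0) → ∃ N : ℕ, 0 < N ∧ N • sym f h = 0

/-- `A` is finitely generated modulo torsion. -/
def FGT {M : Type} [AddCommGroup M] (A : AddSubgroup M) : Prop :=
  ∃ (s : ℕ) (β : Fin s → M), (∀ i, β i ∈ A) ∧
    ∀ α ∈ A, ∃ (e : Fin s → ℤ) (N : ℕ), 0 < N ∧ N • (α - ∑ i, e i • β i) = 0

namespace FINM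

open ASMM

section

variable {F K : Type} [Field F] [Field K] [Algebra F K]

theorem sym_pow_right' (f h : Kˣ) (n : ℕ) : sym f (h ^ n) = n • sym f h := by
  induction n with
  | zero =>
    rw [pow_zero, zero_nsmul]
    have := sym_mul_right f (1 : Kˣ) 1
    rw [mul_one] at this
    simpa using this
  | succ n ih => rw [pow_succ, sym_mul_right, ih, succ_nsmul]

theorem torTame_add {β γ : K2 K} (hβ : TorTameF F β) (hγ : TorTameF F γ) :
    TorTameF F (β + γ) := by
  intro v hg
  show tame v (β + γ) ∈ tor _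
  rw [map_add]
  exact add_mem (hβ v hg) (hγ v hg)

theorem torTame_neg {β : K2 K} (hβ : TorTameF F β) : TorTameF F (-β) := by
  intro v hg
  show tame v (-β) ∈ tor _
  rw [map_neg]
  exact neg_mem (hβ v hg)

/-- Powers. -/
theorem pts_pow {h h' ζ : Kˣ} {m n : ℕ} (hm : 0 < m) (hn : 0 < n) (hζ : ζ ^ n = 1)
    (e : h = ζ * h' ^ m) (H : Pts F h') : Pts F h := by
  obtain ⟨r, v, hg, H⟩ := H
  refine ⟨r, v, hg, fun f ht h0 => ?_⟩
  have e1 : sym f h = sym f ζ + m • sym f h' := by
    rw [e, sym_mul_right, sym_pow_right']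
  have hz : sym f ζ ∈ tor (K2 K) := by
    refine ⟨n, hn, ?_⟩
    rw [← sym_pow_right', hζ]
    simpa using sym_pow_right' f 1 0
  have h1 : TorTameF F (sym f h') := by
    intro w hgw
    show tame w (sym f h') ∈ tor _
    refine tor_of_nsmul hm ?_
    have : m • tame w (sym f h') = tame w (sym f h) - tame w (sym f ζ) := by
      rw [e1, map_add, map_nsmul]
      abel
    rw [this]
    exact sub_mem (ht w hgw) (tor_map _ hz)
  have h2 : sym f h' ∈ tor (K2 K) := H f h1 h0
  show sym f h ∈ tor (K2 K)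
  rw [e1]
  exact add_mem hz (nsmul_mem h2 m)

/-- Finite generation. -/
theorem fgt {h : Kˣ} (H : Pts F h) (A : AddSubgroup (K2 K))
    (hA : ∀ β ∈ A, TorTameF F β ∧ ∃ f : Kˣ, β = sym f h) : FGT A := by
  obtain ⟨r, v, -, H⟩ := H
  let B : Submodule ℤ (Fin r → ℤ) := AddSubgroup.toIntSubmodule
    { carrier := {b | ∃ f : Kˣ, sym f h ∈ A ∧ ∀ i, b i = (v i).ord f}
      zero_mem' := by
        refine ⟨1, ?_, fun i => by rw [(v i).ord_one]; rfl⟩
        have : sym (1 : Kˣ) h = 0 := by
          have := sym_mul_left (1 : Kˣ) 1 h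
          rw [mul_one] at this
          simpa using this
        rw [this]
        exact A.zero_mem
      add_mem' := by
        rintro a b ⟨f, hf, ha⟩ ⟨f', hf', hb⟩
        refine ⟨f * f', ?_, fun i => by rw [(v i).ord_mul, Pi.add_apply, ha, hb]⟩
        rw [sym_mul_left]
        exact A.add_mem hf hf'
      neg_mem' := by
        rintro a ⟨f, hf, ha⟩
        refine ⟨f⁻¹, ?_, fun i => by rw [(v i).ord_inv, Pi.neg_apply, ha]⟩
        have : sym f⁻¹ h = - sym f h := by
          have := sym_zpow_left f h (-1)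
          rw [zpow_neg_one] at this
          rw [this, neg_smul, one_smul]
        rw [this]
        exact A.neg_mem hf }
  have hfg : B.FG := IsNoetherian.noetherian B
  obtain ⟨s, b, hb⟩ := Submodule.fg_iff_exists_fin_generating_family.1 hfg
  have hbB : ∀ j, ∃ f : Kˣ, sym f h ∈ A ∧ ∀ i, b j i = (v i).ord f := by
    intro j
    have : b j ∈ B := by
      rw [← hb]
      exact Submodule.subset_span ⟨j, rfl⟩
    exact this
  choose f hf hfb using hbB
  refine ⟨s, fun j => sym (f j) h, hf, ?_⟩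
  intro α hα
  obtain ⟨-, f0, hf0⟩ := hA α hα
  have hmem : (fun i => (v i).ord f0) ∈ Submodule.span ℤ (Set.range b) := by
    rw [hb]
    exact ⟨f0, hf0 ▸ hα, fun i => rfl⟩
  obtain ⟨e, he⟩ := (Submodule.mem_span_range_iff_exists_fun ℤ).1 hmem
  refine ⟨e, ?_⟩
  set f' : Kˣ := f0 * ∏ j, f j ^ (-e j) with hf'
  have e1 : sym f' h = α - ∑ j, e j • sym (f j) h := by
    rw [hf', sym_mul_left, ASMM.sym_prod_left, sub_eq_add_neg, ← Finset.sum_neg_distrib, hf0]
    congr 1
    refine Finset.sum_congr rfl fun j _ => ?_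
    rw [ASMM.sym_zpow_left, neg_smul]
  have e2 : α - ∑ j, e j • sym (f j) h ∈ A :=
    A.sub_mem hα (A.sum_mem fun j _ => A.zsmul_mem (hf j) _)
  rw [← e1]
  refine H f' ?_ ?_
  · rw [e1]
    exact (hA _ e2).1
  · intro i
    have := congrFun he i
    rw [Finset.sum_apply] at this
    rw [hf', (v i).ord_mul, ord_prod, ← this, ← Finset.sum_add_distrib]
    refine Finset.sum_eq_zero fun j _ => ?_
    rw [(v i).ord_zpow, Pi.smul_apply, hfb, smul_eq_mul]
    ring

end

/-- The theorem, allowing roots of unity times powers. -/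
theorem pts (hASM : SpecASM) (hFNV : SpecFNV) (F K : Type) [Field F] [CharZero F] [Field K]
    [Algebra F K] (φ : F →+* ℂ) (h : Kˣ) (hφ : ∀ x, φ x ∈ Qab)
    (hF : (∀ x : F, ∃ q : ℚ, x = q) ∨ ∀ n : ℕ, 0 < n → ∃ ζ : F, IsPrimitiveRoot ζ n)
    (hh : Transcendental F (h : K)) (hfin : FiniteDimensional F⟮(h : K)⟯ K)
    (hc : ∀ z : K, IsAlgebraic F z → ∃ c : F, z = algebraMap F K c)
    (hprim : ∀ (m : ℕ) (c : F) (v : K), 2 ≤ m → (h : K) = algebraMap F K c * v ^ m →
      ∃ (ζ d : F) (n : ℕ), 0 < n ∧ ζ ^ n = 1 ∧ c = ζ * d ^ m) : Pts F h := by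
  classical
  obtain ⟨w, hgw, hw⟩ := (hFNV F K (h : K) hfin h hh).2
  -- the exponents `m` with `h = ζ v ^ m`
  let P : ℕ → Prop := fun m => ∃ (ζ v : Kˣ) (n : ℕ), 0 < n ∧ ζ ^ n = 1 ∧ h = ζ * v ^ m
  have hP1 : P 1 := ⟨1, h, 1, one_pos, one_pow _, by simp⟩
  have hbd : ∀ m, P m → m ≤ (w.ord h).toNat := by
    rintro m ⟨ζ, v, n, hn, hζ, e⟩
    have hζ0 : w.ord ζ = 0 := by
      have := w.ord_pow ζ n
      rw [hζ, w.ord_one] at this
      rcases mul_eq_zero.1 this.symm with h1 | h1
      · exact absurd (Nat.cast_eq_zero.1 h1) hn.ne'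
      · exact h1
    have h1 : w.ord h = m * w.ord v := by
      rw [e, w.ord_mul, hζ0, zero_add, w.ord_pow]
    have h2 : 0 < w.ord v := by
      by_contra h3
      have : (m : ℤ) * w.ord v ≤ 0 := mul_nonpos_of_nonneg_of_nonpos (by positivity) (by omega)
      omega
    have h3 : (m : ℤ) ≤ w.ord h := by
      rw [h1]
      nlinarith
    omega
  have hm := Nat.findGreatest_spec (P := P) (n := (w.ord h).toNat) (m := 1) (hbd 1 hP1) hP1
  set m := Nat.findGreatest P (w.ord h).toNat with hmdef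
  have hm0 : 0 < m := by
    have := Nat.le_findGreatest (P := P) (hbd 1 hP1) hP1
    omega
  have hmax : ∀ k, P k → k ≤ m := fun k hk => Nat.le_findGreatest (hbd k hk) hk
  obtain ⟨ζ, v, n, hn, hζ, e⟩ := hm
  refine pts_pow hm0 hn hζ e ?_
  -- facts on `v`
  have hζalg : IsAlgebraic F (ζ : K) := by
    refine ⟨X ^ n - 1, ?_, ?_⟩
    · exact (monic_X_pow_sub_C 1 hn.ne').ne_zero
    · have : ((ζ : K)) ^ n = 1 := by
        rw [← Units.val_pow_eq_pow_val, hζ, Units.val_one]
      simp [this]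
  obtain ⟨z, hz⟩ := hc _ hζalg
  have hval : (h : K) = algebraMap F K z * (v : K) ^ m := by
    rw [e, Units.val_mul, Units.val_pow_eq_pow_val, hz]
  have hvt : Transcendental F (v : K) := by
    intro h1
    apply hh
    rw [hval]
    exact (isAlgebraic_algebraMap z).mul (h1.pow m)
  have hle : F⟮(h : K)⟯ ≤ F⟮(v : K)⟯ := by
    rw [adjoin_simple_le_iff, hval]
    exact mul_mem (IntermediateField.algebraMap_mem _ z) (pow_mem (mem_adjoin_simple_self F (v : K)) m)
  have hvfin : FiniteDimensional F⟮(v : K)⟯ K := by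
    let : Algebra F⟮(h : K)⟯ F⟮(v : K)⟯ := (inclusion hle).toRingHom.toAlgebra
    have : IsScalarTower F⟮(h : K)⟯ F⟮(v : K)⟯ K := IsScalarTower.of_algebraMap_eq fun x => rfl
    exact Module.Finite.of_restrictScalars_finite F⟮(h : K)⟯ _ _
  have hz0 : z ≠ 0 := by
    rintro rfl
    rw [map_zero] at hz
    exact ζ.ne_zero hz
  have hzn : z ^ n = 1 := by
    have h1 : algebraMap F K (z ^ n) = algebraMap F K 1 := by
      rw [map_pow, ← hz, ← Units.val_pow_eq_pow_val, hζ, Units.val_one, map_one]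
    exact (algebraMap F K).injective h1
  refine hASM F K φ v hφ hF hvt hvfin hc ?_
  intro k c u hk hvu
  -- `h = z c ^ m u ^ (k m)`
  have h1 : (h : K) = algebraMap F K (z * c ^ m) * u ^ (k * m) := by
    rw [hval, hvu, map_mul, map_pow, mul_pow, ← pow_mul]
    ring
  obtain ⟨ζ', d, n', hn', hζ', e'⟩ := hprim (k * m) (z * c ^ m) u
    (le_trans hk (Nat.le_mul_of_pos_right k hm0)) h1
  have hζ'0 : ζ' ≠ 0 := by
    rintro rfl
    rw [zero_pow hn'.ne'] at hζ'
    exact zero_ne_one hζ'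
  have hu0 : algebraMap F K d * u ≠ 0 := by
    intro h2
    have h3 : (h : K) = 0 := by
      rw [h1, e', map_mul, map_pow, mul_assoc, ← mul_pow, h2, zero_pow, mul_zero]
      exact (Nat.mul_pos (by omega) hm0).ne'
    exact h.ne_zero h3
  have hPk : P (k * m) := by
    refine ⟨Units.mk0 (algebraMap F K ζ') (by simpa using hζ'0), Units.mk0 _ hu0, n', hn', ?_, ?_⟩
    · apply Units.ext
      rw [Units.val_pow_eq_pow_val, Units.val_mk0, ← map_pow, hζ', map_one, Units.val_one]
    · apply Units.ext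
      rw [Units.val_mul, Units.val_pow_eq_pow_val, Units.val_mk0, Units.val_mk0, h1, e', map_mul,
        map_pow, mul_assoc, ← mul_pow]
  have := hmax _ hPk
  nlinarith

end FINM

end MP743d1e.CY
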