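import Mathlib

/-!
# Dedekind's Prague theorem

If the coefficients of a product of two polynomials (or Laurent polynomials) over a field are integral, then all
the products of a coefficient of the first and a coefficient of the second are integral.
-/

set_option autoImplicit false

namespace MP743d1e.CY.PRGM

open scoped BigOperators

/-- Integrality is tested by the valuation subrings. -/
theorem isIntegral_iff_val {R K : Type*} [CommRing R] [Field K] [Algebra R K] (x : K) :
    IsIntegral R x ↔ ∀ V : ValuationSubring K, (∀ r : R, algebraMap R K r ∈ V) → x ∈ V := by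
  have h1 : IsIntegral R x ↔
      x ∈ (integralClosure (Subring.closure (Set.range (algebraMap R K))) K).toSubring := by
    have hcl : Subring.closure (Set.range (algebraMap R K)) = (algebraMap R K).range := by
      apply le_antisymm
      · exact Subring.closure_le.2 (by rintro _ ⟨r, rfl⟩; exact ⟨r, rfl⟩)
      · rintro _ ⟨r, rfl⟩
        exact Subring.subset_closure ⟨r, rfl⟩
    change IsIntegral R x ↔ IsIntegral (Subring.closure (Set.range (algebraMap R K))) x
    rw [hcl]
    constructor
    · rintro ⟨p, hp, hpx⟩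
      refine ⟨p.map (algebraMap R K).rangeRestrict, hp.map _, ?_⟩
      rw [Polynomial.eval₂_map]
      exact hpx
    · rintro ⟨p, hp, hpx⟩
      obtain ⟨q, hq1, hq2, hq3⟩ := Polynomial.lifts_and_natDegree_eq_and_monic
        (f := (algebraMap R K).rangeRestrict) (p := p)
        ((Polynomial.mem_lifts _).2 (Polynomial.map_surjective _
          (RingHom.rangeRestrict_surjective _) p)) hp
      refine ⟨q, hq3, ?_⟩
      have := hpx
      rw [← hq1, Polynomial.eval₂_map] at this
      exact this
  rw [h1, ← iInf_valuationSubring_superset]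
  rw [Subring.mem_iInf]
  constructor
  · intro h V hV
    exact h ⟨V, by rintro _ ⟨r, rfl⟩; exact hV r⟩
  · rintro h ⟨V, hV⟩
    exact h V fun r => hV ⟨r, rfl⟩

theorem mul_lt_aux {Γ : Type*} [LinearOrderedCommGroupWithZero Γ] {a b c d : Γ} (h1 : a < b)
    (h2 : c ≤ d) (h3 : 0 < d) : a * c < b * d :=
  lt_of_le_of_lt (mul_le_mul' le_rfl h2) (mul_lt_mul_of_pos_right h1 h3)

/-- The ultrametric core: some convolution coefficient has the size of the largest product. -/
theorem core {K Γ : Type*} [Field K] [LinearOrderedCommGroupWithZero Γ] (v : Valuation K Γ)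
    {M : Type*} [AddCommMonoid M] [LinearOrder M] [IsOrderedCancelAddMonoid M] [DecidableEq M]
    (A B : Finset M) (g h : M → K)
    (H : ∀ k, v (∑ a ∈ A, ∑ b ∈ B, if a + b = k then g a * h b else 0) ≤ 1) :
    ∀ i ∈ A, ∀ j ∈ B, v (g i * h j) ≤ 1 := by
  classical
  intro i hi j hj
  by_cases hzero : v (g i * h j) = 0
  · rw [hzero]; exact zero_le_one
  -- largest values
  obtain ⟨a1, ha1, hmax1⟩ := A.exists_max_image (fun a => v (g a)) ⟨i, hi⟩
  obtain ⟨b1, hb1, hmax2⟩ := B.exists_max_image (fun b => v (h b)) ⟨j, hj⟩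
  -- least positions of the largest values
  obtain ⟨a0, ha0, hmin1⟩ := (A.filter fun a => v (g a) = v (g a1)).exists_min_image id
    ⟨a1, Finset.mem_filter.2 ⟨ha1, rfl⟩⟩
  obtain ⟨b0, hb0, hmin2⟩ := (B.filter fun b => v (h b) = v (h b1)).exists_min_image id
    ⟨b1, Finset.mem_filter.2 ⟨hb1, rfl⟩⟩
  rw [Finset.mem_filter] at ha0 hb0
  have hga : ∀ a ∈ A, v (g a) ≤ v (g a0) := fun a ha => by rw [ha0.2]; exact hmax1 a ha
  have hhb : ∀ b ∈ B, v (h b) ≤ v (h b0) := fun b hb => by rw [hb0.2]; exact hmax2 b hb
  have hgl : ∀ a ∈ A, a < a0 → v (g a) < v (g a0) := fun a ha hlt => by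
    refine lt_of_le_of_ne (hga a ha) fun e => ?_
    exact absurd (hmin1 a (Finset.mem_filter.2 ⟨ha, by rw [e, ha0.2]⟩)) (not_le.2 hlt)
  have hhl : ∀ b ∈ B, b < b0 → v (h b) < v (h b0) := fun b hb hlt => by
    refine lt_of_le_of_ne (hhb b hb) fun e => ?_
    exact absurd (hmin2 b (Finset.mem_filter.2 ⟨hb, by rw [e, hb0.2]⟩)) (not_le.2 hlt)
  have hi0 : v (g i) ≠ 0 := fun e => hzero (by rw [map_mul, e, zero_mul])
  have hj0 : v (h j) ≠ 0 := fun e => hzero (by rw [map_mul, e, mul_zero])
  have hA0 : 0 < v (g a0) := lt_of_lt_of_le (zero_lt_iff.2 hi0) (hga i hi)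
  have hB0 : 0 < v (h b0) := lt_of_lt_of_le (zero_lt_iff.2 hj0) (hhb j hj)
  -- the value of the coefficient at `a0 + b0`
  have hval : v (∑ a ∈ A, ∑ b ∈ B, if a + b = a0 + b0 then g a * h b else 0) =
      v (g a0) * v (h b0) := by
    have hsplit : (∑ a ∈ A, ∑ b ∈ B, if a + b = a0 + b0 then g a * h b else 0) =
        g a0 * h b0 + ∑ p ∈ (A ×ˢ B).erase (a0, b0),
          if p.1 + p.2 = a0 + b0 then g p.1 * h p.2 else 0 := by
      rw [← Finset.sum_product']
      rw [← Finset.add_sum_erase (A ×ˢ B) _ (Finset.mem_product.2 ⟨ha0.1, hb0.1⟩ :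
        ((a0, b0) : M × M) ∈ A ×ˢ B)]
      simp
    have hlt : v (∑ p ∈ (A ×ˢ B).erase (a0, b0),
        if p.1 + p.2 = a0 + b0 then g p.1 * h p.2 else 0) < v (g a0 * h b0) := by
      apply Valuation.map_sum_lt v
      · rw [map_mul]; exact (mul_pos hA0 hB0).ne'
      · intro p hp
        rw [Finset.mem_erase, Finset.mem_product] at hp
        split_ifs with he
        · rw [map_mul, map_mul]
          rcases lt_trichotomy p.1 a0 with hl | hl | hl
          · exact mul_lt_aux (hgl _ hp.2.1 hl) (hhb _ hp.2.2) hB0
          · exfalso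
            apply hp.1
            rw [hl] at he
            exact Prod.ext hl (add_left_cancel he)
          · have hl2 : p.2 < b0 := by
              by_contra hcon
              have := add_lt_add_of_lt_of_le hl (not_lt.1 hcon)
              rw [he] at this
              exact lt_irrefl _ this
            rw [mul_comm (v (g p.1)), mul_comm (v (g a0))]
            exact mul_lt_aux (hhl _ hp.2.2 hl2) (hga _ hp.2.1) hA0
        · rw [map_zero, map_mul]; exact mul_pos hA0 hB0
    rw [hsplit, Valuation.map_add_eq_of_lt_left v hlt, map_mul]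
  have hfin := H (a0 + b0)
  rw [hval] at hfin
  rw [map_mul]
  exact (mul_le_mul' (hga i hi) (hhb j hj)).trans hfin

/-- Dedekind's Prague theorem for finite sums with exponents in a linearly ordered cancellative monoid. -/
theorem prague_fun {R K : Type*} [CommRing R] [Field K] [Algebra R K]
    {M : Type*} [AddCommMonoid M] [LinearOrder M] [IsOrderedCancelAddMonoid M] [DecidableEq M]
    (A B : Finset M) (g h : M → K)
    (H : ∀ k, IsIntegral R (∑ a ∈ A, ∑ b ∈ B, if a + b = k then g a * h b else 0)) :
    ∀ i ∈ A, ∀ j ∈ B, IsIntegral R (g i * h j) := by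
  intro i hi j hj
  rw [isIntegral_iff_val]
  intro V hV
  rw [← ValuationSubring.valuation_le_one_iff]
  refine core V.valuation A B g h (fun k => ?_) i hi j hj
  rw [ValuationSubring.valuation_le_one_iff]
  exact (isIntegral_iff_val _).1 (H k) V hV

/-- Dedekind's Prague theorem for the monoid algebra of a linearly ordered cancellative monoid, for example
for Laurent polynomials. -/
theorem prague {R K : Type*} [CommRing R] [Field K] [Algebra R K]
    {M : Type*} [AddCommMonoid M] [LinearOrder M] [IsOrderedCancelAddMonoid M]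
    (g h : AddMonoidAlgebra K M) (H : ∀ k, IsIntegral R ((g * h).coeff k)) (i j : M) :
    IsIntegral R (g.coeff i * h.coeff j) := by
  classical
  by_cases hi : g.coeff i = 0
  · rw [hi, zero_mul]; exact isIntegral_zero
  by_cases hj : h.coeff j = 0
  · rw [hj, mul_zero]; exact isIntegral_zero
  refine prague_fun (R := R) g.coeff.support h.coeff.support g.coeff h.coeff (fun k => ?_) i
    (Finsupp.mem_support_iff.2 hi) j (Finsupp.mem_support_iff.2 hj)
  have := H k
  rw [AddMonoidAlgebra.coeff_mul] at this
  exact this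

/-- Dedekind's Prague theorem for Laurent polynomials. -/
theorem prague_laurent {R K : Type*} [CommRing R] [Field K] [Algebra R K]
    (g h : LaurentPolynomial K) (H : ∀ k, IsIntegral R ((g * h).coeff k)) (i j : ℤ) :
    IsIntegral R (g.coeff i * h.coeff j) := prague g h H i j

/-- Dedekind's Prague theorem for polynomials. -/
theorem prague_poly {R K : Type*} [CommRing R] [Field K] [Algebra R K]
    (g h : Polynomial K) (H : ∀ k, IsIntegral R ((g * h).coeff k)) (i j : ℕ) :
    IsIntegral R (g.coeff i * h.coeff j) := by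
  classical
  by_cases hi : g.coeff i = 0
  · rw [hi, zero_mul]; exact isIntegral_zero
  by_cases hj : h.coeff j = 0
  · rw [hj, mul_zero]; exact isIntegral_zero
  refine prague_fun (R := R) g.support h.support g.coeff h.coeff (fun k => ?_) i
    (Polynomial.mem_support_iff.2 hi) j (Polynomial.mem_support_iff.2 hj)
  have := H k
  rw [Polynomial.mul_eq_sum_sum, Polynomial.finsetSum_coeff] at this
  have h2 : ∑ a ∈ g.support, ∑ b ∈ h.support, (if a + b = k then g.coeff a * h.coeff b else 0) =
      ∑ a ∈ g.support,
        ((h.sum fun j b => (Polynomial.monomial (a + j)) (g.coeff a * b)).coeff k) := by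
    refine Finset.sum_congr rfl fun a _ => ?_
    rw [Polynomial.sum_def, Polynomial.finsetSum_coeff]
    refine Finset.sum_congr rfl fun b _ => ?_
    rw [Polynomial.coeff_monomial]
  rw [h2]
  exact this

end MP743d1e.CY.PRGM
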