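import Pool.Agent.Lib.MP_743d1e_nt.CY.FIN
import Pool.Agent.Lib.MP_743d1e_nt.CY.SpecK

section
/-!
# FINK: finitely many points and finite generation, for every nonconstant function
-/
set_option autoImplicit false

namespace MP743d1e.CY

open scoped BigOperators
open Polynomial IntermediateField MP743d1e.Integ MP743d1e.ConstM

namespace FINKM

/-- Both clauses of Theorem A for every nonconstant `h`. -/
theorem both (hASK : SpecASK) (F K : Type) [Field F] [CharZero F] [Field K] [Algebra F K]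
    (φ : F →+* ℂ) (k₀ : IntermediateField ℚ ℂ) (h : Kˣ) (hk₀ : FiniteDimensional ℚ k₀)
    (hφ : ∀ x, φ x ∈ kab k₀) (hh : Transcendental F (h : K))
    (hfin : FiniteDimensional F⟮(h : K)⟯ K)
    (hc : ∀ z : K, IsAlgebraic F z → ∃ c : F, z = algebraMap F K c) :
    Pts F h ∧ ∀ A : AddSubgroup (K2 K),
      (∀ β ∈ A, TorTameF F β ∧ ∃ f : Kˣ, β = sym f h) → FGT A := by
  have h1 : Pts F h := hASK F K φ k₀ h hk₀ hφ hh hfin hc
  exact ⟨h1, fun A hA => FINM.fgt h1 A hA⟩

/-- A number field lies in the field generated by its image and the roots of unity. -/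
theorem mem_kab_range (F : Type) [Field F] [NumberField F] (φ : F →+* ℂ) :
    FiniteDimensional ℚ (φ.toRatAlgHom.fieldRange : IntermediateField ℚ ℂ) ∧
      ∀ x, φ x ∈ kab (φ.toRatAlgHom.fieldRange) := by
  refine ⟨?_, fun x => ?_⟩
  · exact LinearMap.finiteDimensional_range φ.toRatAlgHom.toLinearMap
  · exact Subfield.subset_closure (Or.inl ⟨x, rfl⟩)

/-- Number fields as constant fields. -/
theorem numberField (hASK : SpecASK) (F K : Type) [Field F] [NumberField F] [Field K]
    [Algebra F K] (h : Kˣ) (hh : Transcendental F (h : K))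
    (hfin : FiniteDimensional F⟮(h : K)⟯ K)
    (hc : ∀ z : K, IsAlgebraic F z → ∃ c : F, z = algebraMap F K c) :
    Pts F h ∧ ∀ A : AddSubgroup (K2 K),
      (∀ β ∈ A, TorTameF F β ∧ ∃ f : Kˣ, β = sym f h) → FGT A := by
  let φ : F →+* ℂ := (IsAlgClosed.lift : F →ₐ[ℚ] ℂ).toRingHom
  obtain ⟨h1, h2⟩ := mem_kab_range F φ
  exact both hASK F K φ _ h h1 h2 hh hfin hc

end FINKM

end MP743d1e.CY
end

section
/-!
# From roots in `k ℚ^ab` for infinitely many points `α ζ_n` to a root in `ℚ̄(u)`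
-/
set_option autoImplicit false

namespace MP743d1e.CY

open scoped BigOperators
open Polynomial IntermediateField MP743d1e.Integ
open Pool.Agent.Lib.MPcb8a44

namespace LCKM

/-- an integral polynomial over another ring -/
noncomputable def mp (A : Type) [CommRing A] (g : ℤ[X][X]) : A[X][X] :=
  g.map (mapRingHom (Int.castRingHom A))

theorem evA_mp {A R : Type} [CommRing A] [CommRing R] (φ : A →+* R) (z w : R) (g : ℤ[X][X]) :
    evA φ z w (mp A g) = ev2 z w g := by
  unfold evA mp ev2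
  rw [eval₂_map]
  congr 1
  refine Polynomial.ringHom_ext (fun n => ?_) ?_
  · simp
  · simp

theorem ev2_hom {R S : Type} [CommRing R] [CommRing S] (f : R →+* S) (z w : R) (g : ℤ[X][X]) :
    f (ev2 z w g) = ev2 (f z) (f w) g := by
  unfold ev2
  rw [Polynomial.hom_eval₂]
  congr 1
  refine Polynomial.ringHom_ext (fun n => ?_) ?_
  · simp
  · simp

/-- the substitution `u ↦ β u` -/
theorem scale {A : Type} [Field A] (β : A) (hβ : β ≠ 0) :
    ∃ f : RatFunc A →+* RatFunc A, (∀ c, f (RatFunc.C c) = RatFunc.C c) ∧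
      f RatFunc.X = RatFunc.C β * RatFunc.X := by
  obtain ⟨ψ, hψ⟩ : ∃ ψ : A[X] →+* A[X], ψ = compRingHom (C β * X) := ⟨_, rfl⟩
  have hinj : Function.Injective ψ := by
    rw [injective_iff_map_eq_zero]
    intro p hp
    have h1 : (p.comp (C β * X)).comp (C β⁻¹ * X) = p := by
      rw [comp_assoc]
      have : (C β * X).comp (C β⁻¹ * X) = (X : A[X]) := by
        rw [mul_comp, C_comp, X_comp, ← mul_assoc, ← C_mul, mul_inv_cancel₀ hβ, C_1, one_mul]
      rw [this, comp_X]
    have h2 : p.comp (C β * X) = 0 := by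
      rw [hψ] at hp
      exact hp
    rw [h2, zero_comp] at h1
    exact h1.symm
  obtain ⟨φ, hφ⟩ : ∃ φ : A[X] →+* RatFunc A, φ = (algebraMap A[X] (RatFunc A)).comp ψ := ⟨_, rfl⟩
  have hφi : Function.Injective φ := by
    rw [hφ]
    exact (RatFunc.algebraMap_injective A).comp hinj
  have hnz : nonZeroDivisors A[X] ≤ (nonZeroDivisors (RatFunc A)).comap φ :=
    nonZeroDivisors_le_comap_nonZeroDivisors_of_injective φ hφi
  refine ⟨RatFunc.liftRingHom φ hnz, fun c => ?_, ?_⟩
  · rw [← RatFunc.algebraMap_C, RatFunc.liftRingHom_algebraMap, hφ, hψ]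
    simp
  · rw [← RatFunc.algebraMap_X, RatFunc.liftRingHom_algebraMap, hφ, hψ]
    simp

end LCKM

open LCKM in
theorem specLCK (hSRK : SpecSRK) (hMAN : SpecMAN) (hCOC : SpecCOC) : SpecLCK := by
  intro k _ g α hα hg hinf
  obtain ⟨d, L, e, hL⟩ := hSRK k g α hg
  obtain ⟨a, y, ha, hy⟩ := lck hMAN hCOC k (mp k g) α d L e (by
    intro N
    obtain ⟨n, ζ, θ, hn, hζ, hθ, he⟩ := hinf N
    refine ⟨n, ζ, θ, hn, hζ, hL θ ζ hθ ⟨n, by omega, hζ.pow_eq_one⟩ he, ?_⟩
    rw [evA_mp]
    exact he)
  rw [evA_mp] at hy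
  have : IsAlgClosed AA := (algebraicClosure.isAlgClosure ℚ ℂ).isAlgClosed
  have hα' : incl k α ≠ 0 := by
    rw [Ne, map_eq_zero]
    exact hα
  obtain ⟨β, hβ⟩ := IsAlgClosed.exists_pow_nat_eq (incl k α)⁻¹ ha
  have hβ0 : β ≠ 0 := by
    rintro rfl
    rw [zero_pow ha.ne'] at hβ
    exact hα' (by simpa using hβ.symm)
  obtain ⟨f, hf, hfX⟩ := scale β hβ0
  have h1 := congrArg f hy
  rw [ev2_hom, map_zero, map_mul, map_pow, hf, hfX, mul_pow, ← map_pow, hβ, ← mul_assoc, ← map_mul,
    mul_inv_cancel₀ hα', map_one, one_mul] at h1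
  exact ⟨a, f y, ha, h1⟩

end MP743d1e.CY
end

section
set_option autoImplicit false

namespace MP743d1e.CY.PRMM

open scoped BigOperators
open Polynomial IntermediateField IntermediateField.algebraAdjoinAdjoin

variable {F K : Type} [Field F] [Field K] [Algebra F K]

lemma coeff_term (a : F[X]) (c : F) {k : ℕ} (i i' : Fin k) (j : ℕ) :
    ((a.comp (C c * X ^ k)) * X ^ (i' : ℕ)).coeff (k * j + i) =
      if i = i' then a.coeff j * c ^ j else 0 := by
  have hk : 0 < k := lt_of_le_of_lt (Nat.zero_le _) i.2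
  have e : a.comp (C c * X ^ k) = expand F k (a.comp (C c * X)) := by
    rw [expand_eq_comp_X_pow, comp_assoc]
    simp
  rw [e, coeff_mul_X_pow']
  by_cases h : i = i'
  · subst h
    rw [if_pos (by omega), if_pos rfl, Nat.add_sub_cancel, coeff_expand hk,
      if_pos (dvd_mul_right k j), Nat.mul_div_cancel_left j hk, comp_C_mul_X_coeff]
  · rw [if_neg h]
    split_ifs with h1
    · rw [coeff_expand hk, if_neg]
      intro hd
      have h2 : ((k * j + (i : ℕ) - (i' : ℕ) : ℕ) : ℤ) = k * j + (i : ℕ) - (i' : ℕ) := by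
        push_cast [Nat.cast_sub h1]
        ring
      have h3 : (k : ℤ) ∣ (i : ℕ) - (i' : ℕ) := by
        have h4 : (k : ℤ) ∣ ((k * j + (i : ℕ) - (i' : ℕ) : ℕ) : ℤ) := Int.natCast_dvd_natCast.2 hd
        rw [h2] at h4
        have h5 : (k : ℤ) * j + (i : ℕ) - (i' : ℕ) = k * j + ((i : ℕ) - (i' : ℕ)) := by ring
        rw [h5] at h4
        exact (Int.dvd_add_right (dvd_mul_right _ _)).1 h4
      have h6 := i.2
      have h7 := i'.2
      have h8 : (i : ℤ) - (i' : ℕ) ≠ 0 := by
        intro h9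
        exact h (Fin.ext (by omega))
      have h9 := Int.le_of_dvd (abs_pos.2 h8) ((dvd_abs _ _).2 h3)
      have h10 : |(i : ℤ) - (i' : ℕ)| < k := by
        rw [abs_lt]
        constructor <;> omega
      omega
    · rfl

theorem li (u : K) (c : F) (k : ℕ) (hc : c ≠ 0) (hu : Transcendental F u) (h : K)
    (hh : h = algebraMap F K c * u ^ k) : LinearIndependent F⟮h⟯ fun i : Fin k => u ^ (i : ℕ) := by
  have : LinearIndependent (Algebra.adjoin F {h}) fun i : Fin k => u ^ (i : ℕ) := by
    rw [Fintype.linearIndependent_iff]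
    intro g hg
    have h0 : ∀ z ∈ Algebra.adjoin F {h}, ∃ a : F[X], aeval h a = z := by
      intro z hz
      rw [Algebra.adjoin_singleton_eq_range_aeval] at hz
      exact hz
    have h1 : ∀ i, ∃ a : F[X], aeval h a = (g i : K) := fun i => h0 _ (g i).2
    choose a ha using h1
    have h2 : aeval u (∑ i, (a i).comp (C c * X ^ k) * X ^ (i : ℕ)) = 0 := by
      rw [map_sum, ← hg]
      refine Finset.sum_congr rfl fun i _ => ?_
      rw [map_mul, aeval_comp]
      simp only [map_mul, aeval_C, map_pow, aeval_X, ← hh, ha]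
      rfl
    have h3 := (transcendental_iff.1 hu) _ h2
    intro i
    have h4 : a i = 0 := by
      ext j
      have h5 := congrArg (fun q : F[X] => q.coeff (k * j + i)) h3
      simp only [finsetSum_coeff, coeff_term, coeff_zero, Finset.sum_ite_eq, Finset.mem_univ, if_true] at h5
      rw [coeff_zero]
      exact (mul_eq_zero.1 h5).resolve_right (pow_ne_zero _ hc)
    apply Subtype.ext
    rw [← ha i, h4, map_zero]
    rfl
  exact (LinearIndependent.iff_fractionRing (Algebra.adjoin F {h}) F⟮h⟯).1 this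

theorem bound (u : K) (c : F) (k : ℕ) (hc : c ≠ 0) (hu : Transcendental F u) (h : K)
    (hh : h = algebraMap F K c * u ^ k) (hf : FiniteDimensional F⟮h⟯ K) :
    k ≤ Module.finrank F⟮h⟯ K := by
  have := (li u c k hc hu h hh).fintype_card_le_finrank
  rwa [Fintype.card_fin] at this

theorem fin_of_le {L M : IntermediateField F K} (hle : L ≤ M) (h : FiniteDimensional L K) :
    FiniteDimensional M K := by
  obtain ⟨s, hs⟩ := h.fg_top
  refine ⟨⟨s, ?_⟩⟩
  rw [eq_top_iff]
  intro x _
  have hx : x ∈ Submodule.span L (s : Set K) := by rw [hs]; trivial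
  refine Submodule.span_induction (p := fun x _ => x ∈ Submodule.span M (s : Set K)) ?_ ?_ ?_ ?_ hx
  · exact fun y hy => Submodule.subset_span hy
  · exact zero_mem _
  · exact fun y z _ _ hy hz => add_mem hy hz
  · intro l y _ hy
    exact Submodule.smul_mem _ (⟨l.1, hle l.2⟩ : M) hy

/-- The exponents `k > 0` with `h = c u ^ k`. -/
def Ex (h : K) (F : Type) [Field F] [Algebra F K] (k : ℕ) : Prop :=
  0 < k ∧ ∃ (c : F) (u : Kˣ), c ≠ 0 ∧ h = algebraMap F K c * (u : K) ^ k

lemma tr_of {h : K} (hh : Transcendental F h) {c : F} {u : K} {k : ℕ}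
    (he : h = algebraMap F K c * u ^ k) : Transcendental F u := by
  intro hu
  apply hh
  rw [he]
  exact (isAlgebraic_algebraMap c).mul (hu.pow k)

end MP743d1e.CY.PRMM

namespace MP743d1e.CY

open PRMM Polynomial IntermediateField

theorem specPRM : SpecPRM := by
  intro F K _ _ _ _ h ht hf
  obtain ⟨k, hk, hmax⟩ : ∃ k, Ex (h : K) F k ∧ ∀ m, Ex (h : K) F m → m ≤ k := by
    have hb : ∀ m, Ex (h : K) F m → m ≤ Module.finrank F⟮(h : K)⟯ K := by
      rintro m ⟨-, c, u, hc, he⟩
      exact bound (u : K) c m hc (tr_of ht he) (h : K) he hf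
    have h1 : Ex (h : K) F 1 := ⟨one_pos, 1, h, one_ne_zero, by simp⟩
    classical
    refine ⟨Nat.findGreatest (Ex (h : K) F) (Module.finrank F⟮(h : K)⟯ K), ?_, fun m hm => ?_⟩
    · exact Nat.findGreatest_spec (hb 1 h1) h1
    · exact Nat.le_findGreatest (hb m hm) hm
  obtain ⟨hk0, c, u, hc, he⟩ := hk
  have hu : Transcendental F (u : K) := tr_of ht he
  refine ⟨c, u, k, hc, hk0, he, hu, ?_, ?_⟩
  · refine fin_of_le ?_ hf
    rw [IntermediateField.adjoin_simple_le_iff, he]
    exact mul_mem (IntermediateField.algebraMap_mem _ c) (pow_mem (IntermediateField.mem_adjoin_simple_self F _) k)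
  · intro m c' v hm he'
    have hv : v ≠ 0 := by
      rintro rfl
      rw [zero_pow (by omega), mul_zero] at he'
      exact u.ne_zero he'
    have hc' : c' ≠ 0 := by
      rintro rfl
      rw [map_zero, zero_mul] at he'
      exact u.ne_zero he'
    have h1 : Ex (h : K) F (m * k) := by
      refine ⟨Nat.mul_pos (by omega) hk0, c * c' ^ k, Units.mk0 v hv,
        mul_ne_zero hc (pow_ne_zero _ hc'), ?_⟩
      rw [he, he', Units.val_mk0, map_mul, map_pow, mul_pow, ← pow_mul, mul_assoc]
    have h2 := hmax _ h1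
    have h3 : 2 * k ≤ m * k := Nat.mul_le_mul_right k hm
    omega

end MP743d1e.CY
end
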