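import Pool.Agent.Lib.MP_743d1e_nt.CY.SpecK
import Pool.Agent.Lib.MP_743d1e_nt.CY.SRU

/-!
# SRK: values of algebraic functions at `α ζ`, `ζ` a root of unity, over a number field

`k = ℚ(a)`. Over `Cyc N` the minimal polynomial of `a` is a product over one of finitely many sets `s`
of conjugates of `a`. An element `θ` of `k (Cyc N)` is `P(a)`, `P` over `Cyc N`; the coefficients of `P`
are given by Lagrange interpolation at `s`, the values `P(r)` are conjugates of `θ`.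
-/

set_option autoImplicit false

namespace MP743d1e.CY

open scoped BigOperators
open Polynomial IntermediateField
open Pool.Agent.Lib.MPcb8a44

namespace SRKM

/-! ## Algebraic numbers in `ℂ` and embeddings -/

/-- the algebraic numbers -/
noncomputable def E0 : IntermediateField ℚ ℂ := IntermediateField.adjoin ℚ {y : ℂ | IsIntegral ℚ y}

theorem mem_E0 {y : ℂ} (h : IsAlgebraic ℚ y) : y ∈ E0 :=
  IntermediateField.subset_adjoin ℚ _ h.isIntegral

theorem Cyc_alg {N : ℕ} (hN : 0 < N) {y : ℂ} (hy : y ∈ AB.Cyc N) : IsAlgebraic ℚ y := by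
  have : FiniteDimensional ℚ (AB.Cyc N) := AB.specCB.2.2.2.1 N hN
  exact (IsAlgebraic.of_finite ℚ (⟨y, hy⟩ : AB.Cyc N)).algHom (AB.Cyc N).val

theorem Cyc_le_E0 {N : ℕ} (hN : 0 < N) : AB.Cyc N ≤ E0 := fun _ hy => mem_E0 (Cyc_alg hN hy)

/-- an automorphism of `Cyc N` extends to the algebraic numbers -/
theorem exists_ext {N : ℕ} (hN : 0 < N) (σ : AB.Cyc N ≃ₐ[ℚ] AB.Cyc N) :
    ∃ φ : E0 →ₐ[ℚ] ℂ, ∀ (y : AB.Cyc N) (h : (y : ℂ) ∈ E0), φ ⟨y, h⟩ = ((σ y : AB.Cyc N) : ℂ) := by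
  obtain ⟨φ, hφ⟩ := IntermediateField.exists_algHom_adjoin_of_splits (F := ℚ) (E := ℂ) (K := ℂ)
    (S := {y : ℂ | IsIntegral ℚ y}) (fun s hs => ⟨hs, IsAlgClosed.splits _⟩)
    (L := AB.Cyc N) ((AB.Cyc N).val.comp σ.toAlgHom) (Cyc_le_E0 hN)
  refine ⟨φ, fun y h => ?_⟩
  have h1 := DFunLike.congr_fun hφ y
  exact h1

theorem φ_root (φ : E0 →ₐ[ℚ] ℂ) (y : E0) : aeval (φ y) (minpoly ℚ (y : ℂ)) = 0 := by
  have h1 : minpoly ℚ (y : ℂ) = minpoly ℚ y :=
    minpoly.algHom_eq E0.val E0.val.injective y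
  rw [h1, aeval_algHom_apply, minpoly.aeval, map_zero]

/-- all conjugates of the algebraic number `y` have absolute value at most `B` -/
def CB (y : ℂ) (B : ℝ) : Prop := ∀ w : ℂ, aeval w (minpoly ℚ y) = 0 → ‖w‖ ≤ B

theorem exists_CB {y : ℂ} (hy : IsAlgebraic ℚ y) : ∃ B : ℝ, CB y B := by
  have h0 : minpoly ℚ y ≠ 0 := minpoly.ne_zero hy.isIntegral
  have hf := (minpoly ℚ y).rootSet_finite ℂ
  obtain ⟨B, hB⟩ := (hf.image (fun w : ℂ => ‖w‖)).bddAbove
  refine ⟨B, fun w hw => hB ⟨w, ?_, rfl⟩⟩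
  rw [mem_rootSet]
  exact ⟨h0, hw⟩

theorem CB_mono {y : ℂ} {B B' : ℝ} (h : B ≤ B') (hy : CB y B) : CB y B' :=
  fun w hw => (hy w hw).trans h

theorem exists_CB_finset (Y : Finset ℂ) (hY : ∀ y ∈ Y, IsAlgebraic ℚ y) :
    ∃ B : ℝ, 0 ≤ B ∧ ∀ y ∈ Y, CB y B := by
  classical
  induction Y using Finset.induction_on with
  | empty => exact ⟨0, le_rfl, fun y hy => absurd hy (Finset.notMem_empty y)⟩
  | insert a Y _ ih =>
    obtain ⟨B, hB0, hB⟩ := ih fun y hy => hY y (Finset.mem_insert_of_mem hy)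
    obtain ⟨B', hB'⟩ := exists_CB (hY a (Finset.mem_insert_self _ _))
    refine ⟨max B B', le_max_of_le_left hB0, fun y hy => ?_⟩
    rcases Finset.mem_insert.1 hy with rfl | hy
    · exact CB_mono (le_max_right _ _) hB'
    · exact CB_mono (le_max_left _ _) (hB y hy)

theorem φ_norm {y : ℂ} {B : ℝ} (hy : CB y B) (φ : E0 →ₐ[ℚ] ℂ) (h : y ∈ E0) :
    ‖φ ⟨y, h⟩‖ ≤ B := hy _ (φ_root φ ⟨y, h⟩)

/-- bound for the conjugates of a sum of products -/
theorem conj_sum_le {N : ℕ} (hN : 0 < N) (z : AB.Cyc N) (s : Finset ℂ) (x y : ℂ → ℂ) {B C : ℝ}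
    (hB : 0 ≤ B) (hz : (z : ℂ) = ∑ r ∈ s, x r * y r)
    (hx : ∀ r ∈ s, IsAlgebraic ℚ (x r) ∧ CB (x r) B)
    (hy : ∀ r ∈ s, IsAlgebraic ℚ (y r) ∧ CB (y r) C) (σ : AB.Cyc N ≃ₐ[ℚ] AB.Cyc N) :
    ‖((σ z : AB.Cyc N) : ℂ)‖ ≤ s.card * (B * C) := by
  classical
  obtain ⟨φ, hφ⟩ := exists_ext hN σ
  have hzE : (z : ℂ) ∈ E0 := Cyc_le_E0 hN z.2
  rw [← hφ z hzE]
  set x' : ℂ → E0 := fun r => if h : x r ∈ E0 then ⟨x r, h⟩ else 0 with hx'
  set y' : ℂ → E0 := fun r => if h : y r ∈ E0 then ⟨y r, h⟩ else 0 with hy'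
  have h1 : (⟨z, hzE⟩ : E0) = ∑ r ∈ s, x' r * y' r := by
    apply Subtype.coe_injective
    have h2 : ((∑ r ∈ s, x' r * y' r : E0) : ℂ) = ∑ r ∈ s, ((x' r : E0) : ℂ) * ((y' r : E0) : ℂ) := by
      have h3 : ∀ w : E0, ((w : E0) : ℂ) = algebraMap E0 ℂ w := fun _ => rfl
      rw [h3, map_sum]
      refine Finset.sum_congr rfl fun r _ => ?_
      rw [map_mul]
      rfl
    show (z : ℂ) = ((∑ r ∈ s, x' r * y' r : E0) : ℂ)
    rw [h2, hz]
    refine Finset.sum_congr rfl fun r hr => ?_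
    rw [hx', hy']
    simp only
    rw [dif_pos (mem_E0 (hx r hr).1), dif_pos (mem_E0 (hy r hr).1)]
  rw [h1, map_sum]
  refine (norm_sum_le _ _).trans ?_
  calc ∑ r ∈ s, ‖φ (x' r * y' r)‖ ≤ ∑ _r ∈ s, B * C := by
        refine Finset.sum_le_sum fun r hr => ?_
        rw [map_mul, norm_mul]
        have h4 : ‖φ (x' r)‖ ≤ B := by
          rw [hx']
          simp only
          rw [dif_pos (mem_E0 (hx r hr).1)]
          exact φ_norm (hx r hr).2 φ _
        have h5 : ‖φ (y' r)‖ ≤ C := by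
          rw [hy']
          simp only
          rw [dif_pos (mem_E0 (hy r hr).1)]
          exact φ_norm (hy r hr).2 φ _
        exact mul_le_mul h4 h5 (norm_nonneg _) hB
    _ = s.card * (B * C) := by rw [Finset.sum_const, nsmul_eq_mul]

theorem M_le {N : ℕ} (hN : 0 < N) {B : ℝ} (z : AB.Cyc N)
    (h : ∀ σ : AB.Cyc N ≃ₐ[ℚ] AB.Cyc N, ‖((σ z : AB.Cyc N) : ℂ)‖ ≤ B) : AB.M (z : ℂ) ≤ B ^ 2 := by
  classical
  obtain ⟨-, hmf2⟩ := AB.specMF N hN
  have : FiniteDimensional ℚ (AB.Cyc N) := AB.specCB.2.2.2.1 N hN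
  have hcard : 0 < Fintype.card (AB.Cyc N ≃ₐ[ℚ] AB.Cyc N) := Fintype.card_pos
  have hcR : (0 : ℝ) < (Fintype.card (AB.Cyc N ≃ₐ[ℚ] AB.Cyc N) : ℝ) := by exact_mod_cast hcard
  rw [hmf2 z, finsum_eq_sum_of_fintype, Nat.card_eq_fintype_card, div_le_iff₀ hcR]
  calc ∑ σ : AB.Cyc N ≃ₐ[ℚ] AB.Cyc N, ‖((σ z : AB.Cyc N) : ℂ)‖ ^ 2
      ≤ ∑ _σ : AB.Cyc N ≃ₐ[ℚ] AB.Cyc N, B ^ 2 :=
        Finset.sum_le_sum fun σ _ => pow_le_pow_left₀ (norm_nonneg _) (h σ) 2
    _ = B ^ 2 * (Fintype.card (AB.Cyc N ≃ₐ[ℚ] AB.Cyc N) : ℝ) := by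
        rw [Finset.sum_const, nsmul_eq_mul, Finset.card_univ, mul_comm]

/-! ## Denominators -/

theorem exists_den {y : ℂ} (hy : IsAlgebraic ℚ y) : ∃ D : ℕ, 0 < D ∧ IsIntegral ℤ ((D : ℂ) * y) := by
  have h1 : IsAlgebraic ℤ y := (IsFractionRing.isAlgebraic_iff ℤ ℚ ℂ).2 hy
  obtain ⟨m, hm, h2⟩ := h1.exists_integral_multiple
  refine ⟨m.natAbs, Int.natAbs_pos.2 hm, ?_⟩
  rw [zsmul_eq_mul] at h2
  rcases Int.natAbs_eq m with h | h
  · have h3 : ((m.natAbs : ℕ) : ℂ) = (m : ℂ) := by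
      rw [← Int.cast_natCast, ← h]
    rw [h3]
    exact h2
  · have h3 : ((m.natAbs : ℕ) : ℂ) = -(m : ℂ) := by
      rw [← Int.cast_natCast, ← Int.cast_neg]
      congr 1
      omega
    rw [h3, neg_mul]
    exact h2.neg

theorem exists_den_finset (Y : Finset ℂ) (hY : ∀ y ∈ Y, IsAlgebraic ℚ y) :
    ∃ D : ℕ, 0 < D ∧ ∀ y ∈ Y, IsIntegral ℤ ((D : ℂ) * y) := by
  classical
  induction Y using Finset.induction_on with
  | empty => exact ⟨1, one_pos, fun y hy => absurd hy (Finset.notMem_empty y)⟩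
  | insert a Y _ ih =>
    obtain ⟨D, hD0, hD⟩ := ih fun y hy => hY y (Finset.mem_insert_of_mem hy)
    obtain ⟨D', hD0', hD'⟩ := exists_den (hY a (Finset.mem_insert_self _ _))
    refine ⟨D * D', Nat.mul_pos hD0 hD0', fun y hy => ?_⟩
    have hn : ∀ n : ℕ, IsIntegral ℤ (n : ℂ) := fun n => by
      have := isIntegral_algebraMap (R := ℤ) (A := ℂ) (x := (n : ℤ))
      simpa using this
    push_cast
    rcases Finset.mem_insert.1 hy with rfl | hy
    · rw [mul_assoc]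
      exact (hn D).mul hD'
    · rw [mul_comm (D : ℂ) (D' : ℂ), mul_assoc]
      exact (hn D').mul (hD y hy)

/-! ## Lagrange interpolation -/

theorem alg_basis {s : Finset ℂ} (hs : ∀ x ∈ s, IsAlgebraic ℚ x) {r : ℂ} (hr : r ∈ s) (j : ℕ) :
    IsAlgebraic ℚ ((Lagrange.basis s id r).coeff j) := by
  have h1 : Lagrange.basis s id r ∈ lifts (algebraMap E0 ℂ) := by
    unfold Lagrange.basis
    refine prod_mem fun x hx => ?_
    have hx := Finset.mem_of_mem_erase hx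
    unfold Lagrange.basisDivisor
    refine (mem_lifts _).2 ⟨C ((⟨r, mem_E0 (hs r hr)⟩ - ⟨x, mem_E0 (hs x hx)⟩ : E0))⁻¹ *
      (X - C ⟨x, mem_E0 (hs x hx)⟩), ?_⟩
    rw [Polynomial.map_mul, Polynomial.map_sub, map_C, map_C, map_X, map_inv₀, map_sub]
    rfl
  rw [lifts_iff_coeff_lifts] at h1
  obtain ⟨c, hc⟩ := h1 j
  rw [← hc]
  have h2 : Algebra.IsAlgebraic ℚ E0 := by
    refine IntermediateField.isAlgebraic_adjoin fun x hx => hx
  exact (h2.isAlgebraic c).algebraMap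

/-! ## The core -/

/-- the elements of `k (Cyc N)`, `k = ℚ(a)`, are polynomials in `a` over `Cyc N` -/
theorem exists_poly {k : IntermediateField ℚ ℂ} {a : ℂ} (hk : k = ℚ⟮a⟯) (ha : IsAlgebraic ℚ a)
    {N : ℕ} {θ : ℂ} (hθ : θ ∈ k ⊔ AB.Cyc N) :
    ∃ P : (AB.Cyc N)[X], aeval a P = θ ∧ P.degree < (minpoly (AB.Cyc N) a).degree := by
  have hint : IsIntegral (AB.Cyc N) a := ha.isIntegral.tower_top
  set A' : IntermediateField ℚ ℂ :=
    ((AB.Cyc N)⟮a⟯ : IntermediateField (AB.Cyc N) ℂ).restrictScalars ℚ with hA'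
  have h1 : k ≤ A' := by
    rw [hk, IntermediateField.adjoin_simple_le_iff]
    exact IntermediateField.mem_adjoin_simple_self (AB.Cyc N) a
  have h2 : AB.Cyc N ≤ A' := by
    intro y hy
    exact ((AB.Cyc N)⟮a⟯ : IntermediateField (AB.Cyc N) ℂ).algebraMap_mem ⟨y, hy⟩
  have h3 : θ ∈ A' := (sup_le h1 h2) hθ
  have h4 : θ ∈ ((AB.Cyc N)⟮a⟯ : IntermediateField (AB.Cyc N) ℂ) := h3
  have h5 : θ ∈ ((AB.Cyc N)⟮a⟯ : IntermediateField (AB.Cyc N) ℂ).toSubalgebra := h4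
  rw [IntermediateField.adjoin_simple_toSubalgebra_of_isAlgebraic hint.isAlgebraic,
    Algebra.adjoin_singleton_eq_range_aeval] at h5
  obtain ⟨P, hP⟩ := h5
  have hP : aeval a P = θ := hP
  refine ⟨P %ₘ minpoly (AB.Cyc N) a, ?_, degree_modByMonic_lt _ (minpoly.monic hint)⟩
  rw [← aeval_modByMonic_eq_self_of_root (minpoly.aeval (AB.Cyc N) a)] at hP
  exact hP

theorem core (k : IntermediateField ℚ ℂ) [FiniteDimensional ℚ k] : ∃ (a : k) (m D : ℕ), 0 < D ∧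
    ∀ B : ℝ, ∃ L : ℕ, ∀ (N : ℕ) (θ : ℂ), 0 < N → θ ∈ k ⊔ AB.Cyc N → IsIntegral ℤ θ → CB θ B →
      ∃ z : ℕ → ℂ, (∀ j, SumRU L (z j)) ∧
        (D : ℂ) * θ = ∑ j ∈ Finset.range m, z j * (a : ℂ) ^ j := by
  classical
  obtain ⟨a, ha⟩ := @Field.exists_primitive_element ℚ k _ _ k.algebra' _ _
  have hk : k = ℚ⟮(a : ℂ)⟯ := by
    have h1 := IntermediateField.lift_adjoin_simple ℚ k a
    rw [← h1]
    have h2 := congrArg IntermediateField.lift ha
    rw [IntermediateField.lift_top] at h2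
    exact h2.symm
  have haA : IsAlgebraic ℚ (a : ℂ) := (IsAlgebraic.of_finite ℚ a).algHom k.val
  have hint : IsIntegral ℚ (a : ℂ) := haA.isIntegral
  set p0 := minpoly ℚ (a : ℂ) with hp0
  have hp00 : p0 ≠ 0 := minpoly.ne_zero hint
  set m := p0.natDegree with hm
  have hm0 : 0 < m := minpoly.natDegree_pos hint
  set R : Finset ℂ := (p0.aroots ℂ).toFinset with hR
  have hRalg : ∀ x ∈ R, IsAlgebraic ℚ x := by
    intro x hx
    rw [hR, Multiset.mem_toFinset, mem_aroots] at hx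
    exact ⟨p0, hx.1, hx.2⟩
  -- the Lagrange coefficients
  set Y : Finset ℂ := (R.powerset ×ˢ R ×ˢ Finset.range m).image
    (fun t => if t.2.1 ∈ t.1 then (Lagrange.basis t.1 id t.2.1).coeff t.2.2 else 0) with hY
  have hYalg : ∀ y ∈ Y, IsAlgebraic ℚ y := by
    intro y hy
    rw [hY, Finset.mem_image] at hy
    obtain ⟨⟨s, r, j⟩, ht, rfl⟩ := hy
    rw [Finset.mem_product, Finset.mem_powerset] at ht
    simp only
    split_ifs with h
    · exact alg_basis (fun x hx => hRalg x (ht.1 hx)) h j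
    · exact isAlgebraic_zero
  obtain ⟨D, hD0, hD⟩ := exists_den_finset Y hYalg
  have hYmem : ∀ s ⊆ R, ∀ r ∈ s, ∀ j < m, (Lagrange.basis s id r).coeff j ∈ Y := by
    intro s hs r hr j hj
    rw [hY, Finset.mem_image]
    refine ⟨(s, r, j), ?_, by simp only; rw [if_pos hr]⟩
    rw [Finset.mem_product, Finset.mem_product, Finset.mem_powerset, Finset.mem_range]
    exact ⟨hs, hs hr, hj⟩
  set Y' : Finset ℂ := Y.image (fun y => (D : ℂ) * y) with hY'
  have hDalg : IsAlgebraic ℚ (D : ℂ) := by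
    have h1 := isAlgebraic_algebraMap (R := ℚ) (A := ℂ) (D : ℚ)
    rwa [map_natCast] at h1
  have hY'alg : ∀ y ∈ Y', IsAlgebraic ℚ y := by
    intro y hy
    rw [hY', Finset.mem_image] at hy
    obtain ⟨y, hy, rfl⟩ := hy
    exact hDalg.mul (hYalg y hy)
  obtain ⟨C, hC0, hC⟩ := exists_CB_finset Y' hY'alg
  refine ⟨a, m, D, hD0, fun B => ?_⟩
  obtain ⟨L, hL⟩ := specLOX ((R.card * (max B 0 * C)) ^ 2)
  refine ⟨L, fun N θ hN hθ hθi hθB => ?_⟩
  obtain ⟨P, hPa, hPd⟩ := exists_poly hk haA hθ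
  set q := minpoly (AB.Cyc N) (a : ℂ) with hq
  have hqint : IsIntegral (AB.Cyc N) (a : ℂ) := hint.tower_top
  have hq0 : q ≠ 0 := minpoly.ne_zero hqint
  have hqirr : Irreducible q := minpoly.irreducible hqint
  set s : Finset ℂ := (q.aroots ℂ).toFinset with hs
  have hscard : s.card = q.natDegree := by
    rw [hs, Multiset.toFinset_card_of_nodup, ← natDegree_map (algebraMap (AB.Cyc N) ℂ)]
    · exact (IsAlgClosed.splits (q.map (algebraMap (AB.Cyc N) ℂ))).natDegree_eq_card_roots.symm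
    · exact (nodup_aroots_iff_of_splits hq0 (IsAlgClosed.splits _)).2 hqirr.separable
  have hqp : q ∣ p0.map (algebraMap ℚ (AB.Cyc N)) := by
    refine minpoly.dvd _ _ ?_
    rw [aeval_map_algebraMap]
    exact minpoly.aeval ℚ (a : ℂ)
  have hsR : s ⊆ R := by
    intro r hr
    rw [hs, Multiset.mem_toFinset, mem_aroots] at hr
    rw [hR, Multiset.mem_toFinset, mem_aroots]
    refine ⟨hp00, ?_⟩
    obtain ⟨c, hc⟩ := hqp
    have h1 : aeval r (p0.map (algebraMap ℚ (AB.Cyc N))) = 0 := by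
      rw [hc, map_mul, hr.2, zero_mul]
    rwa [aeval_map_algebraMap] at h1
  have hqm : q.natDegree ≤ m := by
    rw [← hscard]
    calc s.card ≤ R.card := Finset.card_le_card hsR
      _ ≤ Multiset.card (p0.aroots ℂ) := Multiset.toFinset_card_le _
      _ ≤ (p0.map (algebraMap ℚ ℂ)).natDegree := card_roots' _
      _ = m := natDegree_map _
  -- the values at the conjugates
  set v : ℂ → ℂ := fun r => aeval r P with hv
  have hvroot : ∀ r ∈ s, aeval (v r) (minpoly ℚ θ) = 0 := by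
    intro r hr
    rw [hs, Multiset.mem_toFinset, mem_aroots] at hr
    set F : (AB.Cyc N)[X] := ((minpoly ℚ θ).map (algebraMap ℚ (AB.Cyc N))).comp P with hF
    have h1 : ∀ x : ℂ, aeval x F = aeval (aeval x P) (minpoly ℚ θ) := by
      intro x
      rw [hF, aeval_comp, aeval_map_algebraMap]
    have h2 : q ∣ F := by
      refine minpoly.dvd _ _ ?_
      rw [h1, hPa]
      exact minpoly.aeval ℚ θ
    obtain ⟨c, hc⟩ := h2
    rw [hv]
    simp only
    rw [← h1, hc, map_mul, hr.2, zero_mul]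
  have hθA : IsAlgebraic ℚ θ := by
    have h1 : IsAlgebraic ℤ θ := hθi.isAlgebraic
    exact (IsFractionRing.isAlgebraic_iff ℤ ℚ ℂ).1 h1
  have hθQ : IsIntegral ℚ θ := hθA.isIntegral
  have hvalg : ∀ r ∈ s, IsAlgebraic ℚ (v r) := fun r hr =>
    ⟨minpoly ℚ θ, minpoly.ne_zero hθQ, hvroot r hr⟩
  have hvint : ∀ r ∈ s, IsIntegral ℤ (v r) := by
    intro r hr
    have h1 := minpoly.isIntegrallyClosed_eq_field_fractions' ℚ hθi
    have h2 := hvroot r hr
    rw [h1, aeval_map_algebraMap] at h2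
    exact ⟨minpoly ℤ θ, minpoly.monic hθi, h2⟩
  have hvCB : ∀ r ∈ s, CB (v r) (max B 0) := by
    intro r hr w hw
    have h1 : minpoly ℚ (v r) = minpoly ℚ θ := by
      refine (minpoly.eq_of_irreducible_of_monic (minpoly.irreducible hθQ) (hvroot r hr)
        (minpoly.monic hθQ)).symm
    rw [h1] at hw
    exact (hθB w hw).trans (le_max_left _ _)
  -- interpolation
  have hPmap : P.map (algebraMap (AB.Cyc N) ℂ) = Lagrange.interpolate s id v := by
    refine Lagrange.eq_interpolate_of_eval_eq v (fun x _ y _ h => h) ?_ ?_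
    · rw [degree_map, hscard]
      exact hPd.trans_le degree_le_natDegree
    · intro r _
      rw [hv]
      simp only [id]
      rw [eval_map_algebraMap]
  have hcoef : ∀ j, ((P.coeff j : AB.Cyc N) : ℂ) =
      ∑ r ∈ s, v r * (Lagrange.basis s id r).coeff j := by
    intro j
    have h1 : ((P.coeff j : AB.Cyc N) : ℂ) = (P.map (algebraMap (AB.Cyc N) ℂ)).coeff j := by
      rw [coeff_map]
      rfl
    rw [h1, hPmap, Lagrange.interpolate_apply, finsetSum_coeff]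
    exact Finset.sum_congr rfl fun r _ => by rw [coeff_C_mul]
  have hzs : ∀ j < m, (((D : AB.Cyc N) * P.coeff j : AB.Cyc N) : ℂ) =
      ∑ r ∈ s, v r * ((D : ℂ) * (Lagrange.basis s id r).coeff j) := by
    intro j _
    have h1 : (((D : AB.Cyc N) * P.coeff j : AB.Cyc N) : ℂ) =
        (D : ℂ) * ((P.coeff j : AB.Cyc N) : ℂ) := by
      push_cast
      rfl
    rw [h1, hcoef, Finset.mul_sum]
    exact Finset.sum_congr rfl fun r _ => by ring
  have hmain : ∀ j < m, SumRU L (((D : AB.Cyc N) * P.coeff j : AB.Cyc N) : ℂ) := by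
    intro j hj
    refine hL N hN _ (SetLike.coe_mem _) ?_ ?_
    · rw [hzs j hj]
      exact IsIntegral.sum _ fun r hr => (hvint r hr).mul (hD _ (hYmem s hsR r hr j hj))
    · refine M_le hN _ fun σ => ?_
      refine (conj_sum_le (C := C) hN _ s v _ (le_max_right B 0) (hzs j hj)
        (fun r hr => ⟨hvalg r hr, hvCB r hr⟩) (fun r hr => ?_) σ).trans ?_
      · have h1 : (D : ℂ) * (Lagrange.basis s id r).coeff j ∈ Y' :=
          Finset.mem_image_of_mem _ (hYmem s hsR r hr j hj)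
        exact ⟨hY'alg _ h1, hC _ h1⟩
      · have h1 : (s.card : ℝ) ≤ (R.card : ℝ) := by exact_mod_cast Finset.card_le_card hsR
        exact mul_le_mul_of_nonneg_right h1 (mul_nonneg (le_max_right B 0) hC0)
  refine ⟨fun j => if j < m then (((D : AB.Cyc N) * P.coeff j : AB.Cyc N) : ℂ) else 0, ?_, ?_⟩
  · intro j
    simp only
    split_ifs with hj
    · exact hmain j hj
    · exact LOXM.ru_zero L
  · have hPn : P.natDegree < m := by
      by_cases hP0 : P = 0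
      · rw [hP0, natDegree_zero]
        exact hm0
      · exact (natDegree_lt_natDegree hP0 hPd).trans_le hqm
    have h1 : θ = ∑ j ∈ Finset.range m, ((P.coeff j : AB.Cyc N) : ℂ) * (a : ℂ) ^ j := by
      rw [← hPa, aeval_eq_sum_range' hPn]
      refine Finset.sum_congr rfl fun j _ => ?_
      rw [Algebra.smul_def]
      rfl
    conv_lhs => rw [h1]
    rw [Finset.mul_sum]
    refine Finset.sum_congr rfl fun j hj => ?_
    rw [Finset.mem_range] at hj
    simp only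
    rw [if_pos hj]
    push_cast
    rw [mul_assoc]

/-! ## From `g(α ζ, θ) = 0` to the core -/

theorem sup_mono {k : IntermediateField ℚ ℂ} {a b : ℕ} (h : AB.Cyc a ≤ AB.Cyc b) {x : ℂ}
    (hx : x ∈ k ⊔ AB.Cyc a) : x ∈ k ⊔ AB.Cyc b :=
  (sup_le_sup_left h k) hx

theorem exists_sup {k : IntermediateField ℚ ℂ} {θ : ℂ} (h : θ ∈ kab k) :
    ∃ N : ℕ, 0 < N ∧ θ ∈ k ⊔ AB.Cyc N := by
  unfold kab at h
  induction h using Subfield.closure_induction with
  | mem x hx =>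
    rcases hx with hx | ⟨n, hn, hx⟩
    · exact ⟨1, one_pos, (le_sup_left : k ≤ k ⊔ AB.Cyc 1) hx⟩
    · exact ⟨n, hn, (le_sup_right : AB.Cyc n ≤ k ⊔ AB.Cyc n) (SRUM.mem_of_pow hn hx)⟩
  | one => exact ⟨1, one_pos, one_mem _⟩
  | add x y _ _ ihx ihy =>
    obtain ⟨a, ha, hx⟩ := ihx
    obtain ⟨b, hb, hy⟩ := ihy
    exact ⟨a * b, Nat.mul_pos ha hb, add_mem (sup_mono (SRUM.mono_left ha hb) hx)
      (sup_mono (SRUM.mono_right ha hb) hy)⟩
  | neg x _ ihx =>
    obtain ⟨a, ha, hx⟩ := ihx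
    exact ⟨a, ha, neg_mem hx⟩
  | inv x _ ihx =>
    obtain ⟨a, ha, hx⟩ := ihx
    exact ⟨a, ha, inv_mem hx⟩
  | mul x y _ _ ihx ihy =>
    obtain ⟨a, ha, hx⟩ := ihx
    obtain ⟨b, hb, hy⟩ := ihy
    exact ⟨a * b, Nat.mul_pos ha hb, mul_mem (sup_mono (SRUM.mono_left ha hb) hx)
      (sup_mono (SRUM.mono_right ha hb) hy)⟩

theorem int_of_monic {p : ℂ[X]} (hp : p.Monic) (hint : ∀ i, IsIntegral ℤ (p.coeff i)) {θ : ℂ}
    (h : p.eval θ = 0) : IsIntegral ℤ θ := by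
  set A := integralClosure ℤ ℂ
  have hl : p ∈ lifts (algebraMap A ℂ) := by
    rw [lifts_iff_coeff_lifts]
    exact fun i => ⟨⟨p.coeff i, hint i⟩, rfl⟩
  obtain ⟨q, hq1, -, hq2⟩ := lifts_and_natDegree_eq_and_monic hl hp
  have h2 : IsIntegral A θ := by
    refine ⟨q, hq2, ?_⟩
    rw [← eval_map, hq1]
    exact h
  exact isIntegral_trans θ h2

theorem isIntegral_nat (n : ℕ) : IsIntegral ℤ (n : ℂ) := by
  have := isIntegral_algebraMap (R := ℤ) (A := ℂ) (x := (n : ℤ))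
  simpa using this

theorem isIntegral_int (n : ℤ) : IsIntegral ℤ (n : ℂ) := by
  have := isIntegral_algebraMap (R := ℤ) (A := ℂ) (x := n)
  simpa using this

theorem int_scale {g : ℤ[X][X]} (hg : g.Monic) {R D : ℕ} (hR : ∀ i, (g.coeff i).natDegree ≤ R)
    {z w : ℂ} (hz : IsIntegral ℤ ((D : ℂ) * z)) (h : ev2 z w g = 0) :
    IsIntegral ℤ ((D : ℂ) ^ R * w) := by
  set f : ℤ[X] →+* ℂ := eval₂RingHom (Int.castRingHom ℂ) z with hf
  set p : ℂ[X] := g.map f with hp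
  have hpm : p.Monic := hg.map f
  have hpw : p.eval w = 0 := by
    rw [hp, eval_map]
    exact h
  have hcoef : ∀ i, IsIntegral ℤ ((D : ℂ) ^ R * p.coeff i) := by
    intro i
    rw [hp, coeff_map, hf, coe_eval₂RingHom, eval₂_eq_sum_range, Finset.mul_sum]
    refine IsIntegral.sum _ fun j hj => ?_
    rw [Finset.mem_range] at hj
    have hjR : j ≤ R := by
      have := hR i
      omega
    have h1 : (D : ℂ) ^ R * ((Int.castRingHom ℂ) ((g.coeff i).coeff j) * z ^ j) =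
        (((g.coeff i).coeff j : ℤ) : ℂ) * ((D : ℂ) ^ (R - j) * ((D : ℂ) * z) ^ j) := by
      rw [mul_pow]
      have h2 : (D : ℂ) ^ R = (D : ℂ) ^ (R - j) * (D : ℂ) ^ j := by
        rw [← pow_add, Nat.sub_add_cancel hjR]
      rw [h2]
      simp only [eq_intCast]
      ring
    rw [h1]
    exact (isIntegral_int _).mul (((isIntegral_nat D).pow _).mul (hz.pow _))
  refine int_of_monic (p := p.scaleRoots ((D : ℂ) ^ R)) ((monic_scaleRoots_iff _).2 hpm) ?_ ?_
  · intro i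
    rw [coeff_scaleRoots]
    rcases lt_trichotomy i p.natDegree with hi | hi | hi
    · have h1 : p.coeff i * ((D : ℂ) ^ R) ^ (p.natDegree - i) =
          ((D : ℂ) ^ R * p.coeff i) * ((D : ℂ) ^ R) ^ (p.natDegree - i - 1) := by
        have h2 : p.natDegree - i = (p.natDegree - i - 1) + 1 := by omega
        rw [h2, pow_succ, Nat.add_sub_cancel]
        ring
      rw [h1]
      exact (hcoef i).mul (((isIntegral_nat D).pow _).pow _)
    · rw [hi, Nat.sub_self, pow_zero, mul_one]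
      rw [show p.coeff p.natDegree = 1 from hpm]
      exact isIntegral_one
    · rw [coeff_eq_zero_of_natDegree_lt hi, zero_mul]
      exact isIntegral_zero
  · have := scaleRoots_eval₂_eq_zero (p := p) (RingHom.id ℂ) (r := w) (s := (D : ℂ) ^ R) (by
      rw [eval₂_id]
      exact hpw)
    rwa [eval₂_id, RingHom.id_apply] at this

/-- the bound for the roots -/
theorem bound (g : ℤ[X][X]) (hg : g.Monic) {A : ℝ} (hA : 1 ≤ A) : ∃ C : ℝ, 0 ≤ C ∧ ∀ z w : ℂ,
    ‖z‖ ≤ A → ev2 z w g = 0 → ‖w‖ ≤ C := by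
  set B : ℝ := ∑ i ∈ Finset.range (g.natDegree + 1), ∑ j ∈ Finset.range ((g.coeff i).natDegree + 1),
    |(((g.coeff i).coeff j : ℤ) : ℝ)| * A ^ j with hB
  have hA0 : 0 ≤ A := by linarith
  have hB0 : 0 ≤ B := Finset.sum_nonneg fun i _ => Finset.sum_nonneg fun j _ =>
    mul_nonneg (abs_nonneg _) (pow_nonneg hA0 j)
  refine ⟨B + 1, by linarith, fun z w hz h => ?_⟩
  set f : ℤ[X] →+* ℂ := eval₂RingHom (Int.castRingHom ℂ) z with hf
  have hcoef : ∀ c : ℤ[X], ‖f c‖ ≤ ∑ j ∈ Finset.range (c.natDegree + 1),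
      |((c.coeff j : ℤ) : ℝ)| * A ^ j := by
    intro c
    rw [hf, coe_eval₂RingHom, eval₂_eq_sum_range]
    refine (norm_sum_le _ _).trans (Finset.sum_le_sum fun j _ => ?_)
    rw [norm_mul, norm_pow]
    refine mul_le_mul ?_ (pow_le_pow_left₀ (norm_nonneg _) hz j) (by positivity) (abs_nonneg _)
    simp
  have hmon : (g.map f).Monic := hg.map f
  have hroot : (g.map f).IsRoot w := by
    rw [IsRoot, eval_map]
    exact h
  have h1 := hroot.norm_lt_cauchyBound hmon.ne_zero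
  have h2 : ((g.map f).cauchyBound : ℝ) ≤ B + 1 := by
    rw [cauchyBound, hmon.leadingCoeff]
    push_cast
    refine add_le_add ?_ le_rfl
    rw [norm_one, div_one]
    have h3 : Finset.sup (Finset.range (g.map f).natDegree) (‖(g.map f).coeff ·‖₊) ≤
        ⟨B, hB0⟩ := by
      refine Finset.sup_le fun i hi => ?_
      rw [← NNReal.coe_le_coe]
      change ‖(g.map f).coeff i‖ ≤ B
      rw [coeff_map]
      refine (hcoef _).trans ?_
      have hi' : i ∈ Finset.range (g.natDegree + 1) := by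
        rw [Finset.mem_range] at hi ⊢
        have := natDegree_map_le (f := f) (p := g)
        omega
      exact Finset.single_le_sum (f := fun i => ∑ j ∈ Finset.range ((g.coeff i).natDegree + 1),
        |(((g.coeff i).coeff j : ℤ) : ℝ)| * A ^ j)
        (fun i _ => Finset.sum_nonneg fun j _ => mul_nonneg (abs_nonneg _) (pow_nonneg hA0 j)) hi'
    exact_mod_cast h3
  exact (NNReal.coe_le_coe.2 h1.le).trans h2

/-- every conjugate is a value of an embedding -/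
theorem exists_emb {y : ℂ} (hy : y ∈ E0) {w : ℂ} (hw : aeval w (minpoly ℚ y) = 0) :
    ∃ φ : E0 →ₐ[ℚ] ℂ, φ ⟨y, hy⟩ = w := by
  have halg : Algebra.IsAlgebraic ℚ E0 := IntermediateField.isAlgebraic_adjoin fun x hx => hx
  have h1 := Algebra.IsAlgebraic.range_eval_eq_rootSet_minpoly (F := ℚ) (K := E0) ℂ ⟨y, hy⟩
  have h2 : minpoly ℚ (⟨y, hy⟩ : E0) = minpoly ℚ y :=
    (minpoly.algHom_eq E0.val E0.val.injective (⟨y, hy⟩ : E0)).symm
  have h3 : w ∈ (minpoly ℚ (⟨y, hy⟩ : E0)).rootSet ℂ := by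
    rw [h2, mem_rootSet]
    refine ⟨minpoly.ne_zero ?_, hw⟩
    exact (((halg.isAlgebraic (⟨y, hy⟩ : E0)).algHom E0.val)).isIntegral
  rw [← h1] at h3
  obtain ⟨φ, hφ⟩ := h3
  exact ⟨φ, hφ⟩

/-! ## Short combinations -/

/-- list form of `ShortK` -/
def ShL (k : IntermediateField ℚ ℂ) (d : ℕ) (e : Fin d → k) (L : ℕ) (θ : ℂ) : Prop :=
  ∃ l : List (Fin d × ℂ), l.length ≤ L ∧ (∀ x ∈ l, ∃ n : ℕ, 0 < n ∧ x.2 ^ n = 1) ∧
    θ = (l.map fun x => (e x.1 : ℂ) * x.2).sum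

theorem ShL.shortK {k : IntermediateField ℚ ℂ} {d : ℕ} {e : Fin d → k} {L : ℕ} {θ : ℂ}
    (h : ShL k d e L θ) : LCKM.ShortK k d e L θ := by
  obtain ⟨l, hl, hr, hθ⟩ := h
  refine ⟨l.length, hl, fun i => (l[i.1]).1, fun i => (l[i.1]).2, ?_, ?_⟩
  · intro i
    exact hr _ (List.getElem_mem _)
  · rw [hθ, ← Fin.sum_univ_fun_getElem]

theorem ShL_zero (k : IntermediateField ℚ ℂ) (d : ℕ) (e : Fin d → k) (L : ℕ) : ShL k d e L 0 :=
  ⟨[], by simp, by simp, by simp⟩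

theorem ShL_add {k : IntermediateField ℚ ℂ} {d : ℕ} {e : Fin d → k} {L L' : ℕ} {x y : ℂ}
    (hx : ShL k d e L x) (hy : ShL k d e L' y) : ShL k d e (L + L') (x + y) := by
  obtain ⟨l, h1, h2, h3⟩ := hx
  obtain ⟨l', k1, k2, k3⟩ := hy
  refine ⟨l ++ l', ?_, ?_, ?_⟩
  · rw [List.length_append]
    exact add_le_add h1 k1
  · intro x hx
    rcases List.mem_append.1 hx with hx | hx
    · exact h2 x hx
    · exact k2 x hx
  · rw [List.map_append, List.sum_append, h3, k3]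

theorem ShL_single {k : IntermediateField ℚ ℂ} {d : ℕ} (e : Fin d → k) {L : ℕ} {z : ℂ} (j : Fin d)
    (hz : SumRU L z) : ShL k d e L ((e j : ℂ) * z) := by
  obtain ⟨s, h1, h2, h3⟩ := hz
  refine ⟨s.toList.map fun w => (j, w), ?_, ?_, ?_⟩
  · rw [List.length_map, Multiset.length_toList]
    exact h1
  · intro x hx
    rw [List.mem_map] at hx
    obtain ⟨w, hw, rfl⟩ := hx
    exact h2 w (Multiset.mem_toList.1 hw)
  · rw [List.map_map, ← h3, ← Multiset.sum_toList]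
    have h4 : ∀ l : List ℂ, (e j : ℂ) * l.sum =
        (List.map ((fun x : Fin d × ℂ => (e x.1 : ℂ) * x.2) ∘ fun w => (j, w)) l).sum := by
      intro l
      induction l with
      | nil => simp
      | cons b l ih =>
        rw [List.sum_cons, List.map_cons, List.sum_cons, mul_add, ih]
        rfl
    exact h4 _

theorem ShL_sum {k : IntermediateField ℚ ℂ} {d : ℕ} (e : Fin d → k) {L : ℕ} (z : Fin d → ℂ)
    (hz : ∀ j, SumRU L (z j)) (S : Finset (Fin d)) :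
    ShL k d e (S.card * L) (∑ j ∈ S, (e j : ℂ) * z j) := by
  classical
  induction S using Finset.induction_on with
  | empty => simpa using ShL_zero k d e 0
  | insert a S ha ih =>
    rw [Finset.sum_insert ha, Finset.card_insert_of_notMem ha, Nat.succ_mul, Nat.add_comm]
    exact ShL_add (ShL_single e a (hz a)) ih

end SRKM

open SRKM in
theorem specSRK : SpecSRK := by
  intro k _ g α hg
  obtain ⟨a, m, D, hD0, hcore⟩ := core k
  have hαA : IsAlgebraic ℚ (α : ℂ) := (IsAlgebraic.of_finite ℚ α).algHom k.val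
  obtain ⟨D', hD0', hD'⟩ := exists_den hαA
  obtain ⟨A, hA⟩ := exists_CB hαA
  obtain ⟨C, hC0, hC⟩ := bound g hg (A := max A 1) (le_max_right _ _)
  obtain ⟨R, hR⟩ : ∃ R : ℕ, ∀ i, (g.coeff i).natDegree ≤ R := by
    refine ⟨∑ i ∈ Finset.range (g.natDegree + 1), (g.coeff i).natDegree, fun i => ?_⟩
    rcases le_or_gt i g.natDegree with hi | hi
    · exact Finset.single_le_sum (f := fun i => (g.coeff i).natDegree)
        (fun _ _ => Nat.zero_le _) (Finset.mem_range.2 (Nat.lt_succ_of_le hi))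
    · rw [coeff_eq_zero_of_natDegree_lt hi, natDegree_zero]
      exact Nat.zero_le _
  obtain ⟨L, hL⟩ := hcore ((D' : ℝ) ^ R * C)
  set q : k := (D : k) * (D' : k) ^ R with hq
  have hq0 : (D : ℂ) * (D' : ℂ) ^ R ≠ 0 := by
    have h1 : (D : ℂ) ≠ 0 := by exact_mod_cast hD0.ne'
    have h2 : (D' : ℂ) ≠ 0 := by exact_mod_cast hD0'.ne'
    exact mul_ne_zero h1 (pow_ne_zero _ h2)
  refine ⟨m, m * L, fun j => a ^ (j : ℕ) / q, fun θ ζ hθ hζ h => ?_⟩
  obtain ⟨n, hn, hζ⟩ := hζ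
  obtain ⟨N, hN, hθN⟩ := exists_sup hθ
  have hζi : IsIntegral ℤ ζ := IsIntegral.of_pow hn (by rw [hζ]; exact isIntegral_one)
  have hζA : IsAlgebraic ℚ ζ :=
    (IsFractionRing.isAlgebraic_iff ℤ ℚ ℂ).1 hζi.isAlgebraic
  -- `θ` scaled
  have hint : IsIntegral ℤ ((D' : ℂ) ^ R * θ) := by
    refine int_scale hg hR (z := (α : ℂ) * ζ) ?_ h
    rw [← mul_assoc]
    exact hD'.mul hζi
  have hDA : ∀ t : ℕ, IsAlgebraic ℚ (t : ℂ) := by
    intro t
    have h1 := isAlgebraic_algebraMap (R := ℚ) (A := ℂ) (t : ℚ)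
    rwa [map_natCast] at h1
  have hsA : IsAlgebraic ℚ ((D' : ℂ) ^ R * θ) :=
    (IsFractionRing.isAlgebraic_iff ℤ ℚ ℂ).1 hint.isAlgebraic
  have hD'0 : (D' : ℂ) ^ R ≠ 0 := right_ne_zero_of_mul hq0
  have hθA : IsAlgebraic ℚ θ := by
    have h1 : θ = ((D' : ℂ) ^ R)⁻¹ * ((D' : ℂ) ^ R * θ) := by
      rw [← mul_assoc, inv_mul_cancel₀ hD'0, one_mul]
    rw [h1]
    exact (((hDA D').pow R).inv).mul hsA
  have hCB : CB ((D' : ℂ) ^ R * θ) ((D' : ℝ) ^ R * C) := by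
    intro w hw
    obtain ⟨φ, hφ⟩ := exists_emb (mem_E0 hsA) hw
    set α' : E0 := ⟨(α : ℂ), mem_E0 hαA⟩ with hα'
    set ζ' : E0 := ⟨ζ, mem_E0 hζA⟩ with hζ'
    set θ' : E0 := ⟨θ, mem_E0 hθA⟩ with hθ'
    have h1 : (⟨(D' : ℂ) ^ R * θ, mem_E0 hsA⟩ : E0) = (D' : E0) ^ R * θ' := by
      apply Subtype.coe_injective
      show (D' : ℂ) ^ R * θ = (((D' : E0) ^ R * θ' : E0) : ℂ)
      push_cast
      rfl
    rw [h1, map_mul, map_pow, map_natCast] at hφ
    rw [← hφ, norm_mul, norm_pow, Complex.norm_natCast]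
    refine mul_le_mul_of_nonneg_left ?_ (by positivity)
    -- `g(φ α φ ζ, φ θ) = 0`
    have h2 : ev2 (α' * ζ') θ' g = 0 := by
      apply Subtype.coe_injective
      have h3 := SRUM.ev2_map (algebraMap E0 ℂ) (α' * ζ') θ' g
      change algebraMap E0 ℂ _ = algebraMap E0 ℂ 0
      rw [h3, map_zero]
      exact h
    have h4 := SRUM.ev2_map (φ : E0 →+* ℂ) (α' * ζ') θ' g
    rw [h2, map_zero] at h4
    refine hC _ _ ?_ h4.symm
    have h5 : ‖φ ζ'‖ = 1 := by
      refine Complex.norm_eq_one_of_pow_eq_one (n := n) ?_ hn.ne'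
      rw [← map_pow]
      have : ζ' ^ n = 1 := by
        apply Subtype.coe_injective
        simpa [hζ'] using hζ
      rw [this, map_one]
    have h6 : ‖φ α'‖ ≤ A := φ_norm hA φ _
    have h7 : (φ : E0 →+* ℂ) (α' * ζ') = φ α' * φ ζ' := map_mul φ α' ζ'
    rw [h7, norm_mul, h5, mul_one]
    exact h6.trans (le_max_left _ _)
  have hmem : (D' : ℂ) ^ R * θ ∈ k ⊔ AB.Cyc N :=
    mul_mem (pow_mem (IntermediateField.natCast_mem _ _) _) hθN
  obtain ⟨z, hz, hsum⟩ := hL N _ hN hmem hint hCB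
  have hθe : θ = ∑ j ∈ (Finset.univ : Finset (Fin m)),
      (((a ^ (j : ℕ) / q : k)) : ℂ) * z j := by
    have h1 : θ = ((D : ℂ) * (D' : ℂ) ^ R)⁻¹ * ((D : ℂ) * ((D' : ℂ) ^ R * θ)) := by
      rw [← mul_assoc (D : ℂ), ← mul_assoc, inv_mul_cancel₀ hq0, one_mul]
    rw [h1, hsum, Finset.mul_sum, Finset.sum_range]
    refine Finset.sum_congr rfl fun j _ => ?_
    rw [hq]
    push_cast
    field_simp
  have h1 := ShL_sum (fun j : Fin m => a ^ (j : ℕ) / q) (fun j => z j) (fun j => hz j) Finset.univ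
  rw [Finset.card_univ, Fintype.card_fin, ← hθe] at h1
  exact h1.shortK

end MP743d1e.CY
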