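import Mathlib
import Pool.Agent.Lib.MP_743d1e_nt.Basic
import Pool.Agent.Lib.MP_cb8a44_nt.AB.Spec

/-!
# Finiteness of `{K^*, h} ∩ K_2` for every curve: modules

Module `XXX` = `CY/XXX.lean`, theorem `MP743d1e.CY.specXXX : SpecXXX`, auxiliary lemmas in the
namespace `MP743d1e.CY.XXXM`.
-/

set_option autoImplicit false

namespace MP743d1e.CY

open scoped BigOperators
open Polynomial IntermediateField
open Pool.Agent.Lib.MPcb8a44

/-! ## Cyclotomic integers -/

/-- `z` is a sum of at most `L` roots of unity. -/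
def SumRU (L : ℕ) (z : ℂ) : Prop :=
  ∃ s : Multiset ℂ, Multiset.card s ≤ L ∧ (∀ w ∈ s, ∃ n : ℕ, 0 < n ∧ w ^ n = 1) ∧ s.sum = z

/-- The field generated by all the roots of unity, the maximal abelian extension of `ℚ`. -/
noncomputable def Qab : Subfield ℂ := Subfield.closure {z : ℂ | ∃ n : ℕ, 0 < n ∧ z ^ n = 1}

/-- The value of `g ∈ ℤ[t][Y]` at `(z, w)`. -/
noncomputable def ev2 {R : Type} [CommRing R] (z w : R) (g : ℤ[X][X]) : R :=
  eval₂ (eval₂RingHom (Int.castRingHom R) z) w g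

/-- `x` is a short combination, with roots of unity as coefficients, of integers of level `N` with smaller
mean squares. -/
def Step (N : ℕ) (T : ℝ) (x : ℂ) : Prop :=
  ∃ (S : Finset ℕ) (a ξ : ℕ → ℂ), x = ∑ i ∈ S, a i * ξ i ∧
    (∀ i ∈ S, (∃ n : ℕ, 0 < n ∧ ξ i ^ n = 1) ∧ a i ∈ AB.Cyc N ∧ IsIntegral ℤ (a i)) ∧
    (S.card : ℝ) ≤ 2 * T ∧
    ((∀ i ∈ S, AB.M (a i) ≤ AB.M x - 1 / 2) ∨ (S.card ≤ 1 ∧ ∀ i ∈ S, AB.M (a i) ≤ AB.M x))

/-- LXP. The step for a large prime. Uses the library `MP_cb8a44_nt/AB` (CB, GAL, MF, MB, INT, CAS).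

Proof. CAS: `x = ∑_{i<p} a_i ζ_p ^ i`. Subtract from all `a_i` the most frequent value `a_{i₀}` (the sum
does not change as `∑ ζ_p ^ i = 0`, and the differences `a_i - a_j` do not change). Each value now occurs at most
`p - X` times, `X` the number of nonzero `a_i`, so, as `1 ≤ M` on nonzero integers,
`2 (p - 1) M x = ∑_{i, j} M (a_i - a_j) ≥ #{(i, j) : a_i ≠ a_j} ≥ p X`, hence `X ≤ 2 M x`; and
`(p - 1) M x ≥ (p - X) ∑ M (a_i)` (pairs with one zero member). If `X ≤ 1`, `M (a_i) ≤ M x`. If `X ≥ 2` all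
`M (a_i) ≤ (p - 1) M x / (p - X) - 1 ≤ M x - 1 / 2`. -/
def SpecLXP : Prop := ∀ (p N : ℕ) (T : ℝ), p.Prime → 0 < N → ¬ p ∣ N → 2 * T + 4 * T ^ 2 + 2 < p →
  ∀ x ∈ AB.Cyc (N * p), IsIntegral ℤ x → AB.M x ≤ T → Step N T x

/-- LXQ. The step for a square factor. Uses the library `MP_cb8a44_nt/AB` (CB, GAL, MB, INT, GR).

Proof. SpecGR with `c = k - 1`, `Q = p`: `x = ∑_g Y g`, `Y g = a_g ζ ^ g`, `a_g ∈ Cyc (N0 p ^ (k - 1))`
integral, `M x = ∑ M (Y g)`, `M (a ζ ^ g) = M a`. The number of nonzero `Y g` is at most `M x` (MB). If it is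
at least two, all `M (a_g) ≤ M x - 1`. -/
def SpecLXQ : Prop := ∀ (p N0 k : ℕ) (T : ℝ), p.Prime → 0 < N0 → ¬ p ∣ N0 → 2 ≤ k →
  ∀ x ∈ AB.Cyc (N0 * p ^ k), IsIntegral ℤ x → AB.M x ≤ T → Step (N0 * p ^ (k - 1)) T x

/-- LOX. A cyclotomic integer with mean square `M x ≤ T` is a sum of at most `L(T)` roots of unity
(Loxton's theorem, qualitative). From LXP, LXQ and the library `MP_cb8a44_nt/AB` (CB, MB, INT).

Proof. By induction on `j : ℕ` there is `L` for all `x` with `2 * M x < j`; for `j + 1` let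
`T = (j + 1) / 2`, `p₀ = 2 T + 4 T ^ 2 + 2`, and induct on `N` with LXP, LXQ. If no step applies `N` is a
product of distinct primes `≤ p₀`, so `N ≤ p₀ !`, and for each such `N` the `x` form a finite set (MB), each
a sum of finitely many `± ζ_N ^ j` (INT). -/
def SpecLOX : Prop := ∀ T : ℝ, ∃ L : ℕ, ∀ N : ℕ, 0 < N → ∀ x ∈ AB.Cyc N, IsIntegral ℤ x →
  AB.M x ≤ T → SumRU L x

/-- SRU. From LOX: if `g` is monic in `Y`, all the `θ ∈ ℚ^ab` with `g(ζ, θ) = 0`, `ζ` a root of unity,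
are sums of at most `L` roots of unity.

Proof. `θ` and `ζ` are in `Cyc N` for some `N` (closure induction), `θ` is integral, `M θ` is the mean of the
`|σ θ| ^ 2` (MF) and `g(σ ζ, σ θ) = 0`; all `w` with `g(z, w) = 0`, `|z| = 1` have `|w| ≤ C`. -/
def SpecSRU : Prop := ∀ g : ℤ[X][X], g.Monic → ∃ L : ℕ, ∀ θ ζ : ℂ, θ ∈ Qab →
  (∃ n : ℕ, 0 < n ∧ ζ ^ n = 1) → ev2 ζ θ g = 0 → SumRU L θ

/-- MAN. Vanishing sums of at most `K` roots of unity: they can be partitioned into vanishing sums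
such that the ratios inside each of them are `P`-th roots of unity (Mann).

Proof. Induction on the number of terms; if there is no proper nonempty vanishing subsum: divide by
the first term, let `N` be the least number with `(z i / z j) ^ N = 1` for all `i, j`, `p` a prime divisor of `N`.
If `p ^ 2 ∣ N` the degree of `e(1 / N)` over `ℚ(e(p / N))` is `p`, which gives vanishing proper subsums;
if `p ∥ N` the sums `S_k` in `∑_k e(k / p) S_k = 0` are equal, and not zero, so `p ≤ K`. Hence `N ∣ P`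
with `P` the product of the primes `≤ K` (or `K !`). -/
def SpecMAN : Prop := ∀ K : ℕ, ∃ P : ℕ, 0 < P ∧ ∀ (ι : Type) [Fintype ι] [DecidableEq ι],
  Fintype.card ι ≤ K → ∀ (c : ι → ℤ) (z : ι → ℂ), (∀ i, ∃ n : ℕ, 0 < n ∧ z i ^ n = 1) →
    ∑ i, (c i : ℂ) * z i = 0 →
    ∃ b : ι → ι, (∀ i, z i ^ P = z (b i) ^ P) ∧
      ∀ j, ∑ i with b i = j, (c i : ℂ) * z i = 0

/-- COC. A cocharacter.

Proof. The vectors `m k - m (b k)` generate a subspace `Λ` of `ℚ^ι`. If `e_{i0}` is in `Λ` then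
`r e_{i0} = ∑ n_k (m k - m (b k))` with `r > 0` and integral `n_k`, so `ω i0 ^ (r P) = 1` for all the
points `ω`; contradiction for `N = r P`. Otherwise some vector orthogonal to `Λ` has positive
coordinate at `i0`. -/
def SpecCOC : Prop := ∀ (ι κ : Type) [Fintype ι] [Finite κ] (i0 : ι) (m : κ → ι → ℤ) (b : κ → κ)
  (P : ℕ), 0 < P →
  (∀ N : ℕ, ∃ ω : ι → ℂ, (∀ i, ω i ≠ 0) ∧
    (∀ k, (∏ i, ω i ^ (m k i)) ^ P = (∏ i, ω i ^ (m (b k) i)) ^ P) ∧
    ∀ n : ℕ, 0 < n → n ≤ N → ω i0 ^ n ≠ 1) →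
  ∃ v : ι → ℤ, 0 < v i0 ∧ ∀ k, ∑ i, v i * m k i = ∑ i, v i * m (b k) i

/-- The field of algebraic numbers. -/
abbrev AA : Type := algebraicClosure ℚ ℂ

/-- LCM. If for infinitely many `n` the polynomial `g(ζ_n, Y)` has a root in `ℚ^ab`, then `g(u ^ a, Y)`
has a root in `ℚ̄(u)`.

Proof from SRU, MAN, COC: `θ_n = ∑_{i < L} ω_i` (use `w = 1 + (-1)` to have exactly `L'` terms, or pass
to infinitely many `n` with the same number of terms), variables `ι = Option (Fin L)`, `ω none = ζ_n`,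
`g(X_none, ∑ X_i)` is an integral combination of monomials `k ∈ κ` with exponents `m k : ι → ℕ`.
MAN for each `n`; infinitely many `n` have the same `b`. COC gives `v`. For one such point `ω` the
substitution `X_i = ω_i (η u) ^ (v i)`, `η ^ (v none) = ω_none⁻¹`, makes all the block sums zero. -/
def SpecLCM : Prop := ∀ g : ℤ[X][X], g.Monic →
  (∀ N : ℕ, ∃ (n : ℕ) (ζ θ : ℂ), N < n ∧ IsPrimitiveRoot ζ n ∧ θ ∈ Qab ∧ ev2 ζ θ g = 0) →
  ∃ (a : ℕ) (y : RatFunc AA), 0 < a ∧ ev2 (RatFunc.X ^ a) y g = 0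

/-! ## Algebraic functions -/

/-- NRM. `ℚ̄(u)` is normal over `ℚ(u ^ a)`.

Proof. It is generated by the constants and `u`; `IntermediateField.splits_of_mem_adjoin`. -/
def SpecNRM : Prop := ∀ (a : ℕ) (ρ : RatFunc ℚ →+* RatFunc AA), 0 < a →
  ρ RatFunc.X = RatFunc.X ^ a → ∀ g : (RatFunc ℚ)[X], Irreducible g →
    (∃ y : RatFunc AA, eval₂ ρ y g = 0) → (g.map ρ).Splits

/-- CLK. A finite extension `E` of `F(t)` with constant field `F`, contained in `ℚ̄(u)`, `t = u ^ a`,
and different from `F(t)`, contains a root `v` of `t / c`.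

Proof. `ψ` maps the elements `b` of `E` that are integral over `F[t]` to polynomials in `u`. If
`ψ b = ∑ b_j u ^ j` then the derivation `u d/du` preserves `ψ(E) ∩ ℚ̄[u]`: if `q` is the minimal polynomial of
`b` over `F(t)` then `D b = - q^D(b) / q'(b)`. By interpolation (`∏_{i ≠ j} (D - i) / (j - i)`) all `b_j u ^ j`
are in `ψ(E)`. If `a ∣ j` whenever `b_j ≠ 0`, then `b_j ∈ F` and `b ∈ F[t]`. Otherwise `w = b_j u ^ j`,
`a ∤ j`, `d = gcd(a, j)`, `m = a / d ≥ 2`, `w ^ m = c₀ t ^ (j / d)` with `c₀ ∈ F`, and Bezout. -/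
def SpecCLK : Prop := ∀ (F E : Type) [Field F] [CharZero F] [Field E] [Algebra F E] (t : E),
  Transcendental F t → Algebra.IsAlgebraic F⟮t⟯ E →
  (∀ z : E, IsAlgebraic F z → ∃ c : F, z = algebraMap F E c) →
  ∀ (φ : F →+* AA) (ψ : E →+* RatFunc AA) (a : ℕ), 0 < a →
    (∀ x : F, ψ (algebraMap F E x) = RatFunc.C (φ x)) → ψ t = RatFunc.X ^ a →
    F⟮t⟯ = ⊤ ∨ ∃ (m : ℕ) (c : F) (v : E), 2 ≤ m ∧ t = algebraMap F E c * v ^ m

/-! ## Decomposition groups -/

/-- GAL. Proof. `M` normal, so `fixingSubgroup M` is normal, contained in `D`, and together with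
`fixingSubgroup K` it generates `fixingSubgroup (K ⊓ M) = ⊤`. -/
def SpecGAL : Prop := ∀ (k L : Type) [Field k] [Field L] [Algebra k L] [FiniteDimensional k L]
  [IsGalois k L] (K M : IntermediateField k L) (D : Subgroup (L ≃ₐ[k] L)), Normal k M →
    fixedField D ≤ M → K ⊓ M = ⊥ →
    ∀ σ : L ≃ₐ[k] L, ∃ η ∈ K.fixingSubgroup, ∃ δ ∈ D, σ = η * δ

/-- The valuation is trivial on the constants: a closed point of the curve over `F`. -/
def GeoF (F : Type) {K : Type} [Field F] [Field K] [Algebra F K] (v : DVal K) : Prop :=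
  ∀ c : Kˣ, (∃ r : F, (c : K) = algebraMap F K r) → v.ord c = 0

/-- The tame symbols at all closed points of the curve over `F` are torsion. -/
def TorTameF (F : Type) {K : Type} [Field F] [Field K] [Algebra F K] (β : K2 K) : Prop :=
  ∀ v : DVal K, GeoF F v → ∃ N : ℕ, 0 < N ∧ N • tame v β = 0

/-- The value of `g ∈ F[t][Y]` at `(h, y)`. -/
noncomputable def evF {F L : Type} [Field F] [Field L] [Algebra F L] (h y : L) (g : F[X][X]) : L :=
  eval₂ (aeval h : F[X] →ₐ[F] L).toRingHom y g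

/-- DEC. Two different closed points above the same closed point `h = ...` of the line. `D` is the
decomposition group of a prime above `v`.

Proof. `A = Algebra.adjoin F {h}`, `B = integralClosure A L`, `P`, `P'` primes of `B` above `v`, `w`
(a DVal is determined by its prime in `integralClosure A K`), `P' = σ⁻¹ P` or so
(`Algebra.isInvariant_of_isGalois`, `exists_smul_of_under_eq`), `D` the stabilizer of `P`; if
`σ = η δ`, then `P` and `P'` have the same intersection with `K`. If `y` is fixed by `D`, its class in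
`B / P` is fixed by all automorphisms over `A / p` (`Ideal.Quotient.stabilizerHom_surjective`,
`Ideal.Quotient.normal`), so it is the class of some `a(h)`. -/
def SpecDEC : Prop := ∀ (F K L : Type) [Field F] [CharZero F] [Field K] [Field L] [Algebra F K]
  [Algebra F L] [Algebra K L] [IsScalarTower F K L] (h : K),
  Transcendental F h → FiniteDimensional F⟮h⟯ K → FiniteDimensional F⟮h⟯ L → IsGalois F⟮h⟯ L →
  ∀ v w : DVal K, GeoF F v → GeoF F w →
    (∀ (q : F[X]) (u : Kˣ), (u : K) = aeval h q →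
      0 ≤ v.ord u ∧ 0 ≤ w.ord u ∧ (0 < v.ord u ↔ 0 < w.ord u)) →
    v.ord ≠ w.ord →
    ∃ (D : Subgroup (L ≃ₐ[F⟮h⟯] L)) (σ : L ≃ₐ[F⟮h⟯] L),
      (¬ ∃ η δ : L ≃ₐ[F⟮h⟯] L, (∀ x : K, η (algebraMap K L x) = algebraMap K L x) ∧ δ ∈ D ∧
        σ = η * δ) ∧
      ∀ y ∈ fixedField D, (∃ g : F[X][X], g.Monic ∧ evF (algebraMap K L h) y g = 0) →
        ∃ a : F[X], ∀ g : F[X][X], evF (algebraMap K L h) y g = 0 →
          ∀ u : Kˣ, (u : K) = aeval h (g.eval a) → 0 < v.ord u

/-- The map `ℤ[t] → ℚ(t)`. -/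
noncomputable def zq : ℤ[X] →+* RatFunc ℚ :=
  (algebraMap ℚ[X] (RatFunc ℚ)).comp (mapRingHom (Int.castRingHom ℚ))

/-- INT. An element integral over `ℚ[h]` has a multiple with an integral equation that is irreducible
over `ℚ(h)`. -/
def SpecINT : Prop := ∀ (L : Type) [Field L] [CharZero L] [Algebra ℚ L] (h y : L),
  Transcendental ℚ h → (∃ g : ℚ[X][X], g.Monic ∧ evF h y g = 0) →
  ∃ N : ℕ, 0 < N ∧ ∃ g : ℤ[X][X], g.Monic ∧ ev2 h ((N : L) * y) g = 0 ∧ Irreducible (g.map zq)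

/-- PUQ. For all but finitely many `n` there is exactly one closed point above each prime factor over
`F` of the `n`-th cyclotomic polynomial in `h`.

Proof from DEC, INT, LCM, NRM, CLK, GAL. Otherwise the same `D`, `σ` occur for infinitely many `n`.
`y` an integral generator of `fixedField D`, `g` its equation from INT. The values of `y` show that LCM
applies. By NRM the conjugates of `y` over `F⟮h⟯` generate a field `M` with
`ψ : M → ℚ̄(u)`, `h ↦ u ^ a`. By CLK for `K ⊓ M`, `K ⊓ M = ⊥`; contradiction to GAL. -/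
def SpecPUQ : Prop := ∀ (F K : Type) [Field F] [CharZero F] [Field K] [Algebra F K]
  (φ : F →+* ℂ) (h : K), (∀ x, φ x ∈ Qab) → Transcendental F h → FiniteDimensional F⟮h⟯ K →
  (∀ z : K, IsAlgebraic F z → ∃ c : F, z = algebraMap F K c) →
  (∀ (m : ℕ) (c : F) (v : K), 2 ≤ m → h ≠ algebraMap F K c * v ^ m) →
  ∃ N : ℕ, ∀ n : ℕ, N < n → ∀ p : F[X], Irreducible p → p ∣ cyclotomic n F →
    ∀ v w : DVal K, GeoF F v → GeoF F w →
      (∀ u : Kˣ, (u : K) = aeval h p → 0 < v.ord u ∧ 0 < w.ord u) → v = w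

/-- FNV. A nonconstant function has finitely many zeros and at least one zero.

Proof. As in `PlaceQ.lean`; a discrete valuation that is nonnegative on `F[u]` is nonnegative on the
integral closure `B` and equal to the valuation of its prime in `B`; only finitely many primes of `B`
contain `u`. -/
def SpecFNV : Prop := ∀ (F K : Type) [Field F] [CharZero F] [Field K] [Algebra F K] (x : K),
  FiniteDimensional F⟮x⟯ K → ∀ u : Kˣ, Transcendental F (u : K) →
    Set.Finite {v : DVal K | GeoF F v ∧ 0 < v.ord u} ∧ ∃ v : DVal K, GeoF F v ∧ 0 < v.ord u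

/-- TRS. The symbols `{p(h), h}`, `p` a factor of a cyclotomic polynomial, are torsion.

Proof. Over `ℚ`: `n {1 - h ^ n, h} = {1 - h ^ n, h ^ n} = 0`, and `h ^ n - 1` is the product of the
`Φ_d(h)`, `d ∣ n`. Otherwise `p = X - ζ`, `n {1 - h / ζ, h} = {1 - h / ζ, (h / ζ) ^ n} = 0`. -/
def SpecTRS : Prop := ∀ (F K : Type) [Field F] [CharZero F] [Field K] [Algebra F K],
  ((∀ x : F, ∃ q : ℚ, x = q) ∨ ∀ n : ℕ, 0 < n → ∃ ζ : F, IsPrimitiveRoot ζ n) →
  ∀ (n : ℕ) (p : F[X]), 0 < n → p.Monic → Irreducible p → p ∣ cyclotomic n F →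
    ∀ P h : Kˣ, (P : K) = aeval (h : K) p → ∃ N : ℕ, 0 < N ∧ N • sym P h = 0

/-- ASM. From PUQ, FNV, TRS.

Proof. The points: the zeros and poles of `h` and the zeros of `Φ_n(h)`, `0 < n ≤ N`. Let `f` have order zero
there. If `v(f) ≠ 0` then, by the tame symbol, the class of `h` at `v` is a root of unity of order
`n > N`, `v` is the only zero of the corresponding `p(h)`, `v(p(h)) ∣ d !`, `d = [K : F(h)]` (or use
the product of the finitely many `v(p(h))`). So some power of `f` times a product of powers of such `p(h)` has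
order zero at all points that are not poles of `h`, and at the poles its order is a constant multiple of the
order of `h`; so it, or its inverse, has no zero, and is a constant `c` (FNV). The tame symbol at a zero of `h` shows
that `c` is a root of unity. -/
def SpecASM : Prop := ∀ (F K : Type) [Field F] [CharZero F] [Field K] [Algebra F K]
  (φ : F →+* ℂ) (h : Kˣ), (∀ x, φ x ∈ Qab) →
  ((∀ x : F, ∃ q : ℚ, x = q) ∨ ∀ n : ℕ, 0 < n → ∃ ζ : F, IsPrimitiveRoot ζ n) →
  Transcendental F (h : K) → FiniteDimensional F⟮(h : K)⟯ K →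
  (∀ z : K, IsAlgebraic F z → ∃ c : F, z = algebraMap F K c) →
  (∀ (m : ℕ) (c : F) (v : K), 2 ≤ m → (h : K) ≠ algebraMap F K c * v ^ m) →
  ∃ (r : ℕ) (v : Fin r → DVal K), (∀ i, GeoF F (v i)) ∧ ∀ f : Kˣ, TorTameF F (sym f h) →
    (∀ i, (v i).ord f = 0) → ∃ N : ℕ, 0 < N ∧ N • sym f h = 0

end MP743d1e.CY
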